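import Pool.Agent.Helper34.FQ.Defs

/-!
Row MASSB: the total weights of an approximate system.
-/

namespace Pool.Agent.Helper34.FQ

open Finset Pool.Agent.Helper34.PN

theorem sys_mass_aux {E : Type} [Fintype E] {m r : ℕ} {τ : ℝ} {μ : Finset ℕ → E → ℝ}
    {f : ℕ → E → ℝ} (h : Sys m r τ μ f) (P : Finset ℕ) :
    P ⊆ range r → ∑ x, μ P x ≤ 2 ^ P.card * (1 + 2 * τ) - τ := by
  refine Finset.induction_on_max P ?_ ?_
  · intro _
    have h1 := h.one
    rw [Finset.card_empty, pow_zero]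
    linarith
  · intro p Q hQ ih hins
    have hQr : Q ⊆ range r := (Finset.subset_insert p Q).trans hins
    have hp : p < r := Finset.mem_range.mp (hins (Finset.mem_insert_self p Q))
    have hQp : Q ⊆ range p := fun x hx => Finset.mem_range.mpr (hQ x hx)
    have hpQ : p ∉ Q := fun hpq => lt_irrefl p (hQ p hpq)
    have h1 := h.rule1 Q p ∅ 0 hQp hp (Finset.empty_subset _) (Nat.zero_le _)
    have h2 := (abs_le.mp h1).2
    have e1 : ∑ x, μ (insert p Q) x * fb f ∅ x ^ 0 = ∑ x, μ (insert p Q) x := by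
      refine Finset.sum_congr rfl ?_
      intro x _
      rw [pow_zero, mul_one]
    have e2 : ∑ x, μ Q x * (fb f ∅ x ^ 0 * f p x) ≤ ∑ x, μ Q x * 2 := by
      refine Finset.sum_le_sum ?_
      intro x _
      rw [pow_zero, one_mul]
      exact mul_le_mul_of_nonneg_left (h.f2 p x) (h.mu0 Q x)
    rw [← Finset.sum_mul] at e2
    have h3 := ih hQr
    rw [Finset.card_insert_of_notMem hpQ, pow_succ]
    rw [e1] at h2
    linarith

theorem sys_mass {E : Type} [Fintype E] {m r : ℕ} {τ : ℝ} {μ : Finset ℕ → E → ℝ}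
    {f : ℕ → E → ℝ} (h : Sys m r τ μ f) (h0 : 0 ≤ τ) (hτ : τ ≤ 1 / 2) (P : Finset ℕ)
    (hP : P ⊆ range r) : ∑ x, μ P x ≤ 2 ^ (P.card + 1) := by
  have h1 := sys_mass_aux h P hP
  have h2 : (0 : ℝ) < 2 ^ P.card := by positivity
  have h3 : (2 : ℝ) ^ P.card * (1 + 2 * τ) ≤ 2 ^ P.card * 2 :=
    mul_le_mul_of_nonneg_left (by linarith) h2.le
  rw [pow_succ]
  linarith

end Pool.Agent.Helper34.FQ
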