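import Pool.Agent.Helper64.CanonRamsey

/-!
Row RAM: the finite Ramsey theorem for k-subsets and c colours.
-/

namespace Pool.Agent.Helper34.FQ

open Finset

theorem ramsey (k c n : ℕ) : ∃ N : ℕ, ∀ f : Finset ℕ → ℕ, (∀ T, f T < c) →
    ∃ Q : Finset ℕ, Q ⊆ range N ∧ Q.card = n ∧
      ∀ T T' : Finset ℕ, T ⊆ Q → T' ⊆ Q → T.card = k → T'.card = k → f T = f T' := by
  obtain ⟨N, hN⟩ := Pool.Agent.Helper64.Canon.finite_ramsey k n c
  refine ⟨N, fun f hf => ?_⟩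
  obtain ⟨Q, col, h1, h2, h3⟩ := hN (fun T => ⟨f T, hf T⟩)
  refine ⟨Q, fun x hx => Finset.mem_range.mpr (h1 x hx), h2, ?_⟩
  intro T T' hT hT' hk hk'
  have e1 := congrArg Fin.val (h3 T hT hk)
  have e2 := congrArg Fin.val (h3 T' hT' hk')
  exact e1.trans e2.symm

end Pool.Agent.Helper34.FQ
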