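import Pool.Agent.Helper34.FQ.Defs
import Pool.Agent.Helper55.PN_WTS

/-!
Row CHEB: the lower tail of a Bernoulli set by the second moment.
-/

namespace Pool.Agent.Helper34.FQ

open Finset Pool.Agent.Helper34.PN

theorem cheb_card {α : Type} [DecidableEq α] (S T : Finset α) :
    ((S ∩ T).card : ℝ) = ∑ x ∈ S, if x ∈ T then (1 : ℝ) else 0 := by
  rw [Finset.sum_ite_mem, Finset.sum_const, nsmul_eq_mul, mul_one]

theorem cheb_one {α : Type} [DecidableEq α] (U : Finset α) (p : ℝ) (x : α) (hx : x ∈ U) :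
    ∑ T ∈ U.powerset, wt U p T * (if x ∈ T then (1 : ℝ) else 0) = p := by
  have h := wt_sum_superset U {x} (Finset.singleton_subset_iff.mpr hx) p
  rw [Finset.card_singleton, pow_one, Finset.sum_filter] at h
  refine Eq.trans ?_ h
  refine Finset.sum_congr rfl ?_
  intro T _
  by_cases hxT : x ∈ T
  · rw [if_pos hxT, if_pos (Finset.singleton_subset_iff.mpr hxT), mul_one]
  · rw [if_neg hxT, if_neg (fun h' => hxT (Finset.singleton_subset_iff.mp h')), mul_zero]

theorem cheb_two {α : Type} [DecidableEq α] (U : Finset α) (p : ℝ) (x y : α) (hx : x ∈ U)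
    (hy : y ∈ U) (hxy : x ≠ y) :
    ∑ T ∈ U.powerset, wt U p T * ((if x ∈ T then (1 : ℝ) else 0)
      * (if y ∈ T then (1 : ℝ) else 0)) = p ^ 2 := by
  have hsub : ({x, y} : Finset α) ⊆ U := by
    intro z hz
    rw [Finset.mem_insert, Finset.mem_singleton] at hz
    rcases hz with rfl | rfl
    · exact hx
    · exact hy
  have h := wt_sum_superset U {x, y} hsub p
  rw [Finset.card_pair hxy, Finset.sum_filter] at h
  refine Eq.trans ?_ h
  refine Finset.sum_congr rfl ?_
  intro T _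
  by_cases hxT : x ∈ T
  · by_cases hyT : y ∈ T
    · have hs : ({x, y} : Finset α) ⊆ T := by
        intro z hz
        rw [Finset.mem_insert, Finset.mem_singleton] at hz
        rcases hz with rfl | rfl
        · exact hxT
        · exact hyT
      rw [if_pos hxT, if_pos hyT, if_pos hs, mul_one, mul_one]
    · have hs : ¬ ({x, y} : Finset α) ⊆ T := by
        intro hs
        exact hyT (hs (Finset.mem_insert_of_mem (Finset.mem_singleton_self y)))
      rw [if_neg hyT, if_neg hs, mul_zero, mul_zero]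
  · have hs : ¬ ({x, y} : Finset α) ⊆ T := by
      intro hs
      exact hxT (hs (Finset.mem_insert_self x _))
    rw [if_neg hxT, if_neg hs, zero_mul, mul_zero]

theorem cheb_mean {α : Type} [DecidableEq α] (U S : Finset α) (hS : S ⊆ U) (p : ℝ) :
    ∑ T ∈ U.powerset, wt U p T * ((S ∩ T).card : ℝ) = (S.card : ℝ) * p := by
  have h : ∀ T ∈ U.powerset, wt U p T * ((S ∩ T).card : ℝ)
      = ∑ x ∈ S, wt U p T * (if x ∈ T then (1 : ℝ) else 0) := by
    intro T _
    rw [cheb_card, Finset.mul_sum]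
  rw [Finset.sum_congr rfl h, Finset.sum_comm,
    Finset.sum_congr rfl (fun x hx => cheb_one U p x (hS hx)), Finset.sum_const, nsmul_eq_mul]

theorem cheb_second {α : Type} [DecidableEq α] (U S : Finset α) (hS : S ⊆ U) (p : ℝ) :
    ∑ T ∈ U.powerset, wt U p T * ((S ∩ T).card : ℝ) ^ 2
      = (S.card : ℝ) * p + (S.card : ℝ) * ((S.card : ℝ) - 1) * p ^ 2 := by
  have h : ∀ T ∈ U.powerset, wt U p T * ((S ∩ T).card : ℝ) ^ 2
      = ∑ x ∈ S, ∑ y ∈ S, wt U p T * ((if x ∈ T then (1 : ℝ) else 0)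
        * (if y ∈ T then (1 : ℝ) else 0)) := by
    intro T _
    rw [cheb_card, sq, Finset.sum_mul_sum, Finset.mul_sum]
    refine Finset.sum_congr rfl ?_
    intro x _
    rw [Finset.mul_sum]
  rw [Finset.sum_congr rfl h, Finset.sum_comm]
  have h2 : ∀ x ∈ S, ∑ T ∈ U.powerset, ∑ y ∈ S, wt U p T * ((if x ∈ T then (1 : ℝ) else 0)
        * (if y ∈ T then (1 : ℝ) else 0)) = p + ((S.card : ℝ) - 1) * p ^ 2 := by
    intro x hx
    rw [Finset.sum_comm, ← Finset.add_sum_erase S _ hx]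
    have e1 : ∑ T ∈ U.powerset, wt U p T * ((if x ∈ T then (1 : ℝ) else 0)
        * (if x ∈ T then (1 : ℝ) else 0)) = p := by
      have e0 : ∀ T ∈ U.powerset, wt U p T * ((if x ∈ T then (1 : ℝ) else 0)
          * (if x ∈ T then (1 : ℝ) else 0)) = wt U p T * (if x ∈ T then (1 : ℝ) else 0) := by
        intro T _
        split_ifs
        · rw [mul_one]
        · rw [mul_zero]
      rw [Finset.sum_congr rfl e0]
      exact cheb_one U p x (hS hx)
    have e2 : ∀ y ∈ S.erase x, ∑ T ∈ U.powerset, wt U p T * ((if x ∈ T then (1 : ℝ) else 0)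
        * (if y ∈ T then (1 : ℝ) else 0)) = p ^ 2 := by
      intro y hy
      rw [Finset.mem_erase] at hy
      exact cheb_two U p x y (hS hx) (hS hy.2) (fun h' => hy.1 h'.symm)
    rw [e1, Finset.sum_congr rfl e2, Finset.sum_const, nsmul_eq_mul, Finset.card_erase_of_mem hx,
      Nat.cast_sub (Finset.card_pos.mpr ⟨x, hx⟩), Nat.cast_one]
  rw [Finset.sum_congr rfl h2, Finset.sum_const, nsmul_eq_mul]
  ring

theorem wt_cheb {α : Type} [DecidableEq α] (U S : Finset α) (hS : S ⊆ U) (p : ℝ)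
    (h0 : 0 ≤ p) (h1 : p ≤ 1) (h : ℕ) (hp : 8 ≤ (S.card : ℝ) * p)
    (hh : 2 * (h : ℝ) ≤ (S.card : ℝ) * p) :
    ∑ T ∈ U.powerset.filter (fun T => (S ∩ T).card < h), wt U p T ≤ 1 / 2 := by
  have hw : ∀ T, 0 ≤ wt U p T := fun T => wt_nonneg U p h0 h1 T
  have hvar : ∑ T ∈ U.powerset, wt U p T * (((S ∩ T).card : ℝ) - (S.card : ℝ) * p) ^ 2
      = (S.card : ℝ) * p - (S.card : ℝ) * p ^ 2 := by
    have e : ∀ T ∈ U.powerset, wt U p T * (((S ∩ T).card : ℝ) - (S.card : ℝ) * p) ^ 2
        = wt U p T * ((S ∩ T).card : ℝ) ^ 2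
          - 2 * ((S.card : ℝ) * p) * (wt U p T * ((S ∩ T).card : ℝ))
          + ((S.card : ℝ) * p) ^ 2 * wt U p T := by
      intro T _
      ring
    rw [Finset.sum_congr rfl e, Finset.sum_add_distrib, Finset.sum_sub_distrib,
      ← Finset.mul_sum, ← Finset.mul_sum, cheb_mean U S hS p, cheb_second U S hS p, wt_sum]
    ring
  have hle : ∑ T ∈ U.powerset.filter (fun T => (S ∩ T).card < h),
      wt U p T * (((S.card : ℝ) * p) ^ 2 / 4)
      ≤ ∑ T ∈ U.powerset, wt U p T * (((S ∩ T).card : ℝ) - (S.card : ℝ) * p) ^ 2 := by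
    calc ∑ T ∈ U.powerset.filter (fun T => (S ∩ T).card < h),
          wt U p T * (((S.card : ℝ) * p) ^ 2 / 4)
        ≤ ∑ T ∈ U.powerset.filter (fun T => (S ∩ T).card < h),
          wt U p T * (((S ∩ T).card : ℝ) - (S.card : ℝ) * p) ^ 2 := by
          refine Finset.sum_le_sum ?_
          intro T hT
          rw [Finset.mem_filter] at hT
          refine mul_le_mul_of_nonneg_left ?_ (hw T)
          have hlt : ((S ∩ T).card : ℝ) < (h : ℝ) := by exact_mod_cast hT.2
          have hc0 : (0 : ℝ) ≤ ((S ∩ T).card : ℝ) := Nat.cast_nonneg _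
          nlinarith
      _ ≤ ∑ T ∈ U.powerset, wt U p T * (((S ∩ T).card : ℝ) - (S.card : ℝ) * p) ^ 2 := by
          refine Finset.sum_le_sum_of_subset_of_nonneg (Finset.filter_subset _ _) ?_
          intro T _ _
          exact mul_nonneg (hw T) (sq_nonneg _)
  rw [hvar, ← Finset.sum_mul] at hle
  have hsp : (0 : ℝ) ≤ (S.card : ℝ) * p ^ 2 := by positivity
  have hP0 : 0 ≤ ∑ T ∈ U.powerset.filter (fun T => (S ∩ T).card < h), wt U p T :=
    Finset.sum_nonneg (fun T _ => hw T)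
  by_contra hcon
  rw [not_le] at hcon
  have hpos : 0 < ((S.card : ℝ) * p) ^ 2 / 4 := by
    have : 0 < (S.card : ℝ) * p := by linarith
    positivity
  have h3 := mul_lt_mul_of_pos_right hcon hpos
  have h4 : 8 * ((S.card : ℝ) * p) ≤ ((S.card : ℝ) * p) ^ 2 := by
    rw [sq]
    exact mul_le_mul_of_nonneg_right hp (by linarith)
  linarith

end Pool.Agent.Helper34.FQ
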