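import Pool.Agent.Helper34.FQ.Defs
import Pool.Agent.Helper55.PN_WTS
import Pool.Agent.Helper62.FQ_CHEB

/-!
Row DSB: double sampling for Bernoulli sets.
-/

namespace Pool.Agent.Helper34.FQ

open Finset Pool.Agent.Helper34.PN

/-- the two-step weight is the weight of the union times the chance of the splitting -/
theorem ds_weight {α : Type} [DecidableEq α] (E T0 T1 : Finset α) (h0E : T0 ⊆ E)
    (h1E : T1 ⊆ E \ T0) (p : ℝ) (h1 : p ≤ 1 / 4) :
    wt E p T0 * wt (E \ T0) (p / (1 - p)) T1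
      = (1 / 2) ^ (T0 ∪ T1).card * wt E (2 * p) (T0 ∪ T1) := by
  have hd : Disjoint T0 T1 := by
    rw [Finset.disjoint_left]
    intro x hx hx1
    exact (Finset.mem_sdiff.mp (h1E hx1)).2 hx
  have hc : (T0 ∪ T1).card = T0.card + T1.card := Finset.card_union_of_disjoint hd
  have hz : (E \ T0).card = E.card - T0.card := Finset.card_sdiff_of_subset h0E
  have ht1 : T1.card ≤ (E \ T0).card := Finset.card_le_card h1E
  have ht0 : T0.card ≤ E.card := Finset.card_le_card h0E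
  obtain ⟨m, hm⟩ := Nat.exists_eq_add_of_le ht1
  have hE : E.card = T0.card + T1.card + m := by omega
  have hq : (1 : ℝ) - p ≠ 0 := by
    have : (0 : ℝ) < 1 - p := by linarith
    exact ne_of_gt this
  unfold wt
  rw [hc, hz, hE]
  have e1 : T0.card + T1.card + m - T0.card = T1.card + m := by omega
  have e2 : T1.card + m - T1.card = m := by omega
  have e3 : T0.card + T1.card + m - (T0.card + T1.card) = m := by omega
  rw [e1, e2, e3]
  have e4 : 1 - p / (1 - p) = (1 - 2 * p) / (1 - p) := by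
    rw [eq_div_iff hq, sub_mul, div_mul_cancel₀ _ hq]
    ring
  rw [e4, div_pow, div_pow, pow_add (1 - p), mul_pow, pow_add p]
  have e5 : (1 / 2 : ℝ) ^ (T0.card + T1.card) * (2 ^ (T0.card + T1.card)) = 1 := by
    rw [← mul_pow]
    norm_num
  have e6 : (1 - p) ^ T1.card * (p ^ T1.card / (1 - p) ^ T1.card) = p ^ T1.card := by
    rw [mul_div_assoc']
    exact mul_div_cancel_left₀ _ (pow_ne_zero _ hq)
  have e7 : (1 - p) ^ m * ((1 - 2 * p) ^ m / (1 - p) ^ m) = (1 - 2 * p) ^ m := by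
    rw [mul_div_assoc']
    exact mul_div_cancel_left₀ _ (pow_ne_zero _ hq)
  calc p ^ T0.card * ((1 - p) ^ T1.card * (1 - p) ^ m) *
        (p ^ T1.card / (1 - p) ^ T1.card * ((1 - 2 * p) ^ m / (1 - p) ^ m))
      = p ^ T0.card * ((1 - p) ^ T1.card * (p ^ T1.card / (1 - p) ^ T1.card)) *
        ((1 - p) ^ m * ((1 - 2 * p) ^ m / (1 - p) ^ m)) := by ring
    _ = p ^ T0.card * p ^ T1.card * (1 - 2 * p) ^ m := by rw [e6, e7]
    _ = ((1 / 2 : ℝ) ^ (T0.card + T1.card) * (2 ^ (T0.card + T1.card))) *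
        (p ^ T0.card * p ^ T1.card * (1 - 2 * p) ^ m) := by rw [e5, one_mul]
    _ = (1 / 2) ^ (T0.card + T1.card) *
        (2 ^ (T0.card + T1.card) * (p ^ T0.card * p ^ T1.card) * (1 - 2 * p) ^ m) := by ring

/-- pairs of disjoint sets are splittings of their union -/
theorem ds_pairs {α : Type} [DecidableEq α] (E : Finset α) (F : Finset α → Finset α → ℝ) :
    ∑ T0 ∈ E.powerset, ∑ T1 ∈ (E \ T0).powerset, F T0 T1
      = ∑ A ∈ E.powerset, ∑ T1 ∈ A.powerset, F (A \ T1) T1 := by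
  rw [Finset.sum_sigma', Finset.sum_sigma']
  refine Finset.sum_bij' (fun x _ => (⟨x.1 ∪ x.2, x.2⟩ : (_ : Finset α) × Finset α))
    (fun y _ => (⟨y.1 \ y.2, y.2⟩ : (_ : Finset α) × Finset α)) ?_ ?_ ?_ ?_ ?_
  · rintro ⟨T0, T1⟩ hx
    rw [Finset.mem_sigma, Finset.mem_powerset, Finset.mem_powerset] at hx
    rw [Finset.mem_sigma, Finset.mem_powerset, Finset.mem_powerset]
    exact ⟨Finset.union_subset hx.1 (hx.2.trans Finset.sdiff_subset),
      Finset.subset_union_right⟩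
  · rintro ⟨A, T1⟩ hx
    rw [Finset.mem_sigma, Finset.mem_powerset, Finset.mem_powerset] at hx
    rw [Finset.mem_sigma, Finset.mem_powerset, Finset.mem_powerset]
    refine ⟨Finset.sdiff_subset.trans hx.1, ?_⟩
    intro x hx1
    rw [Finset.mem_sdiff]
    exact ⟨hx.1 (hx.2 hx1), fun h => (Finset.mem_sdiff.mp h).2 hx1⟩
  · rintro ⟨T0, T1⟩ hx
    rw [Finset.mem_sigma, Finset.mem_powerset, Finset.mem_powerset] at hx
    have : (T0 ∪ T1) \ T1 = T0 := by
      ext x
      rw [Finset.mem_sdiff, Finset.mem_union]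
      constructor
      · rintro ⟨h | h, h2⟩
        · exact h
        · exact absurd h h2
      · intro h
        exact ⟨Or.inl h, fun h1 => (Finset.mem_sdiff.mp (hx.2 h1)).2 h⟩
    show (⟨(T0 ∪ T1) \ T1, T1⟩ : (_ : Finset α) × Finset α) = ⟨T0, T1⟩
    rw [this]
  · rintro ⟨A, T1⟩ hx
    rw [Finset.mem_sigma, Finset.mem_powerset, Finset.mem_powerset] at hx
    have : A \ T1 ∪ T1 = A := Finset.sdiff_union_of_subset hx.2
    show (⟨A \ T1 ∪ T1, T1⟩ : (_ : Finset α) × Finset α) = ⟨A, T1⟩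
    rw [this]
  · rintro ⟨T0, T1⟩ hx
    rw [Finset.mem_sigma, Finset.mem_powerset, Finset.mem_powerset] at hx
    have : (T0 ∪ T1) \ T1 = T0 := by
      ext x
      rw [Finset.mem_sdiff, Finset.mem_union]
      constructor
      · rintro ⟨h | h, h2⟩
        · exact h
        · exact absurd h h2
      · intro h
        exact ⟨Or.inl h, fun h1 => (Finset.mem_sdiff.mp (hx.2 h1)).2 h⟩
    show F T0 T1 = F ((T0 ∪ T1) \ T1) T1
    rw [this]

/-- the number of sets between `B` and `A` -/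
theorem ds_count {α : Type} [DecidableEq α] (A B : Finset α) (hB : B ⊆ A) :
    ((A.powerset.filter (fun T => B ⊆ T)).card : ℝ) * (1 / 2) ^ A.card
      = (1 / 2) ^ B.card := by
  have h := wt_sum_superset A B hB (1 / 2)
  have h2 : ∀ V ∈ A.powerset.filter (fun V => B ⊆ V), wt A (1 / 2) V = (1 / 2) ^ A.card := by
    intro V hV
    rw [Finset.mem_filter, Finset.mem_powerset] at hV
    unfold wt
    have e : (1 - 1 / 2 : ℝ) = 1 / 2 := by norm_num
    rw [e, ← pow_add, Nat.add_sub_cancel' (Finset.card_le_card hV.1)]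
  rw [Finset.sum_congr rfl h2, Finset.sum_const, nsmul_eq_mul] at h
  exact h

/-- few splittings of `A` leave many points of a member in `T` and none outside `T` -/
theorem ds_split {α : Type} [DecidableEq α] (C : Finset (Finset α)) (A : Finset α) (h : ℕ) :
    ((A.powerset.filter (fun T => ∃ S ∈ C, Disjoint S (A \ T) ∧ h ≤ (S ∩ T).card)).card : ℝ)
        * (1 / 2) ^ A.card
      ≤ (1 / 2 : ℝ) ^ h * ((C.image (fun S => S ∩ A)).card : ℝ) := by
  have hsub : A.powerset.filter (fun T => ∃ S ∈ C, Disjoint S (A \ T) ∧ h ≤ (S ∩ T).card)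
      ⊆ ((C.image (fun S => S ∩ A)).filter (fun B => h ≤ B.card)).biUnion
        (fun B => A.powerset.filter (fun T => B ⊆ T)) := by
    intro T hT
    rw [Finset.mem_filter, Finset.mem_powerset] at hT
    obtain ⟨hTA, S, hS, hd, hc⟩ := hT
    rw [Finset.mem_biUnion]
    refine ⟨S ∩ A, ?_, ?_⟩
    · rw [Finset.mem_filter]
      refine ⟨Finset.mem_image_of_mem _ hS, hc.trans (Finset.card_le_card ?_)⟩
      exact Finset.inter_subset_inter_left hTA
    · rw [Finset.mem_filter, Finset.mem_powerset]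
      refine ⟨hTA, ?_⟩
      intro x hx
      rw [Finset.mem_inter] at hx
      by_contra hn
      exact (Finset.disjoint_left.mp hd) hx.1 (Finset.mem_sdiff.mpr ⟨hx.2, hn⟩)
  have h1 : ((A.powerset.filter
      (fun T => ∃ S ∈ C, Disjoint S (A \ T) ∧ h ≤ (S ∩ T).card)).card : ℝ)
      ≤ ∑ B ∈ (C.image (fun S => S ∩ A)).filter (fun B => h ≤ B.card),
        ((A.powerset.filter (fun T => B ⊆ T)).card : ℝ) := by
    have := (Finset.card_le_card hsub).trans Finset.card_biUnion_le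
    exact_mod_cast this
  have hpos : (0 : ℝ) ≤ (1 / 2) ^ A.card := by positivity
  calc ((A.powerset.filter
        (fun T => ∃ S ∈ C, Disjoint S (A \ T) ∧ h ≤ (S ∩ T).card)).card : ℝ) * (1 / 2) ^ A.card
      ≤ (∑ B ∈ (C.image (fun S => S ∩ A)).filter (fun B => h ≤ B.card),
        ((A.powerset.filter (fun T => B ⊆ T)).card : ℝ)) * (1 / 2) ^ A.card :=
        mul_le_mul_of_nonneg_right h1 hpos
    _ = ∑ B ∈ (C.image (fun S => S ∩ A)).filter (fun B => h ≤ B.card),
        ((A.powerset.filter (fun T => B ⊆ T)).card : ℝ) * (1 / 2) ^ A.card := by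
        rw [Finset.sum_mul]
    _ ≤ ∑ B ∈ (C.image (fun S => S ∩ A)).filter (fun B => h ≤ B.card), (1 / 2 : ℝ) ^ h := by
        refine Finset.sum_le_sum ?_
        intro B hB
        rw [Finset.mem_filter, Finset.mem_image] at hB
        obtain ⟨⟨S, hS, rfl⟩, hc⟩ := hB
        rw [ds_count A (S ∩ A) Finset.inter_subset_right]
        exact pow_le_pow_of_le_one (by norm_num) (by norm_num) hc
    _ ≤ ∑ B ∈ C.image (fun S => S ∩ A), (1 / 2 : ℝ) ^ h := by
        refine Finset.sum_le_sum_of_subset_of_nonneg (Finset.filter_subset _ _) ?_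
        intro _ _ _
        positivity
    _ = (1 / 2 : ℝ) ^ h * ((C.image (fun S => S ∩ A)).card : ℝ) := by
        rw [Finset.sum_const, nsmul_eq_mul, mul_comm]

/-- for a bad first set half of the second sets are witnesses -/
theorem ds_first {α : Type} [DecidableEq α] (E : Finset α) (C : Finset (Finset α))
    (hC : ∀ S ∈ C, S ⊆ E) (p : ℝ) (h0 : 0 < p) (h1 : p ≤ 1 / 4) (h : ℕ)
    (hp : ∀ S ∈ C, 8 ≤ (S.card : ℝ) * p) (hh : ∀ S ∈ C, 2 * (h : ℝ) ≤ (S.card : ℝ) * p)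
    (T0 : Finset α) (hT0 : T0 ⊆ E) (hbad : ∃ S ∈ C, Disjoint S T0) :
    wt E p T0 ≤ 2 * ∑ T1 ∈ (E \ T0).powerset,
      (if ∃ S ∈ C, Disjoint S T0 ∧ h ≤ (S ∩ T1).card then
        (1 / 2) ^ (T0 ∪ T1).card * wt E (2 * p) (T0 ∪ T1) else 0) := by
  obtain ⟨S, hS, hd⟩ := hbad
  have hq : (0 : ℝ) < 1 - p := by linarith
  have hpq : p ≤ p / (1 - p) := by
    rw [le_div_iff₀ hq]
    nlinarith
  have hp0 : 0 ≤ p / (1 - p) := div_nonneg h0.le hq.le
  have hp1 : p / (1 - p) ≤ 1 := by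
    rw [div_le_one hq]
    linarith
  have hSU : S ⊆ E \ T0 := by
    intro x hx
    exact Finset.mem_sdiff.mpr ⟨hC S hS hx, Finset.disjoint_left.mp hd hx⟩
  have hSp : (S.card : ℝ) * p ≤ (S.card : ℝ) * (p / (1 - p)) :=
    mul_le_mul_of_nonneg_left hpq (Nat.cast_nonneg _)
  have hch := wt_cheb (E \ T0) S hSU (p / (1 - p)) hp0 hp1 h ((hp S hS).trans hSp)
    ((hh S hS).trans hSp)
  have hsum := wt_sum (E \ T0) (p / (1 - p))
  have hsplit := Finset.sum_filter_add_sum_filter_not (E \ T0).powerset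
    (fun T => (S ∩ T).card < h) (fun T => wt (E \ T0) (p / (1 - p)) T)
  have hhalf : 1 / 2 ≤ ∑ T ∈ (E \ T0).powerset.filter (fun T => ¬ (S ∩ T).card < h),
      wt (E \ T0) (p / (1 - p)) T := by linarith
  have hw0 : 0 ≤ wt E p T0 := wt_nonneg E p h0.le (by linarith) T0
  have h2 : wt E p T0 * ∑ T ∈ (E \ T0).powerset.filter (fun T => ¬ (S ∩ T).card < h),
      wt (E \ T0) (p / (1 - p)) T
      ≤ ∑ T1 ∈ (E \ T0).powerset,
      (if ∃ S ∈ C, Disjoint S T0 ∧ h ≤ (S ∩ T1).card then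
        (1 / 2) ^ (T0 ∪ T1).card * wt E (2 * p) (T0 ∪ T1) else 0) := by
    rw [Finset.mul_sum, Finset.sum_filter]
    refine Finset.sum_le_sum ?_
    intro T1 hT1
    rw [Finset.mem_powerset] at hT1
    have h2p : 0 ≤ wt E (2 * p) (T0 ∪ T1) :=
      wt_nonneg E (2 * p) (by linarith) (by linarith) _
    by_cases hc : (S ∩ T1).card < h
    · rw [if_neg (not_not.mpr hc)]
      split_ifs
      · positivity
      · exact le_refl _
    · rw [if_pos hc, if_pos ⟨S, hS, hd, not_lt.mp hc⟩, ds_weight E T0 T1 hT0 hT1 p h1]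
  have h3 : wt E p T0 * (1 / 2) ≤ wt E p T0 *
      ∑ T ∈ (E \ T0).powerset.filter (fun T => ¬ (S ∩ T).card < h),
      wt (E \ T0) (p / (1 - p)) T := mul_le_mul_of_nonneg_left hhalf hw0
  linarith

theorem double_sample {α : Type} [DecidableEq α] (E : Finset α) (C : Finset (Finset α))
    (hC : ∀ S ∈ C, S ⊆ E) (p : ℝ) (h0 : 0 < p) (h1 : p ≤ 1 / 4) (h : ℕ)
    (hp : ∀ S ∈ C, 8 ≤ (S.card : ℝ) * p) (hh : ∀ S ∈ C, 2 * (h : ℝ) ≤ (S.card : ℝ) * p) :
    ∑ T ∈ E.powerset.filter (fun T => ∃ S ∈ C, Disjoint S T), wt E p T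
      ≤ 2 * (1 / 2 : ℝ) ^ h *
        ∑ A ∈ E.powerset, wt E (2 * p) A * ((C.image (fun S => S ∩ A)).card : ℝ) := by
  have hF0 : ∀ T0 T1 : Finset α, (0 : ℝ) ≤
      (if ∃ S ∈ C, Disjoint S T0 ∧ h ≤ (S ∩ T1).card then
        (1 / 2) ^ (T0 ∪ T1).card * wt E (2 * p) (T0 ∪ T1) else 0) := by
    intro T0 T1
    have h2p : 0 ≤ wt E (2 * p) (T0 ∪ T1) :=
      wt_nonneg E (2 * p) (by linarith) (by linarith) _
    split_ifs
    · positivity
    · exact le_refl _
  calc ∑ T ∈ E.powerset.filter (fun T => ∃ S ∈ C, Disjoint S T), wt E p T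
      ≤ ∑ T0 ∈ E.powerset.filter (fun T => ∃ S ∈ C, Disjoint S T),
        2 * ∑ T1 ∈ (E \ T0).powerset,
        (if ∃ S ∈ C, Disjoint S T0 ∧ h ≤ (S ∩ T1).card then
        (1 / 2) ^ (T0 ∪ T1).card * wt E (2 * p) (T0 ∪ T1) else 0) := by
        refine Finset.sum_le_sum ?_
        intro T0 hT0
        rw [Finset.mem_filter, Finset.mem_powerset] at hT0
        exact ds_first E C hC p h0 h1 h hp hh T0 hT0.1 hT0.2
    _ ≤ ∑ T0 ∈ E.powerset,
        2 * ∑ T1 ∈ (E \ T0).powerset,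
        (if ∃ S ∈ C, Disjoint S T0 ∧ h ≤ (S ∩ T1).card then
        (1 / 2) ^ (T0 ∪ T1).card * wt E (2 * p) (T0 ∪ T1) else 0) := by
        refine Finset.sum_le_sum_of_subset_of_nonneg (Finset.filter_subset _ _) ?_
        intro T0 _ _
        exact mul_nonneg (by norm_num) (Finset.sum_nonneg (fun T1 _ => hF0 T0 T1))
    _ = 2 * ∑ A ∈ E.powerset, ∑ T1 ∈ A.powerset,
        (if ∃ S ∈ C, Disjoint S (A \ T1) ∧ h ≤ (S ∩ T1).card then
        (1 / 2) ^ ((A \ T1) ∪ T1).card * wt E (2 * p) ((A \ T1) ∪ T1) else 0) := by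
        rw [← Finset.mul_sum, ds_pairs E (fun T0 T1 =>
          (if ∃ S ∈ C, Disjoint S T0 ∧ h ≤ (S ∩ T1).card then
          (1 / 2 : ℝ) ^ (T0 ∪ T1).card * wt E (2 * p) (T0 ∪ T1) else 0))]
    _ ≤ 2 * ∑ A ∈ E.powerset, (1 / 2 : ℝ) ^ h *
        (wt E (2 * p) A * ((C.image (fun S => S ∩ A)).card : ℝ)) := by
        refine mul_le_mul_of_nonneg_left (Finset.sum_le_sum ?_) (by norm_num)
        intro A hA
        have h2p : 0 ≤ wt E (2 * p) A := wt_nonneg E (2 * p) (by linarith) (by linarith) _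
        have hA1 : ∑ T1 ∈ A.powerset,
            (if ∃ S ∈ C, Disjoint S (A \ T1) ∧ h ≤ (S ∩ T1).card then
            (1 / 2 : ℝ) ^ ((A \ T1) ∪ T1).card * wt E (2 * p) ((A \ T1) ∪ T1) else 0)
            = ((A.powerset.filter
                (fun T => ∃ S ∈ C, Disjoint S (A \ T) ∧ h ≤ (S ∩ T).card)).card : ℝ)
              * (1 / 2) ^ A.card * wt E (2 * p) A := by
          rw [← Finset.sum_filter]
          have : ∀ T1 ∈ A.powerset.filter
              (fun T => ∃ S ∈ C, Disjoint S (A \ T) ∧ h ≤ (S ∩ T).card),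
              (1 / 2 : ℝ) ^ ((A \ T1) ∪ T1).card * wt E (2 * p) ((A \ T1) ∪ T1)
                = (1 / 2 : ℝ) ^ A.card * wt E (2 * p) A := by
            intro T1 hT1
            rw [Finset.mem_filter, Finset.mem_powerset] at hT1
            rw [Finset.sdiff_union_of_subset hT1.1]
          rw [Finset.sum_congr rfl this, Finset.sum_const, nsmul_eq_mul, mul_assoc]
        rw [hA1]
        have := mul_le_mul_of_nonneg_right (ds_split C A h) h2p
        calc _ ≤ (1 / 2 : ℝ) ^ h * ((C.image (fun S => S ∩ A)).card : ℝ) * wt E (2 * p) A := this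
          _ = _ := by ring
    _ = 2 * (1 / 2 : ℝ) ^ h *
        ∑ A ∈ E.powerset, wt E (2 * p) A * ((C.image (fun S => S ∩ A)).card : ℝ) := by
        rw [← Finset.mul_sum, mul_assoc]

end Pool.Agent.Helper34.FQ
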