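import Pool.Agent.Helper34.PN.Defs

/-!
Row MOM: polynomial moments of the size of a Bernoulli set.
-/

namespace Pool.Agent.Helper34.FQ

open Finset Pool.Agent.Helper34.PN

theorem mom_poly (D : ℕ) (θ : ℝ) (hθ : 0 < θ) : ∃ C : ℝ, 0 < C ∧
    ∀ n : ℕ, ((n : ℝ) + 1) ^ D ≤ C * (1 + θ) ^ n := by
  have hr : (1 : ℝ) < 1 + θ := by linarith
  have ht := tendsto_pow_const_div_const_pow_of_one_lt D hr
  obtain ⟨M, hM⟩ := ht.bddAbove_range
  refine ⟨(|M| + 1) * (1 + θ), by positivity, ?_⟩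
  intro n
  have h1 : (((n + 1 : ℕ) : ℝ)) ^ D / (1 + θ) ^ (n + 1) ≤ M := hM ⟨n + 1, rfl⟩
  have h2 : (0 : ℝ) < (1 + θ) ^ (n + 1) := by positivity
  rw [div_le_iff₀ h2] at h1
  have h3 : (((n + 1 : ℕ) : ℝ)) = (n : ℝ) + 1 := by push_cast; ring
  rw [h3] at h1
  calc ((n : ℝ) + 1) ^ D ≤ M * (1 + θ) ^ (n + 1) := h1
    _ ≤ (|M| + 1) * (1 + θ) ^ (n + 1) := by
        refine mul_le_mul_of_nonneg_right ?_ h2.le
        have := le_abs_self M
        linarith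
    _ = (|M| + 1) * (1 + θ) * (1 + θ) ^ n := by
        rw [pow_succ]
        ring

theorem mom_exp {α : Type} [DecidableEq α] (E : Finset α) (p θ : ℝ) (h0 : 0 ≤ p)
    (hθ : 0 ≤ θ) :
    ∑ A ∈ E.powerset, wt E p A * (1 + θ) ^ A.card ≤ Real.exp (p * θ * E.card) := by
  have h1 : ∀ A ∈ E.powerset, wt E p A * (1 + θ) ^ A.card
      = (p * (1 + θ)) ^ A.card * (1 - p) ^ (E.card - A.card) := by
    intro A _
    unfold wt
    rw [mul_pow]
    ring
  rw [Finset.sum_congr rfl h1, Finset.sum_pow_mul_eq_add_pow]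
  have h2 : p * (1 + θ) + (1 - p) = p * θ + 1 := by ring
  have h3 : p * θ * (E.card : ℝ) = (E.card : ℝ) * (p * θ) := by ring
  rw [h2, h3, Real.exp_nat_mul]
  have h4 : 0 ≤ p * θ := mul_nonneg h0 hθ
  exact pow_le_pow_left₀ (by linarith) (Real.add_one_le_exp _) _

theorem wt_moment (D : ℕ) (θ : ℝ) (hθ : 0 < θ) : ∃ C : ℝ, 0 < C ∧
    ∀ (α : Type) [DecidableEq α] (E : Finset α) (p : ℝ), 0 ≤ p → p ≤ 1 →
      ∑ A ∈ E.powerset, wt E p A * ((A.card : ℝ) + 1) ^ D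
        ≤ C * Real.exp (p * θ * E.card) := by
  obtain ⟨C, hC, hn⟩ := mom_poly D θ hθ
  refine ⟨C, hC, ?_⟩
  intro α _ E p h0 h1
  calc ∑ A ∈ E.powerset, wt E p A * ((A.card : ℝ) + 1) ^ D
      ≤ ∑ A ∈ E.powerset, C * (wt E p A * (1 + θ) ^ A.card) := by
        refine Finset.sum_le_sum ?_
        intro A _
        have hw : 0 ≤ wt E p A := by
          unfold wt
          exact mul_nonneg (pow_nonneg h0 _) (pow_nonneg (by linarith) _)
        calc wt E p A * ((A.card : ℝ) + 1) ^ D ≤ wt E p A * (C * (1 + θ) ^ A.card) :=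
              mul_le_mul_of_nonneg_left (hn A.card) hw
          _ = C * (wt E p A * (1 + θ) ^ A.card) := by ring
    _ = C * ∑ A ∈ E.powerset, wt E p A * (1 + θ) ^ A.card := by rw [Finset.mul_sum]
    _ ≤ C * Real.exp (p * θ * E.card) :=
        mul_le_mul_of_nonneg_left (mom_exp E p θ h0 hθ.le) hC.le

end Pool.Agent.Helper34.FQ
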