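import Mathlib

namespace Pool.Agent.Helper62.Psp

variable {X Y L : Type}

/-- The pairs of cyclically consecutive elements of a list. -/
def cyc (l : List X) : List (X × X) := l.zip (l.rotate 1)

/-- The pairs of consecutive elements of a list. -/
def pairs (l : List X) : List (X × X) := l.zip l.tail

theorem pairs_cons_cons (x y : X) (l : List X) : pairs (x :: y :: l) = (x, y) :: pairs (y :: l) := rfl

theorem pairs_nil : pairs ([] : List X) = [] := rfl

theorem pairs_single (x : X) : pairs [x] = [] := rfl

theorem pairs_append (A B : List X) (hA : A ≠ []) (hB : B ≠ []) :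
    pairs (A ++ B) = pairs A ++ (A.getLast hA, B.head hB) :: pairs B := by
  induction A with
  | nil => exact absurd rfl hA
  | cons a A ih =>
    cases A with
    | nil =>
      cases B with
      | nil => exact absurd rfl hB
      | cons b B => rfl
    | cons a' A =>
      have := ih (by simp)
      have h2 : (a :: a' :: A).getLast hA = (a' :: A).getLast (by simp) :=
        List.getLast_cons (by simp)
      rw [h2]
      show (a, a') :: pairs (a' :: A ++ B) = _
      rw [this]
      rfl

theorem cyc_eq (A : List X) (hA : A ≠ []) :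
    cyc A = pairs A ++ [(A.getLast hA, A.head hA)] := by
  cases A with
  | nil => exact absurd rfl hA
  | cons a A =>
    have h1 : cyc (a :: A) = pairs ((a :: A) ++ [a]) := by
      unfold cyc pairs
      rw [List.rotate_cons_succ, List.rotate_zero]
      show (a :: A).zip (A ++ [a]) = ((a :: A) ++ [a]).zip (A ++ [a])
      have h2 : A ++ [a] = (A ++ [a]) ++ [] := by simp
      conv_rhs => rw [h2]
      rw [List.zip_append (by simp)]
      simp
    rw [h1, pairs_append _ _ (by simp) (by simp)]
    rfl

theorem cyc_append (A B : List X) (hA : A ≠ []) (hB : B ≠ []) :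
    cyc (A ++ B) = pairs A ++ (A.getLast hA, B.head hB) :: (pairs B ++
      [(B.getLast hB, A.head hA)]) := by
  rw [cyc_eq _ (by simp [hA]), pairs_append A B hA hB]
  rw [List.getLast_append_of_ne_nil _ hB, List.head_append_of_ne_nil hA]
  simp

theorem cyc_rotate (l : List X) (k : ℕ) : cyc (l.rotate k) = (cyc l).rotate k := by
  unfold cyc
  rw [List.rotate_rotate, add_comm, ← List.rotate_rotate]
  unfold List.zip
  rw [List.zipWith_rotate_distrib _ _ _ _ (by simp)]

theorem cyc_rotate_perm (l : List X) (k : ℕ) : (cyc (l.rotate k)).Perm (cyc l) := by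
  rw [cyc_rotate]
  exact List.rotate_perm _ _

theorem length_cyc (l : List X) : (cyc l).length = l.length := by
  unfold cyc
  simp

theorem map_fst_cyc (l : List X) : (cyc l).map Prod.fst = l := by
  unfold cyc
  rw [List.map_fst_zip]
  simp

theorem map_snd_cyc (l : List X) : (cyc l).map Prod.snd = l.rotate 1 := by
  unfold cyc
  rw [List.map_snd_zip]
  simp

theorem map_fst_pairs (l : List X) : (pairs l).map Prod.fst = l.dropLast := by
  induction l with
  | nil => rfl
  | cons a l ih =>
    cases l with
    | nil => rfl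
    | cons b l =>
      rw [pairs_cons_cons, List.map_cons, ih]
      rfl

theorem map_snd_pairs (l : List X) : (pairs l).map Prod.snd = l.tail := by
  unfold pairs
  rw [List.map_snd_zip]
  simp

theorem mem_cyc_fst {l : List X} {e : X × X} (h : e ∈ cyc l) : e.1 ∈ l := by
  have := List.mem_map_of_mem (f := Prod.fst) h
  rwa [map_fst_cyc] at this

theorem mem_cyc_snd {l : List X} {e : X × X} (h : e ∈ cyc l) : e.2 ∈ l := by
  have := List.mem_map_of_mem (f := Prod.snd) h
  rw [map_snd_cyc] at this
  exact List.mem_rotate.1 this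

theorem mem_pairs_cyc {l : List X} {e : X × X} (h : e ∈ pairs l) : e ∈ cyc l := by
  cases l with
  | nil => exact h
  | cons a l =>
    rw [cyc_eq _ (by simp)]
    exact List.mem_append_left _ h

theorem cyc_map (f : X → Y) (l : List X) : cyc (l.map f) = (cyc l).map (Prod.map f f) := by
  unfold cyc
  rw [← List.map_rotate, List.zip_map]

/-- In a nodup list, the successor is unique. -/
theorem cyc_succ_unique {l : List X} (hl : l.Nodup) {x y z : X} (h1 : (x, y) ∈ cyc l)
    (h2 : (x, z) ∈ cyc l) : y = z := by
  have h3 : ((cyc l).map Prod.fst).Nodup := by rw [map_fst_cyc]; exact hl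
  have := List.inj_on_of_nodup_map h3 h1 h2 rfl
  exact congrArg Prod.snd this

theorem cyc_pred_unique {l : List X} (hl : l.Nodup) {x y z : X} (h1 : (y, x) ∈ cyc l)
    (h2 : (z, x) ∈ cyc l) : y = z := by
  have h3 : ((cyc l).map Prod.snd).Nodup := by
    rw [map_snd_cyc]; exact List.nodup_rotate.2 hl
  have := List.inj_on_of_nodup_map h3 h1 h2 rfl
  exact congrArg Prod.fst this

/-- Each element has at most two neighbours. -/
theorem adj_two {l : List X} (hl : l.Nodup) (x : X) :
    ∃ s t, ∀ z, ((x, z) ∈ cyc l ∨ (z, x) ∈ cyc l) → z = s ∨ z = t := by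
  classical
  by_cases h1 : ∃ y, (x, y) ∈ cyc l
  · obtain ⟨s, hs⟩ := h1
    by_cases h2 : ∃ y, (y, x) ∈ cyc l
    · obtain ⟨t, ht⟩ := h2
      exact ⟨s, t, fun z hz => hz.imp (fun h => cyc_succ_unique hl h hs)
        (fun h => cyc_pred_unique hl h ht)⟩
    · exact ⟨s, s, fun z hz => hz.elim (fun h => Or.inl (cyc_succ_unique hl h hs))
        (fun h => (h2 ⟨z, h⟩).elim)⟩
  · by_cases h2 : ∃ y, (y, x) ∈ cyc l
    · obtain ⟨t, ht⟩ := h2
      exact ⟨t, t, fun z hz => hz.elim (fun h => (h1 ⟨z, h⟩).elim)
        (fun h => Or.inl (cyc_pred_unique hl h ht))⟩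
    · exact ⟨x, x, fun z hz => hz.elim (fun h => (h1 ⟨z, h⟩).elim) (fun h => (h2 ⟨z, h⟩).elim)⟩

/-- Closed chains are balanced. -/
theorem balanced_of_closed [DecidableEq L] (i o : X → L) (T : List X)
    (h : ∀ e ∈ cyc T, o e.1 = i e.2) : (T.map o).Perm (T.map i) := by
  have h1 : (cyc T).map (fun e => o e.1) = (cyc T).map (fun e => i e.2) :=
    List.map_congr_left h
  have h2 : (cyc T).map (fun e => o e.1) = T.map o := by
    have : (fun e : X × X => o e.1) = o ∘ Prod.fst := rfl
    rw [this, ← List.map_map, map_fst_cyc]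
  have h3 : (cyc T).map (fun e => i e.2) = (T.rotate 1).map i := by
    have : (fun e : X × X => i e.2) = i ∘ Prod.snd := rfl
    rw [this, ← List.map_map, map_snd_cyc]
  rw [← h2, h1, h3]
  exact (List.rotate_perm T 1).map i

end Pool.Agent.Helper62.Psp
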