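import Mathlib
import Pool.Agent.Helper62.PspCyc

namespace Pool.Agent.Helper62.Psp

variable {X L : Type} [DecidableEq X] [DecidableEq L]

/-- consecutive labels match -/
def chB (i o : X → L) (l : List X) : Bool := (pairs l).all (fun e => decide (o e.1 = i e.2))

/-- first element or default -/
def headOr {A : Type} (l : List A) (d : A) : A :=
  match l with
  | [] => d
  | a :: _ => a

/-- extensions of the chain by one of the remaining elements, after a rotation -/
def ecands (i o : X → L) (s : List X × List X) : List (List X × List X) :=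
  ((List.range s.1.length).flatMap (fun k =>
    s.2.map (fun r => (s.1.rotate k ++ [r], s.2.erase r)))).filter (fun c => chB i o c.1)

def estep (i o : X → L) (s : List X × List X) : List X × List X := headOr (ecands i o s) s

/-- insertion of the elements of `R` into the closed chain `T` -/
def euler (i o : X → L) (T R : List X) : List X × List X :=
  R.foldl (fun s _ => estep i o s) (T, R)

omit [DecidableEq X] in
theorem chB_iff (i o : X → L) (l : List X) : chB i o l = true ↔ ∀ e ∈ pairs l, o e.1 = i e.2 := by
  simp [chB]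

omit [DecidableEq X] [DecidableEq L] in
theorem chain_perm (i o : X → L) (T : List X) (hT : T ≠ []) (h : ∀ e ∈ pairs T, o e.1 = i e.2) :
    (T.map o ++ [i (T.head hT)]).Perm (T.map i ++ [o (T.getLast hT)]) := by
  induction T with
  | nil => exact absurd rfl hT
  | cons a T ih =>
    cases T with
    | nil =>
      simp only [List.map_cons, List.map_nil, List.head_cons, List.getLast_singleton]
      exact List.perm_append_comm (l₁ := [o a]) (l₂ := [i a])
    | cons b l =>
      have h1 := ih (by simp) (fun e he => h e (by rw [pairs_cons_cons]; exact List.mem_cons_of_mem _ he))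
      have h2 : o a = i b := h (a, b) (by rw [pairs_cons_cons]; exact List.mem_cons_self)
      have h3 : (a :: b :: l).getLast hT = (b :: l).getLast (by simp) := List.getLast_cons (by simp)
      rw [h3, List.head_cons]
      rw [List.head_cons] at h1
      show (o a :: (List.map o (b :: l) ++ [i a])).Perm
        (i a :: (List.map i (b :: l) ++ [o ((b :: l).getLast (by simp))]))
      have h4 : (o a :: (List.map o (b :: l) ++ [i a])).Perm
          (i a :: (List.map o (b :: l) ++ [i b])) := by
        rw [← h2]
        have h5 : (o a :: (List.map o (b :: l) ++ [i a])).Perm (o a :: (i a :: List.map o (b :: l))) :=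
          (List.perm_append_comm).cons _
        have h6 : (i a :: (o a :: List.map o (b :: l))).Perm (i a :: (List.map o (b :: l) ++ [o a])) :=
          (List.perm_append_comm (l₁ := [o a])).cons _
        exact (h5.trans (List.Perm.swap _ _ _)).trans h6
      exact h4.trans (h1.cons _)

/-- the invariant of the insertion -/
structure EInv (i o : X → L) (T0 R0 : List X) (s : List X × List X) : Prop where
  ne : s.1 ≠ []
  ch : ∀ e ∈ pairs s.1, o e.1 = i e.2
  perm : (s.1 ++ s.2).Perm (T0 ++ R0)
  lab : ∀ r ∈ s.2, ∃ t ∈ s.1, i t = i r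
  edge : ∀ e ∈ cyc s.1, e ∈ cyc T0 ∨ e.1 ∈ R0 ∨ e.2 ∈ R0
  sub : ∀ r ∈ s.2, r ∈ R0

omit [DecidableEq X] in
/-- open chains can be extended -/
theorem open_extend (i o : X → L) (T R : List X) (hT : T ≠ []) (h : ∀ e ∈ pairs T, o e.1 = i e.2)
    (hbal : ((T ++ R).map o).Perm ((T ++ R).map i)) (hne : o (T.getLast hT) ≠ i (T.head hT)) :
    ∃ r ∈ R, o (T.getLast hT) = i r := by
  have h1 := (chain_perm i o T hT h).count_eq (o (T.getLast hT))
  have h2 := hbal.count_eq (o (T.getLast hT))
  rw [List.map_append, List.map_append, List.count_append, List.count_append] at h2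
  rw [List.count_append, List.count_append] at h1
  have h3 : List.count (o (T.getLast hT)) [i (T.head hT)] = 0 := by
    rw [List.count_eq_zero]
    simpa using hne
  have h4 : List.count (o (T.getLast hT)) [o (T.getLast hT)] = 1 := by simp
  have h5 : 0 < List.count (o (T.getLast hT)) (R.map i) := by omega
  rw [List.count_pos_iff, List.mem_map] at h5
  obtain ⟨r, hr, hr'⟩ := h5
  exact ⟨r, hr, hr'.symm⟩

omit [DecidableEq X] [DecidableEq L] in
theorem closed_of_eq (i o : X → L) (T : List X) (hT : T ≠ []) (h : ∀ e ∈ pairs T, o e.1 = i e.2)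
    (heq : o (T.getLast hT) = i (T.head hT)) : ∀ e ∈ cyc T, o e.1 = i e.2 := by
  rw [cyc_eq T hT]
  intro e he
  rw [List.mem_append] at he
  rcases he with he | he
  · exact h e he
  · rw [List.mem_singleton] at he
    rw [he]
    exact heq

omit [DecidableEq X] [DecidableEq L] in
theorem pairs_snoc (i o : X → L) (T : List X) (hT : T ≠ []) (r : X)
    (h : ∀ e ∈ pairs T, o e.1 = i e.2) (hr : o (T.getLast hT) = i r) :
    ∀ e ∈ pairs (T ++ [r]), o e.1 = i e.2 := by
  rw [pairs_append T [r] hT (by simp)]
  intro e he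
  rw [List.mem_append] at he
  rcases he with he | he
  · exact h e he
  · rw [pairs_single, List.mem_singleton] at he
    rw [he]
    exact hr

theorem ecands_ne (i o : X → L) (T R : List X) (hT : T ≠ []) (hR : R ≠ [])
    (h : ∀ e ∈ pairs T, o e.1 = i e.2)
    (hbal : ((T ++ R).map o).Perm ((T ++ R).map i)) (hlab : ∀ r ∈ R, ∃ t ∈ T, i t = i r) :
    ecands i o (T, R) ≠ [] := by
  have key : ∃ k < T.length, ∃ r ∈ R, ∀ e ∈ pairs (T.rotate k ++ [r]), o e.1 = i e.2 := by
    by_cases heq : o (T.getLast hT) = i (T.head hT)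
    · obtain ⟨r, hr⟩ := List.exists_mem_of_ne_nil R hR
      obtain ⟨t, ht, htr⟩ := hlab r hr
      obtain ⟨A, B, rfl⟩ := List.append_of_mem ht
      refine ⟨A.length, by simp, r, hr, ?_⟩
      rw [List.rotate_append_length_eq]
      have h1 : ∀ e ∈ cyc ((t :: B) ++ A), o e.1 = i e.2 := by
        intro e he
        have h2 := closed_of_eq i o _ hT h heq
        apply h2
        have h3 := cyc_rotate_perm (A ++ (t :: B)) A.length
        rw [List.rotate_append_length_eq] at h3
        exact h3.subset he
      have hne : (t :: B) ++ A ≠ [] := by simp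
      apply pairs_snoc i o _ hne r (fun e he => h1 e (mem_pairs_cyc he))
      have h4 := h1 (((t :: B) ++ A).getLast hne, ((t :: B) ++ A).head hne) (by
        rw [cyc_eq _ hne]
        simp)
      rw [← htr]
      exact h4
    · obtain ⟨r, hr, hr'⟩ := open_extend i o T R hT h hbal heq
      refine ⟨0, List.length_pos_of_ne_nil hT, r, hr, ?_⟩
      rw [List.rotate_zero]
      exact pairs_snoc i o T hT r h hr'
  obtain ⟨k, hk, r, hr, hch⟩ := key
  apply List.ne_nil_of_mem (a := (T.rotate k ++ [r], R.erase r))
  unfold ecands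
  rw [List.mem_filter]
  refine ⟨?_, ?_⟩
  · rw [List.mem_flatMap]
    exact ⟨k, List.mem_range.2 hk, List.mem_map.2 ⟨r, hr, rfl⟩⟩
  · rw [chB_iff]
    exact hch

theorem EInv.step {i o : X → L} {T0 R0 : List X} {s : List X × List X} (hs : EInv i o T0 R0 s)
    (hbal : ((T0 ++ R0).map o).Perm ((T0 ++ R0).map i)) (hR : s.2 ≠ []) :
    EInv i o T0 R0 (estep i o s) ∧ (estep i o s).2.length + 1 = s.2.length := by
  have h1 : ecands i o s ≠ [] := ecands_ne i o s.1 s.2 hs.ne hR hs.ch
    (((hs.perm.map o).trans hbal).trans (hs.perm.map i).symm) hs.lab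
  have h2 : estep i o s ∈ ecands i o s := by
    unfold estep headOr
    cases h3 : ecands i o s with
    | nil => exact absurd h3 h1
    | cons a l => simp
  obtain ⟨c, hc⟩ : ∃ c, c = estep i o s := ⟨_, rfl⟩
  rw [← hc] at h2 ⊢
  unfold ecands at h2
  rw [List.mem_filter, List.mem_flatMap] at h2
  obtain ⟨⟨k, hk, h3⟩, h4⟩ := h2
  rw [List.mem_map] at h3
  obtain ⟨r, hr, rfl⟩ := h3
  rw [chB_iff] at h4
  refine ⟨⟨by simp, h4, ?_, ?_, ?_, ?_⟩, ?_⟩
  · show (s.1.rotate k ++ [r] ++ s.2.erase r).Perm (T0 ++ R0)
    refine List.Perm.trans ?_ hs.perm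
    rw [List.append_assoc]
    exact (List.rotate_perm _ _).append (List.perm_cons_erase hr).symm
  · intro r' hr'
    obtain ⟨t, ht, h5⟩ := hs.lab r' (List.mem_of_mem_erase hr')
    exact ⟨t, List.mem_append_left _ (List.mem_rotate.2 ht), h5⟩
  · intro e he
    have hne : s.1.rotate k ≠ [] := by
      intro h
      exact hs.ne (List.rotate_eq_nil_iff.1 h)
    rw [cyc_append _ [r] hne (by simp), List.mem_append, List.mem_cons, pairs_single,
      List.nil_append, List.mem_singleton] at he
    rcases he with he | he | he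
    · exact hs.edge e ((cyc_rotate_perm s.1 k).subset (mem_pairs_cyc he))
    · right; right
      rw [he]
      exact hs.sub r hr
    · right; left
      rw [he]
      exact hs.sub r hr
  · intro r' hr'
    exact hs.sub r' (List.mem_of_mem_erase hr')
  · show (s.2.erase r).length + 1 = s.2.length
    rw [List.length_erase_of_mem hr]
    have := List.length_pos_of_mem hr
    omega

theorem EInv.iter {i o : X → L} {T0 R0 : List X}
    (hbal : ((T0 ++ R0).map o).Perm ((T0 ++ R0).map i)) (l : List X) :
    ∀ (s : List X × List X), EInv i o T0 R0 s → l.length ≤ s.2.length →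
    EInv i o T0 R0 (l.foldl (fun s _ => estep i o s) s) ∧
      (l.foldl (fun s _ => estep i o s) s).2.length + l.length = s.2.length := by
  induction l with
  | nil => intro s hs _; exact ⟨hs, rfl⟩
  | cons a l ih =>
    intro s hs hl
    rw [List.length_cons] at hl
    have hR : s.2 ≠ [] := by
      intro h
      rw [h] at hl
      simp at hl
    obtain ⟨h1, h2⟩ := hs.step hbal hR
    obtain ⟨h3, h4⟩ := ih _ h1 (by omega)
    exact ⟨h3, by rw [List.foldl_cons, List.length_cons]; omega⟩

/-- Insertion of new elements into a closed chain. -/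
theorem euler_spec (i o : X → L) (T R : List X) (hT : T ≠ [])
    (hcl : ∀ e ∈ cyc T, o e.1 = i e.2)
    (hbal : ((T ++ R).map o).Perm ((T ++ R).map i)) (hlab : ∀ r ∈ R, ∃ t ∈ T, i t = i r) :
    (euler i o T R).1.Perm (T ++ R) ∧ (∀ e ∈ cyc (euler i o T R).1, o e.1 = i e.2) ∧
    (∀ e ∈ cyc (euler i o T R).1, e ∈ cyc T ∨ e.1 ∈ R ∨ e.2 ∈ R) := by
  have h0 : EInv i o T R (T, R) := ⟨hT, fun e he => hcl e (mem_pairs_cyc he), List.Perm.refl _, hlab,
    fun e he => Or.inl he, fun r hr => hr⟩
  obtain ⟨h1, h2⟩ := EInv.iter hbal R (T, R) h0 le_rfl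
  have h3 : (euler i o T R).2 = [] := by
    apply List.eq_nil_of_length_eq_zero
    unfold euler
    show _ = 0
    have : ((T, R) : List X × List X).2.length = R.length := rfl
    omega
  have h4 : EInv i o T R (euler i o T R) := h1
  have hperm := h4.perm
  rw [h3, List.append_nil] at hperm
  refine ⟨hperm, ?_, h4.edge⟩
  apply closed_of_eq i o _ h4.ne h4.ch
  by_contra hne
  have hb : (((euler i o T R).1 ++ []).map o).Perm (((euler i o T R).1 ++ []).map i) := by
    rw [List.append_nil]
    exact ((hperm.map o).trans hbal).trans (hperm.map i).symm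
  obtain ⟨r, hr, _⟩ := open_extend i o _ [] h4.ne h4.ch hb hne
  simp at hr

end Pool.Agent.Helper62.Psp
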