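import Mathlib
import Pool.Agent.Helper62.PspEuler

namespace Pool.Agent.Helper62.Psp

variable {X L : Type} [DecidableEq X] [DecidableEq L]

omit [DecidableEq X] in
theorem one_pair (W : List X) (u v : X) (h : (u, v) ∈ pairs W) :
    ∃ (B C : List X) (hB : B ≠ []) (hC : C ≠ []), W = B ++ C ∧ B.getLast hB = u ∧ C.head hC = v := by
  induction W with
  | nil => simp [pairs_nil] at h
  | cons a W ih =>
    cases W with
    | nil => simp [pairs_single] at h
    | cons b l =>
      rw [pairs_cons_cons, List.mem_cons] at h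
      rcases h with h | h
      · simp only [Prod.mk.injEq] at h
        obtain ⟨rfl, rfl⟩ := h
        exact ⟨[u], v :: l, by simp, by simp, rfl, rfl, rfl⟩
      · obtain ⟨B, C, hB, hC, h1, h2, h3⟩ := ih h
        refine ⟨a :: B, C, by simp, hC, by rw [h1]; rfl, ?_, h3⟩
        rw [List.getLast_cons hB, h2]

omit [DecidableEq X] in
theorem two_pairs (W : List X) (x y u v : X) (h : [(x, y), (u, v)].Sublist (pairs W)) :
    ∃ (A B C : List X) (hA : A ≠ []) (hB : B ≠ []) (hC : C ≠ []), W = A ++ (B ++ C) ∧
      A.getLast hA = x ∧ B.head hB = y ∧ B.getLast hB = u ∧ C.head hC = v := by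
  induction W with
  | nil => simp [pairs_nil] at h
  | cons a W ih =>
    cases W with
    | nil => simp [pairs_single] at h
    | cons b l =>
      rw [pairs_cons_cons] at h
      cases h with
      | cons _ h =>
        obtain ⟨A, B, C, hA, hB, hC, h1, h2, h3⟩ := ih h
        refine ⟨a :: A, B, C, by simp, hB, hC, by rw [h1]; rfl, ?_, h3⟩
        rw [List.getLast_cons hA, h2]
      | cons_cons _ h =>
        obtain ⟨B, C, hB, hC, h1, h2, h3⟩ := one_pair _ u v (List.singleton_sublist.1 h)
        refine ⟨[x], B, C, by simp, hB, hC, by rw [← h1]; rfl, rfl, ?_, h2, h3⟩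
        have h4 : (y :: l).head (by simp) = (B ++ C).head (by simp [hB]) := by
          congr 1
        rw [List.head_append_of_ne_nil hB] at h4
        exact h4.symm

/-- cyclic exchange of two consecutive segments, after a rotation -/
def sw (T : List X) (r j m : ℕ) : List X :=
  (T.rotate r).take j ++ (((T.rotate r).drop j).drop m ++ ((T.rotate r).drop j).take m)

omit [DecidableEq X] in
theorem sw_perm (T : List X) (r j m : ℕ) : (sw T r j m).Perm T := by
  unfold sw
  have h1 : (((T.rotate r).drop j).drop m ++ ((T.rotate r).drop j).take m).Perm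
      ((T.rotate r).drop j) := by
    refine List.perm_append_comm.trans ?_
    rw [List.take_append_drop]
  refine ((List.Perm.refl _).append h1).trans ?_
  rw [List.take_append_drop]
  exact List.rotate_perm T r

theorem length_filter_not (L' : List (X × X)) (Q : X × X → Bool) (n : ℕ) (h1 : n + 1 ≤ L'.length)
    (h2 : L'.countP Q ≤ 1) : n ≤ (L'.filter (fun e => !Q e)).length := by
  have h3 : L'.length = L'.countP Q + L'.countP (fun e => !Q e) := by
    rw [List.length_eq_countP_add_countP Q]
    congr 1
    apply List.countP_congr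
    intro e _
    simp
  rw [← List.countP_eq_length_filter]
  omega

theorem countP_fst_le (W : List X) (hW : W.Nodup) (s : X) :
    (pairs W).countP (fun e => decide (e.1 = s)) ≤ 1 := by
  have h1 : (pairs W).countP (fun e => decide (e.1 = s)) =
      ((pairs W).map Prod.fst).countP (fun x => decide (x = s)) := by
    rw [List.countP_map]
    rfl
  rw [h1, map_fst_pairs]
  have h2 : W.dropLast.Nodup := hW.sublist (List.dropLast_sublist W)
  have h3 := List.nodup_iff_count_le_one.1 h2 s
  refine le_trans (le_of_eq ?_) h3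
  unfold List.count
  apply List.countP_congr
  intro e _
  simp

theorem countP_snd_le (W : List X) (hW : W.Nodup) (s : X) :
    (pairs W).countP (fun e => decide (e.2 = s)) ≤ 1 := by
  have h1 : (pairs W).countP (fun e => decide (e.2 = s)) =
      ((pairs W).map Prod.snd).countP (fun x => decide (x = s)) := by
    rw [List.countP_map]
    rfl
  rw [h1, map_snd_pairs]
  have h2 : W.tail.Nodup := hW.sublist (List.tail_sublist W)
  have h3 := List.nodup_iff_count_le_one.1 h2 s
  refine le_trans (le_of_eq ?_) h3
  unfold List.count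
  apply List.countP_congr
  intro e _
  simp

/-- Removing a conflict by an exchange of segments, when the label of the conflicting edge is
frequent. -/
theorem repair_exists (i o : X → L) (adj : X × X → Bool)
    (hsym : ∀ x y, adj (x, y) = true → adj (y, x) = true)
    (hdeg : ∀ x, ∃ s t, ∀ z, adj (x, z) = true → z = s ∨ z = t)
    (T : List X) (hT : T.Nodup) (hcl : ∀ e ∈ cyc T, o e.1 = i e.2) (p q : X)
    (hpq : (p, q) ∈ cyc T) (hadj : adj (p, q) = true)
    (hcom : 16 ≤ T.countP (fun x => decide (o x = o p))) :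
    ∃ r ≤ T.length, ∃ j ≤ T.length, ∃ m ≤ T.length,
      (∀ e ∈ cyc (sw T r j m), o e.1 = i e.2) ∧
      (∀ e ∈ cyc (sw T r j m), adj e = true → e ∈ cyc T) ∧
      (cyc (sw T r j m)).countP adj < (cyc T).countP adj := by
  -- rotate so that the conflicting edge is the closing edge
  obtain ⟨r, hr, hrot⟩ : ∃ r ≤ T.length, ∃ (h : T.rotate r ≠ []),
      (T.rotate r).getLast h = p ∧ (T.rotate r).head h = q := by
    have hT0 : T ≠ [] := by
      rintro rfl
      simp [cyc] at hpq
    rw [cyc_eq T hT0, List.mem_append] at hpq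
    rcases hpq with h | h
    · obtain ⟨B, C, hB, hC, h1, h2, h3⟩ := one_pair T p q h
      refine ⟨B.length, by rw [h1]; simp, ?_⟩
      have h4 : T.rotate B.length = C ++ B := by
        rw [h1, List.rotate_append_length_eq]
      refine ⟨by rw [h4]; simp [hB], ?_, ?_⟩
      · have : (T.rotate B.length).getLast (by rw [h4]; simp [hB]) = (C ++ B).getLast (by simp [hB]) := by
          congr 1
        rw [this, List.getLast_append_of_ne_nil _ hB, h2]
      · have : (T.rotate B.length).head (by rw [h4]; simp [hB]) = (C ++ B).head (by simp [hB]) := by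
          congr 1
        rw [this, List.head_append_of_ne_nil hC, h3]
    · rw [List.mem_singleton, Prod.mk.injEq] at h
      refine ⟨0, Nat.zero_le _, by rw [List.rotate_zero]; exact hT0, ?_, ?_⟩
      · rw [h.1]; congr 1; exact List.rotate_zero T
      · rw [h.2]; congr 1; exact List.rotate_zero T
  obtain ⟨hW0, hlast, hhead⟩ := hrot
  obtain ⟨W, hWdef⟩ : ∃ W, W = T.rotate r := ⟨_, rfl⟩
  have hWT : W.Perm T := by rw [hWdef]; exact List.rotate_perm T r
  have hW : W.Nodup := hWT.nodup_iff.2 hT
  have hcW : (cyc W).Perm (cyc T) := by rw [hWdef]; exact cyc_rotate_perm T r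
  have hclW : ∀ e ∈ cyc W, o e.1 = i e.2 := fun e he => hcl e (hcW.subset he)
  have hW0' : W ≠ [] := by rw [hWdef]; exact hW0
  have hlast' : W.getLast hW0' = p := by
    rw [← hlast]; congr 1
  have hhead' : W.head hW0' = q := by
    rw [← hhead]; congr 1
  obtain ⟨sp, tp, hNp⟩ := hdeg p
  obtain ⟨sq, tq, hNq⟩ := hdeg q
  -- the edges with the same label
  have h15 : 15 ≤ ((pairs W).filter (fun e => decide (o e.1 = o p))).length := by
    rw [← List.countP_eq_length_filter]
    have h1 : (pairs W).countP (fun e => decide (o e.1 = o p)) =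
        ((pairs W).map Prod.fst).countP (fun x => decide (o x = o p)) := by
      rw [List.countP_map]
      rfl
    rw [h1, map_fst_pairs]
    have h2 : W.countP (fun x => decide (o x = o p)) = T.countP (fun x => decide (o x = o p)) :=
      hWT.countP_eq _
    rw [← List.dropLast_append_getLast hW0', List.countP_append] at h2
    have h3 : [W.getLast hW0'].countP (fun x => decide (o x = o p)) ≤ 1 := List.countP_le_length
    omega
  set G0 := (pairs W).filter (fun e => decide (o e.1 = o p)) with hG0
  have hs0 : G0.Sublist (pairs W) := List.filter_sublist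
  set G1 := G0.filter (fun e => !decide (e.2 = sp)) with hG1
  have hs1 : G1.Sublist (pairs W) := List.filter_sublist.trans hs0
  have hl1 : 14 ≤ G1.length := length_filter_not G0 _ 14 h15
    ((hs0.countP_le).trans (countP_snd_le W hW sp))
  set G2 := G1.filter (fun e => !decide (e.2 = tp)) with hG2
  have hs2 : G2.Sublist (pairs W) := List.filter_sublist.trans hs1
  have hl2 : 13 ≤ G2.length := length_filter_not G1 _ 13 hl1
    ((hs1.countP_le).trans (countP_snd_le W hW tp))
  set G3 := G2.filter (fun e => !decide (e.1 = sq)) with hG3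
  have hs3 : G3.Sublist (pairs W) := List.filter_sublist.trans hs2
  have hl3 : 12 ≤ G3.length := length_filter_not G2 _ 12 hl2
    ((hs2.countP_le).trans (countP_fst_le W hW sq))
  set G4 := G3.filter (fun e => !decide (e.1 = tq)) with hG4
  have hs4 : G4.Sublist (pairs W) := List.filter_sublist.trans hs3
  have hl4 : 11 ≤ G4.length := length_filter_not G3 _ 11 hl3
    ((hs3.countP_le).trans (countP_fst_le W hW tq))
  have hG4' : ∀ e ∈ G4, o e.1 = o p ∧ e.2 ≠ sp ∧ e.2 ≠ tp ∧ e.1 ≠ sq ∧ e.1 ≠ tq := by
    intro e he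
    simp only [hG4, hG3, hG2, hG1, hG0, List.mem_filter, Bool.not_eq_true', decide_eq_false_iff_not,
      decide_eq_true_eq] at he
    exact ⟨he.1.1.1.1.2, he.1.1.1.2, he.1.1.2, he.1.2, he.2⟩
  obtain ⟨⟨x, y⟩, G5, hG5⟩ : ∃ e G5, G4 = e :: G5 := by
    cases h : G4 with
    | nil => rw [h] at hl4; simp at hl4
    | cons e G5 => exact ⟨e, G5, rfl⟩
  obtain ⟨sx, tx, hNx⟩ := hdeg x
  have hs5 : G5.Sublist (pairs W) := (List.sublist_cons_self _ _).trans (hG5 ▸ hs4)
  have hl5 : 10 ≤ G5.length := by
    rw [hG5, List.length_cons] at hl4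
    omega
  set G6 := G5.filter (fun e => !decide (e.2 = sx)) with hG6
  have hs6 : G6.Sublist (pairs W) := List.filter_sublist.trans hs5
  have hl6 : 9 ≤ G6.length := length_filter_not G5 _ 9 hl5
    ((hs5.countP_le).trans (countP_snd_le W hW sx))
  set G7 := G6.filter (fun e => !decide (e.2 = tx)) with hG7
  have hl7 : 8 ≤ G7.length := length_filter_not G6 _ 8 hl6
    ((hs6.countP_le).trans (countP_snd_le W hW tx))
  obtain ⟨⟨u, v⟩, huv⟩ : ∃ e, e ∈ G7 := by
    cases h : G7 with
    | nil => rw [h] at hl7; simp at hl7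
    | cons e G8 => exact ⟨e, by simp⟩
  have huv' : (u, v) ∈ G5 ∧ v ≠ sx ∧ v ≠ tx := by
    simp only [hG7, hG6, List.mem_filter, Bool.not_eq_true', decide_eq_false_iff_not] at huv
    exact ⟨huv.1.1, huv.1.2, huv.2⟩
  have hsub : [(x, y), (u, v)].Sublist (pairs W) := by
    refine List.Sublist.trans ?_ hs4
    rw [hG5]
    exact (List.singleton_sublist.2 huv'.1).cons_cons _
  obtain ⟨hx1, hx2, hx3, -, -⟩ := hG4' (x, y) (by rw [hG5]; simp)
  obtain ⟨hu1, -, -, hu2, hu3⟩ := hG4' (u, v) (by rw [hG5]; exact List.mem_cons_of_mem _ huv'.1)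
  simp only at hx1 hx2 hx3 hu1 hu2 hu3
  obtain ⟨A, B, C, hA, hB, hC, hABC, hlA, hhB, hlB, hhC⟩ := two_pairs W x y u v hsub
  -- the exchange
  have hBC : B ++ C ≠ [] := by simp [hB]
  have hCB : C ++ B ≠ [] := by simp [hB]
  have hlC : C.getLast hC = p := by
    rw [← hlast']
    have : W.getLast hW0' = (A ++ (B ++ C)).getLast (by simp [hA]) := by congr 1
    rw [this, List.getLast_append_of_ne_nil _ hBC, List.getLast_append_of_ne_nil _ hC]
  have hhA : A.head hA = q := by
    rw [← hhead']
    have : W.head hW0' = (A ++ (B ++ C)).head (by simp [hA]) := by congr 1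
    rw [this, List.head_append_of_ne_nil hA]
  have hsw : sw T r A.length B.length = A ++ (C ++ B) := by
    unfold sw
    rw [← hWdef, hABC]
    simp
  have hcy1 : cyc W = pairs A ++ (x, y) :: ((pairs B ++ (u, v) :: pairs C) ++ [(p, q)]) := by
    rw [hABC, cyc_append A (B ++ C) hA hBC, pairs_append B C hB hC,
      List.head_append_of_ne_nil hB, List.getLast_append_of_ne_nil _ hC, hlA, hhB, hlB, hhC, hlC, hhA]
  have hcy2 : cyc (A ++ (C ++ B)) = pairs A ++ (x, v) :: ((pairs C ++ (p, y) :: pairs B) ++ [(u, q)]) := by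
    rw [cyc_append A (C ++ B) hA hCB, pairs_append C B hC hB,
      List.head_append_of_ne_nil hC, List.getLast_append_of_ne_nil _ hB, hlA, hhB, hlB, hhC, hlC, hhA]
  have hoxy : o x = i y := hclW (x, y) (by rw [hcy1]; simp)
  have houv : o u = i v := hclW (u, v) (by rw [hcy1]; simp)
  have hopq : o p = i q := hclW (p, q) (by rw [hcy1]; simp)
  have hn1 : adj (x, v) = false := by
    rw [← Bool.not_eq_true]
    intro h
    rcases hNx v h with h | h
    · exact huv'.2.1 h
    · exact huv'.2.2 h
  have hn2 : adj (p, y) = false := by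
    rw [← Bool.not_eq_true]
    intro h
    rcases hNp y h with h | h
    · exact hx2 h
    · exact hx3 h
  have hn3 : adj (u, q) = false := by
    rw [← Bool.not_eq_true]
    intro h
    rcases hNq u (hsym _ _ h) with h | h
    · exact hu2 h
    · exact hu3 h
  refine ⟨r, hr, A.length, ?_, B.length, ?_, ?_, ?_, ?_⟩
  · rw [← hWT.length_eq, hABC]; simp
  · rw [← hWT.length_eq, hABC]; simp; omega
  · rw [hsw]
    intro e he
    rw [hcy2] at he
    simp only [List.mem_append, List.mem_cons, List.not_mem_nil, or_false] at he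
    rcases he with he | he | (he | he | he) | he
    · exact hclW e (by rw [hcy1]; simp [he])
    · rw [he]; show o x = i v; rw [hx1, ← hu1, houv]
    · exact hclW e (by rw [hcy1]; simp [he])
    · rw [he]; show o p = i y; rw [← hx1, hoxy]
    · exact hclW e (by rw [hcy1]; simp [he])
    · rw [he]; show o u = i q; rw [hu1, hopq]
  · rw [hsw]
    intro e he hadj'
    apply hcW.subset
    rw [hcy2] at he
    simp only [List.mem_append, List.mem_cons, List.not_mem_nil, or_false] at he
    rcases he with he | he | (he | he | he) | he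
    · rw [hcy1]; simp [he]
    · rw [he, hn1] at hadj'; simp at hadj'
    · rw [hcy1]; simp [he]
    · rw [he, hn2] at hadj'; simp at hadj'
    · rw [hcy1]; simp [he]
    · rw [he, hn3] at hadj'; simp at hadj'
  · rw [hsw, ← hcW.countP_eq, hcy1, hcy2]
    simp only [List.countP_append, List.countP_cons, List.countP_nil, hn1, hn2, hn3, hadj]
    simp only [Bool.false_eq_true, if_false, if_true, add_zero]
    have : ∀ a b : X × X, (if adj a = true then 1 else 0) + (if adj b = true then 1 else 0) ≥ 0 :=
      fun _ _ => Nat.zero_le _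
    omega

/-- membership test -/
def memB {A : Type} [DecidableEq A] (l : List A) (a : A) : Bool := l.any (fun b => decide (b = a))

theorem memB_iff {A : Type} [DecidableEq A] (l : List A) (a : A) : memB l a = true ↔ a ∈ l := by
  simp [memB]

/-- the pair is an edge of the tour, in one of the two directions -/
def adjB (T1 : List X) (e : X × X) : Bool := memB (cyc T1) e || memB (cyc T1) (e.2, e.1)

theorem adjB_iff (T1 : List X) (x y : X) :
    adjB T1 (x, y) = true ↔ (x, y) ∈ cyc T1 ∨ (y, x) ∈ cyc T1 := by
  simp [adjB, memB_iff]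

/-- closed chain -/
def clB (i o : X → L) (T : List X) : Bool := (cyc T).all (fun e => decide (o e.1 = i e.2))

omit [DecidableEq X] in
theorem clB_iff (i o : X → L) (T : List X) : clB i o T = true ↔ ∀ e ∈ cyc T, o e.1 = i e.2 := by
  simp [clB]

/-- common edges -/
def cfl (T1 T : List X) : List (X × X) := (cyc T).filter (fun e => adjB T1 e)

def rcond (i o : X → L) (T1 T T' : List X) : Bool :=
  clB i o T' && ((cfl T1 T').all (fun e => memB (cyc T) e) &&
    decide ((cfl T1 T').length < (cfl T1 T).length))

def rcands (T : List X) : List (List X) :=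
  (List.range (T.length + 1)).flatMap (fun r => (List.range (T.length + 1)).flatMap (fun j =>
    (List.range (T.length + 1)).map (fun m => sw T r j m)))

def rstep (i o : X → L) (T1 T : List X) : List X :=
  headOr ((rcands T).filter (fun T' => rcond i o T1 T T')) T

/-- removal of the common edges -/
def repair (i o : X → L) (T1 T : List X) : List X := T.foldl (fun S _ => rstep i o T1 S) T

structure RInv (i o : X → L) (T1 T0 S : List X) : Prop where
  perm : S.Perm T0
  cl : ∀ e ∈ cyc S, o e.1 = i e.2
  com : ∀ e ∈ cyc S, adjB T1 e = true → 16 ≤ T0.countP (fun x => decide (o x = o e.1))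

theorem RInv.step {i o : X → L} {T1 T0 S : List X} (h1 : T1.Nodup) (h0 : T0.Nodup)
    (hS : RInv i o T1 T0 S) : RInv i o T1 T0 (rstep i o T1 S) ∧
      (cfl T1 (rstep i o T1 S)).length ≤ (cfl T1 S).length - 1 := by
  by_cases hc : (rcands S).filter (fun T' => rcond i o T1 S T') = []
  · have h2 : rstep i o T1 S = S := by
      unfold rstep
      rw [hc]
      rfl
    rw [h2]
    refine ⟨hS, ?_⟩
    suffices h : (cfl T1 S).length = 0 by omega
    by_contra hne
    obtain ⟨⟨p, q⟩, he⟩ := List.exists_mem_of_length_pos (Nat.pos_of_ne_zero hne)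
    unfold cfl at he
    rw [List.mem_filter] at he
    have hn : S.Nodup := hS.perm.nodup_iff.2 h0
    have hcom := hS.com (p, q) he.1 he.2
    rw [← hS.perm.countP_eq] at hcom
    obtain ⟨r, hr, j, hj, m, hm, h3, h4, h5⟩ := repair_exists i o (adjB T1)
      (fun x y h => by rw [adjB_iff] at h ⊢; exact h.symm)
      (fun x => by
        obtain ⟨s, t, h⟩ := adj_two h1 x
        exact ⟨s, t, fun z hz => h z ((adjB_iff T1 x z).1 hz)⟩) S hn hS.cl p q he.1 he.2 hcom
    have h6 : sw S r j m ∈ (rcands S).filter (fun T' => rcond i o T1 S T') := by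
      rw [List.mem_filter]
      constructor
      · unfold rcands
        rw [List.mem_flatMap]
        refine ⟨r, List.mem_range.2 (by omega), ?_⟩
        rw [List.mem_flatMap]
        refine ⟨j, List.mem_range.2 (by omega), ?_⟩
        rw [List.mem_map]
        exact ⟨m, List.mem_range.2 (by omega), rfl⟩
      · unfold rcond
        rw [Bool.and_eq_true, Bool.and_eq_true, clB_iff, List.all_eq_true, decide_eq_true_eq]
        refine ⟨h3, ?_, ?_⟩
        · intro e he'
          unfold cfl at he'
          rw [List.mem_filter] at he'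
          rw [memB_iff]
          exact h4 e he'.1 he'.2
        · unfold cfl
          rw [← List.countP_eq_length_filter, ← List.countP_eq_length_filter]
          exact h5
    rw [hc] at h6
    simp at h6
  · have h2 : rstep i o T1 S ∈ (rcands S).filter (fun T' => rcond i o T1 S T') := by
      unfold rstep headOr
      cases h3 : (rcands S).filter (fun T' => rcond i o T1 S T') with
      | nil => exact absurd h3 hc
      | cons a l => simp
    rw [List.mem_filter] at h2
    obtain ⟨h3, h4⟩ := h2
    unfold rcond at h4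
    rw [Bool.and_eq_true, Bool.and_eq_true, clB_iff, List.all_eq_true, decide_eq_true_eq] at h4
    obtain ⟨h5, h6, h7⟩ := h4
    refine ⟨⟨?_, h5, ?_⟩, by omega⟩
    · unfold rcands at h3
      rw [List.mem_flatMap] at h3
      obtain ⟨r, _, h3⟩ := h3
      rw [List.mem_flatMap] at h3
      obtain ⟨j, _, h3⟩ := h3
      rw [List.mem_map] at h3
      obtain ⟨m, _, h3⟩ := h3
      rw [← h3]
      exact (sw_perm S r j m).trans hS.perm
    · intro e he hadj
      have h8 := h6 e (by unfold cfl; rw [List.mem_filter]; exact ⟨he, hadj⟩)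
      rw [memB_iff] at h8
      exact hS.com e h8 hadj

theorem RInv.iter {i o : X → L} {T1 T0 : List X} (h1 : T1.Nodup) (h0 : T0.Nodup) (l : List X) :
    ∀ (S : List X), RInv i o T1 T0 S → RInv i o T1 T0 (l.foldl (fun S _ => rstep i o T1 S) S) ∧
      (cfl T1 (l.foldl (fun S _ => rstep i o T1 S) S)).length ≤ (cfl T1 S).length - l.length := by
  induction l with
  | nil => intro S hS; exact ⟨hS, by simp⟩
  | cons a l ih =>
    intro S hS
    obtain ⟨h2, h3⟩ := hS.step h1 h0
    obtain ⟨h4, h5⟩ := ih _ h2
    refine ⟨h4, ?_⟩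
    rw [List.foldl_cons, List.length_cons]
    omega

theorem repair_spec (i o : X → L) (T1 T : List X) (h1 : T1.Nodup) (hT : T.Nodup)
    (hcl : ∀ e ∈ cyc T, o e.1 = i e.2)
    (hcom : ∀ e ∈ cyc T, adjB T1 e = true → 16 ≤ T.countP (fun x => decide (o x = o e.1))) :
    (repair i o T1 T).Perm T ∧ (∀ e ∈ cyc (repair i o T1 T), o e.1 = i e.2) ∧
      ∀ e ∈ cyc (repair i o T1 T), adjB T1 e = false := by
  have h2 : RInv i o T1 T T := ⟨List.Perm.refl _, hcl, hcom⟩
  obtain ⟨h3, h4⟩ := RInv.iter h1 hT T T h2
  refine ⟨h3.perm, h3.cl, ?_⟩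
  have h5 : (cfl T1 T).length ≤ T.length := by
    unfold cfl
    refine (List.length_filter_le _ _).trans ?_
    rw [length_cyc]
  have h6 : (cfl T1 (repair i o T1 T)).length = 0 := by
    unfold repair
    omega
  have h7 := List.eq_nil_of_length_eq_zero h6
  intro e he
  rw [← Bool.not_eq_true]
  intro hadj
  have h8 : e ∈ cfl T1 (repair i o T1 T) := by
    unfold cfl
    rw [List.mem_filter]
    exact ⟨he, hadj⟩
  rw [h7] at h8
  simp at h8

end Pool.Agent.Helper62.Psp
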