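import Mathlib
import Pool.Agent.Helper62.PspRepair

namespace Pool.Agent.Helper62.Psp

/-- labels of a point: incoming and outgoing label in the first tour and in the second tour -/
abbrev Lab (k : ℕ) := Fin k × Fin k × Fin k × Fin k

variable {V V' : Type} [DecidableEq V] [DecidableEq V'] {k : ℕ}

def i1 (x : V × Lab k) : Fin k := x.2.1
def o1 (x : V × Lab k) : Fin k := x.2.2.1
def i2 (x : V × Lab k) : Fin k := x.2.2.2.1
def o2 (x : V × Lab k) : Fin k := x.2.2.2.2

/-- two tours through the same labelled points, without common edges, with matching labels -/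
structure Valid (T1 T2 : List (V × Lab k)) : Prop where
  nodup : (T1.map Prod.fst).Nodup
  perm : T2.Perm T1
  len : 3 ≤ T1.length
  cl1 : ∀ e ∈ cyc T1, o1 e.1 = i1 e.2
  cl2 : ∀ e ∈ cyc T2, o2 e.1 = i2 e.2
  disj : ∀ e ∈ cyc T2, adjB T1 e = false

section cn
variable {Λ : Type} [DecidableEq Λ]

/-- number of occurrences -/
def cn (l : List Λ) (t : Λ) : ℕ := l.countP (fun x => decide (x = t))

theorem cn_eq (l : List Λ) (t : Λ) : cn l t = l.count t := by
  unfold cn List.count
  apply List.countP_congr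
  intro x _
  simp

theorem perm_of_cn {l l' : List Λ} (h : ∀ t, cn l t = cn l' t) : l.Perm l' := by
  rw [List.perm_iff_count]
  intro t
  rw [← cn_eq, ← cn_eq, h]

theorem cn_perm {l l' : List Λ} (h : l.Perm l') (t : Λ) : cn l t = cn l' t := h.countP_eq _

theorem cn_cons_ne (a : Λ) (l : List Λ) (t : Λ) (h : t ≠ a) : cn (a :: l) t = cn l t := by
  rw [cn_eq, cn_eq, List.count_cons_of_ne (Ne.symm h)]

theorem cn_cons_self (a : Λ) (l : List Λ) : cn (a :: l) a = cn l a + 1 := by
  rw [cn_eq, cn_eq, List.count_cons_self]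

theorem sum_cn [Fintype Λ] (l : List Λ) : ∑ t, cn l t = l.length := by
  have := Multiset.sum_count_eq_card (s := (Finset.univ : Finset Λ))
    (m := (l : Multiset Λ)) (fun _ _ => Finset.mem_univ _)
  simp only [Multiset.coe_count, Multiset.coe_card] at this
  rw [← this]
  exact Finset.sum_congr rfl (fun t _ => cn_eq l t)

end cn

/-- numbers of points of the types -/
def cnt (T : List (V × Lab k)) (t : Lab k) : ℕ := cn (T.map Prod.snd) t

theorem Valid.map {T1 T2 : List (V × Lab k)} (h : Valid T1 T2) (g : V × Lab k → V' × Lab k)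
    (hg : ∀ x ∈ T1, (g x).2 = x.2) (hn : ((T1.map g).map Prod.fst).Nodup) :
    Valid (T1.map g) (T2.map g) := by
  have hinj : ∀ x ∈ T1, ∀ y ∈ T1, g x = g y → x = y := by
    intro x hx y hy hxy
    rw [List.map_map] at hn
    exact List.inj_on_of_nodup_map hn hx hy (congrArg Prod.fst hxy)
  refine ⟨hn, h.perm.map g, by rw [List.length_map]; exact h.len, ?_, ?_, ?_⟩
  · intro e he
    rw [cyc_map, List.mem_map] at he
    obtain ⟨e', he', rfl⟩ := he
    have h1 := h.cl1 e' he'
    unfold o1 i1 at h1 ⊢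
    rw [Prod.map_fst, Prod.map_snd, hg _ (mem_cyc_fst he'), hg _ (mem_cyc_snd he')]
    exact h1
  · intro e he
    rw [cyc_map, List.mem_map] at he
    obtain ⟨e', he', rfl⟩ := he
    have h1 := h.cl2 e' he'
    unfold o2 i2 at h1 ⊢
    rw [Prod.map_fst, Prod.map_snd, hg _ (h.perm.subset (mem_cyc_fst he')),
      hg _ (h.perm.subset (mem_cyc_snd he'))]
    exact h1
  · intro e he
    rw [cyc_map, List.mem_map] at he
    obtain ⟨⟨x, y⟩, he', rfl⟩ := he
    have h1 := h.disj (x, y) he'
    have hx := h.perm.subset (mem_cyc_fst he')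
    have hy := h.perm.subset (mem_cyc_snd he')
    simp only at hx hy
    rw [← Bool.not_eq_true, adjB_iff] at h1
    rw [← Bool.not_eq_true, Prod.map_apply, adjB_iff]
    intro h2
    apply h1
    rw [cyc_map, List.mem_map, List.mem_map] at h2
    rcases h2 with ⟨⟨a, b⟩, hab, h2⟩ | ⟨⟨a, b⟩, hab, h2⟩
    · left
      rw [Prod.map_apply, Prod.mk.injEq] at h2
      rw [← hinj a (mem_cyc_fst hab) x hx h2.1, ← hinj b (mem_cyc_snd hab) y hy h2.2]
      exact hab
    · right
      rw [Prod.map_apply, Prod.mk.injEq] at h2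
      rw [← hinj a (mem_cyc_fst hab) y hy h2.1, ← hinj b (mem_cyc_snd hab) x hx h2.2]
      exact hab

/-- choosing a sublist with prescribed numbers -/
theorem exists_sub {X Λ : Type} [DecidableEq Λ] (f : X → Λ) (T : List X) :
    ∀ (c : Λ → ℕ), (∀ t, c t ≤ cn (T.map f) t) →
      ∃ Z : List X, Z.Sublist T ∧ ∀ t, cn (Z.map f) t = c t := by
  induction T with
  | nil =>
    intro c hc
    exact ⟨[], List.Sublist.refl _, fun t => by have := hc t; simp [cn] at this ⊢; omega⟩
  | cons x T ih =>
    intro c hc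
    by_cases h : c (f x) ≤ cn (T.map f) (f x)
    · obtain ⟨Z, h1, h2⟩ := ih c (by
        intro t
        by_cases ht : t = f x
        · rw [ht]; exact h
        · have := hc t
          rw [List.map_cons, cn_cons_ne _ _ _ ht] at this
          exact this)
      exact ⟨Z, h1.cons _, h2⟩
    · have h0 := hc (f x)
      rw [List.map_cons, cn_cons_self] at h0
      obtain ⟨Z, h1, h2⟩ := ih (Function.update c (f x) (c (f x) - 1)) (by
        intro t
        by_cases ht : t = f x
        · rw [ht, Function.update_self]; omega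
        · have := hc t
          rw [List.map_cons, cn_cons_ne _ _ _ ht] at this
          rw [Function.update_of_ne ht]
          exact this)
      refine ⟨x :: Z, h1.cons_cons _, ?_⟩
      intro t
      have := h2 t
      by_cases ht : t = f x
      · rw [ht] at this ⊢
        rw [Function.update_self] at this
        rw [List.map_cons, cn_cons_self]
        omega
      · rw [Function.update_of_ne ht] at this
        rw [List.map_cons, cn_cons_ne _ _ _ ht]
        exact this

/-- a map sending one list to another -/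
theorem exists_map {X Y : Type} [DecidableEq X] (U : List X) (hU : U.Nodup) :
    ∀ (Z : List Y), Z.length = U.length → ∀ g0 : X → Y, ∃ g : X → Y, U.map g = Z := by
  induction U with
  | nil =>
    intro Z hZ g0
    exact ⟨g0, by rw [List.length_nil] at hZ; rw [List.eq_nil_of_length_eq_zero hZ]; rfl⟩
  | cons u U ih =>
    intro Z hZ g0
    cases Z with
    | nil => simp at hZ
    | cons z Z =>
      rw [List.nodup_cons] at hU
      obtain ⟨g, hg⟩ := ih hU.2 Z (by simpa using hZ) g0
      refine ⟨Function.update g u z, ?_⟩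
      rw [List.map_cons, Function.update_self]
      congr 1
      rw [← hg]
      apply List.map_congr_left
      intro a ha
      rw [Function.update_of_ne]
      rintro rfl
      exact hU.1 ha

/-- transport to other points of the same types -/
theorem Valid.transport {U1 U2 : List (V × Lab k)} (h : Valid U1 U2) (Z : List (V' × Lab k))
    (hZ : (Z.map Prod.fst).Nodup) (hc : ∀ t, cnt Z t = cnt U1 t) :
    ∃ B1 B2 : List (V' × Lab k), Valid B1 B2 ∧ B1.Perm Z := by
  have h1 : (U1.map Prod.snd).Perm (Z.map Prod.snd) := by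
    apply perm_of_cn
    intro t
    exact (hc t).symm
  have h2 : List.Forall₂ (fun (a : Lab k) (z : V' × Lab k) => z.2 = a) (Z.map Prod.snd) Z := by
    rw [List.forall₂_map_left_iff, List.forall₂_same]
    intro z _
    rfl
  obtain ⟨Z', h3, h4⟩ := List.perm_comp_forall₂ h1 h2
  have h5 : Z'.map Prod.snd = U1.map Prod.snd := by
    clear h4 h2 h1
    revert h3
    generalize U1.map Prod.snd = l
    intro h3
    induction h3 with
    | nil => rfl
    | cons hab _ ih => rw [List.map_cons, hab, ih]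
  have hlen : Z'.length = U1.length := by
    have := congrArg List.length h5
    simpa using this
  obtain ⟨z0, hz0⟩ : ∃ z0 : V' × Lab k, z0 ∈ Z' := by
    cases hZ' : Z' with
    | nil =>
      rw [hZ'] at hlen
      have := h.len
      simp at hlen
      omega
    | cons a l => exact ⟨a, by simp⟩
  obtain ⟨g, hg⟩ := exists_map U1 (List.Nodup.of_map _ h.nodup) Z' hlen (fun _ => z0)
  refine ⟨U1.map g, U2.map g, h.map g ?_ ?_, ?_⟩
  · have h6 : (U1.map g).map Prod.snd = U1.map Prod.snd := by rw [hg, h5]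
    rw [List.map_map] at h6
    intro x hx
    exact List.map_inj_left.1 h6 x hx
  · rw [hg]
    exact (h4.map Prod.fst).nodup_iff.2 hZ
  · rw [hg]
    exact h4

/-- replacing the points by numbers -/
theorem Valid.toNat {T1 T2 : List (V × Lab k)} (h : Valid T1 T2) :
    ∃ U1 U2 : List (ℕ × Lab k), Valid U1 U2 ∧ ∀ t, cnt U1 t = cnt T1 t := by
  refine ⟨T1.map (fun x => ((T1.map Prod.fst).idxOf x.1, x.2)),
    T2.map (fun x => ((T1.map Prod.fst).idxOf x.1, x.2)),
    h.map (fun x => ((T1.map Prod.fst).idxOf x.1, x.2)) (fun _ _ => rfl) ?_, ?_⟩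
  · rw [List.map_map]
    have h1 : T1.map (Prod.fst ∘ fun x => ((T1.map Prod.fst).idxOf x.1, x.2)) =
        (T1.map Prod.fst).map (fun v => (T1.map Prod.fst).idxOf v) := by
      rw [List.map_map]
      rfl
    rw [h1]
    refine (List.nodup_map_iff_inj_on h.nodup).2 ?_
    intro v hv w _ hvw
    exact (List.idxOf_inj hv).1 hvw
  · intro t
    unfold cnt
    rw [List.map_map]
    rfl

theorem sum_cnt (T : List (V × Lab k)) : ∑ t, cnt T t = T.length := by
  unfold cnt
  rw [sum_cn, List.length_map]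

/-- Dickson's lemma: bounded bases. -/
theorem dickson_nat (k : ℕ) : ∃ N : ℕ, ∀ U1 U2 : List (ℕ × Lab k), Valid U1 U2 →
    ∃ C1 C2 : List (ℕ × Lab k), Valid C1 C2 ∧ (∀ t, cnt C1 t ≤ cnt U1 t) ∧
      (∀ t, min (cnt C1 t) 16 = min (cnt U1 t) 16) ∧ C1.length ≤ N := by
  by_contra hcon
  push Not at hcon
  choose u1 u2 hv hu using hcon
  let tr : ℕ → (Lab k → Fin 17) := fun n t => ⟨min (cnt (u1 n) t) 16, by omega⟩
  obtain ⟨y, hy⟩ := Finite.exists_infinite_fiber tr
  classical
  let f : ℕ ↪o ℕ := Nat.orderEmbeddingOfSet (tr ⁻¹' {y})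
  have hf : ∀ n, tr (f n) = y := by
    intro n
    have h0 : f n ∈ Set.range f := ⟨n, rfl⟩
    rw [Nat.orderEmbeddingOfSet_range] at h0
    exact h0
  have hpwo : (Set.univ : Set (Lab k → ℕ)).IsPWO := Set.isPWO_of_wellQuasiOrderedLE _
  obtain ⟨g, hg⟩ := hpwo.exists_monotone_subseq (f := fun n => cnt (u1 (f n)))
    (fun _ => Set.mem_univ _)
  let N := (u1 (f (g 0))).length
  have h1 : N ≤ f (g N) := by
    have h2 : N ≤ g N := g.strictMono.le_apply
    have h3 : g N ≤ f (g N) := f.strictMono.le_apply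
    omega
  have h2 := hu (f (g N)) (u1 (f (g 0))) (u2 (f (g 0))) (hv _) (fun t => hg (Nat.zero_le N) t) (by
    intro t
    have h3 : tr (f (g 0)) t = tr (f (g N)) t := by rw [hf, hf]
    exact congrArg Fin.val h3)
  omega

theorem base_exists (k : ℕ) : ∃ N : ℕ, ∀ (V : Type) [DecidableEq V] (T1 T2 : List (V × Lab k)),
    Valid T1 T2 → ∃ B1 B2 Z : List (V × Lab k), Valid B1 B2 ∧ B1.length ≤ N ∧ Z.Sublist T1 ∧
      B1.Perm Z ∧ ∀ t, min (cnt B1 t) 16 = min (cnt T1 t) 16 := by
  obtain ⟨N, hN⟩ := dickson_nat k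
  refine ⟨N, ?_⟩
  intro V _ T1 T2 hT
  obtain ⟨U1, U2, hU, hc⟩ := hT.toNat
  obtain ⟨C1, C2, hC, h1, h2, h3⟩ := hN U1 U2 hU
  obtain ⟨Z, hZ, hZc⟩ := exists_sub Prod.snd T1 (cnt C1) (fun t => by
    have := h1 t
    rw [hc t] at this
    exact this)
  have hZn : (Z.map Prod.fst).Nodup := hT.nodup.sublist (hZ.map _)
  obtain ⟨B1, B2, hB, hBZ⟩ := hC.transport Z hZn hZc
  have hcB : ∀ t, cnt B1 t = cnt C1 t := by
    intro t
    rw [← hZc t]
    exact cn_perm (hBZ.map _) t
  refine ⟨B1, B2, Z, hB, ?_, hZ, hBZ, ?_⟩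
  · rw [← sum_cnt, Finset.sum_congr rfl (fun t _ => hcB t), sum_cnt]
    exact h3
  · intro t
    rw [hcB, h2, hc]

end Pool.Agent.Helper62.Psp
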