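import Mathlib
import Pool.Agent.Helper62.PspDickson

namespace Pool.Agent.Helper62.Psp

variable {V : Type} [DecidableEq V] {k : ℕ}

/-- all labels -/
def allLabs (k : ℕ) : List (Lab k) :=
  (List.finRange k).flatMap (fun a => (List.finRange k).flatMap (fun b =>
    (List.finRange k).flatMap (fun c => (List.finRange k).map (fun d => (a, b, c, d)))))

theorem mem_allLabs (t : Lab k) : t ∈ allLabs k := by
  obtain ⟨a, b, c, d⟩ := t
  simp [allLabs]

/-- the numbers of points of all types -/
def key (a : List (V × Lab k)) : List ℕ :=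
  (allLabs k).map (fun t => (a.filter (fun x => decide (x.2 = t))).length)

theorem filter_length_eq (a : List (V × Lab k)) (t : Lab k) :
    (a.filter (fun x => decide (x.2 = t))).length = cnt a t := by
  unfold cnt cn
  rw [List.countP_map, ← List.countP_eq_length_filter]
  rfl

theorem key_eq_iff (a b : List (V × Lab k)) : key a = key b ↔ ∀ t, cnt a t = cnt b t := by
  unfold key
  constructor
  · intro h t
    have := List.map_inj_left.1 h t (mem_allLabs t)
    rwa [filter_length_eq, filter_length_eq] at this
  · intro h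
    apply List.map_congr_left
    intro t _
    rw [filter_length_eq, filter_length_eq, h]

theorem cnt_cons (x : V × Lab k) (a : List (V × Lab k)) (t : Lab k) :
    cnt (x :: a) t = cnt a t + if t = x.2 then 1 else 0 := by
  unfold cnt
  rw [List.map_cons]
  by_cases h : t = x.2
  · rw [h, cn_cons_self, if_pos rfl]
  · rw [cn_cons_ne _ _ _ h, if_neg h]
    rfl

theorem cnt_append (a b : List (V × Lab k)) (t : Lab k) : cnt (a ++ b) t = cnt a t + cnt b t := by
  unfold cnt cn
  rw [List.map_append, List.countP_append]

theorem cnt_perm {a b : List (V × Lab k)} (h : a.Perm b) (t : Lab k) : cnt a t = cnt b t :=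
  cn_perm (h.map _) t

/-- total weight -/
def wsum (w : V × Lab k → ℚ) (l : List (V × Lab k)) : ℚ := (l.map w).sum

/-! ### Dynamic programming over the numbers of points of the types -/

section dp

variable (geB : List (V × Lab k) → List (V × Lab k) → Bool)

def ins (tab : List (List (V × Lab k))) (c : List (V × Lab k)) : List (List (V × Lab k)) :=
  if tab.any (fun a => decide (key a = key c) && geB a c) then tab
  else c :: tab.filter (fun a => !decide (key a = key c))

def dedup (l : List (List (V × Lab k))) : List (List (V × Lab k)) := l.foldl (ins geB) []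

def ext (S : List (Lab k)) (tab : List (List (V × Lab k))) (p : V) : List (List (V × Lab k)) :=
  tab.flatMap (fun a => S.map (fun t => (p, t) :: a))

def dp (S : List (Lab k)) (R : List V) : List (List (V × Lab k)) :=
  R.foldl (fun tab p => dedup geB (ext S tab p)) [[]]

variable {geB} {w : V × Lab k → ℚ} (hge : ∀ a b, geB a b = true ↔ wsum w b ≤ wsum w a)

include hge in
theorem ins_spec (tab : List (List (V × Lab k))) (c : List (V × Lab k)) :
    (∀ x ∈ ins geB tab c, x ∈ tab ∨ x = c) ∧
    (∀ x, x ∈ tab ∨ x = c → ∃ a ∈ ins geB tab c, key a = key x ∧ wsum w x ≤ wsum w a) := by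
  unfold ins
  split_ifs with h
  · refine ⟨fun x hx => Or.inl hx, ?_⟩
    rintro x (hx | rfl)
    · exact ⟨x, hx, rfl, le_rfl⟩
    · rw [List.any_eq_true] at h
      obtain ⟨a, ha, h1⟩ := h
      rw [Bool.and_eq_true, decide_eq_true_eq, hge] at h1
      exact ⟨a, ha, h1.1, h1.2⟩
  · constructor
    · intro x hx
      rw [List.mem_cons, List.mem_filter] at hx
      rcases hx with hx | hx
      · exact Or.inr hx
      · exact Or.inl hx.1
    · rintro x (hx | rfl)
      · by_cases hk : key x = key c
        · refine ⟨c, List.mem_cons_self, hk.symm, ?_⟩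
          by_contra hlt
          apply h
          rw [List.any_eq_true]
          refine ⟨x, hx, ?_⟩
          rw [Bool.and_eq_true, decide_eq_true_eq, hge]
          exact ⟨hk, (not_le.1 hlt).le⟩
        · refine ⟨x, ?_, rfl, le_rfl⟩
          rw [List.mem_cons, List.mem_filter]
          exact Or.inr ⟨hx, by simp [hk]⟩
      · exact ⟨x, List.mem_cons_self, rfl, le_rfl⟩

theorem ins_nodup (tab : List (List (V × Lab k))) (c : List (V × Lab k))
    (h : (tab.map key).Nodup) (hge' : ∀ a, geB a a = true) : ((ins geB tab c).map key).Nodup := by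
  unfold ins
  split_ifs with h1
  · exact h
  · rw [List.map_cons, List.nodup_cons]
    refine ⟨?_, h.sublist (List.filter_sublist.map _)⟩
    intro h2
    rw [List.mem_map] at h2
    obtain ⟨a, ha, h3⟩ := h2
    rw [List.mem_filter] at ha
    simp [h3] at ha

include hge in
theorem foldl_ins_spec (l : List (List (V × Lab k))) : ∀ (tab : List (List (V × Lab k))),
    (∀ x ∈ l.foldl (ins geB) tab, x ∈ tab ∨ x ∈ l) ∧
    (∀ x, x ∈ tab ∨ x ∈ l → ∃ a ∈ l.foldl (ins geB) tab, key a = key x ∧ wsum w x ≤ wsum w a) := by
  induction l with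
  | nil =>
    intro tab
    exact ⟨fun x hx => Or.inl hx, fun x hx => ⟨x, by simpa using hx, rfl, le_rfl⟩⟩
  | cons c l ih =>
    intro tab
    obtain ⟨h1, h2⟩ := ih (ins geB tab c)
    obtain ⟨h3, h4⟩ := ins_spec hge tab c
    rw [List.foldl_cons]
    constructor
    · intro x hx
      rcases h1 x hx with h | h
      · rcases h3 x h with h | h
        · exact Or.inl h
        · right; rw [h]; exact List.mem_cons_self
      · exact Or.inr (List.mem_cons_of_mem _ h)
    · intro x hx
      have h5 : (x ∈ tab ∨ x = c) ∨ x ∈ l := by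
        rcases hx with h | h
        · exact Or.inl (Or.inl h)
        · rw [List.mem_cons] at h
          rcases h with h | h
          · exact Or.inl (Or.inr h)
          · exact Or.inr h
      rcases h5 with h | h
      · obtain ⟨a, ha, h6, h7⟩ := h4 x h
        obtain ⟨b, hb, h8, h9⟩ := h2 a (Or.inl ha)
        exact ⟨b, hb, h8.trans h6, h7.trans h9⟩
      · exact h2 x (Or.inr h)

theorem foldl_ins_nodup (l : List (List (V × Lab k))) (hge' : ∀ a, geB a a = true) :
    ∀ (tab : List (List (V × Lab k))), (tab.map key).Nodup →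
    ((l.foldl (ins geB) tab).map key).Nodup := by
  induction l with
  | nil => intro tab h; exact h
  | cons c l ih =>
    intro tab h
    exact ih _ (ins_nodup tab c h hge')

theorem wsum_cons (x : V × Lab k) (a : List (V × Lab k)) : wsum w (x :: a) = w x + wsum w a := by
  unfold wsum
  rw [List.map_cons, List.sum_cons]

theorem wsum_append (a b : List (V × Lab k)) : wsum w (a ++ b) = wsum w a + wsum w b := by
  unfold wsum
  rw [List.map_append, List.sum_append]

theorem wsum_perm {a b : List (V × Lab k)} (h : a.Perm b) : wsum w a = wsum w b :=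
  (h.map w).sum_eq

include hge in
theorem dp_spec (S : List (Lab k)) (R : List V) :
    (∀ a ∈ dp geB S R, a.map Prod.fst = R.reverse ∧ ∀ x ∈ a, x.2 ∈ S) ∧
    (∀ f : V → Lab k, (∀ p ∈ R, f p ∈ S) → ∃ a ∈ dp geB S R,
      key a = key (R.reverse.map (fun p => (p, f p))) ∧
      wsum w (R.reverse.map (fun p => (p, f p))) ≤ wsum w a) := by
  induction R using List.reverseRecOn with
  | nil =>
    unfold dp
    simp
  | append_singleton R p ih =>
    obtain ⟨ih1, ih2⟩ := ih
    have h1 : dp geB S (R ++ [p]) = dedup geB (ext S (dp geB S R) p) := by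
      unfold dp
      rw [List.foldl_append]
      rfl
    obtain ⟨h2, h3⟩ := foldl_ins_spec hge (ext S (dp geB S R) p) []
    rw [h1]
    constructor
    · intro a ha
      have h4 := h2 a ha
      simp only [List.not_mem_nil, false_or] at h4
      unfold ext at h4
      rw [List.mem_flatMap] at h4
      obtain ⟨b, hb, h5⟩ := h4
      rw [List.mem_map] at h5
      obtain ⟨t, ht, rfl⟩ := h5
      obtain ⟨h6, h7⟩ := ih1 b hb
      constructor
      · rw [List.map_cons, h6, List.reverse_append]
        rfl
      · intro x hx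
        rw [List.mem_cons] at hx
        rcases hx with rfl | hx
        · exact ht
        · exact h7 x hx
    · intro f hf
      obtain ⟨b, hb, h4, h5⟩ := ih2 f (fun q hq => hf q (List.mem_append_left _ hq))
      have h6 : (R ++ [p]).reverse.map (fun p => (p, f p)) =
          (p, f p) :: R.reverse.map (fun p => (p, f p)) := by
        rw [List.reverse_append]
        rfl
      obtain ⟨a, ha, h7, h8⟩ := h3 ((p, f p) :: b) (Or.inr (by
        unfold ext
        rw [List.mem_flatMap]
        exact ⟨b, hb, List.mem_map.2 ⟨f p, hf p (by simp), rfl⟩⟩))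
      refine ⟨a, ha, ?_, ?_⟩
      · rw [h7, h6, key_eq_iff]
        intro t
        rw [cnt_cons, cnt_cons, (key_eq_iff _ _).1 h4]
      · rw [h6]
        refine le_trans ?_ h8
        rw [wsum_cons, wsum_cons]
        linarith

end dp

/-! ### The algorithm -/

/-- lists of length at most `N` -/
def words {A : Type} : ℕ → List A → List (List A)
  | 0, _ => [[]]
  | n + 1, A => [] :: (words n A).flatMap (fun u => A.map (fun a => a :: u))

theorem mem_words {A : Type} (N : ℕ) (l : List A) (u : List A) (h1 : u.length ≤ N)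
    (h2 : ∀ x ∈ u, x ∈ l) : u ∈ words N l := by
  induction N generalizing u with
  | zero =>
    rw [List.eq_nil_of_length_eq_zero (Nat.le_zero.1 h1)]
    simp [words]
  | succ N ih =>
    cases u with
    | nil => simp [words]
    | cons a u =>
      unfold words
      rw [List.mem_cons, List.mem_flatMap]
      right
      exact ⟨u, ih u (by rw [List.length_cons] at h1; omega)
        (fun x hx => h2 x (List.mem_cons_of_mem _ hx)),
        List.mem_map.2 ⟨a, h2 a List.mem_cons_self, rfl⟩⟩

def lpts (P : List V) : List (V × Lab k) := P.flatMap (fun p => (allLabs k).map (fun t => (p, t)))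

def bases (N : ℕ) (P : List V) : List (List (V × Lab k) × List (V × Lab k)) :=
  (words N (lpts P)).flatMap (fun T1 => (words N (lpts P)).map (fun T2 => (T1, T2)))

def allowed (B : List (V × Lab k)) : List (Lab k) :=
  (allLabs k).filter (fun t => decide (16 ≤ (B.filter (fun x => decide (x.2 = t))).length))

def rest (P : List V) (B : List (V × Lab k)) : List V :=
  P.filter (fun p => !memB (B.map Prod.fst) p)

def build (B : List (V × Lab k) × List (V × Lab k)) (asg : List (V × Lab k)) :
    List (V × Lab k) × List (V × Lab k) :=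
  ((euler i1 o1 B.1 asg).1, repair i2 o2 (euler i1 o1 B.1 asg).1 (euler i2 o2 B.2 asg).1)

def candidates (geB : List (V × Lab k) → List (V × Lab k) → Bool) (N : ℕ) (P : List V) :
    List (List (V × Lab k) × List (V × Lab k)) :=
  (bases N P).flatMap (fun B => (dp geB (allowed B.1) (rest P B.1)).map (fun asg => build B asg))

def validB (P : List V) (T : List (V × Lab k) × List (V × Lab k)) : Bool :=
  P.all (fun p => memB (T.1.map Prod.fst) p) && (decide (T.1.length = P.length) &&
  (T.1.all (fun x => memB T.2 x) && (decide (T.2.length = T.1.length) &&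
  (decide (3 ≤ T.1.length) && (clB i1 o1 T.1 && (clB i2 o2 T.2 &&
  (cyc T.2).all (fun e => !adjB T.1 e)))))))

theorem validB_iff (P : List V) (hP : P.Nodup) (T : List (V × Lab k) × List (V × Lab k)) :
    validB P T = true ↔ Valid T.1 T.2 ∧ (T.1.map Prod.fst).Perm P := by
  unfold validB
  simp only [Bool.and_eq_true, List.all_eq_true, memB_iff, decide_eq_true_eq, clB_iff,
    Bool.not_eq_true']
  constructor
  · rintro ⟨h1, h2, h3, h4, h5, h6, h7, h8⟩
    have h9 : P.Perm (T.1.map Prod.fst) := by
      apply (List.subperm_of_subset hP h1).perm_of_length_le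
      rw [List.length_map, h2]
    have h10 : (T.1.map Prod.fst).Nodup := h9.nodup_iff.1 hP
    have h11 : T.1.Perm T.2 := by
      apply (List.subperm_of_subset (List.Nodup.of_map _ h10) h3).perm_of_length_le
      rw [h4]
    exact ⟨⟨h10, h11.symm, h5, h6, h7, h8⟩, h9.symm⟩
  · rintro ⟨h1, h2⟩
    refine ⟨fun p hp => h2.symm.subset hp, ?_, fun x hx => h1.perm.symm.subset hx,
      h1.perm.length_eq, h1.len, h1.cl1, h1.cl2, h1.disj⟩
    rw [← h2.length_eq, List.length_map]

def best (geB : List (V × Lab k) → List (V × Lab k) → Bool)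
    (l : List (List (V × Lab k) × List (V × Lab k))) : List (V × Lab k) × List (V × Lab k) :=
  l.foldl (fun b c => if geB b.1 c.1 then b else c) (headOr l ([], []))

/-- The algorithm: pairs of labelled tours -/
def algoL (geB : List (V × Lab k) → List (V × Lab k) → Bool) (N : ℕ) (P : List V) :
    List (V × Lab k) × List (V × Lab k) :=
  best geB ((candidates geB N P).filter (fun T => validB P T))

theorem best_spec {geB : List (V × Lab k) → List (V × Lab k) → Bool} {w : V × Lab k → ℚ}
    (hge : ∀ a b, geB a b = true ↔ wsum w b ≤ wsum w a)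
    (l : List (List (V × Lab k) × List (V × Lab k))) (hl : l ≠ []) :
    best geB l ∈ l ∧ ∀ c ∈ l, wsum w c.1 ≤ wsum w (best geB l).1 := by
  have key : ∀ (m : List (List (V × Lab k) × List (V × Lab k))) (b : List (V × Lab k) × List (V × Lab k)),
      (m.foldl (fun b c => if geB b.1 c.1 then b else c) b = b ∨
        m.foldl (fun b c => if geB b.1 c.1 then b else c) b ∈ m) ∧
      wsum w b.1 ≤ wsum w (m.foldl (fun b c => if geB b.1 c.1 then b else c) b).1 ∧
      ∀ c ∈ m, wsum w c.1 ≤ wsum w (m.foldl (fun b c => if geB b.1 c.1 then b else c) b).1 := by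
    intro m
    induction m with
    | nil => intro b; simp
    | cons a m ih =>
      intro b
      rw [List.foldl_cons]
      by_cases h : geB b.1 a.1 = true
      · rw [if_pos h]
        obtain ⟨h1, h2, h3⟩ := ih b
        refine ⟨h1.imp_right (List.mem_cons_of_mem _), h2, ?_⟩
        intro c hc
        rw [List.mem_cons] at hc
        rcases hc with rfl | hc
        · exact ((hge _ _).1 h).trans h2
        · exact h3 c hc
      · rw [if_neg h]
        obtain ⟨h1, h2, h3⟩ := ih a
        have h4 : wsum w b.1 ≤ wsum w a.1 := by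
          rw [hge] at h
          exact (not_le.1 h).le
        refine ⟨Or.inr ?_, h4.trans h2, ?_⟩
        · rcases h1 with h1 | h1
          · rw [h1]; exact List.mem_cons_self
          · exact List.mem_cons_of_mem _ h1
        · intro c hc
          rw [List.mem_cons] at hc
          rcases hc with rfl | hc
          · exact h2
          · exact h3 c hc
  obtain ⟨a, m, rfl⟩ := List.exists_cons_of_ne_nil hl
  obtain ⟨h1, _, h3⟩ := key (a :: m) a
  refine ⟨?_, h3⟩
  rcases h1 with h1 | h1
  · show (a :: m).foldl (fun b c => if geB b.1 c.1 then b else c) a ∈ a :: m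
    rw [h1]
    exact List.mem_cons_self
  · exact h1

/-- Construction of the tours from a base and an assignment. -/
theorem build_spec {B1 B2 asg : List (V × Lab k)} (hB : Valid B1 B2)
    (hn : ((B1 ++ asg).map Prod.fst).Nodup)
    (hall : ∀ x ∈ asg, 16 ≤ cnt B1 x.2)
    (hb1 : ((B1 ++ asg).map o1).Perm ((B1 ++ asg).map i1))
    (hb2 : ((B1 ++ asg).map o2).Perm ((B1 ++ asg).map i2)) :
    Valid (build (B1, B2) asg).1 (build (B1, B2) asg).2 ∧
      (build (B1, B2) asg).1.Perm (B1 ++ asg) := by
  have hex : ∀ t, 16 ≤ cnt B1 t → ∃ x ∈ B1, x.2 = t := by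
    intro t ht
    unfold cnt cn at ht
    have h1 : 0 < (B1.map Prod.snd).countP (fun x => decide (x = t)) := by omega
    rw [List.countP_pos_iff] at h1
    obtain ⟨a, ha, h2⟩ := h1
    rw [List.mem_map] at ha
    obtain ⟨x, hx, rfl⟩ := ha
    exact ⟨x, hx, by simpa using h2⟩
  have hB1ne : B1 ≠ [] := by
    rintro rfl
    have := hB.len
    simp at this
  have hB2ne : B2 ≠ [] := by
    rintro rfl
    exact hB1ne (List.Perm.nil_eq hB.perm).symm
  have hp2 : (B2 ++ asg).Perm (B1 ++ asg) := hB.perm.append_right _
  obtain ⟨e1, e2, e3⟩ := euler_spec i1 o1 B1 asg hB1ne hB.cl1 hb1 (fun r hr => by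
    obtain ⟨x, hx, h1⟩ := hex _ (hall r hr)
    exact ⟨x, hx, by unfold i1; rw [h1]⟩)
  obtain ⟨f1, f2, f3⟩ := euler_spec i2 o2 B2 asg hB2ne hB.cl2
    (((hp2.map _).trans hb2).trans (hp2.map _).symm) (fun r hr => by
    obtain ⟨x, hx, h1⟩ := hex _ (hall r hr)
    exact ⟨x, hB.perm.symm.subset hx, by unfold i2; rw [h1]⟩)
  set T1 := (euler i1 o1 B1 asg).1 with hT1
  set T2 := (euler i2 o2 B2 asg).1 with hT2
  have hn1 : (T1.map Prod.fst).Nodup := (e1.map _).nodup_iff.2 hn
  have hn2 : (T2.map Prod.fst).Nodup := ((f1.trans hp2).map _).nodup_iff.2 hn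
  have hcount : ∀ t, cnt B1 t ≤ cnt T2 t := by
    intro t
    rw [cnt_perm (f1.trans hp2), cnt_append]
    omega
  have hcom : ∀ e ∈ cyc T2, adjB T1 e = true → 16 ≤ T2.countP (fun x => decide (o2 x = o2 e.1)) := by
    rintro ⟨x, y⟩ he hadj
    have hkey : x ∈ asg ∨ y ∈ asg := by
      by_contra hcon
      push Not at hcon
      have h1 : (x, y) ∈ cyc B2 := by
        rcases f3 _ he with h | h | h
        · exact h
        · exact absurd h hcon.1
        · exact absurd h hcon.2
      have h2 := hB.disj _ h1
      rw [← Bool.not_eq_true, adjB_iff] at h2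
      rw [adjB_iff] at hadj
      rcases hadj with h | h
      · rcases e3 _ h with h3 | h3 | h3
        · exact h2 (Or.inl h3)
        · exact hcon.1 h3
        · exact hcon.2 h3
      · rcases e3 _ h with h3 | h3 | h3
        · exact h2 (Or.inr h3)
        · exact hcon.2 h3
        · exact hcon.1 h3
    rcases hkey with hx | hy
    · have h1 := hall x hx
      have h2 := hcount x.2
      have h3 : cnt T2 x.2 ≤ T2.countP (fun z => decide (o2 z = o2 x)) := by
        unfold cnt cn
        rw [List.countP_map]
        apply List.countP_mono_left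
        intro z _ hz
        simp only [Function.comp_apply, decide_eq_true_eq] at hz ⊢
        unfold o2
        rw [hz]
      show 16 ≤ T2.countP (fun z => decide (o2 z = o2 x))
      omega
    · have h1 := hall y hy
      have h2 := hcount y.2
      have h3 : cnt T2 y.2 ≤ T2.countP (fun z => decide (i2 z = i2 y)) := by
        unfold cnt cn
        rw [List.countP_map]
        apply List.countP_mono_left
        intro z _ hz
        simp only [Function.comp_apply, decide_eq_true_eq] at hz ⊢
        unfold i2
        rw [hz]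
      have h4 : T2.countP (fun z => decide (i2 z = i2 y)) = T2.countP (fun z => decide (o2 z = i2 y)) := by
        have h5 := (balanced_of_closed i2 o2 T2 f2).countP_eq (fun z => decide (z = i2 y))
        rw [List.countP_map, List.countP_map] at h5
        exact h5.symm
      have h5 : o2 x = i2 y := f2 _ he
      show 16 ≤ T2.countP (fun z => decide (o2 z = o2 x))
      rw [h5]
      omega
  obtain ⟨g1, g2, g3⟩ := repair_spec i2 o2 T1 T2 (List.Nodup.of_map _ hn1)
    (List.Nodup.of_map _ hn2) f2 hcom
  refine ⟨⟨hn1, ?_, ?_, e2, g2, g3⟩, e1⟩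
  · exact (g1.trans (f1.trans hp2)).trans e1.symm
  · show 3 ≤ T1.length
    rw [e1.length_eq, List.length_append]
    have := hB.len
    omega

/-- The algorithm finds labelled tours of maximum total weight. -/
theorem algoL_spec (k : ℕ) : ∃ N : ℕ, ∀ (V : Type) [DecidableEq V]
    (geB : List (V × Lab k) → List (V × Lab k) → Bool) (w : V × Lab k → ℚ),
    (∀ a b, geB a b = true ↔ wsum w b ≤ wsum w a) → ∀ (P : List V), P.Nodup →
    ∀ T1 T2 : List (V × Lab k), Valid T1 T2 → (T1.map Prod.fst).Perm P →
      Valid (algoL geB N P).1 (algoL geB N P).2 ∧ ((algoL geB N P).1.map Prod.fst).Perm P ∧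
      wsum w T1 ≤ wsum w (algoL geB N P).1 := by
  obtain ⟨N, hN⟩ := base_exists k
  refine ⟨N, ?_⟩
  intro V _ geB w hge P hP T1 T2 hT hTP
  obtain ⟨B1, B2, Z, hB, hlen, hZ, hBZ, hmin⟩ := hN V T1 T2 hT
  have hBT : ∀ x ∈ B1, x ∈ T1 := fun x hx => hZ.subset (hBZ.subset hx)
  have hinj : ∀ x ∈ T1, ∀ y ∈ T1, x.1 = y.1 → x = y := fun x hx y hy h =>
    List.inj_on_of_nodup_map hT.nodup hx hy h
  -- labels of the points
  obtain ⟨f, hf⟩ : ∃ f : V → Lab k, ∀ x ∈ T1, f x.1 = x.2 := by
    classical
    obtain ⟨x0, hx0⟩ : ∃ x, x ∈ T1 := by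
      apply List.exists_mem_of_length_pos
      have := hT.len
      omega
    refine ⟨fun p => if h : ∃ x ∈ T1, x.1 = p then h.choose.2 else x0.2, ?_⟩
    intro x hx
    have h : ∃ y ∈ T1, y.1 = x.1 := ⟨x, hx, rfl⟩
    simp only [dif_pos h]
    rw [hinj _ h.choose_spec.1 x hx h.choose_spec.2]
  set asg0 : List (V × Lab k) := (rest P B1).reverse.map (fun p => (p, f p)) with hasg0
  have hmem0 : ∀ x, x ∈ asg0 ↔ x ∈ T1 ∧ x.1 ∉ B1.map Prod.fst := by
    intro x
    rw [hasg0, List.mem_map]
    constructor
    · rintro ⟨p, hp, rfl⟩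
      rw [List.mem_reverse] at hp
      unfold rest at hp
      rw [List.mem_filter, Bool.not_eq_true', ← Bool.not_eq_true, memB_iff] at hp
      have h1 := hTP.symm.subset hp.1
      rw [List.mem_map] at h1
      obtain ⟨y, hy, h2⟩ := h1
      refine ⟨?_, hp.2⟩
      rw [← h2, hf y hy]
      exact hy
    · rintro ⟨h1, h2⟩
      refine ⟨x.1, ?_, ?_⟩
      · rw [List.mem_reverse]
        unfold rest
        rw [List.mem_filter, Bool.not_eq_true', ← Bool.not_eq_true, memB_iff]
        exact ⟨hTP.subset (List.mem_map_of_mem h1), h2⟩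
      · rw [hf x h1]
  have hrn : (rest P B1).reverse.Nodup := by
    rw [List.nodup_reverse]
    exact hP.sublist List.filter_sublist
  have hmapfst : ∀ (R : List V), (R.map (fun p => (p, f p))).map Prod.fst = R := by
    intro R
    rw [List.map_map]
    exact List.map_id R
  have hn0 : asg0.Nodup := by
    apply List.Nodup.of_map Prod.fst
    rw [hasg0, hmapfst]
    exact hrn
  have hperm : T1.Perm (B1 ++ asg0) := by
    rw [List.perm_ext_iff_of_nodup (List.Nodup.of_map _ hT.nodup)]
    · intro x
      rw [List.mem_append, hmem0]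
      constructor
      · intro hx
        by_cases h : x.1 ∈ B1.map Prod.fst
        · left
          rw [List.mem_map] at h
          obtain ⟨y, hy, h1⟩ := h
          rw [← hinj y (hBT y hy) x hx h1]
          exact hy
        · exact Or.inr ⟨hx, h⟩
      · rintro (hx | hx)
        · exact hBT x hx
        · exact hx.1
    · rw [List.nodup_append]
      refine ⟨List.Nodup.of_map _ hB.nodup, hn0, ?_⟩
      intro x hx y hy hxy
      rw [hmem0] at hy
      apply hy.2
      rw [← hxy]
      exact List.mem_map_of_mem hx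
  have hallowed : ∀ t, t ∈ allowed B1 ↔ 16 ≤ cnt B1 t := by
    intro t
    unfold allowed
    rw [List.mem_filter, decide_eq_true_eq, filter_length_eq]
    exact ⟨fun h => h.2, fun h => ⟨mem_allLabs t, h⟩⟩
  have hfall : ∀ p ∈ rest P B1, f p ∈ allowed B1 := by
    intro p hp
    rw [hallowed]
    have h1 : (p, f p) ∈ asg0 := by
      rw [hasg0, List.mem_map]
      exact ⟨p, List.mem_reverse.2 hp, rfl⟩
    have h2 : 0 < cnt asg0 (f p) := by
      unfold cnt cn
      rw [List.countP_pos_iff]
      exact ⟨f p, List.mem_map.2 ⟨_, h1, rfl⟩, by simp⟩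
    have h3 := hmin (f p)
    rw [cnt_perm hperm, cnt_append] at h3
    omega
  obtain ⟨hd1, hd2⟩ := dp_spec hge (allowed B1) (rest P B1)
  obtain ⟨asg, hasg, hk, hw⟩ := hd2 f hfall
  obtain ⟨ha1, ha2⟩ := hd1 asg hasg
  have hsnd : (asg.map Prod.snd).Perm (asg0.map Prod.snd) := perm_of_cn ((key_eq_iff _ _).1 hk)
  have hfst : (asg.map Prod.fst) = asg0.map Prod.fst := by rw [ha1, hasg0, hmapfst]
  have hsnd' : ((B1 ++ asg).map Prod.snd).Perm (T1.map Prod.snd) := by
    rw [List.map_append]
    refine (hsnd.append_left _).trans ?_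
    rw [← List.map_append]
    exact (hperm.map _).symm
  have hlabmap : ∀ (g : Lab k → Fin k) (l : List (V × Lab k)), l.map (fun x => g x.2) =
      (l.map Prod.snd).map g := by
    intro g l
    rw [List.map_map]
    rfl
  have hb1 : ((B1 ++ asg).map o1).Perm ((B1 ++ asg).map i1) := by
    have h1 := balanced_of_closed i1 o1 T1 hT.cl1
    have h2 : ((B1 ++ asg).map o1).Perm (T1.map o1) := by
      have := hsnd'.map (fun t : Lab k => t.2.1)
      rw [← hlabmap, ← hlabmap] at this
      exact this
    have h3 : ((B1 ++ asg).map i1).Perm (T1.map i1) := by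
      have := hsnd'.map (fun t : Lab k => t.1)
      rw [← hlabmap, ← hlabmap] at this
      exact this
    exact (h2.trans h1).trans h3.symm
  have hb2 : ((B1 ++ asg).map o2).Perm ((B1 ++ asg).map i2) := by
    have h1 := balanced_of_closed i2 o2 T2 hT.cl2
    have h2 : ((B1 ++ asg).map o2).Perm (T1.map o2) := by
      have := hsnd'.map (fun t : Lab k => t.2.2.2)
      rw [← hlabmap, ← hlabmap] at this
      exact this
    have h3 : ((B1 ++ asg).map i2).Perm (T1.map i2) := by
      have := hsnd'.map (fun t : Lab k => t.2.2.1)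
      rw [← hlabmap, ← hlabmap] at this
      exact this
    exact ((h2.trans (hT.perm.map _).symm).trans h1).trans ((hT.perm.map _).trans h3.symm)
  have hnn : ((B1 ++ asg).map Prod.fst).Nodup := by
    rw [List.map_append, hfst, ← List.map_append]
    exact (hperm.map _).nodup_iff.1 hT.nodup
  obtain ⟨hc1, hc2⟩ := build_spec hB hnn (fun x hx => (hallowed _).1 (ha2 x hx)) hb1 hb2
  have hcP : ((build (B1, B2) asg).1.map Prod.fst).Perm P := by
    refine (hc2.map _).trans ?_
    rw [List.map_append, hfst, ← List.map_append]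
    exact (hperm.map _).symm.trans hTP
  -- the candidate
  have hlpts : ∀ x ∈ B1, x ∈ lpts (k := k) P := by
    intro x hx
    unfold lpts
    rw [List.mem_flatMap]
    exact ⟨x.1, hTP.subset (List.mem_map_of_mem (hBT x hx)), List.mem_map.2 ⟨x.2, mem_allLabs _, rfl⟩⟩
  have hcand : build (B1, B2) asg ∈ (candidates geB N P).filter (fun T => validB P T) := by
    rw [List.mem_filter, validB_iff P hP]
    refine ⟨?_, hc1, hcP⟩
    unfold candidates
    rw [List.mem_flatMap]
    refine ⟨(B1, B2), ?_, List.mem_map.2 ⟨asg, hasg, rfl⟩⟩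
    unfold bases
    rw [List.mem_flatMap]
    refine ⟨B1, mem_words N _ _ hlen hlpts, List.mem_map.2 ⟨B2, ?_, rfl⟩⟩
    exact mem_words N _ _ (by rw [hB.perm.length_eq]; exact hlen)
      (fun x hx => hlpts x (hB.perm.subset hx))
  obtain ⟨hbest1, hbest2⟩ := best_spec hge _ (List.ne_nil_of_mem hcand)
  rw [List.mem_filter, validB_iff P hP] at hbest1
  refine ⟨hbest1.2.1, hbest1.2.2, ?_⟩
  refine le_trans ?_ (hbest2 _ hcand)
  rw [wsum_perm hc2, wsum_perm hperm, wsum_append, wsum_append]
  linarith

end Pool.Agent.Helper62.Psp
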