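import Mathlib
import Pool.Agent.Helper58.PolyLib
import Pool.Agent.Helper58.PolyBridge

namespace Pool.Agent.Helper62.Psp

open Pool.Agent.Helper58

/-! ### zip -/

section zip

variable {α β γ : Type} [Enc α] [Enc β] [Enc γ]

theorem sz_zip_le (l : List α) (m : List β) : sz (l.zip m) ≤ sz l + sz m := by
  induction l generalizing m with
  | nil => simp [sz_lnil]
  | cons a l ih =>
    cases m with
    | nil => simp [sz_lnil]
    | cons b m =>
      rw [List.zip_cons_cons, sz_lcons, sz_lcons, sz_lcons, sz_pair]
      have := ih m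
      omega

def zipStep (s : List (α × β) × List β) (a : α) : List (α × β) × List β :=
  lcase s.2 (s.1, []) (fun b t => (s.1 ++ [(a, b)], t))

omit [Enc α] [Enc β] in
theorem foldl_zipStep (l : List α) (m : List β) (acc : List (α × β)) :
    l.foldl zipStep (acc, m) = (acc ++ l.zip m, m.drop l.length) := by
  induction l generalizing m acc with
  | nil => simp
  | cons a l ih =>
    rw [List.foldl_cons]
    cases m with
    | nil => simp [zipStep, lcase, ih]
    | cons b m => simp [zipStep, lcase, ih]

@[fun_prop] theorem ptf_zip {l : γ → List α} {m : γ → List β} (hl : PTf l) (hm : PTf m) :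
    PTf (fun x => (l x).zip (m x)) := by
  have := PTf.foldl (step := fun _ s a => zipStep s a) (init := fun x => (([] : List (α × β)), m x))
    (B := fun x => sz (l x) + sz (m x) + sz (m x) + 1) hl (by fun_prop)
    (by unfold zipStep; fun_prop)
    (((hl.sz_le.add hm.sz_le).add hm.sz_le).add (PB.const 1)) (by
      intro x i
      rw [foldl_zipStep, sz_pair, List.nil_append]
      have h1 := sz_zip_le ((l x).take i) (m x)
      have h2 := sz_take_le (l x) i
      have h3 := sz_drop_le (m x) ((l x).take i).length
      omega)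
  exact (PTf.fst this).congr (fun x => by rw [foldl_zipStep]; simp)

end zip

/-! ### Binary numbers -/

/-- value of a bit list, least significant bit first -/
def bval : List Bool → ℕ
  | [] => 0
  | b :: l => b.toNat + 2 * bval l

theorem bval_append (l m : List Bool) : bval (l ++ m) = bval l + 2 ^ l.length * bval m := by
  induction l with
  | nil => simp [bval]
  | cons b l ih =>
    rw [List.cons_append, bval, bval, ih, List.length_cons, pow_succ]
    ring

theorem bval_zeros (n : ℕ) : bval (List.replicate n false) = 0 := by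
  induction n with
  | zero => rfl
  | succ n ih => rw [List.replicate_succ, bval, ih]; rfl

theorem bval_lt (l : List Bool) : bval l < 2 ^ l.length := by
  induction l with
  | nil => simp [bval]
  | cons b l ih =>
    rw [bval, List.length_cons, pow_succ]
    have : b.toNat ≤ 1 := Bool.toNat_le b
    omega

theorem bval_bits (n : ℕ) : bval n.bits = n := by
  induction n using Nat.binaryRec' with
  | zero => simp [bval]
  | bit b n h ih =>
    rw [Nat.bits_append_bit n b h, bval, ih, Nat.bit_val]
    ring

/-- pairs of digits, padded with zeros -/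
def padd (l m : List Bool) : List (Bool × Bool) :=
  (l ++ List.replicate m.length false).zip (m ++ List.replicate l.length false)

theorem padd_fst (l m : List Bool) : bval ((padd l m).map Prod.fst) = bval l := by
  unfold padd
  rw [List.map_fst_zip (by simp [add_comm]), bval_append, bval_zeros]
  simp

theorem padd_snd (l m : List Bool) : bval ((padd l m).map Prod.snd) = bval m := by
  unfold padd
  rw [List.map_snd_zip (by simp [add_comm]), bval_append, bval_zeros]
  simp

@[fun_prop] theorem ptf_padd {γ : Type} [Enc γ] {l m : γ → List Bool} (hl : PTf l) (hm : PTf m) :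
    PTf (fun x => padd (l x) (m x)) := by
  unfold padd
  fun_prop

theorem sz_bits_le (l : List Bool) : sz l ≤ 4 * l.length + 1 := by
  induction l with
  | nil => simp [sz_lnil]
  | cons b l ih =>
    rw [sz_lcons, List.length_cons]
    have := sz_bool b
    omega

theorem length_le_sz {α : Type} [Enc α] (l : List α) : l.length ≤ sz l := by
  have := length_lt_sz l
  omega

/-! trimming -/

def tstep (acc : List Bool) (b : Bool) : List Bool :=
  lcase acc (bif b then [true] else []) (fun _ _ => b :: acc)

/-- removal of the leading zeros -/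
def trim (l : List Bool) : List Bool := l.reverse.foldl tstep []

theorem trim_cons (b : Bool) (l : List Bool) : trim (b :: l) = tstep (trim l) b := by
  unfold trim
  rw [List.reverse_cons, List.foldl_append]
  rfl

theorem bval_tstep (acc : List Bool) (b : Bool) : bval (tstep acc b) = b.toNat + 2 * bval acc := by
  unfold tstep lcase
  cases acc with
  | nil => cases b <;> simp [bval]
  | cons a l => rfl

theorem bval_trim (l : List Bool) : bval (trim l) = bval l := by
  induction l with
  | nil => rfl
  | cons b l ih => rw [trim_cons, bval_tstep, ih, bval]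

theorem trim_big (l : List Bool) : trim l = [] ∨ 2 ^ ((trim l).length - 1) ≤ bval l := by
  induction l with
  | nil => left; rfl
  | cons b l ih =>
    rw [trim_cons, bval]
    rcases ih with h | h
    · rw [h]
      cases b
      · left; rfl
      · right; simp [tstep, lcase]
    · by_cases h0 : trim l = []
      · rw [h0]
        cases b
        · left; rfl
        · right; simp [tstep, lcase]
      · right
        obtain ⟨a, m, hm⟩ := List.exists_cons_of_ne_nil h0
        rw [hm] at h ⊢
        simp only [tstep, lcase, List.length_cons, Nat.add_sub_cancel] at h ⊢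
        rw [pow_succ]
        omega

theorem length_trim (l : List Bool) (n : ℕ) (h : bval l < 2 ^ n) : (trim l).length ≤ n := by
  rcases trim_big l with h1 | h1
  · rw [h1]; simp
  · by_contra hcon
    have h2 : n ≤ (trim l).length - 1 := by omega
    have h3 : 2 ^ n ≤ 2 ^ ((trim l).length - 1) := Nat.pow_le_pow_right (by norm_num) h2
    omega

theorem length_tstep (acc : List Bool) (b : Bool) : (tstep acc b).length ≤ acc.length + 1 := by
  unfold tstep lcase
  cases acc with
  | nil => cases b <;> simp
  | cons a l => simp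

theorem length_foldl_tstep (l : List Bool) : ∀ acc, (l.foldl tstep acc).length ≤ acc.length + l.length := by
  induction l with
  | nil => intro acc; simp
  | cons b l ih =>
    intro acc
    rw [List.foldl_cons, List.length_cons]
    have h1 := ih (tstep acc b)
    have h2 := length_tstep acc b
    omega

@[fun_prop] theorem ptf_trim {γ : Type} [Enc γ] {l : γ → List Bool} (hl : PTf l) :
    PTf (fun x => trim (l x)) := by
  unfold trim
  refine PTf.foldl (step := fun _ => tstep) (B := fun x => 4 * sz (l x) + 1)
    (by fun_prop) (by fun_prop) (by unfold tstep; fun_prop)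
    (((PB.const 4).mul hl.sz_le).add (PB.const 1)) ?_
  intro x i
  have h1 := length_foldl_tstep ((l x).reverse.take i) []
  have h2 := sz_bits_le (((l x).reverse.take i).foldl tstep [])
  have h3 : ((l x).reverse.take i).length ≤ (l x).length := by
    rw [List.length_take, List.length_reverse]
    exact Nat.min_le_right _ _
  have h4 := length_le_sz (l x)
  simp only [List.length_nil] at h1
  omega

/-! addition -/

def astep (s : Bool × List Bool) (q : Bool × Bool) : Bool × List Bool :=
  ((q.1 && q.2) || (q.1 && s.1) || (q.2 && s.1), s.2 ++ [Bool.xor (Bool.xor q.1 q.2) s.1])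

theorem foldl_astep (l : List (Bool × Bool)) : ∀ s : Bool × List Bool,
    bval ((l.foldl astep s).2 ++ [(l.foldl astep s).1]) =
      bval s.2 + 2 ^ s.2.length * (s.1.toNat + bval (l.map Prod.fst) + bval (l.map Prod.snd)) := by
  induction l with
  | nil =>
    intro s
    rw [List.foldl_nil, bval_append]
    simp [bval]
  | cons q l ih =>
    intro s
    rw [List.foldl_cons, ih, List.map_cons, List.map_cons, bval, bval]
    obtain ⟨x, y⟩ := q
    obtain ⟨c, acc⟩ := s
    simp only [astep, bval_append, List.length_append, List.length_singleton, pow_succ, bval]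
    cases x <;> cases y <;> cases c <;> simp <;> ring

def addB (l m : List Bool) : List Bool :=
  trim (((padd l m).foldl astep (false, [])).2 ++ [((padd l m).foldl astep (false, [])).1])

theorem bval_addB (l m : List Bool) : bval (addB l m) = bval l + bval m := by
  unfold addB
  rw [bval_trim, foldl_astep, padd_fst, padd_snd]
  simp [bval]

theorem length_addB (l m : List Bool) (n : ℕ) (h1 : l.length ≤ n) (h2 : m.length ≤ n) :
    (addB l m).length ≤ n + 1 := by
  apply length_trim
  have h3 : bval (((padd l m).foldl astep (false, [])).2 ++ [((padd l m).foldl astep (false, [])).1]) =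
      bval l + bval m := by
    rw [foldl_astep, padd_fst, padd_snd]
    simp [bval]
  rw [h3]
  have h4 := bval_lt l
  have h5 := bval_lt m
  have h6 : 2 ^ l.length ≤ 2 ^ n := Nat.pow_le_pow_right (by norm_num) h1
  have h7 : 2 ^ m.length ≤ 2 ^ n := Nat.pow_le_pow_right (by norm_num) h2
  rw [pow_succ]
  omega

theorem length_foldl_astep (l : List (Bool × Bool)) : ∀ s : Bool × List Bool,
    (l.foldl astep s).2.length = s.2.length + l.length := by
  induction l with
  | nil => intro s; simp
  | cons q l ih =>
    intro s
    rw [List.foldl_cons, ih]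
    simp [astep]
    ring

@[fun_prop] theorem ptf_xor {γ : Type} [Enc γ] {p q : γ → Bool} (hp : PTf p) (hq : PTf q) :
    PTf (fun x => Bool.xor (p x) (q x)) := by
  have : PTf (fun x => bif p x then !q x else q x) := by fun_prop
  refine this.congr (fun x => ?_)
  cases p x <;> cases q x <;> rfl

theorem ptf_afold {γ : Type} [Enc γ] {l : γ → List (Bool × Bool)} (hl : PTf l) :
    PTf (fun x => (l x).foldl astep (false, [])) := by
  refine PTf.foldl (step := fun _ => astep) (B := fun x => 4 * sz (l x) + 5)
    hl (by fun_prop) (by unfold astep; fun_prop)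
    (((PB.const 4).mul hl.sz_le).add (PB.const 5)) ?_
  intro x i
  have h1 := length_foldl_astep ((l x).take i) (false, [])
  have h2 := sz_bits_le (((l x).take i).foldl astep (false, [])).2
  have h3 : ((l x).take i).length ≤ (l x).length := by
    rw [List.length_take]
    exact Nat.min_le_right _ _
  have h4 := length_le_sz (l x)
  have h5 := sz_bool (((l x).take i).foldl astep (false, [])).1
  rw [sz_prod]
  simp only [List.length_nil] at h1
  omega

@[fun_prop] theorem ptf_addB {γ : Type} [Enc γ] {l m : γ → List Bool} (hl : PTf l) (hm : PTf m) :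
    PTf (fun x => addB (l x) (m x)) := by
  unfold addB
  have h1 := ptf_afold (l := fun x => padd (l x) (m x)) (by fun_prop)
  have h2 := PTf.fst h1
  have h3 := PTf.snd h1
  exact ptf_trim (PTf.append h3 (PTf.cons h2 (ptf_const _)))

/-! multiplication -/

def mstep (m : List Bool) (acc : List Bool) (b : Bool) : List Bool :=
  trim (bif b then addB (false :: acc) m else false :: acc)

def mulB (l m : List Bool) : List Bool := l.reverse.foldl (mstep m) []

theorem mulB_cons (b : Bool) (l m : List Bool) : mulB (b :: l) m = mstep m (mulB l m) b := by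
  unfold mulB
  rw [List.reverse_cons, List.foldl_append]
  rfl

theorem bval_mstep (m acc : List Bool) (b : Bool) :
    bval (mstep m acc b) = 2 * bval acc + b.toNat * bval m := by
  unfold mstep
  rw [bval_trim]
  cases b
  · simp [bval]
  · simp [bval_addB, bval]

theorem bval_mulB (l m : List Bool) : bval (mulB l m) = bval l * bval m := by
  induction l with
  | nil => simp [mulB, bval]
  | cons b l ih =>
    rw [mulB_cons, bval_mstep, ih, bval]
    ring

theorem foldl_mstep_bound (m l : List Bool) :
    bval (l.foldl (mstep m) []) + bval m ≤ 2 ^ l.length * bval m ∧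
    (l.foldl (mstep m) []).length ≤ l.length + m.length := by
  induction l using List.reverseRecOn with
  | nil => simp [bval]
  | append_singleton l b ih =>
    rw [List.foldl_append]
    simp only [List.foldl_cons, List.foldl_nil, List.length_append, List.length_singleton]
    have h1 : bval (mstep m (l.foldl (mstep m) []) b) + bval m ≤ 2 ^ (l.length + 1) * bval m := by
      rw [bval_mstep, pow_succ]
      have h2 : b.toNat * bval m ≤ bval m := by
        cases b <;> simp
      have h3 := ih.1
      have h4 : 2 ^ l.length * 2 * bval m = 2 * (2 ^ l.length * bval m) := by ring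
      rw [h4]
      omega
    refine ⟨h1, ?_⟩
    have h5 : bval (mstep m (l.foldl (mstep m) []) b) < 2 ^ (l.length + 1 + m.length) := by
      have h6 := bval_lt m
      rw [pow_add]
      have h7 : 2 ^ (l.length + 1) * bval m + 1 ≤ 2 ^ (l.length + 1) * 2 ^ m.length := by
        have h8 : 2 ^ (l.length + 1) * (bval m + 1) ≤ 2 ^ (l.length + 1) * 2 ^ m.length :=
          Nat.mul_le_mul_left _ h6
        have h9 : 0 < 2 ^ (l.length + 1) := Nat.pow_pos (by norm_num)
        have h10 : 2 ^ (l.length + 1) * (bval m + 1) = 2 ^ (l.length + 1) * bval m + 2 ^ (l.length + 1) := by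
          ring
        omega
      omega
    unfold mstep at h5 ⊢
    rw [bval_trim] at h5
    exact length_trim _ _ h5

theorem length_mulB (l m : List Bool) : (mulB l m).length ≤ l.length + m.length := by
  have := (foldl_mstep_bound m l.reverse).2
  rw [List.length_reverse] at this
  exact this

@[fun_prop] theorem ptf_mulB {γ : Type} [Enc γ] {l m : γ → List Bool} (hl : PTf l) (hm : PTf m) :
    PTf (fun x => mulB (l x) (m x)) := by
  unfold mulB
  refine PTf.foldl (step := fun x => mstep (m x)) (B := fun x => 4 * (sz (l x) + sz (m x)) + 1)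
    (by fun_prop) (by fun_prop) ?_
    (((PB.const 4).mul (hl.sz_le.add hm.sz_le)).add (PB.const 1)) ?_
  · unfold mstep
    have h1 : PTf (fun p : γ × (List Bool × Bool) => m p.1) := PTf.comp hm (by fun_prop)
    fun_prop
  · intro x i
    have h1 := (foldl_mstep_bound (m x) ((l x).reverse.take i)).2
    have h2 := sz_bits_le (((l x).reverse.take i).foldl (mstep (m x)) [])
    have h3 : ((l x).reverse.take i).length ≤ (l x).length := by
      rw [List.length_take, List.length_reverse]
      exact Nat.min_le_right _ _
    have h4 := length_le_sz (l x)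
    have h5 := length_le_sz (m x)
    omega

/-! comparison -/

def lstep (c : Bool) (q : Bool × Bool) : Bool := bif decide (q.1 = q.2) then c else q.2

def leB (l m : List Bool) : Bool := (padd l m).foldl lstep true

theorem foldl_lstep (l : List (Bool × Bool)) : ∀ c, l.foldl lstep c = true ↔
    (bval (l.map Prod.fst) < bval (l.map Prod.snd) ∨
      (bval (l.map Prod.fst) = bval (l.map Prod.snd) ∧ c = true)) := by
  induction l with
  | nil => intro c; simp
  | cons q l ih =>
    intro c
    rw [List.foldl_cons, ih, List.map_cons, List.map_cons, bval, bval]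
    obtain ⟨x, y⟩ := q
    unfold lstep
    generalize bval (List.map Prod.fst l) = a
    generalize bval (List.map Prod.snd l) = b
    cases x <;> cases y <;> cases c <;> simp <;> omega

theorem leB_iff (l m : List Bool) : leB l m = true ↔ bval l ≤ bval m := by
  unfold leB
  rw [foldl_lstep, padd_fst, padd_snd]
  simp only [and_true]
  omega

@[fun_prop] theorem ptf_leB {γ : Type} [Enc γ] {l m : γ → List Bool} (hl : PTf l) (hm : PTf m) :
    PTf (fun x => leB (l x) (m x)) := by
  unfold leB
  refine PTf.foldl (step := fun _ => lstep) (B := fun _ => 3)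
    (by fun_prop) (by fun_prop) (by unfold lstep; fun_prop) (PB.const 3) ?_
  intro x i
  exact sz_bool _

/-! ### Fractions -/

/-- `(p - q) / r` in binary -/
abbrev Fr := List Bool × (List Bool × List Bool)

def Fr.val (a : Fr) : ℚ := ((bval a.1 : ℚ) - bval a.2.1) / bval a.2.2

def Fr.ok (a : Fr) : Prop := 0 < bval a.2.2

def Fr.bd (a : Fr) (n : ℕ) : Prop := a.1.length ≤ n ∧ a.2.1.length ≤ n ∧ a.2.2.length ≤ n

def addF (a b : Fr) : Fr :=
  (addB (mulB a.1 b.2.2) (mulB b.1 a.2.2),
    (addB (mulB a.2.1 b.2.2) (mulB b.2.1 a.2.2), mulB a.2.2 b.2.2))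

def mulF (a b : Fr) : Fr :=
  (addB (mulB a.1 b.1) (mulB a.2.1 b.2.1),
    (addB (mulB a.1 b.2.1) (mulB a.2.1 b.1), mulB a.2.2 b.2.2))

/-- `b ≤ a` -/
def geF (a b : Fr) : Bool :=
  leB (addB (mulB b.1 a.2.2) (mulB a.2.1 b.2.2)) (addB (mulB a.1 b.2.2) (mulB b.2.1 a.2.2))

theorem addF_ok {a b : Fr} (ha : a.ok) (hb : b.ok) : (addF a b).ok := by
  unfold Fr.ok addF at *
  simp only [bval_mulB]
  exact Nat.mul_pos ha hb

theorem mulF_ok {a b : Fr} (ha : a.ok) (hb : b.ok) : (mulF a b).ok := by
  unfold Fr.ok mulF at *
  simp only [bval_mulB]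
  exact Nat.mul_pos ha hb

theorem addF_val {a b : Fr} (ha : a.ok) (hb : b.ok) : (addF a b).val = a.val + b.val := by
  unfold Fr.val addF Fr.ok at *
  simp only [bval_mulB, bval_addB]
  have h1 : (bval a.2.2 : ℚ) ≠ 0 := by exact_mod_cast ha.ne'
  have h2 : (bval b.2.2 : ℚ) ≠ 0 := by exact_mod_cast hb.ne'
  push_cast
  field_simp
  ring

theorem mulF_val {a b : Fr} (ha : a.ok) (hb : b.ok) : (mulF a b).val = a.val * b.val := by
  unfold Fr.val mulF Fr.ok at *
  simp only [bval_mulB, bval_addB]
  have h1 : (bval a.2.2 : ℚ) ≠ 0 := by exact_mod_cast ha.ne'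
  have h2 : (bval b.2.2 : ℚ) ≠ 0 := by exact_mod_cast hb.ne'
  push_cast
  field_simp
  ring

theorem geF_iff {a b : Fr} (ha : a.ok) (hb : b.ok) : geF a b = true ↔ b.val ≤ a.val := by
  unfold geF
  rw [leB_iff]
  unfold Fr.val Fr.ok at *
  simp only [bval_mulB, bval_addB]
  have h1 : (0 : ℚ) < (bval a.2.2 : ℚ) := by exact_mod_cast ha
  have h2 : (0 : ℚ) < (bval b.2.2 : ℚ) := by exact_mod_cast hb
  rw [div_le_div_iff₀ h2 h1, ← Nat.cast_le (α := ℚ)]
  push_cast
  constructor <;> intro h <;> nlinarith

theorem addF_bd {a b : Fr} {m n : ℕ} (ha : a.bd m) (hb : b.bd n) : (addF a b).bd (m + n + 1) := by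
  obtain ⟨a1, a2, a3⟩ := ha
  obtain ⟨b1, b2, b3⟩ := hb
  unfold Fr.bd addF
  refine ⟨?_, ?_, ?_⟩
  · apply length_addB
    · exact (length_mulB _ _).trans (by omega)
    · exact (length_mulB _ _).trans (by omega)
  · apply length_addB
    · exact (length_mulB _ _).trans (by omega)
    · exact (length_mulB _ _).trans (by omega)
  · exact (length_mulB _ _).trans (by omega)

@[fun_prop] theorem ptf_addF {γ : Type} [Enc γ] {a b : γ → Fr} (ha : PTf a) (hb : PTf b) :
    PTf (fun x => addF (a x) (b x)) := by
  unfold addF
  fun_prop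

@[fun_prop] theorem ptf_mulF {γ : Type} [Enc γ] {a b : γ → Fr} (ha : PTf a) (hb : PTf b) :
    PTf (fun x => mulF (a x) (b x)) := by
  unfold mulF
  fun_prop

@[fun_prop] theorem ptf_geF {γ : Type} [Enc γ] {a b : γ → Fr} (ha : PTf a) (hb : PTf b) :
    PTf (fun x => geF (a x) (b x)) := by
  unfold geF
  fun_prop

def zeroF : Fr := ([], ([], [true]))

theorem zeroF_ok : zeroF.ok := by unfold Fr.ok zeroF; simp [bval]
theorem zeroF_val : zeroF.val = 0 := by unfold Fr.val zeroF; simp [bval]
theorem zeroF_bd : zeroF.bd 1 := by unfold Fr.bd zeroF; simp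

def sumF (l : List Fr) : Fr := l.foldl addF zeroF

theorem foldl_addF (l : List Fr) (hl : ∀ a ∈ l, a.ok) : ∀ s : Fr, s.ok →
    (l.foldl addF s).ok ∧ (l.foldl addF s).val = s.val + (l.map Fr.val).sum := by
  induction l with
  | nil => intro s hs; exact ⟨hs, by simp⟩
  | cons a l ih =>
    intro s hs
    have ha := hl a List.mem_cons_self
    obtain ⟨h1, h2⟩ := ih (fun b hb => hl b (List.mem_cons_of_mem _ hb)) (addF s a) (addF_ok hs ha)
    refine ⟨h1, ?_⟩
    rw [List.foldl_cons, h2, addF_val hs ha, List.map_cons, List.sum_cons]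
    ring

theorem sumF_ok (l : List Fr) (hl : ∀ a ∈ l, a.ok) : (sumF l).ok := (foldl_addF l hl _ zeroF_ok).1

theorem sumF_val (l : List Fr) (hl : ∀ a ∈ l, a.ok) : (sumF l).val = (l.map Fr.val).sum := by
  unfold sumF
  rw [(foldl_addF l hl _ zeroF_ok).2, zeroF_val, zero_add]

theorem foldl_addF_bd (l : List Fr) (n : ℕ) (hl : ∀ a ∈ l, a.bd n) : ∀ (s : Fr) (m : ℕ), s.bd m →
    (l.foldl addF s).bd (m + l.length * (n + 1)) := by
  induction l with
  | nil => intro s m hs; simpa using hs
  | cons a l ih =>
    intro s m hs
    have h1 := ih (fun b hb => hl b (List.mem_cons_of_mem _ hb)) (addF s a) (m + n + 1)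
      (addF_bd hs (hl a List.mem_cons_self))
    rw [List.foldl_cons, List.length_cons]
    have h2 : m + n + 1 + l.length * (n + 1) = m + (l.length + 1) * (n + 1) := by ring
    rw [← h2]
    exact h1

theorem sz_of_bd {a : Fr} {n : ℕ} (h : a.bd n) : sz a ≤ 12 * n + 5 := by
  obtain ⟨h1, h2, h3⟩ := h
  rw [sz_prod, sz_prod]
  have := sz_bits_le a.1
  have := sz_bits_le a.2.1
  have := sz_bits_le a.2.2
  omega

theorem bd_of_sz (a : Fr) : a.bd (sz a) := by
  unfold Fr.bd
  rw [sz_prod, sz_prod]
  have := length_le_sz a.1
  have := length_le_sz a.2.1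
  have := length_le_sz a.2.2
  omega

theorem bd_mono {a : Fr} {m n : ℕ} (h : a.bd m) (hmn : m ≤ n) : a.bd n := by
  obtain ⟨h1, h2, h3⟩ := h
  exact ⟨h1.trans hmn, h2.trans hmn, h3.trans hmn⟩

@[fun_prop] theorem ptf_sumF {γ : Type} [Enc γ] {l : γ → List Fr} (hl : PTf l) :
    PTf (fun x => sumF (l x)) := by
  unfold sumF
  refine PTf.foldl (step := fun _ => addF)
    (B := fun x => 12 * (1 + sz (l x) * (sz (l x) + 1)) + 5) hl (by fun_prop) (by fun_prop)
    (((PB.const 12).mul ((PB.const 1).add (hl.sz_le.mul (hl.sz_le.add (PB.const 1))))).add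
      (PB.const 5)) ?_
  intro x i
  apply sz_of_bd
  refine bd_mono (foldl_addF_bd ((l x).take i) (sz (l x)) ?_ zeroF 1 zeroF_bd) ?_
  · intro a ha
    exact bd_mono (bd_of_sz a) (sz_mem_le (l x) a (List.mem_of_mem_take ha)).le
  · have h1 : ((l x).take i).length ≤ sz (l x) := by
      have h3 : ((l x).take i).length ≤ (l x).length := by
        rw [List.length_take]
        exact Nat.min_le_right _ _
      have h4 := length_le_sz (l x)
      omega
    have h2 := Nat.mul_le_mul_right (sz (l x) + 1) h1
    omega

/-- scalar product -/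
def dotF (c x : List Fr) : Fr := sumF ((c.zip x).map (fun q => mulF q.1 q.2))

@[fun_prop] theorem ptf_dotF {γ : Type} [Enc γ] {c x : γ → List Fr} (hc : PTf c) (hx : PTf x) :
    PTf (fun y => dotF (c y) (x y)) := by
  unfold dotF
  fun_prop

/-! ### Rational numbers -/

instance encRatP : Enc ℚ := ⟨DTree.ofRat, ofRat_inj⟩

/-- sign, numerator, denominator -/
def rawQ (q : ℚ) : Bool × (List Bool × List Bool) :=
  (decide (q.num < 0), (q.num.natAbs.bits, q.den.bits))

theorem ptf_rawQ : PTf rawQ := PTf.of_enc_eq (fun _ => rfl)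

def frQ (q : ℚ) : Fr :=
  bif (rawQ q).1 then ([], ((rawQ q).2.1, (rawQ q).2.2)) else ((rawQ q).2.1, ([], (rawQ q).2.2))

@[fun_prop] theorem ptf_frQ {γ : Type} [Enc γ] {q : γ → ℚ} (hq : PTf q) : PTf (fun x => frQ (q x)) := by
  have h1 : PTf (fun x => rawQ (q x)) := PTf.comp ptf_rawQ hq
  unfold frQ
  exact PTf.cond (PTf.fst h1)
    (PTf.pair (ptf_const _) (PTf.pair (PTf.fst (PTf.snd h1)) (PTf.snd (PTf.snd h1))))
    (PTf.pair (PTf.fst (PTf.snd h1)) (PTf.pair (ptf_const _) (PTf.snd (PTf.snd h1))))

theorem frQ_ok (q : ℚ) : (frQ q).ok := by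
  unfold Fr.ok frQ rawQ
  cases h : decide (q.num < 0) <;> simp only [h, cond_true, cond_false, bval_bits]
  · exact q.den_pos
  · exact q.den_pos

theorem frQ_val (q : ℚ) : (frQ q).val = q := by
  unfold Fr.val frQ rawQ
  by_cases h : q.num < 0
  · simp only [h, decide_true, cond_true, bval_bits, bval]
    have h1 : ((q.num.natAbs : ℕ) : ℚ) = -(q.num : ℚ) := by
      have h2 : ((q.num.natAbs : ℕ) : ℤ) = -q.num := by omega
      have h4 := congrArg (Int.cast (R := ℚ)) h2
      rw [Int.cast_natCast, Int.cast_neg] at h4
      exact h4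
    rw [h1]
    have h3 := Rat.num_div_den q
    conv_rhs => rw [← h3]
    push_cast
    ring
  · simp only [h, decide_false, cond_false, bval_bits, bval]
    have h1 : ((q.num.natAbs : ℕ) : ℚ) = (q.num : ℚ) := by
      have h2 : ((q.num.natAbs : ℕ) : ℤ) = q.num := by omega
      have h4 := congrArg (Int.cast (R := ℚ)) h2
      rw [Int.cast_natCast] at h4
      exact h4
    rw [h1]
    have h3 := Rat.num_div_den q
    conv_rhs => rw [← h3]
    push_cast
    ring

end Pool.Agent.Helper62.Psp
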