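import Mathlib
import Pool.Agent.Helper62.PspNum
import Pool.Agent.Helper62.PspAlg

namespace Pool.Agent.Helper62.Psp

open Pool.Agent.Helper58

section gen

variable {γ X L A : Type} [Enc γ] [Enc X] [Enc L] [Enc A]

@[fun_prop] theorem ptf_headOr {l : γ → List A} {d : γ → A} (hl : PTf l) (hd : PTf d) :
    PTf (fun x => headOr (l x) (d x)) := by
  have : PTf (fun x => lcase (l x) (d x) (fun a _ => a)) := by fun_prop
  refine this.congr (fun x => ?_)
  unfold headOr lcase
  cases l x <;> rfl

@[fun_prop] theorem ptf_memB [DecidableEq A] {l : γ → List A} {a : γ → A} (hl : PTf l) (ha : PTf a) :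
    PTf (fun x => memB (l x) (a x)) := by
  unfold memB
  have h1 : PTf (fun p : γ × A => a p.1) := PTf.comp ha (by fun_prop)
  fun_prop

@[fun_prop] theorem ptf_tail {l : γ → List A} (hl : PTf l) : PTf (fun x => (l x).tail) := by
  have : PTf (fun x => lcase (l x) [] (fun _ t => t)) := by fun_prop
  refine this.congr (fun x => ?_)
  unfold lcase
  cases l x <;> rfl

@[fun_prop] theorem ptf_rot1 {l : γ → List A} (hl : PTf l) : PTf (fun x => (l x).rotate 1) := by
  have : PTf (fun x => lcase (l x) [] (fun a t => t ++ [a])) := by fun_prop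
  refine this.congr (fun x => ?_)
  unfold lcase
  cases l x <;> simp

@[fun_prop] theorem ptf_cyc {l : γ → List A} (hl : PTf l) : PTf (fun x => cyc (l x)) := by
  unfold cyc
  fun_prop

@[fun_prop] theorem ptf_pairs {l : γ → List A} (hl : PTf l) : PTf (fun x => pairs (l x)) := by
  unfold pairs
  fun_prop

theorem sz_perm {l m : List A} (h : l.Perm m) : sz l = sz m := by
  induction h with
  | nil => rfl
  | cons a _ ih => rw [sz_lcons, sz_lcons, ih]
  | swap a b l => rw [sz_lcons, sz_lcons, sz_lcons, sz_lcons]; omega
  | trans _ _ ih1 ih2 => exact ih1.trans ih2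

omit [Enc A] in
theorem foldl_rotate (n : ℕ) : ∀ l : List A,
    (List.replicate n ()).foldl (fun acc _ => acc.rotate 1) l = l.rotate n := by
  induction n with
  | zero => intro l; simp
  | succ n ih =>
    intro l
    rw [List.replicate_succ, List.foldl_cons, ih, List.rotate_rotate, add_comm]

@[fun_prop] theorem ptf_rotate {l : γ → List A} {n : γ → ℕ} (hl : PTf l) (hn : PTf n) :
    PTf (fun x => (l x).rotate (n x)) := by
  have := PTf.foldl (step := fun _ (acc : List A) (_ : Unit) => acc.rotate 1)
    (l := fun x => List.replicate (n x) ()) (init := l) (B := fun x => sz (l x)) (by fun_prop) hl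
    (by fun_prop) hl.sz_le (by
      intro x i
      rw [List.take_replicate, foldl_rotate, sz_perm (List.rotate_perm _ _)])
  exact this.congr (fun x => by rw [foldl_rotate])

omit [Enc A] in
theorem foldl_tail (n : ℕ) : ∀ l : List A,
    (List.replicate n ()).foldl (fun acc _ => acc.tail) l = l.drop n := by
  induction n with
  | zero => intro l; simp
  | succ n ih =>
    intro l
    rw [List.replicate_succ, List.foldl_cons, ih]
    cases l <;> simp

@[fun_prop] theorem ptf_drop {l : γ → List A} {n : γ → ℕ} (hl : PTf l) (hn : PTf n) :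
    PTf (fun x => (l x).drop (n x)) := by
  have := PTf.foldl (step := fun _ (acc : List A) (_ : Unit) => acc.tail)
    (l := fun x => List.replicate (n x) ()) (init := l) (B := fun x => sz (l x)) (by fun_prop) hl
    (by fun_prop) hl.sz_le (by
      intro x i
      rw [List.take_replicate, foldl_tail]
      exact sz_drop_le _ _)
  exact this.congr (fun x => by rw [foldl_tail])

def tkStep (s : List A × List A) (_ : Unit) : List A × List A :=
  lcase s.2 s (fun a t => (s.1 ++ [a], t))

omit [Enc A] in
theorem foldl_tkStep (n : ℕ) : ∀ (acc l : List A),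
    (List.replicate n ()).foldl tkStep (acc, l) = (acc ++ l.take n, l.drop n) := by
  induction n with
  | zero => intro acc l; simp
  | succ n ih =>
    intro acc l
    rw [List.replicate_succ, List.foldl_cons]
    cases l with
    | nil =>
      have : tkStep (acc, []) () = (acc, ([] : List A)) := rfl
      rw [this, ih]
      simp
    | cons a l =>
      have : tkStep (acc, a :: l) () = (acc ++ [a], l) := rfl
      rw [this, ih]
      simp

@[fun_prop] theorem ptf_take {l : γ → List A} {n : γ → ℕ} (hl : PTf l) (hn : PTf n) :
    PTf (fun x => (l x).take (n x)) := by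
  have := PTf.foldl (step := fun _ => tkStep (A := A))
    (l := fun x => List.replicate (n x) ()) (init := fun x => ([], l x))
    (B := fun x => sz (l x) + sz (l x) + 1) (by fun_prop) (by fun_prop)
    (by unfold tkStep; fun_prop) ((hl.sz_le.add hl.sz_le).add (PB.const 1)) (by
      intro x i
      rw [List.take_replicate, foldl_tkStep, sz_pair, List.nil_append]
      have h1 := sz_take_le (l x) (min i (n x))
      have h2 := sz_drop_le (l x) (min i (n x))
      omega)
  exact (PTf.fst this).congr (fun x => by rw [foldl_tkStep]; simp)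

@[fun_prop] theorem ptf_le {m n : γ → ℕ} (hm : PTf m) (hn : PTf n) :
    PTf (fun x => decide (m x ≤ n x)) := by
  have h1 : PTf (fun p : γ × ℕ => m p.1) := PTf.comp hm (by fun_prop)
  have : PTf (fun x => (List.range (n x + 1)).any (fun i => decide (i = m x))) := by fun_prop
  refine this.congr (fun x => ?_)
  rw [Bool.eq_iff_iff]
  simp [Nat.lt_succ_iff]

@[fun_prop] theorem ptf_lt {m n : γ → ℕ} (hm : PTf m) (hn : PTf n) :
    PTf (fun x => decide (m x < n x)) := by
  have h1 : PTf (fun p : γ × ℕ => m p.1) := PTf.comp hm (by fun_prop)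
  have : PTf (fun x => (List.range (n x)).any (fun i => decide (i = m x))) := by fun_prop
  refine this.congr (fun x => ?_)
  rw [Bool.eq_iff_iff]
  simp

def erStep [DecidableEq A] (a : A) (s : Bool × List A) (b : A) : Bool × List A :=
  bif !s.1 && decide (b = a) then (true, s.2) else (s.1, s.2 ++ [b])

omit [Enc A] in
theorem foldl_erStep [DecidableEq A] (a : A) (l : List A) : ∀ (acc : List A),
    (l.foldl (erStep a) (true, acc)).2 = acc ++ l ∧
    (l.foldl (erStep a) (false, acc)).2 = acc ++ l.erase a := by
  induction l with
  | nil => intro acc; simp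
  | cons b l ih =>
    intro acc
    constructor
    · rw [List.foldl_cons]
      have : erStep a (true, acc) b = (true, acc ++ [b]) := by simp [erStep]
      rw [this, (ih _).1]
      simp
    · rw [List.foldl_cons]
      by_cases h : b = a
      · have : erStep a (false, acc) b = (true, acc) := by simp [erStep, h]
        rw [this, (ih _).1, h]
        simp
      · have : erStep a (false, acc) b = (false, acc ++ [b]) := by simp [erStep, h]
        rw [this, (ih _).2, List.erase_cons_tail (by simpa using h)]
        simp

theorem sz_foldl_erStep [DecidableEq A] (a : A) (l : List A) : ∀ (s : Bool × List A),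
    sz (l.foldl (erStep a) s).2 ≤ sz s.2 + sz l := by
  induction l with
  | nil => intro s; simp
  | cons b l ih =>
    intro s
    rw [List.foldl_cons, sz_lcons]
    refine (ih _).trans ?_
    have h1 : sz (erStep a s b).2 ≤ sz s.2 + sz b + 1 := by
      unfold erStep
      cases (!s.1 && decide (b = a))
      · simp only [cond_false]
        have := sz_append s.2 [b]
        rw [sz_lcons, sz_lnil] at this
        omega
      · simp only [cond_true]
        omega
    omega

@[fun_prop] theorem ptf_erase [DecidableEq A] {l : γ → List A} {a : γ → A} (hl : PTf l) (ha : PTf a) :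
    PTf (fun x => (l x).erase (a x)) := by
  have h1 : PTf (fun p : γ × ((Bool × List A) × A) => a p.1) := PTf.comp ha (by fun_prop)
  have := PTf.foldl (step := fun x => erStep (a x)) (l := l)
    (init := fun _ => (false, ([] : List A))) (B := fun x => 3 + (sz (l x) + 1) + 1) hl (by fun_prop)
    (by unfold erStep; fun_prop)
    (((PB.const 3).add (hl.sz_le.add (PB.const 1))).add (PB.const 1)) (by
      intro x i
      have h2 := sz_foldl_erStep (a x) ((l x).take i) (false, [])
      have h3 := sz_take_le (l x) i
      have h4 := sz_bool (((l x).take i).foldl (erStep (a x)) (false, [])).1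
      rw [sz_prod]
      simp only [sz_lnil] at h2
      omega)
  refine (PTf.snd this).congr (fun x => ?_)
  rw [(foldl_erStep (a x) (l x) []).2]
  simp

/-! ### Insertion and repair -/

variable {i o : X → L} [DecidableEq X] [DecidableEq L]

omit [DecidableEq X] in
theorem ptf_chB (hi : PTf i) (ho : PTf o) {l : γ → List X} (hl : PTf l) :
    PTf (fun x => chB i o (l x)) := by
  unfold chB
  have h1 : PTf (fun p : γ × (X × X) => o p.2.1) := PTf.comp ho (by fun_prop)
  have h2 : PTf (fun p : γ × (X × X) => i p.2.2) := PTf.comp hi (by fun_prop)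
  fun_prop

theorem ptf_ecands (hi : PTf i) (ho : PTf o) {s : γ → List X × List X} (hs : PTf s) :
    PTf (fun x => ecands i o (s x)) := by
  unfold ecands
  have h1 : PTf (fun p : (γ × ℕ) × X => (s p.1.1).1.rotate p.1.2) := by
    have : PTf (fun p : (γ × ℕ) × X => (s p.1.1)) := PTf.comp hs (by fun_prop)
    fun_prop
  have h2 : PTf (fun p : (γ × ℕ) × X => (s p.1.1).2.erase p.2) := by
    have : PTf (fun p : (γ × ℕ) × X => (s p.1.1)) := PTf.comp hs (by fun_prop)
    fun_prop
  have h3 : PTf (fun p : γ × ℕ => (s p.1).2) := by
    have : PTf (fun p : γ × ℕ => (s p.1)) := PTf.comp hs (by fun_prop)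
    fun_prop
  have h4 : PTf (fun p : γ × (List X × List X) => chB i o p.2.1) := ptf_chB hi ho (by fun_prop)
  fun_prop

theorem ptf_estep (hi : PTf i) (ho : PTf o) {s : γ → List X × List X} (hs : PTf s) :
    PTf (fun x => estep i o (s x)) := by
  unfold estep
  have := ptf_ecands hi ho hs
  fun_prop

theorem estep_perm (s : List X × List X) :
    ((estep i o s).1 ++ (estep i o s).2).Perm (s.1 ++ s.2) := by
  by_cases h : ecands i o s = []
  · unfold estep
    rw [h]
    exact List.Perm.refl _
  · have h2 : estep i o s ∈ ecands i o s := by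
      unfold estep headOr
      cases h3 : ecands i o s with
      | nil => exact absurd h3 h
      | cons a l => simp
    obtain ⟨c, hc⟩ : ∃ c, c = estep i o s := ⟨_, rfl⟩
    rw [← hc] at h2 ⊢
    unfold ecands at h2
    rw [List.mem_filter, List.mem_flatMap] at h2
    obtain ⟨⟨k, hk, h3⟩, h4⟩ := h2
    rw [List.mem_map] at h3
    obtain ⟨r, hr, rfl⟩ := h3
    show (s.1.rotate k ++ [r] ++ s.2.erase r).Perm (s.1 ++ s.2)
    rw [List.append_assoc]
    exact (List.rotate_perm _ _).append (List.perm_cons_erase hr).symm

theorem sz_estep (s : List X × List X) : sz (estep i o s) = sz s := by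
  have h1 := sz_perm (estep_perm (i := i) (o := o) s)
  have h2 := sz_append (estep i o s).1 (estep i o s).2
  have h3 := sz_append s.1 s.2
  rw [sz_prod, sz_prod]
  omega

theorem ptf_euler (hi : PTf i) (ho : PTf o) {T R : γ → List X} (hT : PTf T) (hR : PTf R) :
    PTf (fun x => euler i o (T x) (R x)) := by
  unfold euler
  refine PTf.foldl (step := fun _ s _ => estep i o s) (B := fun x => sz (T x, R x)) hR (by fun_prop)
    (ptf_estep hi ho (by fun_prop)) (hT.pair hR).sz_le ?_
  intro x i'
  have key : ∀ (l : List X) (s : List X × List X), sz (l.foldl (fun s _ => estep i o s) s) = sz s := by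
    intro l
    induction l with
    | nil => intro s; rfl
    | cons a l ih => intro s; rw [List.foldl_cons, ih, sz_estep]
  rw [key]

omit [DecidableEq X] in
theorem ptf_clB (hi : PTf i) (ho : PTf o) {T : γ → List X} (hT : PTf T) :
    PTf (fun x => clB i o (T x)) := by
  unfold clB
  have h1 : PTf (fun p : γ × (X × X) => o p.2.1) := PTf.comp ho (by fun_prop)
  have h2 : PTf (fun p : γ × (X × X) => i p.2.2) := PTf.comp hi (by fun_prop)
  fun_prop

@[fun_prop] theorem ptf_adjB {T : γ → List X} {e : γ → X × X} (hT : PTf T) (he : PTf e) :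
    PTf (fun x => adjB (T x) (e x)) := by
  unfold adjB
  fun_prop

@[fun_prop] theorem ptf_cfl {T1 T : γ → List X} (h1 : PTf T1) (hT : PTf T) :
    PTf (fun x => cfl (T1 x) (T x)) := by
  unfold cfl
  have h2 : PTf (fun p : γ × (X × X) => T1 p.1) := PTf.comp h1 (by fun_prop)
  fun_prop

omit [DecidableEq X] in
@[fun_prop] theorem ptf_sw {T : γ → List X} {r j m : γ → ℕ} (hT : PTf T) (hr : PTf r) (hj : PTf j)
    (hm : PTf m) : PTf (fun x => sw (T x) (r x) (j x) (m x)) := by
  unfold sw
  fun_prop

omit [DecidableEq X] in
@[fun_prop] theorem ptf_rcands {T : γ → List X} (hT : PTf T) : PTf (fun x => rcands (T x)) := by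
  unfold rcands
  have h1 : PTf (fun p : γ × ℕ => T p.1) := PTf.comp hT (by fun_prop)
  have h2 : PTf (fun p : (γ × ℕ) × ℕ => T p.1.1) := PTf.comp hT (by fun_prop)
  have h3 : PTf (fun p : ((γ × ℕ) × ℕ) × ℕ => T p.1.1.1) := PTf.comp hT (by fun_prop)
  fun_prop

theorem ptf_rcond (hi : PTf i) (ho : PTf o) {T1 T T' : γ → List X} (h1 : PTf T1) (hT : PTf T)
    (hT' : PTf T') : PTf (fun x => rcond i o (T1 x) (T x) (T' x)) := by
  unfold rcond
  have h2 := ptf_clB hi ho hT'
  have h3 : PTf (fun p : γ × (X × X) => T p.1) := PTf.comp hT (by fun_prop)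
  fun_prop

theorem ptf_rstep (hi : PTf i) (ho : PTf o) {T1 T : γ → List X} (h1 : PTf T1) (hT : PTf T) :
    PTf (fun x => rstep i o (T1 x) (T x)) := by
  unfold rstep
  have h3 : PTf (fun p : γ × List X => rcond i o (T1 p.1) (T p.1) p.2) :=
    ptf_rcond hi ho (PTf.comp h1 (by fun_prop)) (PTf.comp hT (by fun_prop)) (by fun_prop)
  fun_prop

theorem rstep_perm (T1 T : List X) : (rstep i o T1 T).Perm T := by
  by_cases h : (rcands T).filter (fun T' => rcond i o T1 T T') = []
  · unfold rstep
    rw [h]
    exact List.Perm.refl _
  · have h2 : rstep i o T1 T ∈ (rcands T).filter (fun T' => rcond i o T1 T T') := by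
      unfold rstep headOr
      cases h3 : (rcands T).filter (fun T' => rcond i o T1 T T') with
      | nil => exact absurd h3 h
      | cons a l => simp
    rw [List.mem_filter] at h2
    obtain ⟨h3, h4⟩ := h2
    unfold rcands at h3
    rw [List.mem_flatMap] at h3
    obtain ⟨r, _, h3⟩ := h3
    rw [List.mem_flatMap] at h3
    obtain ⟨j, _, h3⟩ := h3
    rw [List.mem_map] at h3
    obtain ⟨m, _, h3⟩ := h3
    rw [← h3]
    exact sw_perm T r j m

theorem ptf_repair (hi : PTf i) (ho : PTf o) {T1 T : γ → List X} (h1 : PTf T1) (hT : PTf T) :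
    PTf (fun x => repair i o (T1 x) (T x)) := by
  unfold repair
  refine PTf.foldl (step := fun x S _ => rstep i o (T1 x) S) (B := fun x => sz (T x)) hT hT
    ?_ hT.sz_le ?_
  · exact ptf_rstep hi ho (T1 := fun p : γ × (List X × X) => T1 p.1) (T := fun p => p.2.1)
      (PTf.comp h1 (by fun_prop)) (by fun_prop)
  · intro x i'
    have key : ∀ (l : List X) (s : List X), sz (l.foldl (fun S _ => rstep i o (T1 x) S) s) = sz s := by
      intro l
      induction l with
      | nil => intro s; rfl
      | cons a l ih => intro s; rw [List.foldl_cons, ih, sz_perm (rstep_perm _ _)]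
    rw [key]

end gen

/-! ### Words, labels -/

section words

variable {γ A : Type} [Enc γ] [Enc A]

theorem ptf_words (N : ℕ) {l : γ → List A} (hl : PTf l) : PTf (fun x => words N (l x)) := by
  induction N with
  | zero => exact (ptf_const [[]]).congr (fun _ => rfl)
  | succ N ih =>
    have h1 : PTf (fun p : γ × List A => l p.1) := PTf.comp hl (by fun_prop)
    have : PTf (fun x => [] :: (words N (l x)).flatMap (fun u => (l x).map (fun a => a :: u))) := by
      fun_prop
    exact this.congr (fun _ => rfl)

end words

instance encFin (n : ℕ) : Enc (Fin n) := ⟨fun i => DTree.ofNat i, fun a b h =>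
  Fin.ext (DTree.ofNat_inj h)⟩

theorem ptf_finite {A β : Type} [Enc A] [Enc β] [Finite A] (g : A → β) : PTf g := by
  classical
  rcases isEmpty_or_nonempty A with h | ⟨⟨a0⟩⟩
  · exact PTf.of_enc_eq (fun a => (h.false a).elim)
  · have key : ∀ l : List A, PTf (fun x => if x ∈ l then g x else g a0) := by
      intro l
      induction l with
      | nil => exact (PTf.const (g a0)).congr (fun x => by simp)
      | cons a l ih =>
        have h1 : PTf (fun x => if x = a then g a else (if x ∈ l then g x else g a0)) :=
          PTf.ite (PTf.decEq PTf.id (PTf.const a)) (PTf.const _) ih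
        refine h1.congr (fun x => ?_)
        by_cases hx : x = a
        · subst hx; simp
        · by_cases hl : x ∈ l
          · simp [hx, hl]
          · simp [hx, hl]
    cases nonempty_fintype A
    refine (key Finset.univ.toList).congr (fun x => ?_)
    simp

section labelled

variable {γ V : Type} [Enc γ] [Enc V] [DecidableEq V] {k : ℕ}

theorem ptf_i1 : PTf (i1 (V := V) (k := k)) := by unfold i1; fun_prop
theorem ptf_o1 : PTf (o1 (V := V) (k := k)) := by unfold o1; fun_prop
theorem ptf_i2 : PTf (i2 (V := V) (k := k)) := by unfold i2; fun_prop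
theorem ptf_o2 : PTf (o2 (V := V) (k := k)) := by unfold o2; fun_prop

@[fun_prop] theorem ptf_key {a : γ → List (V × Lab k)} (ha : PTf a) : PTf (fun x => key (a x)) := by
  unfold key
  have h1 : PTf (fun p : γ × Lab k => a p.1) := PTf.comp ha (by fun_prop)
  fun_prop

variable {geB : List (V × Lab k) → List (V × Lab k) → Bool}
  (hge : PTf (fun p : List (V × Lab k) × List (V × Lab k) => geB p.1 p.2))

include hge in
theorem ptf_ins {tab : γ → List (List (V × Lab k))} {c : γ → List (V × Lab k)} (ht : PTf tab)
    (hc : PTf c) : PTf (fun x => ins geB (tab x) (c x)) := by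
  unfold ins
  have h1 : PTf (fun p : γ × List (V × Lab k) => c p.1) := PTf.comp hc (by fun_prop)
  have h2 : PTf (fun p : γ × List (V × Lab k) => geB p.2 (c p.1)) :=
    PTf.comp hge (f := fun p : γ × List (V × Lab k) => (p.2, c p.1)) (by fun_prop)
  have h3 : PTf (fun x => (tab x).any (fun a => decide (key a = key (c x)) && geB a (c x))) := by
    fun_prop
  have h4 : PTf (fun x => c x :: (tab x).filter (fun a => !decide (key a = key (c x)))) := by
    fun_prop
  exact PTf.ite (PTf.decEq h3 (ptf_const true)) ht h4

theorem sz_filter_le {A : Type} [Enc A] (l : List A) (p : A → Bool) : sz (l.filter p) ≤ sz l := by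
  induction l with
  | nil => simp
  | cons a l ih =>
    rw [List.filter_cons]
    split_ifs
    · rw [sz_lcons, sz_lcons]; omega
    · rw [sz_lcons]; omega

theorem sz_foldl_ins (l : List (List (V × Lab k))) : ∀ tab, sz (l.foldl (ins geB) tab) ≤ sz tab + sz l := by
  induction l with
  | nil => intro tab; simp
  | cons c l ih =>
    intro tab
    rw [List.foldl_cons, sz_lcons]
    refine (ih _).trans ?_
    have : sz (ins geB tab c) ≤ sz tab + sz c + 1 := by
      unfold ins
      split_ifs
      · omega
      · rw [sz_lcons]
        have := sz_filter_le tab (fun a => !decide (key a = key c))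
        omega
    omega

include hge in
theorem ptf_dedup {l : γ → List (List (V × Lab k))} (hl : PTf l) : PTf (fun x => dedup geB (l x)) := by
  unfold dedup
  refine PTf.foldl (step := fun _ => ins geB) (B := fun x => 1 + sz (l x)) hl (by fun_prop)
    (ptf_ins hge (by fun_prop) (by fun_prop)) ((PB.const 1).add hl.sz_le) ?_
  intro x i
  have h1 := sz_foldl_ins (geB := geB) ((l x).take i) []
  have h2 := sz_take_le (l x) i
  rw [sz_lnil] at h1
  omega

@[fun_prop] theorem ptf_ext {S : γ → List (Lab k)} {tab : γ → List (List (V × Lab k))} {p : γ → V}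
    (hS : PTf S) (ht : PTf tab) (hp : PTf p) : PTf (fun x => ext (S x) (tab x) (p x)) := by
  unfold ext
  have h1 : PTf (fun q : γ × List (V × Lab k) => S q.1) := PTf.comp hS (by fun_prop)
  have h2 : PTf (fun q : (γ × List (V × Lab k)) × Lab k => p q.1.1) := PTf.comp hp (by fun_prop)
  fun_prop

/-- the entries of the table -/
theorem dp_mem (S : List (Lab k)) (R : List V) : ∀ a ∈ dp geB S R, a.map Prod.fst = R.reverse := by
  induction R using List.reverseRecOn with
  | nil => unfold dp; simp
  | append_singleton R p ih =>
    have h1 : dp geB S (R ++ [p]) = dedup geB (ext S (dp geB S R) p) := by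
      unfold dp
      rw [List.foldl_append]
      rfl
    have hsub : ∀ (l tab : List (List (V × Lab k))), ∀ x ∈ l.foldl (ins geB) tab, x ∈ tab ∨ x ∈ l := by
      intro l
      induction l with
      | nil => intro tab x hx; exact Or.inl hx
      | cons c l ih' =>
        intro tab x hx
        rw [List.foldl_cons] at hx
        rcases ih' _ x hx with h | h
        · unfold ins at h
          split_ifs at h
          · exact Or.inl h
          · rw [List.mem_cons, List.mem_filter] at h
            rcases h with h | h
            · right; rw [h]; exact List.mem_cons_self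
            · exact Or.inl h.1
        · exact Or.inr (List.mem_cons_of_mem _ h)
    intro a ha
    rw [h1] at ha
    have h4 := hsub _ _ a ha
    simp only [List.not_mem_nil, false_or] at h4
    unfold ext at h4
    rw [List.mem_flatMap] at h4
    obtain ⟨b, hb, h5⟩ := h4
    rw [List.mem_map] at h5
    obtain ⟨t, ht, rfl⟩ := h5
    rw [List.map_cons, ih b hb, List.reverse_append]
    rfl

theorem cnt_le_length (a : List (V × Lab k)) (t : Lab k) : cnt a t ≤ a.length := by
  unfold cnt cn
  refine List.countP_le_length.trans ?_
  rw [List.length_map]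

theorem tab_length (tab : List (List (V × Lab k))) (n : ℕ) (h : (tab.map key).Nodup)
    (hn : ∀ a ∈ tab, a.length ≤ n) : tab.length ≤ (n + 1) ^ Fintype.card (Lab k) := by
  let φ : List (V × Lab k) → (Lab k → Fin (n + 1)) := fun a t => ⟨min (cnt a t) n, by omega⟩
  have h1 : (tab.map φ).Nodup := by
    refine (List.nodup_map_iff_inj_on (List.Nodup.of_map _ h)).2 ?_
    intro a ha b hb hab
    apply List.inj_on_of_nodup_map h ha hb
    rw [key_eq_iff]
    intro t
    have h2 := congrArg Fin.val (congrFun hab t)
    simp only [φ] at h2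
    have h3 := cnt_le_length a t
    have h4 := cnt_le_length b t
    have h5 := hn a ha
    have h6 := hn b hb
    omega
  have h2 := h1.length_le_card
  rw [List.length_map, Fintype.card_fun, Fintype.card_fin] at h2
  exact h2

theorem sz_entry (c : ℕ) (hc : ∀ t : Lab k, sz t ≤ c) (a : List (V × Lab k)) :
    sz a ≤ (c + 2) * sz (a.map Prod.fst) := by
  induction a with
  | nil => simp [sz_lnil]
  | cons x a ih =>
    rw [List.map_cons, sz_lcons, sz_lcons, sz_prod]
    have := hc x.2
    have h1 : (c + 2) * (sz x.1 + sz (a.map Prod.fst) + 1) =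
        (c + 2) * sz x.1 + (c + 2) * sz (a.map Prod.fst) + (c + 2) := by ring
    have h2 : sz x.1 ≤ (c + 2) * sz x.1 := Nat.le_mul_of_pos_left _ (by omega)
    omega

theorem sz_le_of_mem {A : Type} [Enc A] (l : List A) (B : ℕ) (h : ∀ a ∈ l, sz a ≤ B) :
    sz l ≤ l.length * (B + 1) + 1 := by
  induction l with
  | nil => simp [sz_lnil]
  | cons a l ih =>
    rw [sz_lcons, List.length_cons]
    have h1 := ih (fun x hx => h x (List.mem_cons_of_mem _ hx))
    have h2 := h a List.mem_cons_self
    have h3 : (l.length + 1) * (B + 1) = l.length * (B + 1) + B + 1 := by ring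
    omega

include hge in
theorem ptf_dp (hge' : ∀ a, geB a a = true) {S : γ → List (Lab k)} {R : γ → List V} (hS : PTf S)
    (hR : PTf R) : PTf (fun x => dp geB (S x) (R x)) := by
  obtain ⟨c, hc⟩ : ∃ c, ∀ t : Lab k, sz t ≤ c := by
    refine ⟨Finset.univ.sup (fun t : Lab k => sz t), fun t => ?_⟩
    exact Finset.le_sup (f := fun t : Lab k => sz t) (Finset.mem_univ t)
  have h0 : PTf (fun x => (R x).foldl (fun tab p => dedup geB (ext (S x) tab p)) [[]]) := by
    refine PTf.foldl (step := fun x tab p => dedup geB (ext (S x) tab p))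
      (B := fun x => (sz (R x) + 1) ^ Fintype.card (Lab k) * ((c + 2) * sz (R x) + 1) + 1) hR
      (by fun_prop) ?_ ?_ ?_
    · apply ptf_dedup hge
      have h1 : PTf (fun q : γ × (List (List (V × Lab k)) × V) => S q.1) := PTf.comp hS (by fun_prop)
      fun_prop
    · exact (((hR.sz_le.add (PB.const 1)).pow _).mul
        (((PB.const (c + 2)).mul hR.sz_le).add (PB.const 1))).add (PB.const 1)
    · intro x i
      have h1 : ((R x).take i).foldl (fun tab p => dedup geB (ext (S x) tab p)) [[]] =
          dp geB (S x) ((R x).take i) := rfl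
      rw [h1]
      have h2 := dp_mem (geB := geB) (S x) ((R x).take i)
      have h3 : ((dp geB (S x) ((R x).take i)).map key).Nodup := by
        rcases List.eq_nil_or_concat ((R x).take i) with h | ⟨l, p, h⟩
        · rw [h]
          unfold dp
          simp
        · rw [h]
          have h4 : dp geB (S x) (l.concat p) = dedup geB (ext (S x) (dp geB (S x) l) p) := by
            unfold dp
            rw [List.concat_eq_append, List.foldl_append]
            rfl
          rw [h4]
          exact foldl_ins_nodup _ hge' [] (by simp)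
      have h4 : ((R x).take i).length ≤ sz (R x) := by
        have h5 : ((R x).take i).length ≤ (R x).length := by
          rw [List.length_take]
          exact Nat.min_le_right _ _
        have h6 := length_le_sz (R x)
        omega
      have h5 : ∀ a ∈ dp geB (S x) ((R x).take i), a.length ≤ sz (R x) := by
        intro a ha
        have := congrArg List.length (h2 a ha)
        rw [List.length_map, List.length_reverse] at this
        omega
      have h6 := tab_length _ _ h3 h5
      have h7 := sz_le_of_mem (dp geB (S x) ((R x).take i)) ((c + 2) * sz (R x)) (by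
        intro a ha
        refine (sz_entry c hc a).trans ?_
        apply Nat.mul_le_mul_left
        rw [h2 a ha, sz_reverse]
        exact sz_take_le _ _)
      have h8 := Nat.mul_le_mul_right ((c + 2) * sz (R x) + 1) h6
      omega
  exact h0

@[fun_prop] theorem ptf_lpts {P : γ → List V} (hP : PTf P) : PTf (fun x => lpts (k := k) (P x)) := by
  unfold lpts
  fun_prop

theorem ptf_bases (N : ℕ) {P : γ → List V} (hP : PTf P) : PTf (fun x => bases (k := k) N (P x)) := by
  unfold bases
  have h1 : PTf (fun x => words N (lpts (k := k) (P x))) := ptf_words N (by fun_prop)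
  have h2 : PTf (fun p : γ × List (V × Lab k) => words N (lpts (k := k) (P p.1))) :=
    PTf.comp (g := fun x => words N (lpts (k := k) (P x))) h1 (by fun_prop)
  fun_prop

@[fun_prop] theorem ptf_allowed {B : γ → List (V × Lab k)} (hB : PTf B) :
    PTf (fun x => allowed (B x)) := by
  unfold allowed
  have h1 : PTf (fun p : γ × Lab k => B p.1) := PTf.comp hB (by fun_prop)
  have h2 : PTf (fun p : γ × Lab k => decide (16 ≤ ((B p.1).filter (fun x => decide (x.2 = p.2))).length)) := by
    fun_prop
  fun_prop

@[fun_prop] theorem ptf_rest {P : γ → List V} {B : γ → List (V × Lab k)} (hP : PTf P) (hB : PTf B) :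
    PTf (fun x => rest (P x) (B x)) := by
  unfold rest
  have h1 : PTf (fun p : γ × V => B p.1) := PTf.comp hB (by fun_prop)
  fun_prop

theorem ptf_build {B : γ → List (V × Lab k) × List (V × Lab k)} {asg : γ → List (V × Lab k)}
    (hB : PTf B) (ha : PTf asg) : PTf (fun x => build (B x) (asg x)) := by
  unfold build
  have h1 := PTf.fst (ptf_euler ptf_i1 ptf_o1 (PTf.fst hB) ha)
  have h2 := PTf.fst (ptf_euler ptf_i2 ptf_o2 (PTf.snd hB) ha)
  exact PTf.pair h1 (ptf_repair ptf_i2 ptf_o2 h1 h2)

include hge in
theorem ptf_candidates (hge' : ∀ a, geB a a = true) (N : ℕ) {P : γ → List V} (hP : PTf P) :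
    PTf (fun x => candidates geB N (P x)) := by
  unfold candidates
  have h1 := ptf_bases (k := k) N hP
  have h2 : PTf (fun p : γ × (List (V × Lab k) × List (V × Lab k)) =>
      dp geB (allowed p.2.1) (rest (P p.1) p.2.1)) := by
    apply ptf_dp hge hge'
    · fun_prop
    · have : PTf (fun p : γ × (List (V × Lab k) × List (V × Lab k)) => P p.1) :=
        PTf.comp hP (by fun_prop)
      fun_prop
  have h3 : PTf (fun p : (γ × (List (V × Lab k) × List (V × Lab k))) × List (V × Lab k) =>
      build p.1.2 p.2) := ptf_build (by fun_prop) (by fun_prop)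
  fun_prop

theorem ptf_validB {P : γ → List V} {T : γ → List (V × Lab k) × List (V × Lab k)} (hP : PTf P)
    (hT : PTf T) : PTf (fun x => validB (P x) (T x)) := by
  unfold validB
  have h1 := ptf_clB ptf_i1 ptf_o1 (PTf.fst hT)
  have h2 := ptf_clB ptf_i2 ptf_o2 (PTf.snd hT)
  have h3 : PTf (fun p : γ × V => T p.1) := PTf.comp hT (by fun_prop)
  have h4 : PTf (fun p : γ × (V × Lab k) => T p.1) := PTf.comp hT (by fun_prop)
  have h5 : PTf (fun p : γ × ((V × Lab k) × (V × Lab k)) => T p.1) := PTf.comp hT (by fun_prop)
  fun_prop

include hge in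
theorem ptf_best {l : γ → List (List (V × Lab k) × List (V × Lab k))} (hl : PTf l) :
    PTf (fun x => best geB (l x)) := by
  unfold best
  refine PTf.foldl (step := fun _ b c => if geB b.1 c.1 then b else c)
    (init := fun x => headOr (l x) ([], []))
    (B := fun x => sz (l x) + 3) hl (by fun_prop) ?_ (hl.sz_le.add (PB.const 3)) ?_
  · have h1 : PTf (fun q : γ × ((List (V × Lab k) × List (V × Lab k)) ×
        (List (V × Lab k) × List (V × Lab k))) => geB q.2.1.1 q.2.2.1) :=
      PTf.comp hge (f := fun q : γ × ((List (V × Lab k) × List (V × Lab k)) ×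
        (List (V × Lab k) × List (V × Lab k))) => (q.2.1.1, q.2.2.1)) (by fun_prop)
    have h2 : PTf (fun q : γ × ((List (V × Lab k) × List (V × Lab k)) ×
        (List (V × Lab k) × List (V × Lab k))) => q.2.1) := by fun_prop
    have h3 : PTf (fun q : γ × ((List (V × Lab k) × List (V × Lab k)) ×
        (List (V × Lab k) × List (V × Lab k))) => q.2.2) := by fun_prop
    exact PTf.ite (PTf.decEq h1 (ptf_const true)) h2 h3
  · intro x i
    have key : ∀ (m : List (List (V × Lab k) × List (V × Lab k))) (b : List (V × Lab k) × List (V × Lab k)),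
        m.foldl (fun b c => if geB b.1 c.1 then b else c) b = b ∨
          m.foldl (fun b c => if geB b.1 c.1 then b else c) b ∈ m := by
      intro m
      induction m with
      | nil => intro b; left; rfl
      | cons a m ih =>
        intro b
        rw [List.foldl_cons]
        by_cases h : geB b.1 a.1 = true
        · rw [if_pos h]
          exact (ih b).imp_right (List.mem_cons_of_mem _)
        · rw [if_neg h]
          right
          rcases ih a with h1 | h1
          · rw [h1]; exact List.mem_cons_self
          · exact List.mem_cons_of_mem _ h1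
    have h1 : sz (headOr (l x) ([], [])) ≤ sz (l x) + 3 := by
      unfold headOr
      cases hx : l x with
      | nil => simp only [sz_pair, sz_lnil]; omega
      | cons a m => simp only [sz_lcons]; omega
    rcases key ((l x).take i) (headOr (l x) ([], [])) with h | h
    · rw [h]; exact h1
    · have := sz_mem_le _ _ (List.mem_of_mem_take h)
      omega

include hge in
theorem ptf_algoL (hge' : ∀ a, geB a a = true) (N : ℕ) {P : γ → List V} (hP : PTf P) :
    PTf (fun x => algoL geB N (P x)) := by
  unfold algoL
  apply ptf_best hge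
  have h1 := ptf_candidates hge hge' N hP
  have h2 : PTf (fun p : γ × (List (V × Lab k) × List (V × Lab k)) => validB (P p.1) p.2) :=
    ptf_validB (PTf.comp hP (by fun_prop)) (by fun_prop)
  fun_prop

end labelled

end Pool.Agent.Helper62.Psp
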