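import Mathlib

namespace Pool.Agent.Helper62.BinDefs

open Matrix

/-- An instance `(f, C)`: an extended-real-valued function and a set in `ℝ^d`. -/
structure Inst (d : ℕ) where
  f : (Fin d → ℝ) → WithTop ℝ
  C : Set (Fin d → ℝ)

/-- The feasible region `C ∩ dom f`. -/
def feasible {d : ℕ} (I : Inst d) : Set (Fin d → ℝ) := {y | y ∈ I.C ∧ I.f y ≠ ⊤}

/-- The cube `[-R, R]^d`. -/
def cube (d : ℕ) (R : ℝ) : Set (Fin d → ℝ) := {z | ∀ i, |z i| ≤ R}

/-- The class of instances with parameters `R, ρ, M`. The norm on `Fin d → ℝ` is the maximum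
norm. -/
structure InClass (d : ℕ) (R ρ M : ℝ) (I : Inst d) : Prop where
  convex_f : ConvexOn ℝ {x | I.f x ≠ ⊤} (fun x => (I.f x).untopD 0)
  closed_C : IsClosed I.C
  convex_C : Convex ℝ I.C
  subset_cube : feasible I ⊆ cube d R
  inner_cube : (∃ y ∈ feasible I, ∀ y' ∈ feasible I, I.f y ≤ I.f y') →
    ∃ y, {x | ‖x - y‖ ≤ ρ} ⊆ feasible I
  lipschitz : ∀ x ∈ cube d R, ∀ y ∈ cube d R,
    I.f x ≤ I.f y + ((M * ‖x - y‖ : ℝ) : WithTop ℝ)

/-- A complete first-order chart on the class. -/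
structure Chart (d : ℕ) (R ρ M : ℝ) where
  sep : (Fin d → ℝ) → Inst d → (Fin d → ℝ)
  sub : (Fin d → ℝ) → Inst d → WithTop ℝ × (Fin d → ℝ)
  sep_mem : ∀ z ∈ cube d R, ∀ I, InClass d R ρ M I → z ∈ I.C → sep z I = 0
  sep_unit : ∀ z ∈ cube d R, ∀ I, InClass d R ρ M I → z ∉ I.C → sep z I ⬝ᵥ sep z I = 1
  sep_lt : ∀ z ∈ cube d R, ∀ I, InClass d R ρ M I → z ∉ I.C →
    ∀ y ∈ I.C, sep z I ⬝ᵥ y < sep z I ⬝ᵥ z
  sub_fst : ∀ z ∈ cube d R, ∀ I, InClass d R ρ M I → (sub z I).1 = I.f z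
  sub_snd : ∀ z ∈ cube d R, ∀ I, InClass d R ρ M I → I.f z ≠ ⊤ →
    ∀ y, I.f z + (((sub z I).2 ⬝ᵥ (y - z) : ℝ) : WithTop ℝ) ≤ I.f y

/-- The queries of the general binary oracle. -/
inductive Query (d : ℕ) (R : ℝ) : Type
  | sep (z : cube d R) (h : (Fin d → ℝ) → Bool) : Query d R
  | sub (z : cube d R) (h : WithTop ℝ × (Fin d → ℝ) → Bool) : Query d R

/-- The answer to a query, for the instance `I`. -/
def answer {d : ℕ} {R ρ M : ℝ} (G : Chart d R ρ M) (I : Inst d) : Query d R → Bool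
  | Query.sep z h => h (G.sep z I)
  | Query.sub z h => h (G.sub z I)

/-- The history of the first `k` query-answer pairs of the strategy `D` on the instance `I`. -/
def history {d : ℕ} {R ρ M : ℝ} (G : Chart d R ρ M) (D : List (Query d R × Bool) → Query d R)
    (I : Inst d) : ℕ → List (Query d R × Bool)
  | 0 => []
  | k + 1 => history G D I k ++ [(D (history G D I k), answer G I (D (history G D I k)))]

/-- `some y` solves `I` if `y` is an `ε`-approximate solution, and `none` solves `I` if `I` is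
infeasible. -/
def Solves {d : ℕ} (ε : ℝ) (I : Inst d) : Option (Fin d → ℝ) → Prop
  | none => feasible I = ∅
  | some y => y ∈ feasible I ∧ ∀ y' ∈ feasible I, I.f y ≤ I.f y' + (ε : WithTop ℝ)

/-- The number of queries needed by the strategy `D` on the instance `I`. -/
noncomputable def icompInst {d : ℕ} {R ρ M : ℝ} (G : Chart d R ρ M) (ε : ℝ)
    (D : List (Query d R × Bool) → Query d R) (I : Inst d) : ℕ∞ :=
  sInf {n : ℕ∞ | ∃ k : ℕ, n = k ∧ ∃ s : Option (Fin d → ℝ), ∀ I' : Inst d, InClass d R ρ M I' →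
    history G D I' k = history G D I k → Solves ε I' s}

/-- The information complexity of the class under the general binary oracle based on `G`. -/
noncomputable def icomp {d : ℕ} {R ρ M : ℝ} (G : Chart d R ρ M) (ε : ℝ) : ℕ∞ :=
  ⨅ D : List (Query d R × Bool) → Query d R, ⨆ I : {I : Inst d // InClass d R ρ M I},
    icompInst G ε D I.1

end Pool.Agent.Helper62.BinDefs
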