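import Mathlib

namespace Pool.Agent.Helper62.BinGeom

open Matrix MeasureTheory

variable {d : ℕ}

theorem cs (x y : Fin d → ℝ) : (x ⬝ᵥ y) ^ 2 ≤ (x ⬝ᵥ x) * (y ⬝ᵥ y) := by
  have h := Finset.sum_mul_sq_le_sq_mul_sq Finset.univ x y
  simp only [dotProduct]
  refine h.trans (le_of_eq ?_)
  congr 1 <;> (refine Finset.sum_congr rfl fun i _ => ?_; ring)

theorem self_nonneg (x : Fin d → ℝ) : 0 ≤ x ⬝ᵥ x := by
  simp only [dotProduct]
  exact Finset.sum_nonneg fun i _ => mul_self_nonneg _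

theorem self_pos {x : Fin d → ℝ} (hx : x ≠ 0) : 0 < x ⬝ᵥ x := by
  refine lt_of_le_of_ne (self_nonneg x) fun h => hx ?_
  exact dotProduct_self_eq_zero.1 h.symm

/-- one-dimensional inequality behind the shallow cut -/
theorem ineq1 (x s : ℝ) (hx0 : 0 < x) (hx : x ≤ 1 / 8) (hs : s ≤ x) (hs1 : -1 ≤ s) :
    (1 - 16 * x ^ 2) * (1 - s ^ 2) * (1 - 2 * x) ^ 2 + (s + 2 * x) ^ 2 ≤ (1 - 2 * x) ^ 2 := by
  have hk0 : 0 ≤ (1 - 16 * x ^ 2) * (1 - 2 * x) ^ 2 := by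
    have : 0 ≤ 1 - 16 * x ^ 2 := by nlinarith
    positivity
  have hk1 : (1 - 16 * x ^ 2) * (1 - 2 * x) ^ 2 ≤ 1 := by
    have h1 : 0 ≤ 1 - 16 * x ^ 2 := by nlinarith
    have h2 : 1 - 16 * x ^ 2 ≤ 1 := by nlinarith
    have h3 : (1 - 2 * x) ^ 2 ≤ 1 := by nlinarith
    have h4 : 0 ≤ (1 - 2 * x) ^ 2 := by positivity
    nlinarith
  have hB : (1 - 16 * x ^ 2) * (1 - 2 * x) ^ 2 * (1 - x) + x + 4 * x - 1 ≤ 0 := by
    have : (1 - 16 * x ^ 2) * (1 - 2 * x) ^ 2 * (1 - x) + x + 4 * x - 1 =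
      -4 * x ^ 2 * (2 - 19 * x + 32 * x ^ 2 - 16 * x ^ 3) := by ring
    rw [this]
    have h5 : 0 ≤ 2 - 19 * x + 32 * x ^ 2 - 16 * x ^ 3 := by nlinarith [mul_pos hx0 hx0]
    nlinarith [mul_nonneg (sq_nonneg x) h5]
  have hB2 : (1 - 16 * x ^ 2) * (1 - 2 * x) ^ 2 * (1 - s) + s + 4 * x - 1 ≤ 0 := by
    nlinarith [mul_nonneg (sub_nonneg.2 hs) (sub_nonneg.2 hk1)]
  have hs2 : 0 ≤ 1 + s := by linarith
  nlinarith [mul_nonneg hs2 (neg_nonneg.2 hB2)]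

/-- contraction factor along the cut direction -/
noncomputable def lam (d : ℕ) : ℝ := 1 - 1 / (4 * d)

/-- expansion factor orthogonal to the cut direction -/
noncomputable def sig (d : ℕ) : ℝ := (Real.sqrt (1 - 1 / (4 * (d : ℝ) ^ 2)))⁻¹

/-- the matrix of the shallow cut ellipsoid -/
noncomputable def L (w : Fin d → ℝ) : Matrix (Fin d) (Fin d) ℝ :=
  sig d • (1 : Matrix (Fin d) (Fin d) ℝ) + (lam d - sig d) • vecMulVec w w

theorem kappa_pos (hd : 1 ≤ d) : 0 < 1 - 1 / (4 * (d : ℝ) ^ 2) := by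
  have h1 : (1 : ℝ) ≤ d := by exact_mod_cast hd
  have h2 : 1 / (4 * (d : ℝ) ^ 2) ≤ 1 / 4 := by
    apply one_div_le_one_div_of_le (by norm_num)
    nlinarith
  linarith

theorem lam_pos (hd : 1 ≤ d) : 0 < lam d := by
  have h1 : (1 : ℝ) ≤ d := by exact_mod_cast hd
  have h2 : 1 / (4 * (d : ℝ)) ≤ 1 / 4 := by
    apply one_div_le_one_div_of_le (by norm_num)
    linarith
  unfold lam
  linarith

theorem sig_pos (hd : 1 ≤ d) : 0 < sig d := by
  unfold sig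
  have := kappa_pos hd
  positivity

theorem sig_sq (hd : 1 ≤ d) : (sig d)⁻¹ ^ 2 = 1 - 1 / (4 * (d : ℝ) ^ 2) := by
  unfold sig
  rw [inv_inv, Real.sq_sqrt (kappa_pos hd).le]

theorem L_mulVec (w x : Fin d → ℝ) :
    L w *ᵥ x = sig d • x + ((lam d - sig d) * (w ⬝ᵥ x)) • w := by
  unfold L
  rw [add_mulVec, smul_mulVec, one_mulVec, smul_mulVec, vecMulVec_mulVec]
  congr 1
  rw [op_smul_eq_smul, smul_smul]

theorem step (hd : 1 ≤ d) (w u : Fin d → ℝ) (hw : w ⬝ᵥ w = 1) (hu : u ⬝ᵥ u ≤ 1)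
    (hwu : w ⬝ᵥ u ≤ 1 / (8 * d)) :
    ∃ x : Fin d → ℝ, x ⬝ᵥ x ≤ 1 ∧ u = -(1 / (4 * (d : ℝ))) • w + L w *ᵥ x := by
  have h1 : (1 : ℝ) ≤ d := by exact_mod_cast hd
  have hσ := sig_pos hd
  have hl := lam_pos hd
  set s := w ⬝ᵥ u with hs
  have hs1 : -1 ≤ s := by
    have := cs w u
    rw [hw, one_mul, ← hs] at this
    nlinarith
  refine ⟨(sig d)⁻¹ • (u - s • w) + ((s + 1 / (4 * (d : ℝ))) / lam d) • w, ?_, ?_⟩
  · have e1 : (u - s • w) ⬝ᵥ w = 0 := by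
      rw [sub_dotProduct, smul_dotProduct, hw, dotProduct_comm, ← hs]
      simp
    have e2 : (u - s • w) ⬝ᵥ (u - s • w) = u ⬝ᵥ u - s ^ 2 := by
      rw [dotProduct_sub, dotProduct_smul, e1, sub_dotProduct, smul_dotProduct, ← hs]
      simp only [smul_eq_mul]
      ring
    have e3 : ((sig d)⁻¹ • (u - s • w) + ((s + 1 / (4 * (d : ℝ))) / lam d) • w) ⬝ᵥ
        ((sig d)⁻¹ • (u - s • w) + ((s + 1 / (4 * (d : ℝ))) / lam d) • w) =
        (sig d)⁻¹ ^ 2 * (u ⬝ᵥ u - s ^ 2) + ((s + 1 / (4 * (d : ℝ))) / lam d) ^ 2 := by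
      simp only [add_dotProduct, dotProduct_add, smul_dotProduct, dotProduct_smul, e1, e2, hw,
        dotProduct_comm w (u - s • w), smul_eq_mul]
      ring
    rw [e3, sig_sq hd, div_pow, ← le_sub_iff_add_le', div_le_iff₀ (by positivity)]
    have hk := kappa_pos hd
    have h3 := ineq1 (1 / (8 * (d : ℝ))) s (by positivity)
      (by apply one_div_le_one_div_of_le <;> linarith) hwu hs1
    have e4 : (1 - 16 * (1 / (8 * (d : ℝ))) ^ 2) = 1 - 1 / (4 * (d : ℝ) ^ 2) := by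
      field_simp; ring
    have e5 : (1 - 2 * (1 / (8 * (d : ℝ)))) = lam d := by
      unfold lam; field_simp; ring
    have e6 : (s + 2 * (1 / (8 * (d : ℝ)))) = s + 1 / (4 * (d : ℝ)) := by
      field_simp; ring
    rw [e4, e5, e6] at h3
    have h4 : (1 - 1 / (4 * (d : ℝ) ^ 2)) * (u ⬝ᵥ u - s ^ 2) * lam d ^ 2 ≤
        (1 - 1 / (4 * (d : ℝ) ^ 2)) * (1 - s ^ 2) * lam d ^ 2 := by
      apply mul_le_mul_of_nonneg_right _ (by positivity)
      apply mul_le_mul_of_nonneg_left _ hk.le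
      linarith
    nlinarith
  · rw [L_mulVec]
    have e7 : w ⬝ᵥ ((sig d)⁻¹ • (u - s • w) + ((s + 1 / (4 * (d : ℝ))) / lam d) • w) =
        (s + 1 / (4 * (d : ℝ))) / lam d := by
      rw [dotProduct_add, dotProduct_smul, dotProduct_smul, dotProduct_sub, dotProduct_smul, hw,
        ← hs]
      simp
    rw [e7]
    funext i
    simp only [Pi.add_apply, Pi.smul_apply, Pi.sub_apply, smul_eq_mul]
    field_simp
    ring

theorem det_L (hd : 1 ≤ d) (w : Fin d → ℝ) (hw : w ⬝ᵥ w = 1) :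
    (L w).det = sig d ^ (d - 1) * lam d := by
  have hσ := sig_pos hd
  have e : L w = sig d • (1 + replicateCol Unit (((lam d - sig d) / sig d) • w) *
      replicateRow Unit w) := by
    unfold L
    rw [← vecMulVec_eq, smul_add, smul_vecMulVec, smul_smul]
    congr 2
    field_simp
  rw [e, det_smul, det_one_add_replicateCol_mul_replicateRow, dotProduct_smul, hw, Fintype.card_fin]
  obtain ⟨k, rfl⟩ : ∃ k, d = k + 1 := ⟨d - 1, by omega⟩
  simp only [Nat.add_sub_cancel, smul_eq_mul, mul_one]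
  rw [pow_succ]
  field_simp
  ring

theorem det_L_pos (hd : 1 ≤ d) (w : Fin d → ℝ) (hw : w ⬝ᵥ w = 1) : 0 < (L w).det := by
  rw [det_L hd w hw]
  have := sig_pos hd
  have := lam_pos hd
  positivity

theorem det_L_le (hd : 1 ≤ d) (w : Fin d → ℝ) (hw : w ⬝ᵥ w = 1) :
    (L w).det ≤ Real.exp (-(1 / (12 * d))) := by
  have h1 : (1 : ℝ) ≤ d := by exact_mod_cast hd
  have hpos := det_L_pos hd w hw
  rw [det_L hd w hw] at hpos ⊢
  have hσ := sig_pos hd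
  have hl := lam_pos hd
  -- square both sides
  have hexp : Real.exp (-(1 / (12 * (d : ℝ)))) ^ 2 = Real.exp (-(1 / (6 * (d : ℝ)))) := by
    rw [← Real.exp_nat_mul]
    congr 1
    push_cast
    field_simp
    ring
  rw [← abs_of_pos hpos, ← abs_of_pos (Real.exp_pos (-(1 / (12 * (d : ℝ)))))]
  apply sq_le_sq.1
  rw [hexp, mul_pow, ← pow_mul, mul_comm (d - 1) 2, pow_mul]
  have hs2 : sig d ^ 2 = (1 - 1 / (4 * (d : ℝ) ^ 2))⁻¹ := by
    rw [← sig_sq hd]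
    simp
  have hk := kappa_pos hd
  have hs3 : sig d ^ 2 ≤ Real.exp (1 / (3 * (d : ℝ) ^ 2)) := by
    rw [hs2]
    have h2 : (1 - 1 / (4 * (d : ℝ) ^ 2))⁻¹ ≤ 1 + 1 / (3 * (d : ℝ) ^ 2) := by
      rw [inv_le_iff_one_le_mul₀ hk]
      have h3 : 0 < 1 / (12 * (d : ℝ) ^ 2) := by positivity
      have h4 : 1 / (12 * (d : ℝ) ^ 2) ≤ 1 / 12 := by
        apply one_div_le_one_div_of_le (by norm_num)
        nlinarith
      have e1 : 1 / (4 * (d : ℝ) ^ 2) = 3 * (1 / (12 * (d : ℝ) ^ 2)) := by field_simp; norm_num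
      have e2 : 1 / (3 * (d : ℝ) ^ 2) = 4 * (1 / (12 * (d : ℝ) ^ 2)) := by field_simp; norm_num
      rw [e1, e2]
      nlinarith
    have h5 := Real.add_one_le_exp (1 / (3 * (d : ℝ) ^ 2))
    linarith
  have hl2 : lam d ^ 2 ≤ Real.exp (-(1 / (2 * (d : ℝ)))) := by
    have h5 := Real.add_one_le_exp (-(1 / (4 * (d : ℝ))))
    have h6 : lam d ≤ Real.exp (-(1 / (4 * (d : ℝ)))) := by unfold lam; linarith
    have h7 : lam d ^ 2 ≤ Real.exp (-(1 / (4 * (d : ℝ)))) ^ 2 := by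
      apply pow_le_pow_left₀ hl.le h6
    refine h7.trans (le_of_eq ?_)
    rw [← Real.exp_nat_mul]
    congr 1
    push_cast
    field_simp
    ring
  have h8 : (sig d ^ 2) ^ (d - 1) ≤ Real.exp (1 / (3 * (d : ℝ) ^ 2)) ^ (d - 1) := by
    apply pow_le_pow_left₀ (by positivity) hs3
  have h9 : Real.exp (1 / (3 * (d : ℝ) ^ 2)) ^ (d - 1) ≤ Real.exp (1 / (3 * (d : ℝ))) := by
    rw [← Real.exp_nat_mul]
    apply Real.exp_le_exp.2
    have h10 : ((d - 1 : ℕ) : ℝ) ≤ d := by exact_mod_cast Nat.sub_le d 1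
    calc ((d - 1 : ℕ) : ℝ) * (1 / (3 * (d : ℝ) ^ 2)) ≤ d * (1 / (3 * (d : ℝ) ^ 2)) := by
          apply mul_le_mul_of_nonneg_right h10 (by positivity)
      _ = 1 / (3 * (d : ℝ)) := by field_simp
  calc (sig d ^ 2) ^ (d - 1) * lam d ^ 2
      ≤ Real.exp (1 / (3 * (d : ℝ))) * Real.exp (-(1 / (2 * (d : ℝ)))) := by
        apply mul_le_mul (h8.trans h9) hl2 (by positivity) (Real.exp_pos _).le
    _ = Real.exp (-(1 / (6 * (d : ℝ)))) := by
        rw [← Real.exp_add]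
        congr 1
        field_simp
        ring

/-- The ellipsoid with centre `c` and matrix `A`. -/
def ell (c : Fin d → ℝ) (A : Matrix (Fin d) (Fin d) ℝ) : Set (Fin d → ℝ) :=
  {y | ∃ u : Fin d → ℝ, u ⬝ᵥ u ≤ 1 ∧ y = c + A *ᵥ u}

/-- the shallow cut of an ellipsoid -/
theorem cut (hd : 1 ≤ d) (c : Fin d → ℝ) (A : Matrix (Fin d) (Fin d) ℝ) (P : Set (Fin d → ℝ))
    (hP : P ⊆ ell c A) (q a w : Fin d → ℝ) (r : ℝ) (hr : 0 < r) (hq : q ᵥ* A = r • a)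
    (hw : w ⬝ᵥ w = 1) (haw : (w - a) ⬝ᵥ (w - a) ≤ (1 / (16 * d)) ^ 2)
    (hcut : ∀ y ∈ P, q ⬝ᵥ (y - c) ≤ 1 / (16 * d) * r) :
    P ⊆ ell (c + A *ᵥ (-(1 / (4 * (d : ℝ))) • w)) (A * L w) := by
  have h1 : (1 : ℝ) ≤ d := by exact_mod_cast hd
  intro y hy
  obtain ⟨u, hu, hyu⟩ := hP hy
  have h2 := hcut y hy
  have e1 : q ⬝ᵥ (y - c) = r * (a ⬝ᵥ u) := by
    rw [hyu, add_sub_cancel_left, dotProduct_mulVec, hq, smul_dotProduct, smul_eq_mul]
  rw [e1] at h2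
  have h3 : a ⬝ᵥ u ≤ 1 / (16 * d) := by
    rw [mul_comm r] at h2
    exact le_of_mul_le_mul_right h2 hr
  have h4 : (w - a) ⬝ᵥ u ≤ 1 / (16 * d) := by
    have h5 := cs (w - a) u
    have h6 : ((w - a) ⬝ᵥ u) ^ 2 ≤ (1 / (16 * (d : ℝ))) ^ 2 := by
      refine h5.trans ?_
      have h7 := self_nonneg (w - a)
      have h8 := self_nonneg u
      nlinarith
    exact (abs_le_of_sq_le_sq' h6 (by positivity)).2
  have h9 : w ⬝ᵥ u ≤ 1 / (8 * d) := by
    have e2 : w ⬝ᵥ u = (w - a) ⬝ᵥ u + a ⬝ᵥ u := by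
      rw [sub_dotProduct]; ring
    rw [e2]
    have e3 : 1 / (8 * (d : ℝ)) = 1 / (16 * d) + 1 / (16 * d) := by field_simp; norm_num
    rw [e3]
    exact add_le_add h4 h3
  obtain ⟨x, hx, hux⟩ := step hd w u hw hu h9
  refine ⟨x, hx, ?_⟩
  rw [hyu]
  conv_lhs => rw [hux]
  rw [mulVec_add, mulVec_mulVec, add_assoc]

/-- volume comparison -/
theorem vol (c : Fin d → ℝ) (A : Matrix (Fin d) (Fin d) ℝ) (p : Fin d → ℝ) (r : ℝ) (hr : 0 ≤ r)
    (h : Metric.closedBall p r ⊆ ell c A) : r ^ d ≤ |A.det| := by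
  have h1 : ell c A ⊆ (fun x => c + x) '' (Matrix.toLin' A '' Metric.closedBall 0 1) := by
    rintro y ⟨u, hu, rfl⟩
    refine ⟨A *ᵥ u, ⟨u, ?_, by simp⟩, rfl⟩
    rw [mem_closedBall_zero_iff, pi_norm_le_iff_of_nonneg zero_le_one]
    intro i
    have h2 : u i * u i ≤ 1 := by
      refine le_trans ?_ hu
      simp only [dotProduct]
      exact Finset.single_le_sum (f := fun i => u i * u i) (fun j _ => mul_self_nonneg _)
        (Finset.mem_univ i)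
    rw [Real.norm_eq_abs, ← abs_one]
    apply sq_le_sq.1
    nlinarith
  have h3 := measure_mono (μ := (volume : Measure (Fin d → ℝ))) (h.trans h1)
  rw [Real.volume_pi_closedBall p hr, Set.image_add_left, measure_preimage_add,
    Measure.addHaar_image_linearMap, Real.volume_pi_closedBall 0 zero_le_one, LinearMap.det_toLin',
    ← ENNReal.ofReal_mul (abs_nonneg _), ENNReal.ofReal_le_ofReal_iff (by positivity),
    Fintype.card_fin, mul_pow, mul_pow, one_pow, mul_one, mul_comm (|A.det|)] at h3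
  exact le_of_mul_le_mul_left h3 (by positivity)

end Pool.Agent.Helper62.BinGeom
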