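import Mathlib
import Pool.Agent.Helper62.BinDefs

namespace Pool.Agent.Helper62.BinTree

open BinDefs

/-- binary decision trees -/
inductive Tree (Q : Type) (α : Type) : Type
  | leaf (a : α) : Tree Q α
  | node (q : Q) (l r : Tree Q α) : Tree Q α

variable {Q α β : Type}

namespace Tree

def run (ans : Q → Bool) : Tree Q α → α
  | leaf a => a
  | node q l r => cond (ans q) (run ans r) (run ans l)

def depth : Tree Q α → ℕ
  | leaf _ => 0
  | node _ l r => max l.depth r.depth + 1

def bind : Tree Q α → (α → Tree Q β) → Tree Q β
  | leaf a, f => f a
  | node q l r, f => node q (bind l f) (bind r f)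

theorem run_bind (ans : Q → Bool) (t : Tree Q α) (f : α → Tree Q β) :
    (bind t f).run ans = (f (t.run ans)).run ans := by
  induction t with
  | leaf a => rfl
  | node q l r ihl ihr =>
    simp only [bind, run, ihl, ihr]
    cases ans q <;> rfl

theorem depth_bind (t : Tree Q α) (f : α → Tree Q β) (n : ℕ) (h : ∀ a, (f a).depth ≤ n) :
    (bind t f).depth ≤ t.depth + n := by
  induction t with
  | leaf a => simpa [bind, depth] using h a
  | node q l r ihl ihr =>
    simp only [bind, depth]
    omega

/-- one query -/
def ask (q : Q) : Tree Q Bool := node q (leaf false) (leaf true)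

theorem run_ask (ans : Q → Bool) (q : Q) : (ask q).run ans = ans q := by
  simp only [ask, run]
  cases ans q <;> rfl

theorem depth_ask (q : Q) : (ask q).depth = 1 := rfl

/-- a block of `n` queries -/
def askVec : ∀ n : ℕ, (Fin n → Q) → Tree Q (Fin n → Bool)
  | 0, _ => leaf Fin.elim0
  | n + 1, q => bind (askVec n (fun i => q i.castSucc)) fun v =>
      bind (ask (q (Fin.last n))) fun b => leaf (Fin.snoc v b : Fin (n + 1) → Bool)

theorem run_askVec (ans : Q → Bool) (n : ℕ) (q : Fin n → Q) :
    (askVec n q).run ans = fun i => ans (q i) := by
  induction n with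
  | zero => funext i; exact i.elim0
  | succ n ih =>
    simp only [askVec, run_bind, run_ask, ih, run]
    funext i
    refine Fin.lastCases ?_ (fun i => ?_) i
    · simp
    · simp

theorem depth_askVec (n : ℕ) (q : Fin n → Q) : (askVec n q).depth ≤ n := by
  induction n with
  | zero => simp [askVec, depth]
  | succ n ih =>
    simp only [askVec]
    refine (depth_bind _ _ 1 ?_).trans ?_
    · intro v
      refine (depth_bind _ _ 0 ?_).trans ?_
      · intro b; simp [depth]
      · simp [depth_ask]
    · have := ih (fun i => q i.castSucc)
      omega

/-- walk down the tree along a list of answers -/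
def walk : Tree Q α → List Bool → Tree Q α
  | t, [] => t
  | leaf a, _ :: _ => leaf a
  | node _ l r, b :: bs => walk (cond b r l) bs

theorem walk_append (t : Tree Q α) (l₁ l₂ : List Bool) :
    walk t (l₁ ++ l₂) = walk (walk t l₁) l₂ := by
  induction l₁ generalizing t with
  | nil => simp [walk]
  | cons b bs ih =>
    cases t with
    | leaf a =>
      simp only [List.cons_append, walk]
      cases l₂ <;> simp [walk]
    | node q l r => simp only [List.cons_append, walk]; exact ih _

/-- the query at the root -/
def root (q0 : Q) : Tree Q α → Q
  | leaf _ => q0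
  | node q _ _ => q

/-- the strategy following the tree -/
def strat (q0 : Q) (t : Tree Q α) (H : List (Q × Bool)) : Q :=
  root q0 (walk t (H.map Prod.snd))

theorem walk_single_depth (ans : Q → Bool) (q0 : Q) (t : Tree Q α) :
    (walk t [ans (root q0 t)]).depth ≤ t.depth - 1 ∧
      (walk t [ans (root q0 t)]).run ans = t.run ans := by
  cases t with
  | leaf a => simp [walk, depth]
  | node q l r =>
    simp only [root, walk, depth, run]
    cases ans q
    · simp only [cond_false]
      constructor
      · omega
      · trivial
    · simp only [cond_true]
      constructor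
      · omega
      · trivial

end Tree

open Tree

variable {d : ℕ} {R ρ M : ℝ}

theorem history_walk (G : Chart d R ρ M) (q0 : Query d R) (t : Tree (Query d R) α) (I : Inst d)
    (k : ℕ) :
    (walk t ((history G (strat q0 t) I k).map Prod.snd)).depth ≤ t.depth - k ∧
    (walk t ((history G (strat q0 t) I k).map Prod.snd)).run (answer G I) =
      t.run (answer G I) := by
  induction k with
  | zero => simp [history, walk]
  | succ k ih =>
    simp only [history, List.map_append, List.map_cons, List.map_nil, walk_append]
    have h := walk_single_depth (answer G I) q0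
      (walk t ((history G (strat q0 t) I k).map Prod.snd))
    have e : strat q0 t (history G (strat q0 t) I k) =
      root q0 (walk t ((history G (strat q0 t) I k).map Prod.snd)) := rfl
    rw [e]
    refine ⟨h.1.trans ?_, h.2.trans ih.2⟩
    omega

/-- A decision tree that solves all the instances of the class bounds the information
complexity. -/
theorem icomp_le_of_tree (G : Chart d R ρ M) (ε : ℝ) (q0 : Query d R)
    (t : Tree (Query d R) (Option (Fin d → ℝ)))
    (ht : ∀ I, InClass d R ρ M I → Solves ε I (t.run (answer G I))) :
    icomp G ε ≤ t.depth := by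
  refine (iInf_le _ (strat q0 t)).trans ?_
  refine iSup_le ?_
  rintro ⟨I, hI⟩
  refine sInf_le ?_
  refine ⟨t.depth, rfl, t.run (answer G I), ?_⟩
  intro I' hI' hh
  have h1 := history_walk G q0 t I t.depth
  have h2 := history_walk G q0 t I' t.depth
  rw [hh] at h2
  have h3 : t.run (answer G I') = t.run (answer G I) := by
    rw [← h1.2, ← h2.2]
    have h4 : (walk t ((history G (strat q0 t) I t.depth).map Prod.snd)).depth = 0 := by
      have := h1.1
      omega
    cases h5 : walk t ((history G (strat q0 t) I t.depth).map Prod.snd) with
    | leaf a => rfl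
    | node q l r =>
      rw [h5] at h4
      simp [depth] at h4
  rw [← h3]
  exact ht I' hI'

end Pool.Agent.Helper62.BinTree
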