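import Mathlib
import Pool.Agent.Helper62.BinDefs
import Pool.Agent.Helper62.BinTree
import Pool.Agent.Helper62.BinGeom

namespace Pool.Agent.Helper62.BinAlgo

open Matrix MeasureTheory BinDefs BinTree BinTree.Tree BinGeom

open scoped Classical in
theorem codebook {d : ℕ} (hd : 1 ≤ d) (p : ℕ) (hp : 32 * d ^ 2 + 1 ≤ 2 ^ p) :
    ∃ (code : (Fin d → ℝ) → (Fin (d * p) → Bool)) (dec : (Fin (d * p) → Bool) → (Fin d → ℝ)),
      (∀ v, dec v ⬝ᵥ dec v = 1) ∧ ∀ a : Fin d → ℝ, a ⬝ᵥ a = 1 →
        (dec (code a) - a) ⬝ᵥ (dec (code a) - a) ≤ (1 / (16 * (d : ℝ))) ^ 2 := by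
  classical
  have h1 : (1 : ℝ) ≤ d := by exact_mod_cast hd
  -- the embedding of the cells
  have hcard : Fintype.card (Fin d → Fin (32 * d ^ 2 + 1)) ≤
      Fintype.card (Fin (d * p) → Bool) := by
    simp only [Fintype.card_fun, Fintype.card_fin, Fintype.card_bool]
    rw [mul_comm d p, pow_mul]
    exact Nat.pow_le_pow_left hp d
  obtain ⟨e⟩ := Function.Embedding.nonempty_of_card_le hcard
  let q : (Fin d → ℝ) → (Fin d → Fin (32 * d ^ 2 + 1)) := fun a i =>
    Fin.ofNat (32 * d ^ 2 + 1) ((⌊(16 * (d : ℝ) ^ 2) * a i⌋ + 16 * (d : ℤ) ^ 2).toNat)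
  have hq : ∀ a b : Fin d → ℝ, a ⬝ᵥ a = 1 → b ⬝ᵥ b = 1 → q a = q b →
      (a - b) ⬝ᵥ (a - b) ≤ (1 / (16 * (d : ℝ))) ^ 2 := by
    intro a b ha hb hab
    have hcoord : ∀ (a : Fin d → ℝ), a ⬝ᵥ a = 1 → ∀ i, |a i| ≤ 1 := by
      intro a ha i
      have h2 : a i * a i ≤ 1 := by
        rw [← ha]
        simp only [dotProduct]
        exact Finset.single_le_sum (f := fun i => a i * a i) (fun j _ => mul_self_nonneg _)
          (Finset.mem_univ i)
      rw [← abs_one]
      apply sq_le_sq.1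
      nlinarith
    have hfl : ∀ (a : Fin d → ℝ), a ⬝ᵥ a = 1 → ∀ i,
        0 ≤ ⌊(16 * (d : ℝ) ^ 2) * a i⌋ + 16 * (d : ℤ) ^ 2 ∧
        (⌊(16 * (d : ℝ) ^ 2) * a i⌋ + 16 * (d : ℤ) ^ 2).toNat < 32 * d ^ 2 + 1 := by
      intro a ha i
      have h3 := abs_le.1 (hcoord a ha i)
      have h4 : -(16 * (d : ℤ) ^ 2) ≤ ⌊(16 * (d : ℝ) ^ 2) * a i⌋ := by
        rw [Int.le_floor]
        push_cast
        nlinarith [sq_nonneg (d : ℝ)]
      have h5 : ⌊(16 * (d : ℝ) ^ 2) * a i⌋ ≤ 16 * (d : ℤ) ^ 2 := by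
        have : (⌊(16 * (d : ℝ) ^ 2) * a i⌋ : ℝ) ≤ ((16 * (d : ℤ) ^ 2 : ℤ) : ℝ) := by
          refine (Int.floor_le _).trans ?_
          push_cast
          nlinarith [sq_nonneg (d : ℝ)]
        exact_mod_cast this
      constructor
      · linarith
      · zify
        rw [Int.toNat_of_nonneg (by linarith)]
        push_cast
        linarith
    have hdiff : ∀ i, (a i - b i) * (a i - b i) ≤ (1 / (16 * (d : ℝ) ^ 2)) ^ 2 := by
      intro i
      have h6 := congrArg Fin.val (congrFun hab i)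
      simp only [q, Fin.val_ofNat] at h6
      rw [Nat.mod_eq_of_lt (hfl a ha i).2, Nat.mod_eq_of_lt (hfl b hb i).2] at h6
      have h7 : ⌊(16 * (d : ℝ) ^ 2) * a i⌋ = ⌊(16 * (d : ℝ) ^ 2) * b i⌋ := by
        have e1 := Int.toNat_of_nonneg (hfl a ha i).1
        have e2 := Int.toNat_of_nonneg (hfl b hb i).1
        rw [h6] at e1
        linarith
      have h8 := Int.abs_sub_lt_one_of_floor_eq_floor h7
      rw [← mul_sub, abs_mul, abs_of_pos (by positivity : (0 : ℝ) < 16 * (d : ℝ) ^ 2)] at h8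
      have h9 : |a i - b i| ≤ 1 / (16 * (d : ℝ) ^ 2) := by
        rw [le_div_iff₀ (by positivity)]
        linarith
      have h10 := abs_nonneg (a i - b i)
      have h11 : (a i - b i) * (a i - b i) = |a i - b i| ^ 2 := by rw [sq_abs]; ring
      rw [h11]
      exact pow_le_pow_left₀ h10 h9 2
    calc (a - b) ⬝ᵥ (a - b) = ∑ i, (a i - b i) * (a i - b i) := by simp [dotProduct]
      _ ≤ ∑ _i : Fin d, (1 / (16 * (d : ℝ) ^ 2)) ^ 2 := Finset.sum_le_sum fun i _ => hdiff i
      _ = d * (1 / (16 * (d : ℝ) ^ 2)) ^ 2 := by simp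
      _ ≤ (1 / (16 * (d : ℝ))) ^ 2 := by
        have e : (d : ℝ) * (1 / (16 * (d : ℝ) ^ 2)) ^ 2 = (1 / (16 * (d : ℝ))) ^ 2 * (1 / d) := by
          field_simp
        rw [e]
        have h12 : 1 / (d : ℝ) ≤ 1 := by
          rw [div_le_one (by linarith)]; exact h1
        have h13 : 0 ≤ (1 / (16 * (d : ℝ))) ^ 2 := by positivity
        nlinarith
  let e0 : Fin d → ℝ := Pi.single ⟨0, hd⟩ 1
  have he0 : e0 ⬝ᵥ e0 = 1 := by simp [e0]
  refine ⟨fun a => e (q a), fun v => if h : ∃ a : Fin d → ℝ, a ⬝ᵥ a = 1 ∧ e (q a) = v then h.choose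
    else e0, ?_, ?_⟩
  · intro v
    by_cases h : ∃ a : Fin d → ℝ, a ⬝ᵥ a = 1 ∧ e (q a) = v
    · simp only [dif_pos h]
      exact h.choose_spec.1
    · simp only [dif_neg h]
      exact he0
  · intro a ha
    have h : ∃ a' : Fin d → ℝ, a' ⬝ᵥ a' = 1 ∧ e (q a') = e (q a) := ⟨a, ha, rfl⟩
    simp only [dif_pos h]
    exact hq _ _ h.choose_spec.1 ha (e.injective h.choose_spec.2)

/-- Euclidean norm -/
noncomputable def nrm {d : ℕ} (q : Fin d → ℝ) : ℝ := Real.sqrt (q ⬝ᵥ q)

/-- Euclidean direction -/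
noncomputable def dirn {d : ℕ} (q : Fin d → ℝ) : Fin d → ℝ := (nrm q)⁻¹ • q

theorem nrm_pos {d : ℕ} {q : Fin d → ℝ} (hq : q ≠ 0) : 0 < nrm q := Real.sqrt_pos.2 (self_pos hq)

theorem nrm_sq {d : ℕ} (q : Fin d → ℝ) : nrm q * nrm q = q ⬝ᵥ q := Real.mul_self_sqrt (self_nonneg q)

theorem dirn_unit {d : ℕ} {q : Fin d → ℝ} (hq : q ≠ 0) : dirn q ⬝ᵥ dirn q = 1 := by
  have := nrm_pos hq
  simp only [dirn, smul_dotProduct, dotProduct_smul, smul_eq_mul, ← nrm_sq]
  field_simp

theorem smul_dirn {d : ℕ} {q : Fin d → ℝ} (hq : q ≠ 0) : q = nrm q • dirn q := by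
  have := nrm_pos hq
  simp only [dirn, smul_smul]
  rw [mul_inv_cancel₀ this.ne', one_smul]

open scoped Classical in
/-- a separating facet normal of the cube -/
noncomputable def facet {d : ℕ} (c : Fin d → ℝ) (R : ℝ) : Fin d → ℝ :=
  if h : ∃ i, R < c i then Pi.single h.choose 1
  else if h : ∃ i, c i < -R then -Pi.single h.choose 1
  else 0

theorem facet_spec {d : ℕ} {c : Fin d → ℝ} {R : ℝ} (hc : c ∉ cube d R) :
    facet c R ≠ 0 ∧ ∀ y ∈ cube d R, facet c R ⬝ᵥ (y - c) ≤ 0 := by
  classical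
  unfold facet
  by_cases h : ∃ i, R < c i
  · rw [dif_pos h]
    refine ⟨?_, ?_⟩
    · simp
    · intro y hy
      have h2 := h.choose_spec
      have h3 := (abs_le.1 (hy h.choose)).2
      simp only [single_one_dotProduct, Pi.sub_apply]
      linarith
  · rw [dif_neg h]
    by_cases h' : ∃ i, c i < -R
    · rw [dif_pos h']
      refine ⟨?_, ?_⟩
      · simp
      · intro y hy
        have h2 := h'.choose_spec
        have h3 := (abs_le.1 (hy h'.choose)).1
        simp only [neg_dotProduct, single_one_dotProduct, Pi.sub_apply]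
        linarith
    · exfalso
      apply hc
      intro i
      push Not at h h'
      exact abs_le.2 ⟨h' i, h i⟩

open scoped Classical in
/-- the decision tree -/
noncomputable def algo {d : ℕ} {R : ℝ} (ε : ℝ) (n : ℕ) (code : (Fin d → ℝ) → (Fin n → Bool))
    (dec : (Fin n → Bool) → (Fin d → ℝ)) :
    ℕ → (Fin d → ℝ) → Matrix (Fin d) (Fin d) ℝ → Tree (Query d R) (Option (Fin d → ℝ))
  | 0, _, _ => leaf none
  | k + 1, c, A =>
    if hc : c ∈ cube d R then
      Tree.bind (ask (Query.sub ⟨c, hc⟩ (fun p => decide (p.1 = ⊤)))) fun b1 =>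
      cond b1 (leaf none)
      (Tree.bind (ask (Query.sep ⟨c, hc⟩ (fun a => decide (a = 0)))) fun b2 =>
      cond b2
      (Tree.bind (ask (Query.sub ⟨c, hc⟩ (fun p => decide (nrm (p.2 ᵥ* A) ≤ ε)))) fun b3 =>
        cond b3 (leaf (some c))
        (Tree.bind (askVec n (fun j => Query.sub ⟨c, hc⟩ (fun p => code (dirn (p.2 ᵥ* A)) j)))
          fun v => algo ε n code dec k (c + A *ᵥ (-(1 / (4 * (d : ℝ))) • dec v)) (A * L (dec v))))
      (Tree.bind (askVec n (fun j => Query.sep ⟨c, hc⟩ (fun a => code (dirn (a ᵥ* A)) j)))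
          fun v => algo ε n code dec k (c + A *ᵥ (-(1 / (4 * (d : ℝ))) • dec v)) (A * L (dec v))))
    else
      algo ε n code dec k (c + A *ᵥ (-(1 / (4 * (d : ℝ))) • dirn (facet c R ᵥ* A)))
        (A * L (dirn (facet c R ᵥ* A)))

theorem algo_depth {d : ℕ} {R : ℝ} (ε : ℝ) (n : ℕ) (code : (Fin d → ℝ) → (Fin n → Bool))
    (dec : (Fin n → Bool) → (Fin d → ℝ)) (k : ℕ) :
    ∀ (c : Fin d → ℝ) (A : Matrix (Fin d) (Fin d) ℝ),
      (algo (R := R) ε n code dec k c A).depth ≤ k * (n + 3) := by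
  induction k with
  | zero => intro c A; simp [algo, depth]
  | succ k ih =>
    intro c A
    rw [algo]
    split_ifs with hc
    · refine (depth_bind _ _ (k * (n + 3) + n + 2) ?_).trans ?_
      · intro b1
        cases b1
        · simp only [cond_false]
          refine (depth_bind _ _ (k * (n + 3) + n + 1) ?_).trans ?_
          · intro b2
            cases b2
            · simp only [cond_false]
              refine (depth_bind _ _ (k * (n + 3)) (fun v => ih _ _)).trans ?_
              have := depth_askVec n (fun j => Query.sep (R := R) ⟨c, hc⟩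
                (fun a => code (dirn (a ᵥ* A)) j))
              omega
            · simp only [cond_true]
              refine (depth_bind _ _ (k * (n + 3) + n) ?_).trans ?_
              · intro b3
                cases b3
                · simp only [cond_false]
                  refine (depth_bind _ _ (k * (n + 3)) (fun v => ih _ _)).trans ?_
                  have := depth_askVec n (fun j => Query.sub (R := R) ⟨c, hc⟩
                    (fun p => code (dirn (p.2 ᵥ* A)) j))
                  omega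
                · simp [depth]
              · rw [depth_ask]; omega
          · rw [depth_ask]; omega
        · simp [depth]
      · rw [depth_ask]; ring_nf; omega
    · refine (ih _ _).trans ?_
      nlinarith

/-- the set of points that are never cut off -/
def core {d : ℕ} {R ρ M : ℝ} (G : Chart d R ρ M) (ε : ℝ) (I : Inst d) : Set (Fin d → ℝ) :=
  {y | y ∈ feasible I ∧ ∀ z ∈ cube d R, z ∈ I.C → I.f z ≠ ⊤ →
    (G.sub z I).2 ⬝ᵥ (y - z) ≤ 1 / (16 * (d : ℝ)) * ε}

theorem grad_ineq {d : ℕ} {R ρ M : ℝ} (G : Chart d R ρ M) {I : Inst d} (hI : InClass d R ρ M I)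
    {z : Fin d → ℝ} (hz : z ∈ cube d R) {a b : ℝ} (ha : I.f z = a) {y : Fin d → ℝ}
    (hb : I.f y = b) : (G.sub z I).2 ⬝ᵥ (y - z) ≤ b - a := by
  have h := G.sub_snd z hz I hI (by rw [ha]; exact WithTop.coe_ne_top) y
  rw [ha, hb, ← WithTop.coe_add, WithTop.coe_le_coe] at h
  linarith

theorem finite_on_cube {d : ℕ} {R ρ M : ℝ} {I : Inst d} (hI : InClass d R ρ M I)
    (hne : (feasible I).Nonempty) : ∀ z ∈ cube d R, I.f z ≠ ⊤ := by
  obtain ⟨y, hy⟩ := hne
  intro z hz htop
  have h := hI.lipschitz z hz y (hI.subset_cube hy)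
  rw [htop, top_le_iff] at h
  obtain ⟨b, hb⟩ := WithTop.ne_top_iff_exists.1 hy.2
  rw [← hb, ← WithTop.coe_add] at h
  exact WithTop.coe_ne_top h

theorem isCompact_cube (d : ℕ) (R : ℝ) : IsCompact (cube d R) := by
  rcases lt_or_ge R 0 with hR | hR
  · rcases isEmpty_or_nonempty (Fin d) with h | ⟨⟨i⟩⟩
    · have : Subsingleton (Fin d → ℝ) := inferInstance
      exact (Set.subsingleton_of_subsingleton).isCompact
    · have : cube d R = ∅ := by
        ext z
        simp only [cube, Set.mem_ofPred_eq, Set.mem_empty_iff_false, iff_false, not_forall, not_le]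
        exact ⟨i, lt_of_lt_of_le hR (abs_nonneg _)⟩
      rw [this]
      exact isCompact_empty
  · have : cube d R = Metric.closedBall 0 R := by
      ext z
      rw [mem_closedBall_zero_iff, pi_norm_le_iff_of_nonneg hR]
      rfl
    rw [this]
    exact isCompact_closedBall 0 R

theorem exists_min {d : ℕ} {R ρ M : ℝ} (hM : 0 < M) {I : Inst d} (hI : InClass d R ρ M I)
    (hne : (feasible I).Nonempty) :
    ∃ y ∈ feasible I, ∀ y' ∈ feasible I, I.f y ≤ I.f y' := by
  have hfin := finite_on_cube hI hne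
  have heq : feasible I = cube d R ∩ I.C := by
    ext y
    constructor
    · intro hy
      exact ⟨hI.subset_cube hy, hy.1⟩
    · intro hy
      exact ⟨hy.2, hfin y hy.1⟩
  have hcomp : IsCompact (feasible I) := by
    rw [heq]
    exact (isCompact_cube d R).inter_right hI.closed_C
  have hcont : ContinuousOn (fun x => (I.f x).untopD 0) (feasible I) := by
    have hl : LipschitzOnWith (Real.toNNReal M) (fun x => (I.f x).untopD 0) (feasible I) := by
      refine LipschitzOnWith.of_le_add_mul _ ?_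
      intro x hx y hy
      have h := hI.lipschitz x (hI.subset_cube hx) y (hI.subset_cube hy)
      obtain ⟨a, ha⟩ := WithTop.ne_top_iff_exists.1 hx.2
      obtain ⟨b, hb⟩ := WithTop.ne_top_iff_exists.1 hy.2
      rw [← ha, ← hb, ← WithTop.coe_add, WithTop.coe_le_coe] at h
      simp only [← ha, ← hb, WithTop.untopD_coe, Real.coe_toNNReal M hM.le, dist_eq_norm]
      exact h
    exact hl.continuousOn
  obtain ⟨y, hy, hmin⟩ := hcomp.exists_isMinOn hne hcont
  refine ⟨y, hy, fun y' hy' => ?_⟩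
  have h := hmin hy'
  simp only [Set.mem_ofPred_eq] at h
  obtain ⟨a, ha⟩ := WithTop.ne_top_iff_exists.1 hy.2
  obtain ⟨b, hb⟩ := WithTop.ne_top_iff_exists.1 hy'.2
  rw [← ha, ← hb] at h ⊢
  simpa using h

theorem min_mem_core {d : ℕ} {R ρ M ε : ℝ} (hε : 0 < ε) (G : Chart d R ρ M) {I : Inst d}
    (hI : InClass d R ρ M I) {y : Fin d → ℝ} (hy : y ∈ feasible I)
    (hmin : ∀ y' ∈ feasible I, I.f y ≤ I.f y') : y ∈ core G ε I := by
  refine ⟨hy, ?_⟩
  intro z hz hzC hzf
  obtain ⟨a, ha⟩ := WithTop.ne_top_iff_exists.1 hzf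
  obtain ⟨b, hb⟩ := WithTop.ne_top_iff_exists.1 hy.2
  have h1 := grad_ineq G hI hz ha.symm hb.symm
  have h2 := hmin z ⟨hzC, hzf⟩
  rw [← ha, ← hb, WithTop.coe_le_coe] at h2
  have h3 : 0 ≤ 1 / (16 * (d : ℝ)) * ε := by positivity
  linarith

theorem norm_sub_le_of_mem_cube {d : ℕ} {R : ℝ} (hR : 0 < R) {x z : Fin d → ℝ}
    (hx : x ∈ cube d R) (hz : z ∈ cube d R) : ‖x - z‖ ≤ 2 * R := by
  rw [pi_norm_le_iff_of_nonneg (by positivity)]
  intro i
  rw [Real.norm_eq_abs, Pi.sub_apply]
  have h1 := abs_le.1 (hx i)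
  have h2 := abs_le.1 (hz i)
  rw [abs_le]
  constructor <;> linarith

theorem ball_subset_core {d : ℕ} {R ρ M ε : ℝ} (hR : 0 < R) (hM : 0 < M) (hε : 0 < ε)
    (G : Chart d R ρ M) {I : Inst d} (hI : InClass d R ρ M I) (hne : (feasible I).Nonempty)
    (t : ℝ) (ht0 : 0 < t) (ht1 : t ≤ 1) (ht : t * (2 * R * M) ≤ 1 / (16 * (d : ℝ)) * ε) :
    ∃ p, Metric.closedBall p (t * ρ) ⊆ core G ε I := by
  obtain ⟨ys, hys, hmin⟩ := exists_min hM hI hne
  obtain ⟨yh, hyh⟩ := hI.inner_cube ⟨ys, hys, hmin⟩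
  have hfin := finite_on_cube hI hne
  refine ⟨(1 - t) • ys + t • yh, ?_⟩
  intro x hx
  rw [Metric.mem_closedBall, dist_eq_norm] at hx
  set y' : Fin d → ℝ := yh + t⁻¹ • (x - ((1 - t) • ys + t • yh)) with hy'
  have hy'mem : y' ∈ feasible I := by
    apply hyh
    simp only [Set.mem_ofPred_eq, hy', add_sub_cancel_left, norm_smul, norm_inv,
      Real.norm_eq_abs, abs_of_pos ht0]
    rw [inv_mul_le_iff₀ ht0]
    exact hx
  have hxe : x = (1 - t) • ys + t • y' := by
    rw [hy', smul_add, smul_smul, mul_inv_cancel₀ ht0.ne', one_smul]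
    abel
  have hxmem : x ∈ feasible I := by
    constructor
    · rw [hxe]
      exact hI.convex_C hys.1 hy'mem.1 (by linarith) ht0.le (by ring)
    · rw [hxe]
      exact hI.convex_f.1 hys.2 hy'mem.2 (by linarith) ht0.le (by ring)
  refine ⟨hxmem, ?_⟩
  intro z hz hzC hzf
  obtain ⟨a, ha⟩ := WithTop.ne_top_iff_exists.1 hzf
  obtain ⟨b, hb⟩ := WithTop.ne_top_iff_exists.1 hys.2
  obtain ⟨c, hc⟩ := WithTop.ne_top_iff_exists.1 hy'mem.2
  have h1 := grad_ineq G hI hz ha.symm hb.symm
  have h2 := grad_ineq G hI hz ha.symm hc.symm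
  have h3 := hmin z ⟨hzC, hzf⟩
  rw [← ha, ← hb, WithTop.coe_le_coe] at h3
  have h4 := hI.lipschitz y' (hI.subset_cube hy'mem) z hz
  rw [← ha, ← hc, ← WithTop.coe_add, WithTop.coe_le_coe] at h4
  have h5 := norm_sub_le_of_mem_cube hR (hI.subset_cube hy'mem) hz
  have e : x - z = (1 - t) • (ys - z) + t • (y' - z) := by
    rw [hxe]
    module
  rw [e, dotProduct_add, dotProduct_smul, dotProduct_smul, smul_eq_mul, smul_eq_mul]
  have h6 : (1 - t) * ((G.sub z I).2 ⬝ᵥ (ys - z)) ≤ 0 := by
    apply mul_nonpos_of_nonneg_of_nonpos <;> linarith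
  have h7 : t * ((G.sub z I).2 ⬝ᵥ (y' - z)) ≤ t * (2 * R * M) := by
    apply mul_le_mul_of_nonneg_left _ ht0.le
    nlinarith
  linarith

theorem cube_subset_ell {d : ℕ} {R : ℝ} (hR : 0 < R) :
    cube d R ⊆ ell 0 ((R * Real.sqrt d) • (1 : Matrix (Fin d) (Fin d) ℝ)) := by
  intro y hy
  rcases Nat.eq_zero_or_pos d with hd | hd
  · subst hd
    exact ⟨0, by simp, Subsingleton.elim _ _⟩
  have hs : 0 < Real.sqrt d := Real.sqrt_pos.2 (by exact_mod_cast hd)
  refine ⟨(R * Real.sqrt d)⁻¹ • y, ?_, ?_⟩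
  · rw [smul_dotProduct, dotProduct_smul, smul_eq_mul, smul_eq_mul, ← mul_assoc]
    have h1 : y ⬝ᵥ y ≤ d * R ^ 2 := by
      calc y ⬝ᵥ y = ∑ i, y i * y i := rfl
        _ ≤ ∑ _i : Fin d, R ^ 2 := by
          apply Finset.sum_le_sum
          intro i _
          have := hy i
          have h2 := abs_nonneg (y i)
          have h3 : y i * y i = |y i| ^ 2 := by rw [sq_abs]; ring
          rw [h3]
          exact pow_le_pow_left₀ h2 this 2
        _ = d * R ^ 2 := by simp
    have h4 : (R * Real.sqrt d)⁻¹ * (R * Real.sqrt d)⁻¹ = (d * R ^ 2)⁻¹ := by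
      rw [← mul_inv]
      congr 1
      have : Real.sqrt d * Real.sqrt d = d := Real.mul_self_sqrt (by positivity)
      calc R * Real.sqrt d * (R * Real.sqrt d) = (Real.sqrt d * Real.sqrt d) * R ^ 2 := by ring
        _ = d * R ^ 2 := by rw [this]
    rw [h4]
    rw [inv_mul_le_iff₀ (by positivity)]
    linarith
  · rw [smul_mulVec, one_mulVec, smul_smul, mul_inv_cancel₀ (by positivity)]
    simp

theorem algo_run {d : ℕ} (hd : 1 ≤ d) {R ρ M ε : ℝ} (hM : 0 < M)
    (hε : 0 < ε) (G : Chart d R ρ M) {I : Inst d} (hI : InClass d R ρ M I)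
    (n : ℕ) (code : (Fin d → ℝ) → (Fin n → Bool)) (dec : (Fin n → Bool) → (Fin d → ℝ))
    (hdec : ∀ v, dec v ⬝ᵥ dec v = 1) (hcode : ∀ a : Fin d → ℝ, a ⬝ᵥ a = 1 →
        (dec (code a) - a) ⬝ᵥ (dec (code a) - a) ≤ (1 / (16 * (d : ℝ))) ^ 2) (k : ℕ) :
    ∀ (c : Fin d → ℝ) (A : Matrix (Fin d) (Fin d) ℝ), core G ε I ⊆ ell c A → A.det ≠ 0 →
      Solves ε I ((algo ε n code dec k c A).run (answer G I)) ∨
      ((algo ε n code dec k c A).run (answer G I) = none ∧ ∃ c' A', core G ε I ⊆ ell c' A' ∧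
        |A'.det| ≤ |A.det| * Real.exp (-(1 / (12 * d))) ^ k) := by
  induction k with
  | zero =>
    intro c A hA hdet
    right
    exact ⟨rfl, c, A, hA, by simp⟩
  | succ k ih =>
    intro c A hA hdet
    have hd1 : (1 : ℝ) ≤ d := by exact_mod_cast hd
    have hAinj : ∀ q : Fin d → ℝ, q ≠ 0 → q ᵥ* A ≠ 0 := by
      intro q hq h
      apply hq
      have hu : IsUnit A.det := isUnit_iff_ne_zero.2 hdet
      have h2 : (q ᵥ* A) ᵥ* A⁻¹ = q := by
        rw [vecMul_vecMul, Matrix.mul_nonsing_inv A hu, vecMul_one]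
      rw [← h2, h, zero_vecMul]
    -- the recursive step
    have hrec : ∀ w : Fin d → ℝ, w ⬝ᵥ w = 1 →
        core G ε I ⊆ ell (c + A *ᵥ (-(1 / (4 * (d : ℝ))) • w)) (A * L w) →
        Solves ε I ((algo ε n code dec k (c + A *ᵥ (-(1 / (4 * (d : ℝ))) • w)) (A * L w)).run
          (answer G I)) ∨
        ((algo ε n code dec k (c + A *ᵥ (-(1 / (4 * (d : ℝ))) • w)) (A * L w)).run
          (answer G I) = none ∧ ∃ c' A', core G ε I ⊆ ell c' A' ∧
          |A'.det| ≤ |A.det| * Real.exp (-(1 / (12 * d))) ^ (k + 1)) := by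
      intro w hw hsub
      have hdet' : (A * L w).det ≠ 0 := by
        rw [det_mul]
        exact mul_ne_zero hdet (det_L_pos hd w hw).ne'
      rcases ih _ _ hsub hdet' with h | ⟨h1, c', A', h2, h3⟩
      · exact Or.inl h
      · refine Or.inr ⟨h1, c', A', h2, h3.trans ?_⟩
        rw [det_mul, abs_mul, abs_of_pos (det_L_pos hd w hw), pow_succ']
        have h4 := det_L_le hd w hw
        have h5 := (det_L_pos hd w hw)
        have h6 : 0 < Real.exp (-(1 / (12 * (d : ℝ)))) ^ k := by positivity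
        have h7 := abs_nonneg A.det
        calc |A.det| * (L w).det * Real.exp (-(1 / (12 * (d : ℝ)))) ^ k
            ≤ |A.det| * Real.exp (-(1 / (12 * (d : ℝ)))) *
              Real.exp (-(1 / (12 * (d : ℝ)))) ^ k := by
              apply mul_le_mul_of_nonneg_right _ h6.le
              apply mul_le_mul_of_nonneg_left h4 h7
          _ = _ := by ring
    rw [algo]
    by_cases hc : c ∈ cube d R
    · rw [dif_pos hc]
      simp only [run_bind, run_ask, answer, G.sub_fst c hc I hI]
      by_cases htop : I.f c = ⊤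
      · left
        simp only [htop, decide_true, cond_true, run, Solves]
        by_contra hne
        exact finite_on_cube hI (Set.nonempty_iff_ne_empty.2 hne) c hc htop
      · simp only [htop, decide_false, cond_false, run_bind, run_ask, answer]
        by_cases hcC : c ∈ I.C
        · simp only [G.sep_mem c hc I hI hcC, decide_true, cond_true, run_bind, run_ask, answer]
          by_cases hle : nrm ((G.sub c I).2 ᵥ* A) ≤ ε
          · left
            simp only [hle, decide_true, cond_true, run, Solves]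
            have hcf : c ∈ feasible I := ⟨hcC, htop⟩
            refine ⟨hcf, ?_⟩
            obtain ⟨ys, hys, hmin⟩ := exists_min hM hI ⟨c, hcf⟩
            obtain ⟨u, hu, hyu⟩ := hA (min_mem_core hε G hI hys hmin)
            obtain ⟨a, ha⟩ := WithTop.ne_top_iff_exists.1 htop
            obtain ⟨b, hb⟩ := WithTop.ne_top_iff_exists.1 hys.2
            have h1 := grad_ineq G hI hc ha.symm hb.symm
            have h2 : (G.sub c I).2 ⬝ᵥ (ys - c) = ((G.sub c I).2 ᵥ* A) ⬝ᵥ u := by
              rw [hyu, add_sub_cancel_left, dotProduct_mulVec]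
            rw [h2] at h1
            have h3 : -ε ≤ ((G.sub c I).2 ᵥ* A) ⬝ᵥ u := by
              have h4 := cs ((G.sub c I).2 ᵥ* A) u
              have h5 : (((G.sub c I).2 ᵥ* A) ⬝ᵥ u) ^ 2 ≤ ε ^ 2 := by
                refine h4.trans ?_
                rw [← nrm_sq]
                have h6 : 0 ≤ nrm ((G.sub c I).2 ᵥ* A) := Real.sqrt_nonneg _
                have h7 := self_nonneg u
                have h8 : nrm ((G.sub c I).2 ᵥ* A) * nrm ((G.sub c I).2 ᵥ* A) ≤ ε ^ 2 := by
                  nlinarith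
                nlinarith [mul_nonneg h6 h6]
              exact (abs_le_of_sq_le_sq' h5 hε.le).1
            intro y' hy'
            refine le_trans ?_ (add_le_add_left (hmin y' hy') _)
            rw [← ha, ← hb, ← WithTop.coe_add, WithTop.coe_le_coe]
            linarith
          · simp only [hle, decide_false, cond_false, run_bind, run_askVec, answer]
            push Not at hle
            have hq0 : (G.sub c I).2 ᵥ* A ≠ 0 := by
              intro h
              rw [h] at hle
              simp [nrm] at hle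
              linarith
            have hu := dirn_unit hq0
            refine hrec _ (hdec _) ?_
            refine cut hd c A (core G ε I) hA (G.sub c I).2 (dirn ((G.sub c I).2 ᵥ* A)) _
              (nrm ((G.sub c I).2 ᵥ* A)) (nrm_pos hq0) (smul_dirn hq0) (hdec _) (hcode _ hu) ?_
            intro y hy
            refine (hy.2 c hc hcC htop).trans ?_
            apply mul_le_mul_of_nonneg_left hle.le (by positivity)
        · have hsep0 : G.sep c I ≠ 0 := by
            intro h
            have := G.sep_unit c hc I hI hcC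
            rw [h] at this
            simp at this
          simp only [hsep0, decide_false, cond_false, run_bind, run_askVec, answer]
          have hq0 := hAinj _ hsep0
          have hu := dirn_unit hq0
          refine hrec _ (hdec _) ?_
          refine cut hd c A (core G ε I) hA (G.sep c I) (dirn (G.sep c I ᵥ* A)) _
            (nrm (G.sep c I ᵥ* A)) (nrm_pos hq0) (smul_dirn hq0) (hdec _) (hcode _ hu) ?_
          intro y hy
          have h1 := G.sep_lt c hc I hI hcC y hy.1.1
          have h2 : 0 ≤ 1 / (16 * (d : ℝ)) * nrm (G.sep c I ᵥ* A) := by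
            have := nrm_pos hq0
            positivity
          rw [dotProduct_sub]
          linarith
    · rw [dif_neg hc]
      obtain ⟨hf0, hf⟩ := facet_spec hc
      have hq0 := hAinj _ hf0
      have hu := dirn_unit hq0
      refine hrec _ hu ?_
      refine cut hd c A (core G ε I) hA (facet c R) (dirn (facet c R ᵥ* A)) _
        (nrm (facet c R ᵥ* A)) (nrm_pos hq0) (smul_dirn hq0) hu ?_ ?_
      · rw [sub_self, dotProduct_zero]
        positivity
      · intro y hy
        refine (hf y (hI.subset_cube hy.1)).trans ?_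
        have := nrm_pos hq0
        positivity

end Pool.Agent.Helper62.BinAlgo
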