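import Mathlib
import Pool.Agent.Helper62.BinDefs
import Pool.Agent.Helper62.BinGeom

namespace Pool.Agent.Helper62.BinChart

open Matrix BinDefs BinGeom

variable {d : ℕ}

theorem exists_vec (φ : (Fin d → ℝ) →ₗ[ℝ] ℝ) : ∃ q : Fin d → ℝ, ∀ y, φ y = q ⬝ᵥ y := by
  refine ⟨fun i => φ (fun j => if i = j then 1 else 0), fun y => ?_⟩
  rw [LinearMap.pi_apply_eq_sum_univ φ y]
  simp only [dotProduct, smul_eq_mul]
  exact Finset.sum_congr rfl fun i _ => mul_comm _ _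

theorem exists_sep (hd : 1 ≤ d) (C : Set (Fin d → ℝ)) (hcl : IsClosed C) (hcv : Convex ℝ C)
    (z : Fin d → ℝ) (hz : z ∉ C) :
    ∃ a : Fin d → ℝ, a ⬝ᵥ a = 1 ∧ ∀ y ∈ C, a ⬝ᵥ y < a ⬝ᵥ z := by
  rcases C.eq_empty_or_nonempty with h | ⟨y0, hy0⟩
  · subst h
    refine ⟨Pi.single ⟨0, hd⟩ 1, by simp, fun y hy => hy.elim⟩
  · obtain ⟨f, u, h1, h2⟩ := geometric_hahn_banach_closed_point hcv hcl hz
    obtain ⟨q, hq⟩ := exists_vec f.toLinearMap
    have hq' : ∀ y, f y = q ⬝ᵥ y := hq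
    have hq0 : q ≠ 0 := by
      rintro rfl
      have := (h1 y0 hy0).trans h2
      rw [hq', hq'] at this
      simp at this
    have hpos : 0 < Real.sqrt (q ⬝ᵥ q) := Real.sqrt_pos.2 (self_pos hq0)
    refine ⟨(Real.sqrt (q ⬝ᵥ q))⁻¹ • q, ?_, ?_⟩
    · rw [smul_dotProduct, dotProduct_smul, smul_eq_mul, smul_eq_mul]
      have := Real.mul_self_sqrt (self_nonneg q)
      field_simp
      nlinarith
    · intro y hy
      rw [smul_dotProduct, smul_dotProduct, smul_eq_mul, smul_eq_mul]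
      apply mul_lt_mul_of_pos_left _ (by positivity)
      rw [← hq', ← hq']
      exact (h1 y hy).trans h2

theorem lower_cone {R M : ℝ} (hR : 0 < R) (hM : 0 < M) (D : Set (Fin d → ℝ))
    (F : (Fin d → ℝ) → ℝ) (hF : ConvexOn ℝ D F) (hcube : cube d R ⊆ D)
    (hlip : ∀ x ∈ cube d R, ∀ y ∈ cube d R, F x ≤ F y + M * ‖x - y‖) (z : Fin d → ℝ)
    (hz : z ∈ cube d R) (x : Fin d → ℝ) (hx : x ∈ D) : F z - 3 * M * ‖x - z‖ ≤ F x := by
  have hzn : ‖z‖ ≤ R := (pi_norm_le_iff_of_nonneg hR.le).2 hz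
  have hmem : ∀ w : Fin d → ℝ, ‖w‖ ≤ R → w ∈ cube d R := fun w hw =>
    (pi_norm_le_iff_of_nonneg hR.le).1 hw
  set r := ‖x - z‖ with hr
  have hr0 : 0 ≤ r := norm_nonneg _
  -- the small factor
  obtain ⟨θ, hθ0, hθ1, hθr⟩ : ∃ θ : ℝ, 0 < θ ∧ θ ≤ 1 ∧ θ * r ≤ R := by
    refine ⟨R / (R + r), by positivity, ?_, ?_⟩
    · rw [div_le_one (by positivity)]; linarith
    · rw [div_mul_eq_mul_div, div_le_iff₀ (by positivity)]
      nlinarith
  set s := θ * r / (2 * R) with hs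
  have hs0 : 0 ≤ s := by positivity
  have hs1 : 2 * s ≤ 1 := by
    rw [hs]
    have : 2 * (θ * r / (2 * R)) = θ * r / R := by field_simp
    rw [this, div_le_one hR]
    exact hθr
  have hsR : s * R = θ * r / 2 := by
    rw [hs]; field_simp
  set x' := (1 - θ) • z + θ • x with hx'
  set q := (1 - 2 * s) • z with hq
  set p := (1 / 2 : ℝ) • x' + (1 / 2 : ℝ) • q with hp
  have hx'D : x' ∈ D := hF.1 (hcube hz) hx (by linarith) hθ0.le (by ring)
  have hqc : q ∈ cube d R := by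
    apply hmem
    rw [hq, norm_smul, Real.norm_eq_abs, abs_of_nonneg (by linarith)]
    nlinarith [norm_nonneg z]
  have hpe : p - z = (-s) • z + (θ / 2) • (x - z) := by
    rw [hp, hx', hq]
    module
  have hpe2 : p = (1 - s) • z + (θ / 2) • (x - z) := by
    rw [hp, hx', hq]
    module
  have hpc : p ∈ cube d R := by
    apply hmem
    rw [hpe2]
    refine (norm_add_le _ _).trans ?_
    rw [norm_smul, norm_smul, Real.norm_eq_abs, Real.norm_eq_abs,
      abs_of_nonneg (by linarith : (0 : ℝ) ≤ 1 - s), abs_of_nonneg (by linarith : (0 : ℝ) ≤ θ / 2),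
      ← hr]
    nlinarith
  have hpz : ‖p - z‖ ≤ θ * r := by
    rw [hpe]
    refine (norm_add_le _ _).trans ?_
    rw [norm_smul, norm_smul, Real.norm_eq_abs, Real.norm_eq_abs, abs_neg,
      abs_of_nonneg hs0, abs_of_nonneg (by linarith : (0 : ℝ) ≤ θ / 2), ← hr]
    nlinarith
  have hqz : ‖q - z‖ ≤ θ * r := by
    have : q - z = (-(2 * s)) • z := by rw [hq]; module
    rw [this, norm_smul, Real.norm_eq_abs, abs_neg, abs_of_nonneg (by linarith)]
    nlinarith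
  have h1 := hlip z hz p hpc
  have h2 := hlip q hqc z hz
  rw [norm_sub_rev] at h1
  have h3 : F p ≤ (1 / 2) * F x' + (1 / 2) * F q := by
    have := hF.2 hx'D (hcube hqc) (by norm_num : (0 : ℝ) ≤ 1 / 2) (by norm_num : (0 : ℝ) ≤ 1 / 2)
      (by norm_num)
    simpa only [smul_eq_mul] using this
  have h4 : F x' ≤ (1 - θ) * F z + θ * F x := by
    have := hF.2 (hcube hz) hx (by linarith : (0 : ℝ) ≤ 1 - θ) hθ0.le (by ring)
    simpa [smul_eq_mul] using this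
  have h5 : M * ‖p - z‖ ≤ M * (θ * r) := mul_le_mul_of_nonneg_left hpz hM.le
  have h6 : M * ‖q - z‖ ≤ M * (θ * r) := mul_le_mul_of_nonneg_left hqz hM.le
  have h7 : θ * (F z - 3 * M * r) ≤ θ * F x := by nlinarith
  exact le_of_mul_le_mul_left h7 hθ0

theorem exists_subgrad {R M : ℝ} (hR : 0 < R) (hM : 0 < M) (D : Set (Fin d → ℝ))
    (F : (Fin d → ℝ) → ℝ) (hF : ConvexOn ℝ D F) (hcube : cube d R ⊆ D)
    (hlip : ∀ x ∈ cube d R, ∀ y ∈ cube d R, F x ≤ F y + M * ‖x - y‖) (z : Fin d → ℝ)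
    (hz : z ∈ cube d R) : ∃ g : Fin d → ℝ, ∀ y ∈ D, F z + g ⬝ᵥ (y - z) ≤ F y := by
  have hlow := lower_cone hR hM D F hF hcube hlip z hz
  let S : Set ((Fin d → ℝ) × ℝ) := {p | p.2 < -(3 * M * ‖p.1 - z‖)}
  let T : Set ((Fin d → ℝ) × ℝ) := {p | p.1 ∈ D ∧ F p.1 - F z ≤ p.2}
  have hSo : IsOpen S := by
    apply isOpen_lt
    · fun_prop
    · fun_prop
  have hSc : Convex ℝ S := by
    rintro ⟨x, a⟩ hx ⟨y, b⟩ hy s t hs ht hst
    simp only [S, Set.mem_ofPred_eq, Prod.smul_mk, Prod.mk_add_mk, smul_eq_mul] at hx hy ⊢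
    have e : s • x + t • y - z = s • (x - z) + t • (y - z) := by
      have : z = (s + t) • z := by rw [hst, one_smul]
      conv_lhs => rw [this]
      module
    have h1 : ‖s • x + t • y - z‖ ≤ s * ‖x - z‖ + t * ‖y - z‖ := by
      rw [e]
      refine (norm_add_le _ _).trans ?_
      rw [norm_smul, norm_smul, Real.norm_eq_abs, Real.norm_eq_abs, abs_of_nonneg hs,
        abs_of_nonneg ht]
    have h2 : 3 * M * ‖s • x + t • y - z‖ ≤ 3 * M * (s * ‖x - z‖ + t * ‖y - z‖) :=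
      mul_le_mul_of_nonneg_left h1 (by positivity)
    rcases hs.eq_or_lt with h0 | h0
    · have : t = 1 := by linarith
      subst this
      rw [← h0] at h2 ⊢
      linarith
    · have h3 : s * a < s * (-(3 * M * ‖x - z‖)) := mul_lt_mul_of_pos_left hx h0
      have h4 : t * b ≤ t * (-(3 * M * ‖y - z‖)) := mul_le_mul_of_nonneg_left hy.le ht
      linarith
  have hTc : Convex ℝ T := by
    rintro ⟨x, a⟩ ⟨hx, hxa⟩ ⟨y, b⟩ ⟨hy, hyb⟩ s t hs ht hst
    simp only at hxa hyb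
    refine ⟨hF.1 hx hy hs ht hst, ?_⟩
    have h1 := hF.2 hx hy hs ht hst
    simp only [smul_eq_mul] at h1
    simp only [Prod.smul_mk, Prod.mk_add_mk, smul_eq_mul]
    have h2 := mul_le_mul_of_nonneg_left hxa hs
    have h3 := mul_le_mul_of_nonneg_left hyb ht
    have h4 : F z = s * F z + t * F z := by rw [← add_mul, hst, one_mul]
    linarith
  have hdisj : Disjoint S T := by
    rw [Set.disjoint_left]
    rintro ⟨x, a⟩ hx ⟨hxD, hxa⟩
    simp only [S, Set.mem_ofPred_eq] at hx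
    simp only at hxD hxa
    have := hlow x hxD
    linarith
  obtain ⟨φ, u, h1, h2⟩ := geometric_hahn_banach_open hSc hSo hTc hdisj
  obtain ⟨q, hq⟩ := exists_vec (φ.toLinearMap.comp (LinearMap.inl ℝ (Fin d → ℝ) ℝ))
  have hφ : ∀ (y : Fin d → ℝ) (r : ℝ), φ (y, r) = q ⬝ᵥ y + r * φ (0, 1) := by
    intro y r
    have e : ((y, r) : (Fin d → ℝ) × ℝ) = (y, 0) + r • ((0 : Fin d → ℝ), (1 : ℝ)) := by
      simp
    rw [e, map_add, map_smul, smul_eq_mul]
    congr 1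
    exact hq y
  have hz0 : u ≤ φ (z, 0) := h2 (z, 0) ⟨hcube hz, by simp⟩
  have hzη : ∀ η : ℝ, 0 < η → φ (z, -η) < u := by
    intro η hη
    apply h1
    simp only [S, Set.mem_ofPred_eq, sub_self, norm_zero, mul_zero, neg_zero]
    linarith
  rw [hφ] at hz0
  have hα : 0 < φ ((0 : Fin d → ℝ), (1 : ℝ)) := by
    have := hzη 1 one_pos
    rw [hφ] at this
    linarith
  have hu : u = q ⬝ᵥ z := by
    apply le_antisymm
    · linarith
    · by_contra hlt
      push Not at hlt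
      have h3 := hzη ((q ⬝ᵥ z - u) / φ ((0 : Fin d → ℝ), (1 : ℝ)))
        (div_pos (by linarith) hα)
      rw [hφ] at h3
      have : -((q ⬝ᵥ z - u) / φ ((0 : Fin d → ℝ), (1 : ℝ))) * φ ((0 : Fin d → ℝ), (1 : ℝ)) =
          -(q ⬝ᵥ z - u) := by
        field_simp
      rw [this] at h3
      linarith
  refine ⟨-(φ ((0 : Fin d → ℝ), (1 : ℝ)))⁻¹ • q, ?_⟩
  intro y hy
  have h3 := h2 (y, F y - F z) ⟨hy, le_refl _⟩
  rw [hφ, hu] at h3
  rw [smul_dotProduct, smul_eq_mul, dotProduct_sub]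
  have h4 : -(φ ((0 : Fin d → ℝ), (1 : ℝ)))⁻¹ * (q ⬝ᵥ y - q ⬝ᵥ z) ≤ F y - F z := by
    rw [neg_mul, neg_le, ← mul_le_mul_iff_right₀ hα, ← mul_assoc, mul_inv_cancel₀ hα.ne']
    linarith
  linarith

open scoped Classical in
theorem nonempty_chart (hd : 1 ≤ d) {R ρ M : ℝ} (hR : 0 < R) (hM : 0 < M) :
    Nonempty (Chart d R ρ M) := by
  have hsep : ∀ (z : Fin d → ℝ) (I : Inst d), ∃ a : Fin d → ℝ, z ∈ cube d R →
      InClass d R ρ M I → (z ∈ I.C → a = 0) ∧ (z ∉ I.C → a ⬝ᵥ a = 1 ∧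
        ∀ y ∈ I.C, a ⬝ᵥ y < a ⬝ᵥ z) := by
    intro z I
    by_cases hz : z ∈ I.C
    · exact ⟨0, fun _ _ => ⟨fun _ => rfl, fun h => absurd hz h⟩⟩
    · by_cases hI : InClass d R ρ M I
      · obtain ⟨a, ha1, ha2⟩ := exists_sep hd I.C hI.closed_C hI.convex_C z hz
        exact ⟨a, fun _ _ => ⟨fun h => absurd h hz, fun _ => ⟨ha1, ha2⟩⟩⟩
      · exact ⟨0, fun _ h => absurd h hI⟩
  have hsub : ∀ (z : Fin d → ℝ) (I : Inst d), ∃ g : Fin d → ℝ, z ∈ cube d R →
      InClass d R ρ M I → I.f z ≠ ⊤ →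
      ∀ y, I.f z + ((g ⬝ᵥ (y - z) : ℝ) : WithTop ℝ) ≤ I.f y := by
    intro z I
    by_cases h : z ∈ cube d R ∧ InClass d R ρ M I ∧ I.f z ≠ ⊤
    · obtain ⟨hz, hI, hf⟩ := h
      have hcube : cube d R ⊆ {x | I.f x ≠ ⊤} := by
        intro x hx htop
        have h1 := hI.lipschitz x hx z hz
        rw [htop, top_le_iff] at h1
        obtain ⟨b, hb⟩ := WithTop.ne_top_iff_exists.1 hf
        rw [← hb, ← WithTop.coe_add] at h1
        exact WithTop.coe_ne_top h1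
      have hlip : ∀ x ∈ cube d R, ∀ y ∈ cube d R,
          (I.f x).untopD 0 ≤ (I.f y).untopD 0 + M * ‖x - y‖ := by
        intro x hx y hy
        have h1 := hI.lipschitz x hx y hy
        obtain ⟨a, ha⟩ := WithTop.ne_top_iff_exists.1 (hcube hx)
        obtain ⟨b, hb⟩ := WithTop.ne_top_iff_exists.1 (hcube hy)
        rw [← ha, ← hb, ← WithTop.coe_add, WithTop.coe_le_coe] at h1
        simpa [← ha, ← hb] using h1
      obtain ⟨g, hg⟩ := exists_subgrad hR hM _ _ hI.convex_f hcube hlip z hz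
      refine ⟨g, fun _ _ _ y => ?_⟩
      by_cases hy : I.f y = ⊤
      · rw [hy]; exact le_top
      · have h2 := hg y hy
        obtain ⟨a, ha⟩ := WithTop.ne_top_iff_exists.1 hf
        obtain ⟨b, hb⟩ := WithTop.ne_top_iff_exists.1 hy
        rw [← ha, ← hb] at h2 ⊢
        rw [← WithTop.coe_add, WithTop.coe_le_coe]
        simpa using h2
    · exact ⟨0, fun h1 h2 h3 => absurd ⟨h1, h2, h3⟩ h⟩
  choose a ha using hsep
  choose g hg using hsub
  exact ⟨{
    sep := a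
    sub := fun z I => (I.f z, g z I)
    sep_mem := fun z hz I hI h => (ha z I hz hI).1 h
    sep_unit := fun z hz I hI h => ((ha z I hz hI).2 h).1
    sep_lt := fun z hz I hI h => ((ha z I hz hI).2 h).2
    sub_fst := fun z _ I _ => rfl
    sub_snd := fun z hz I hI h => hg z I hz hI h }⟩

end Pool.Agent.Helper62.BinChart
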