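import Mathlib
import Pool.Agent.Helper62.BinDefs
import Pool.Agent.Helper62.BinAlgo
import Pool.Agent.Helper62.BinChart

namespace Pool.Agent.Helper62.BinMain

open Matrix BinDefs BinTree BinTree.Tree BinGeom BinAlgo

/-- the tree solves the class when the number of rounds is large enough -/
theorem solves_of_rounds {d : ℕ} (hd : 1 ≤ d) {R ρ M ε : ℝ} (hR : 0 < R) (hρ : 0 < ρ) (hM : 0 < M)
    (hε : 0 < ε) (G : Chart d R ρ M) (t : ℝ) (ht0 : 0 < t) (ht1 : t ≤ 1)
    (ht : t * (2 * R * M) ≤ 1 / (16 * (d : ℝ)) * ε) (p : ℕ) (hp : 32 * d ^ 2 + 1 ≤ 2 ^ p)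
    (T : ℕ) (hT : 12 * (d : ℝ) ^ 2 * Real.log (R * Real.sqrt d / (t * ρ)) < T) :
    icomp G ε ≤ ((T * (d * p + 3) : ℕ) : ℕ∞) := by
  have h1 : (1 : ℝ) ≤ d := by exact_mod_cast hd
  have hs : 0 < Real.sqrt d := Real.sqrt_pos.2 (by linarith)
  obtain ⟨code, dec, hdec, hcode⟩ := codebook hd p hp
  have h0 : (0 : Fin d → ℝ) ∈ cube d R := by
    intro i
    simp [hR.le]
  let A0 : Matrix (Fin d) (Fin d) ℝ := (R * Real.sqrt d) • (1 : Matrix (Fin d) (Fin d) ℝ)
  have hA0 : A0.det = (R * Real.sqrt d) ^ d := by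
    simp [A0]
  refine (icomp_le_of_tree G ε (Query.sep ⟨0, h0⟩ (fun _ => true))
    (algo ε (d * p) code dec T 0 A0) ?_).trans ?_
  · intro I hI
    have hsub : core G ε I ⊆ ell 0 A0 := by
      intro y hy
      exact cube_subset_ell hR (hI.subset_cube hy.1)
    rcases algo_run hd hM hε G hI (d * p) code dec hdec hcode T 0 A0 hsub
      (by rw [hA0]; positivity) with h | ⟨h2, c', A', h3, h4⟩
    · exact h
    · rw [h2]
      simp only [Solves]
      by_contra hne
      have hne' := Set.nonempty_iff_ne_empty.2 hne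
      obtain ⟨q, hq⟩ := ball_subset_core hR hM hε G hI hne' t ht0 ht1 ht
      have h5 := vol c' A' q (t * ρ) (by positivity) (hq.trans h3)
      have h6 := h5.trans h4
      rw [hA0, abs_of_pos (by positivity), ← Real.exp_nat_mul] at h6
      have h7 : (t * ρ) ^ d = (R * Real.sqrt d) ^ d *
          Real.exp (-(d * Real.log (R * Real.sqrt d / (t * ρ)))) := by
        rw [Real.exp_neg, Real.exp_nat_mul, Real.exp_log (by positivity), div_pow]
        field_simp
      rw [h7] at h6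
      have h8 := le_of_mul_le_mul_left h6 (by positivity)
      rw [Real.exp_le_exp] at h8
      have h9 : (T : ℝ) * -(1 / (12 * (d : ℝ))) = -(T / (12 * d)) := by ring
      rw [h9, neg_le_neg_iff, div_le_iff₀ (by positivity)] at h8
      nlinarith
  · exact_mod_cast algo_depth ε (d * p) code dec T 0 A0

theorem icomp_zero_of_large {d : ℕ} (hd : 1 ≤ d) {R ρ M ε : ℝ} (hR : 0 < R) (hρR : R < ρ)
    (hM : 0 < M) (G : Chart d R ρ M) : icomp G ε ≤ 0 := by
  have h0 : (0 : Fin d → ℝ) ∈ cube d R := by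
    intro i
    simp [hR.le]
  refine (icomp_le_of_tree G ε (Query.sep ⟨0, h0⟩ (fun _ => true)) (leaf none) ?_).trans ?_
  · intro I hI
    simp only [run, Solves]
    by_contra hne
    have hne' := Set.nonempty_iff_ne_empty.2 hne
    obtain ⟨y, hy⟩ := hI.inner_cube (exists_min hM hI hne')
    have h1 : y + (fun _ => ρ) ∈ cube d R := by
      apply hI.subset_cube
      apply hy
      simp only [Set.mem_ofPred_eq, add_sub_cancel_left]
      rw [pi_norm_le_iff_of_nonneg (by linarith)]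
      intro i
      rw [Real.norm_eq_abs, abs_of_pos (by linarith)]
    have h2 : y - (fun _ => ρ) ∈ cube d R := by
      apply hI.subset_cube
      apply hy
      simp only [Set.mem_ofPred_eq, sub_sub_cancel_left]
      rw [pi_norm_le_iff_of_nonneg (by linarith)]
      intro i
      rw [Real.norm_eq_abs, Pi.neg_apply, abs_neg, abs_of_pos (by linarith)]
    have h3 := (abs_le.1 (h1 ⟨0, hd⟩)).2
    have h4 := (abs_le.1 (h2 ⟨0, hd⟩)).1
    simp only [Pi.add_apply, Pi.sub_apply] at h3 h4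
    linarith
  · simp [depth]

theorem log_two_le {d : ℕ} (hd : 1 ≤ d) : Real.log 2 ≤ Real.log ((d : ℝ) + 1) := by
  have h1 : (1 : ℝ) ≤ d := by exact_mod_cast hd
  exact Real.log_le_log (by norm_num) (by linarith)

theorem bits (d : ℕ) (hd : 1 ≤ d) : ∃ p : ℕ, 32 * d ^ 2 + 1 ≤ 2 ^ p ∧
    ((d * p + 3 : ℕ) : ℝ) ≤ 18 * d * Real.log ((d : ℝ) + 1) := by
  have h1 : (1 : ℝ) ≤ d := by exact_mod_cast hd
  refine ⟨Nat.log 2 (32 * d ^ 2 + 1) + 1, (Nat.lt_pow_succ_log_self (by norm_num) _).le, ?_⟩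
  set m := Nat.log 2 (32 * d ^ 2 + 1) with hm
  have h2 : 2 ^ m ≤ 32 * d ^ 2 + 1 := Nat.pow_log_le_self 2 (by omega)
  have h3 : (2 : ℝ) ^ m ≤ 32 * (d : ℝ) ^ 2 + 1 := by exact_mod_cast h2
  have hL := log_two_le hd
  have hl2 : 0.6931471803 < Real.log 2 := Real.log_two_gt_d9
  have h4 : (m : ℝ) * Real.log 2 ≤ 8 * Real.log ((d : ℝ) + 1) := by
    rw [← Real.log_pow]
    have h5 : (2 : ℝ) ^ m ≤ 2 ^ 6 * ((d : ℝ) + 1) ^ 2 := by nlinarith
    refine (Real.log_le_log (by positivity) h5).trans ?_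
    rw [Real.log_mul (by positivity) (by positivity), Real.log_pow, Real.log_pow]
    push_cast
    linarith
  have h6 : (m : ℝ) ≤ 12 * Real.log ((d : ℝ) + 1) := by
    have h7 : 0 ≤ (m : ℝ) := Nat.cast_nonneg _
    nlinarith
  have h8 : 1 ≤ 1.45 * Real.log ((d : ℝ) + 1) := by linarith
  push_cast
  nlinarith

/-- The main upper bound. -/
theorem upper (d : ℕ) (R ρ M ε : ℝ) (hd : 1 ≤ d) (hρ : 0 < ρ) (hρR : ρ ≤ R) (hM : 0 < M)
    (hε : 0 < ε) (G : Chart d R ρ M) : ∃ N : ℕ, icomp G ε ≤ N ∧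
      (N : ℝ) ≤ 2000 * d ^ 3 * Real.log ((d : ℝ) + 1) *
        Real.log (2 + d * (R / ρ) * (1 + M * R / ε)) := by
  have h1 : (1 : ℝ) ≤ d := by exact_mod_cast hd
  have hR : 0 < R := lt_of_lt_of_le hρ hρR
  obtain ⟨p, hp, hpn⟩ := bits d hd
  set t : ℝ := min 1 (ε / (32 * d * R * M)) with ht
  have ht0 : 0 < t := lt_min one_pos (by positivity)
  have ht1 : t ≤ 1 := min_le_left _ _
  have ht2 : t * (2 * R * M) ≤ 1 / (16 * (d : ℝ)) * ε := by
    calc t * (2 * R * M) ≤ ε / (32 * d * R * M) * (2 * R * M) := by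
          apply mul_le_mul_of_nonneg_right (min_le_right _ _) (by positivity)
      _ = 1 / (16 * (d : ℝ)) * ε := by field_simp; norm_num
  set Y : ℝ := d * (R / ρ) * (1 + M * R / ε) with hY
  have hRρ : 1 ≤ R / ρ := by rw [one_le_div hρ]; exact hρR
  have hMR : 0 < M * R / ε := by positivity
  have hYd : (d : ℝ) ≤ Y := by
    rw [hY, mul_assoc]
    have : 1 ≤ R / ρ * (1 + M * R / ε) := by nlinarith
    nlinarith
  have hY1 : 1 ≤ Y := h1.trans hYd
  -- bound for the ratio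
  have hratio : R * Real.sqrt d / (t * ρ) ≤ (2 + Y) ^ 6 := by
    have hinv : t⁻¹ ≤ 32 * d * (1 + M * R / ε) := by
      rw [ht]
      rcases min_choice (1 : ℝ) (ε / (32 * d * R * M)) with h | h
      · rw [h, inv_one]
        nlinarith
      · rw [h, inv_div]
        have e : 32 * d * R * M / ε = 32 * d * (M * R / ε) := by ring
        rw [e]
        nlinarith
    have hsq : Real.sqrt d ≤ d := by
      rw [Real.sqrt_le_left (by linarith)]
      nlinarith
    have e1 : R * Real.sqrt d / (t * ρ) = (R / ρ) * Real.sqrt d * t⁻¹ := by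
      field_simp
    rw [e1]
    calc (R / ρ) * Real.sqrt d * t⁻¹ ≤ (R / ρ) * d * (32 * d * (1 + M * R / ε)) := by
          apply mul_le_mul _ hinv (by positivity) (by positivity)
          exact mul_le_mul_of_nonneg_left hsq (by positivity)
      _ = 32 * d * Y := by rw [hY]; ring
      _ ≤ 32 * Y * Y := by nlinarith
      _ ≤ (2 + Y) ^ 6 := by
        have h2 : 3 ≤ 2 + Y := by linarith
        have h3 : (32 : ℝ) ≤ (2 + Y) ^ 4 := by
          calc (32 : ℝ) ≤ 3 ^ 4 := by norm_num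
            _ ≤ (2 + Y) ^ 4 := pow_le_pow_left₀ (by norm_num) h2 4
        have h4 : Y * Y ≤ (2 + Y) ^ 2 := by nlinarith
        calc 32 * Y * Y = 32 * (Y * Y) := by ring
          _ ≤ (2 + Y) ^ 4 * (2 + Y) ^ 2 := by
            apply mul_le_mul h3 h4 (by positivity) (by positivity)
          _ = (2 + Y) ^ 6 := by ring
  have hlogY : 1 ≤ Real.log (2 + Y) := by
    rw [← Real.log_exp 1]
    apply Real.log_le_log (Real.exp_pos _)
    have := Real.exp_one_lt_d9
    linarith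
  have hlog : Real.log (R * Real.sqrt d / (t * ρ)) ≤ 6 * Real.log (2 + Y) := by
    have hs : 0 < Real.sqrt d := Real.sqrt_pos.2 (by linarith)
    refine (Real.log_le_log (by positivity) hratio).trans ?_
    rw [Real.log_pow]
    push_cast
    exact le_refl _
  set T : ℕ := ⌊12 * (d : ℝ) ^ 2 * (6 * Real.log (2 + Y))⌋₊ + 1 with hTdef
  have hT : 12 * (d : ℝ) ^ 2 * Real.log (R * Real.sqrt d / (t * ρ)) < T := by
    refine lt_of_le_of_lt (mul_le_mul_of_nonneg_left hlog (by positivity)) ?_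
    rw [hTdef]
    push_cast
    exact Nat.lt_floor_add_one _
  have hTle : (T : ℝ) ≤ 73 * (d : ℝ) ^ 2 * Real.log (2 + Y) := by
    rw [hTdef]
    push_cast
    have h2 := Nat.floor_le (show 0 ≤ 12 * (d : ℝ) ^ 2 * (6 * Real.log (2 + Y)) by positivity)
    have h3 : 1 ≤ (d : ℝ) ^ 2 * Real.log (2 + Y) := by nlinarith
    linarith
  refine ⟨T * (d * p + 3), solves_of_rounds hd hR hρ hM hε G t ht0 ht1 ht2 p hp T hT, ?_⟩
  rw [Nat.cast_mul]
  have hlogd : 0 < Real.log ((d : ℝ) + 1) := by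
    have := log_two_le hd
    have := Real.log_pos (one_lt_two (α := ℝ))
    linarith
  calc (T : ℝ) * ((d * p + 3 : ℕ) : ℝ)
      ≤ (73 * (d : ℝ) ^ 2 * Real.log (2 + Y)) * (18 * d * Real.log ((d : ℝ) + 1)) := by
        apply mul_le_mul hTle hpn (by positivity) (by positivity)
    _ = 1314 * ((d : ℝ) ^ 3 * Real.log ((d : ℝ) + 1) * Real.log (2 + Y)) := by ring
    _ ≤ 2000 * ((d : ℝ) ^ 3 * Real.log ((d : ℝ) + 1) * Real.log (2 + Y)) := by
        apply mul_le_mul_of_nonneg_right (by norm_num) (by positivity)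
    _ = _ := by ring

/-- The conjectured lower bound fails in every dimension as `ε → 0`. -/
theorem refute (d : ℕ) (R ρ M c : ℝ) (hd : 1 ≤ d) (hρ : 0 < ρ) (hρR : ρ ≤ R) (hM : 0 < M)
    (hc : 0 < c) : ∃ ε₀ : ℝ, 0 < ε₀ ∧ ∀ ε : ℝ, 0 < ε → ε < ε₀ → 2 ≤ M * R / (ρ * ε) ∧
      ∀ G : Chart d R ρ M, ∃ N : ℕ, icomp G ε ≤ N ∧
        (N : ℝ) < c * d ^ 2 * Real.log (M * R / (ρ * ε)) ^ 2 := by
  have h1 : (1 : ℝ) ≤ d := by exact_mod_cast hd
  have hR : 0 < R := lt_of_lt_of_le hρ hρR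
  have hlogd : 0 < Real.log ((d : ℝ) + 1) := by
    have := log_two_le hd
    have := Real.log_pos (one_lt_two (α := ℝ))
    linarith
  set B : ℝ := 2 + d * (R / ρ) + d * R with hB
  have hB2 : 2 < B := by
    have : 0 < d * (R / ρ) := by positivity
    have : 0 < d * R := by positivity
    linarith
  set X : ℝ := max B (Real.exp (4000 * d * Real.log ((d : ℝ) + 1) / c)) with hX
  have hX0 : 0 < X := lt_of_lt_of_le (by linarith) (le_max_left _ _)
  refine ⟨M * R / (ρ * X), by positivity, ?_⟩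
  intro ε hε hεX
  have hx : X < M * R / (ρ * ε) := by
    rw [lt_div_iff₀ (by positivity)] at hεX ⊢
    linarith
  set x := M * R / (ρ * ε) with hxdef
  have hBx : B < x := lt_of_le_of_lt (le_max_left _ _) hx
  have hex : Real.exp (4000 * d * Real.log ((d : ℝ) + 1) / c) < x :=
    lt_of_le_of_lt (le_max_right _ _) hx
  have hx0 : 0 < x := by linarith
  refine ⟨by linarith, fun G => ?_⟩
  obtain ⟨N, hN, hN2⟩ := upper d R ρ M ε hd hρ hρR hM hε G
  refine ⟨N, hN, lt_of_le_of_lt hN2 ?_⟩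
  have hlogx : 4000 * d * Real.log ((d : ℝ) + 1) / c < Real.log x := by
    rw [Real.lt_log_iff_exp_lt hx0]
    exact hex
  rw [div_lt_iff₀ hc] at hlogx
  have hlogx0 : 0 < Real.log x := Real.log_pos (by linarith)
  have e : 2 + d * (R / ρ) * (1 + M * R / ε) = 2 + d * (R / ρ) + d * R * x := by
    rw [hxdef]; field_simp; ring
  have h2 : 2 + d * (R / ρ) * (1 + M * R / ε) ≤ x ^ 2 := by
    rw [e]
    have h3 : 2 + d * (R / ρ) ≤ (2 + d * (R / ρ)) * x := by
      have : 0 < d * (R / ρ) := by positivity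
      nlinarith
    calc 2 + d * (R / ρ) + d * R * x ≤ (2 + d * (R / ρ)) * x + d * R * x := by linarith
      _ = B * x := by rw [hB]; ring
      _ ≤ x ^ 2 := by nlinarith
  have h4 : Real.log (2 + d * (R / ρ) * (1 + M * R / ε)) ≤ 2 * Real.log x := by
    have h5 : 0 < 2 + d * (R / ρ) * (1 + M * R / ε) := by positivity
    refine (Real.log_le_log h5 h2).trans ?_
    rw [Real.log_pow]
    push_cast
    exact le_refl _
  calc 2000 * (d : ℝ) ^ 3 * Real.log ((d : ℝ) + 1) *
        Real.log (2 + d * (R / ρ) * (1 + M * R / ε))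
      ≤ 2000 * (d : ℝ) ^ 3 * Real.log ((d : ℝ) + 1) * (2 * Real.log x) := by
        apply mul_le_mul_of_nonneg_left h4 (by positivity)
    _ = (4000 * d * Real.log ((d : ℝ) + 1)) * ((d : ℝ) ^ 2 * Real.log x) := by ring
    _ < (Real.log x * c) * ((d : ℝ) ^ 2 * Real.log x) := by
        apply mul_lt_mul_of_pos_right hlogx (by positivity)
    _ = c * (d : ℝ) ^ 2 * Real.log x ^ 2 := by ring

end Pool.Agent.Helper62.BinMain
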