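import Mathlib

namespace Pool.Agent.Helper62.CntAlg

/-- Three-counter algebras. -/
structure CAlg (A : Type) where
  w : Fin 3 → A → A → A
  T : Fin 3 → Fin 3 → A → A
  w_idem : ∀ i x, w i x x = x
  w_left : ∀ i x y z, w i (w i x y) z = w i x z
  w_right : ∀ i x y z, w i x (w i y z) = w i x z
  w_comm : ∀ i j x y z u, w i (w j x y) (w j z u) = w j (w i x z) (w i y u)
  T_self : ∀ i x, T i i x = x
  T0 : ∀ i j x y, w i (T i j x) y = w i x y
  T1 : ∀ i j x y, w i y (T i j (T j i x)) = w i y x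
  T2 : ∀ i j k, k ≠ i → k ≠ j → ∀ x y, T i j (w k x y) = w k (T i j x) (T i j y)
  T3 : ∀ i j x y z, w i z (T i j (w j x y)) = w i z (T i j y)
  T4 : ∀ i j k x z, w i z (T i k (T j k x)) = w i z (T j k (T i k x))
  T5 : ∀ i j k, i ≠ j → ∀ x z, w k z (T j k (T k i x)) = w k z (T k i (T j k x))
  T6 : ∀ i j k x z, w i z (T i k x) = w i z (T i j (T j k x))

namespace CAlg

variable {A : Type} (c : CAlg A)

/-- Agreement off the `i`-th wall. -/
def off (i : Fin 3) (a b : A) : Prop := ∀ z, c.w i z a = c.w i z b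

theorem off_T {i j : Fin 3} {a b : A} (h : c.off j a b) : c.off i (c.T i j a) (c.T i j b) := by
  intro z
  have h1 := c.T3 i j a a z
  have h2 := c.T3 i j a b z
  rw [h a] at h1
  rw [← h1, h2]

/-- The decomposition `n i < a`, with an auxiliary direction. -/
def D : ℕ → Fin 3 → Fin 3 → A → A → A
  | 0, _, _, _, y => y
  | a + 1, i, j, x, y => c.w i x (c.T i j (D a i j (c.T j i x) (c.T j i y)))

theorem D_zero (i j : Fin 3) (x y : A) : c.D 0 i j x y = y := rfl

theorem D_succ (a : ℕ) (i j : Fin 3) (x y : A) :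
    c.D (a + 1) i j x y = c.w i x (c.T i j (c.D a i j (c.T j i x) (c.T j i y))) := rfl

/-- respecting agreement off a wall -/
theorem off_of_comm {δ : A → A → A} {j : Fin 3} (hid : ∀ x, δ x x = x)
    (hc : ∀ x y z u, δ (c.w j x y) (c.w j z u) = c.w j (δ x z) (δ y u)) {p q p' q' : A}
    (hp : c.off j p p') (hq : c.off j q q') : c.off j (δ p q) (δ p' q') := by
  intro z
  have h1 := hc z p z q
  have h2 := hc z p' z q'
  rw [hid] at h1 h2
  rw [← h1, ← h2, hp z, hq z]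

theorem D_main (a : ℕ) : ∀ i j k : Fin 3, i ≠ j → j ≠ k → i ≠ k →
    (∀ x, c.D a i j x x = x) ∧
    (∀ x y z u, c.D a i j (c.w j x y) (c.w j z u) = c.w j (c.D a i j x z) (c.D a i j y u)) ∧
    (∀ x y z u, c.D a i j (c.w k x y) (c.w k z u) = c.w k (c.D a i j x z) (c.D a i j y u)) ∧
    (∀ x y, c.D a i j x y = c.D a i k x y) ∧
    (∀ x y, c.T j k (c.D a i j x y) = c.D a i j (c.T j k x) (c.T j k y)) ∧
    (∀ x y, c.T k j (c.D a i j x y) = c.D a i j (c.T k j x) (c.T k j y)) := by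
  induction a with
  | zero =>
    intro i j k _ _ _
    refine ⟨fun x => rfl, fun _ _ _ _ => rfl, fun _ _ _ _ => rfl, fun _ _ => rfl,
      fun _ _ => rfl, fun _ _ => rfl⟩
  | succ a ih =>
    have hidem : ∀ i j k : Fin 3, i ≠ j → j ≠ k → i ≠ k → ∀ x, c.D (a + 1) i j x x = x := by
      intro i j k hij hjk hik x
      rw [D_succ, (ih i j k hij hjk hik).1, c.T1, c.w_idem]
    have hcm : ∀ i j k : Fin 3, i ≠ j → j ≠ k → i ≠ k → ∀ x y z u,
        c.D (a + 1) i j (c.w k x y) (c.w k z u) =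
          c.w k (c.D (a + 1) i j x z) (c.D (a + 1) i j y u) := by
      intro i j k hij hjk hik x y z u
      simp only [D_succ]
      rw [c.T2 j i k hjk.symm hik.symm, c.T2 j i k hjk.symm hik.symm,
        (ih i j k hij hjk hik).2.2.1, c.T2 i j k hik.symm hjk.symm, c.w_comm]
    have hoffD : ∀ i j k : Fin 3, i ≠ j → j ≠ k → i ≠ k → ∀ {p q p' q' : A},
        c.off j p p' → c.off j q q' → c.off j (c.D a i k p q) (c.D a i k p' q') := by
      intro i j k hij hjk hik p q p' q' hp hq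
      exact c.off_of_comm (ih i k j hik hjk.symm hij).1 (ih i k j hik hjk.symm hij).2.2.1 hp hq
    have hind : ∀ i j k : Fin 3, i ≠ j → j ≠ k → i ≠ k → ∀ x y,
        c.D (a + 1) i j x y = c.D (a + 1) i k x y := by
      intro i j k hij hjk hik x y
      simp only [D_succ]
      have h1 : c.w i x (c.T i k (c.D a i k (c.T k i x) (c.T k i y))) =
          c.w i x (c.T i j (c.T j k (c.D a i k (c.T k i x) (c.T k i y)))) := c.T6 _ _ _ _ _
      rw [h1, (ih i k j hik hjk.symm hij).2.2.2.2.2]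
      have h2 : c.off j (c.D a i k (c.T j i x) (c.T j i y))
          (c.D a i k (c.T j k (c.T k i x)) (c.T j k (c.T k i y))) := by
        apply hoffD i j k hij hjk hik
        · exact fun z => c.T6 j k i x z
        · exact fun z => c.T6 j k i y z
      rw [(ih i j k hij hjk hik).2.2.2.1]
      exact c.off_T h2 x
    have hCT : ∀ i j k : Fin 3, i ≠ j → j ≠ k → i ≠ k → ∀ x y,
        c.T j k (c.D (a + 1) i k x y) = c.D (a + 1) i k (c.T j k x) (c.T j k y) := by
      intro i j k hij hjk hik x y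
      simp only [D_succ]
      rw [c.T2 j k i hij hik, ← c.T4 i j k, (ih i k j hik hjk.symm hij).2.2.2.2.2]
      have h2 : c.off k (c.D a i k (c.T j k (c.T k i x)) (c.T j k (c.T k i y)))
          (c.D a i k (c.T k i (c.T j k x)) (c.T k i (c.T j k y))) := by
        apply c.off_of_comm (ih i k j hik hjk.symm hij).1 (ih i k j hik hjk.symm hij).2.1
        · exact fun z => c.T5 i j k hij x z
        · exact fun z => c.T5 i j k hij y z
      exact c.off_T h2 _
    intro i j k hij hjk hik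
    refine ⟨hidem i j k hij hjk hik, ?_, hcm i j k hij hjk hik, hind i j k hij hjk hik, ?_, ?_⟩
    · intro x y z u
      rw [hind i j k hij hjk hik, hind i j k hij hjk hik, hind i j k hij hjk hik]
      exact hcm i k j hik hjk.symm hij x y z u
    · intro x y
      rw [hind i j k hij hjk hik, hind i j k hij hjk hik]
      exact hCT i j k hij hjk hik x y
    · intro x y
      exact hCT i k j hik hjk.symm hij x y

/-- The decomposition `n i < a`. -/
def Dd (a : ℕ) (i : Fin 3) (x y : A) : A := c.D a i (i + 1) x y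

theorem tri (i : Fin 3) : i ≠ i + 1 ∧ i + 1 ≠ i + 2 ∧ i ≠ i + 2 := by
  fin_cases i <;> decide

theorem D_eq_Dd (a : ℕ) {i j : Fin 3} (hij : i ≠ j) (x y : A) : c.D a i j x y = c.Dd a i x y := by
  obtain ⟨h1, h2, h3⟩ := tri i
  have : j = i + 1 ∨ j = i + 2 := by
    revert hij
    fin_cases i <;> fin_cases j <;> simp <;> decide
  rcases this with rfl | rfl
  · rfl
  · exact ((c.D_main a i (i + 1) (i + 2) h1 h2 h3).2.2.2.1 x y).symm

theorem third {i j : Fin 3} (hij : i ≠ j) : ∃ k, j ≠ k ∧ i ≠ k := by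
  revert hij
  fin_cases i <;> fin_cases j <;> simp <;> decide

theorem exists_ne (i : Fin 3) : ∃ j : Fin 3, i ≠ j := ⟨i + 1, (tri i).1⟩

theorem Dd_zero (i : Fin 3) (x y : A) : c.Dd 0 i x y = y := rfl

theorem Dd_succ (a : ℕ) {i j : Fin 3} (hij : i ≠ j) (x y : A) :
    c.Dd (a + 1) i x y = c.w i x (c.T i j (c.Dd a i (c.T j i x) (c.T j i y))) := by
  rw [← c.D_eq_Dd (a + 1) hij, D_succ, c.D_eq_Dd a hij]

theorem Dd_idem (a : ℕ) (i : Fin 3) (x : A) : c.Dd a i x x = x := by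
  obtain ⟨h1, h2, h3⟩ := tri i
  exact (c.D_main a i (i + 1) (i + 2) h1 h2 h3).1 x

theorem Dd_w (a : ℕ) {i j : Fin 3} (hij : i ≠ j) (x y z u : A) :
    c.Dd a i (c.w j x y) (c.w j z u) = c.w j (c.Dd a i x z) (c.Dd a i y u) := by
  obtain ⟨k, hk1, hk2⟩ := third hij
  simp only [← c.D_eq_Dd a hij]
  exact (c.D_main a i j k hij hk1 hk2).2.1 x y z u

theorem Dd_T (a : ℕ) {i j k : Fin 3} (hij : i ≠ j) (hik : i ≠ k) (x y : A) :
    c.T j k (c.Dd a i x y) = c.Dd a i (c.T j k x) (c.T j k y) := by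
  by_cases hjk : j = k
  · subst hjk
    simp only [c.T_self]
  · simp only [← c.D_eq_Dd a hij]
    exact (c.D_main a i j k hij hjk hik).2.2.2.2.1 x y

theorem Dd_one (i : Fin 3) (x y : A) : c.Dd 1 i x y = c.w i x y := by
  rw [c.Dd_succ 0 (tri i).1, Dd_zero, c.T1]

theorem Dd_comm_ne (a b : ℕ) {i j : Fin 3} (hij : i ≠ j) : ∀ x y z u : A,
    c.Dd a i (c.Dd b j x y) (c.Dd b j z u) = c.Dd b j (c.Dd a i x z) (c.Dd a i y u) := by
  induction a with
  | zero => intro x y z u; rfl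
  | succ a ih =>
    intro x y z u
    obtain ⟨k, hjk, hik⟩ := third hij
    rw [c.Dd_succ a hik, c.Dd_succ a hik, c.Dd_succ a hik, c.Dd_w b hij.symm,
      ← c.Dd_T b hij.symm hjk, ← ih, c.Dd_T b hjk hij.symm, c.Dd_T b hjk hij.symm]

/-- agreement off a wall of two expressions -/
theorem off_Dd (a : ℕ) {i j : Fin 3} (hij : i ≠ j) {p q p' q' : A}
    (hp : c.off j p p') (hq : c.off j q q') : c.off j (c.Dd a i p q) (c.Dd a i p' q') :=
  c.off_of_comm (c.Dd_idem a i) (c.Dd_w a hij) hp hq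

theorem T_Dd_off (b : ℕ) {i j : Fin 3} (hij : i ≠ j) (x y : A) :
    c.off j (c.T j i (c.Dd (b + 1) i x y)) (c.Dd b i (c.T j i x) (c.T j i y)) := by
  intro z
  rw [c.Dd_succ b hij, c.T3, c.T1]

theorem w_Dd_succ (b : ℕ) (i : Fin 3) (x y z : A) : c.w i (c.Dd (b + 1) i x y) z = c.w i x z := by
  rw [c.Dd_succ b (tri i).1, c.w_left]

theorem Dd_left {a b : ℕ} (hab : a ≤ b) (i : Fin 3) : ∀ x y z : A,
    c.Dd a i (c.Dd b i x y) z = c.Dd a i x z := by
  obtain ⟨j, hij⟩ := exists_ne i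
  induction a generalizing b with
  | zero => intro x y z; rfl
  | succ a ih =>
    intro x y z
    obtain ⟨b, rfl⟩ : ∃ b', b = b' + 1 := ⟨b - 1, by omega⟩
    rw [c.Dd_succ a hij, w_Dd_succ, c.Dd_succ a hij]
    have h1 : c.off j (c.Dd a i (c.T j i (c.Dd (b + 1) i x y)) (c.T j i z))
        (c.Dd a i (c.Dd b i (c.T j i x) (c.T j i y)) (c.T j i z)) :=
      c.off_Dd a hij (c.T_Dd_off b hij x y) (fun _ => rfl)
    rw [c.off_T h1, ih (by omega)]

theorem Dd_right {a b : ℕ} (hab : a ≤ b) (i : Fin 3) : ∀ x y z : A,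
    c.Dd b i x (c.Dd a i y z) = c.Dd b i x z := by
  obtain ⟨j, hij⟩ := exists_ne i
  induction a generalizing b with
  | zero => intro x y z; rfl
  | succ a ih =>
    intro x y z
    obtain ⟨b, rfl⟩ : ∃ b', b = b' + 1 := ⟨b - 1, by omega⟩
    rw [c.Dd_succ b hij, c.Dd_succ b hij]
    have h1 : c.off j (c.Dd b i (c.T j i x) (c.T j i (c.Dd (a + 1) i y z)))
        (c.Dd b i (c.T j i x) (c.Dd a i (c.T j i y) (c.T j i z))) :=
      c.off_Dd b hij (fun _ => rfl) (c.T_Dd_off a hij y z)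
    rw [c.off_T h1, ih (by omega)]

theorem Dd_comm_self (i : Fin 3) (a : ℕ) : ∀ (b : ℕ) (x y z u : A),
    c.Dd a i (c.Dd b i x y) (c.Dd b i z u) = c.Dd b i (c.Dd a i x z) (c.Dd a i y u) := by
  obtain ⟨j, hij⟩ := exists_ne i
  induction a with
  | zero => intro b x y z u; rfl
  | succ a ih =>
    intro b x y z u
    cases b with
    | zero => rfl
    | succ b =>
      rw [c.Dd_succ a hij, w_Dd_succ, c.Dd_succ b hij (c.Dd (a + 1) i x z), w_Dd_succ]
      have h1 : c.off j (c.Dd a i (c.T j i (c.Dd (b + 1) i x y)) (c.T j i (c.Dd (b + 1) i z u)))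
          (c.Dd a i (c.Dd b i (c.T j i x) (c.T j i y)) (c.Dd b i (c.T j i z) (c.T j i u))) :=
        c.off_Dd a hij (c.T_Dd_off b hij x y) (c.T_Dd_off b hij z u)
      have h2 : c.off j (c.Dd b i (c.T j i (c.Dd (a + 1) i x z)) (c.T j i (c.Dd (a + 1) i y u)))
          (c.Dd b i (c.Dd a i (c.T j i x) (c.T j i z)) (c.Dd a i (c.T j i y) (c.T j i u))) :=
        c.off_Dd b hij (c.T_Dd_off a hij x z) (c.T_Dd_off a hij y u)
      rw [c.off_T h1, c.off_T h2, ih]

theorem Dd_comm (a b : ℕ) (i j : Fin 3) (x y z u : A) :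
    c.Dd a i (c.Dd b j x y) (c.Dd b j z u) = c.Dd b j (c.Dd a i x z) (c.Dd a i y u) := by
  by_cases hij : i = j
  · subst hij
    exact c.Dd_comm_self i a b x y z u
  · exact c.Dd_comm_ne a b hij x y z u

theorem T_Dd_self (a : ℕ) {i j : Fin 3} (hij : i ≠ j) (x y : A) :
    c.T i j (c.Dd (a + 1) i x y) = c.Dd (a + 2) i (c.T i j x) (c.T i j y) := by
  rw [c.Dd_succ (a + 1) hij]
  have h1 : c.off j (c.Dd (a + 1) i (c.T j i (c.T i j x)) (c.T j i (c.T i j y)))
      (c.Dd (a + 1) i x y) :=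
    c.off_Dd (a + 1) hij (fun z => c.T1 j i x z) (fun z => c.T1 j i y z)
  rw [c.off_T h1, c.T0, ← c.w_Dd_succ a i x y, ← c.T0 i j (c.Dd (a + 1) i x y), c.w_idem]

theorem T_Dd_other (b : ℕ) {i j : Fin 3} (hij : i ≠ j) (x y : A) :
    c.T i j (c.Dd (b + 1) j x y) =
      c.w i (c.Dd (b + 1) j (c.T i j x) (c.T i j y)) (c.Dd b j (c.T i j x) (c.T i j y)) := by
  have h1 : ∀ z, c.w i z (c.T i j (c.Dd (b + 1) j x y)) =
      c.w i z (c.Dd b j (c.T i j x) (c.T i j y)) := by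
    intro z
    rw [c.Dd_succ b hij.symm, c.T3, c.T1]
  have h2 : ∀ z, c.w i (c.T i j (c.Dd (b + 1) j x y)) z =
      c.w i (c.Dd (b + 1) j (c.T i j x) (c.T i j y)) z := by
    intro z
    have h3 := c.Dd_w (b + 1) hij.symm (c.T i j x) z (c.T i j y) z
    have h4 := c.Dd_w (b + 1) hij.symm x z y z
    rw [c.Dd_idem] at h3 h4
    rw [← h3, c.T0, c.T0, c.T0, h4]
  rw [← h2, ← h1, c.w_idem]

/-! States and good decompositions -/

/-- The action of the moves on states. -/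
def mv (i j : Fin 3) (n : Fin 3 → ℕ) : Fin 3 → ℕ :=
  if i = j ∨ n i = 0 then n else fun l => if l = i then n i - 1 else if l = j then n j + 1 else n l

theorem mv_self (i : Fin 3) (n : Fin 3 → ℕ) : mv i i n = n := by simp [mv]

theorem mv_zero {i j : Fin 3} {n : Fin 3 → ℕ} (h : n i = 0) : mv i j n = n := by simp [mv, h]

theorem mv_pos {i j : Fin 3} {n : Fin 3 → ℕ} (hij : i ≠ j) (h : n i ≠ 0) :
    mv i j n = fun l => if l = i then n i - 1 else if l = j then n j + 1 else n l := by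
  simp [mv, h, hij]

/-- Good decompositions, with the sets of states on which they take the first argument. -/
inductive Good : (A → A → A) → ((Fin 3 → ℕ) → Prop) → Prop
  | fst : Good (fun x _ => x) (fun _ => True)
  | snd : Good (fun _ y => y) (fun _ => False)
  | comp (a : ℕ) (i : Fin 3) (δ1 δ2 : A → A → A) (β1 β2 : (Fin 3 → ℕ) → Prop)
      (h1 : Good δ1 β1) (h2 : Good δ2 β2) : Good (fun x y => c.Dd a i (δ1 x y) (δ2 x y))
        (fun n => (n i < a ∧ β1 n) ∨ (a ≤ n i ∧ β2 n))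

variable {c}

theorem Good.idem {δ : A → A → A} {β : (Fin 3 → ℕ) → Prop} (h : c.Good δ β) (x : A) :
    δ x x = x := by
  induction h with
  | fst => rfl
  | snd => rfl
  | comp a i δ1 δ2 β1 β2 _ _ ih1 ih2 =>
    show c.Dd a i (δ1 x x) (δ2 x x) = x
    rw [ih1, ih2, c.Dd_idem]

theorem Good.comm_Dd {δ : A → A → A} {β : (Fin 3 → ℕ) → Prop} (h : c.Good δ β) (a : ℕ) (i : Fin 3) :
    ∀ x y z u, δ (c.Dd a i x y) (c.Dd a i z u) = c.Dd a i (δ x z) (δ y u) := by
  induction h with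
  | fst => intro x y z u; rfl
  | snd => intro x y z u; rfl
  | comp b j δ1 δ2 β1 β2 _ _ ih1 ih2 =>
    intro x y z u
    show c.Dd b j (δ1 (c.Dd a i x y) (c.Dd a i z u)) (δ2 (c.Dd a i x y) (c.Dd a i z u)) = _
    rw [ih1, ih2, c.Dd_comm]

theorem Good.comm {δ ε : A → A → A} {β γ : (Fin 3 → ℕ) → Prop} (h : c.Good δ β)
    (h' : c.Good ε γ) : ∀ x y z u, δ (ε x y) (ε z u) = ε (δ x z) (δ y u) := by
  induction h' with
  | fst => intro x y z u; rfl
  | snd => intro x y z u; rfl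
  | comp b j δ1 δ2 β1 β2 _ _ ih1 ih2 =>
    intro x y z u
    show δ (c.Dd b j (δ1 x y) (δ2 x y)) (c.Dd b j (δ1 z u) (δ2 z u)) = _
    rw [h.comm_Dd, ih1, ih2]

theorem Good.left {δ : A → A → A} {β : (Fin 3 → ℕ) → Prop} (h : c.Good δ β) :
    ∀ x y z, δ (δ x y) z = δ x z := by
  induction h with
  | fst => intro x y z; rfl
  | snd => intro x y z; rfl
  | comp b j δ1 δ2 β1 β2 h1 h2 ih1 ih2 =>
    intro x y z
    show c.Dd b j (δ1 (c.Dd b j (δ1 x y) (δ2 x y)) z) (δ2 (c.Dd b j (δ1 x y) (δ2 x y)) z) =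
      c.Dd b j (δ1 x z) (δ2 x z)
    have e1 : δ1 (c.Dd b j (δ1 x y) (δ2 x y)) z =
        c.Dd b j (δ1 (δ1 x y) z) (δ1 (δ2 x y) z) := by
      have := h1.comm_Dd b j (δ1 x y) (δ2 x y) z z
      rwa [c.Dd_idem] at this
    have e2 : δ2 (c.Dd b j (δ1 x y) (δ2 x y)) z =
        c.Dd b j (δ2 (δ1 x y) z) (δ2 (δ2 x y) z) := by
      have := h2.comm_Dd b j (δ1 x y) (δ2 x y) z z
      rwa [c.Dd_idem] at this
    rw [e1, e2, c.Dd_left (le_refl b), c.Dd_right (le_refl b), ih1, ih2]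

theorem Good.right {δ : A → A → A} {β : (Fin 3 → ℕ) → Prop} (h : c.Good δ β) :
    ∀ x y z, δ x (δ y z) = δ x z := by
  induction h with
  | fst => intro x y z; rfl
  | snd => intro x y z; rfl
  | comp b j δ1 δ2 β1 β2 h1 h2 ih1 ih2 =>
    intro x y z
    show c.Dd b j (δ1 x (c.Dd b j (δ1 y z) (δ2 y z))) (δ2 x (c.Dd b j (δ1 y z) (δ2 y z))) =
      c.Dd b j (δ1 x z) (δ2 x z)
    have e1 : δ1 x (c.Dd b j (δ1 y z) (δ2 y z)) =
        c.Dd b j (δ1 x (δ1 y z)) (δ1 x (δ2 y z)) := by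
      have := h1.comm_Dd b j x x (δ1 y z) (δ2 y z)
      rwa [c.Dd_idem] at this
    have e2 : δ2 x (c.Dd b j (δ1 y z) (δ2 y z)) =
        c.Dd b j (δ2 x (δ1 y z)) (δ2 x (δ2 y z)) := by
      have := h2.comm_Dd b j x x (δ1 y z) (δ2 y z)
      rwa [c.Dd_idem] at this
    rw [e1, e2, c.Dd_left (le_refl b), c.Dd_right (le_refl b), ih1, ih2]

theorem Good.and {δ ε : A → A → A} {β γ : (Fin 3 → ℕ) → Prop} (h : c.Good δ β)
    (h' : c.Good ε γ) : ∃ β', c.Good (fun x y => δ (ε x y) y) β' ∧ ∀ n, β' n ↔ (β n ∧ γ n) := by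
  induction h with
  | fst => exact ⟨γ, h', fun n => by simp⟩
  | snd => exact ⟨fun _ => False, Good.snd, fun n => by simp⟩
  | comp b j δ1 δ2 β1 β2 h1 h2 ih1 ih2 =>
    obtain ⟨γ1, g1, e1⟩ := ih1
    obtain ⟨γ2, g2, e2⟩ := ih2
    refine ⟨_, Good.comp b j _ _ _ _ g1 g2, fun n => ?_⟩
    rw [e1, e2]
    tauto

theorem Good.pull {δ : A → A → A} {β : (Fin 3 → ℕ) → Prop} (h : c.Good δ β) (i j : Fin 3) :
    ∃ δ' β', c.Good δ' β' ∧ (∀ x y, c.T i j (δ x y) = δ' (c.T i j x) (c.T i j y)) ∧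
      ∀ n, β' n ↔ β (mv i j n) := by
  by_cases hij : i = j
  · subst hij
    refine ⟨δ, β, h, fun x y => ?_, fun n => ?_⟩
    · simp only [c.T_self]
    · rw [mv_self]
  induction h with
  | fst => exact ⟨_, _, Good.fst, fun x y => rfl, fun n => Iff.rfl⟩
  | snd => exact ⟨_, _, Good.snd, fun x y => rfl, fun n => Iff.rfl⟩
  | comp b k δ1 δ2 β1 β2 h1 h2 ih1 ih2 =>
    obtain ⟨δ1', γ1, g1, e1, f1⟩ := ih1
    obtain ⟨δ2', γ2, g2, e2, f2⟩ := ih2
    cases b with
    | zero =>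
      refine ⟨δ2', γ2, g2, fun x y => ?_, fun n => ?_⟩
      · exact e2 x y
      · rw [f2]
        simp
    | succ b =>
      by_cases hki : k = i
      · subst hki
        refine ⟨_, _, Good.comp (b + 2) k _ _ _ _ g1 g2, fun x y => ?_, fun n => ?_⟩
        · show c.T k j (c.Dd (b + 1) k (δ1 x y) (δ2 x y)) = _
          rw [c.T_Dd_self b hij, e1, e2]
        · rw [f1, f2]
          beta_reduce
          by_cases hn : n k = 0
          · rw [mv_zero hn]
            simp [hn]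
          · have h3 : mv k j n k = n k - 1 := by
              rw [mv_pos hij hn]
              simp
            have h4 : mv k j n k < b + 1 ↔ n k < b + 2 := by rw [h3]; omega
            have h5 : b + 1 ≤ mv k j n k ↔ b + 2 ≤ n k := by rw [h3]; omega
            rw [h4, h5]
      · by_cases hkj : k = j
        · subst hkj
          refine ⟨_, _, Good.comp 1 i _ _ _ _ (Good.comp (b + 1) k _ _ _ _ g1 g2)
            (Good.comp b k _ _ _ _ g1 g2), fun x y => ?_, fun n => ?_⟩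
          · show c.T i k (c.Dd (b + 1) k (δ1 x y) (δ2 x y)) = c.Dd 1 i _ _
            rw [c.T_Dd_other b hij, e1, e2, Dd_one]
          · rw [f1, f2]
            beta_reduce
            by_cases hn : n i = 0
            · rw [mv_zero hn]
              simp [hn]
            · have h3 : mv i k n k = n k + 1 := by
                rw [mv_pos hij hn]
                simp [Ne.symm hij]
              have h4 : mv i k n k < b + 1 ↔ n k < b := by rw [h3]; omega
              have h5 : b + 1 ≤ mv i k n k ↔ b ≤ n k := by rw [h3]; omega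
              rw [h4, h5]
              have h6 : ¬ n i < 1 := by omega
              have h7 : 1 ≤ n i := by omega
              simp [h7]
              intro h8
              exact (hn h8).elim
        · refine ⟨_, _, Good.comp (b + 1) k _ _ _ _ g1 g2, fun x y => ?_, fun n => ?_⟩
          · show c.T i j (c.Dd (b + 1) k (δ1 x y) (δ2 x y)) = _
            rw [c.Dd_T (b + 1) hki hkj, e1, e2]
          · rw [f1, f2]
            beta_reduce
            have h3 : mv i j n k = n k := by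
              by_cases hn : n i = 0
              · rw [mv_zero hn]
              · rw [mv_pos hij hn]
                simp [hki, hkj]
            rw [h3]

/-- Closed sets contain the values of good decompositions. -/
theorem Good.mem {δ : A → A → A} {β : (Fin 3 → ℕ) → Prop} (h : c.Good δ β) {B : Set A}
    (hw : ∀ i x y, x ∈ B → y ∈ B → c.w i x y ∈ B) (hT : ∀ i j x, x ∈ B → c.T i j x ∈ B)
    {x y : A} (hx : x ∈ B) (hy : y ∈ B) : δ x y ∈ B := by
  have hD : ∀ (a : ℕ) (i j : Fin 3) (x y : A), x ∈ B → y ∈ B → c.D a i j x y ∈ B := by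
    intro a i j
    induction a with
    | zero => intro x y _ hy; exact hy
    | succ a ih =>
      intro x y hx hy
      rw [D_succ]
      exact hw _ _ _ hx (hT _ _ _ (ih _ _ (hT _ _ _ hx) (hT _ _ _ hy)))
  induction h with
  | fst => exact hx
  | snd => exact hy
  | comp b k δ1 δ2 β1 β2 h1 h2 ih1 ih2 => exact hD _ _ _ _ _ ih1 ih2

/-- Semantics of good decompositions. -/
theorem Good.sem {V : Type} {f : A → (Fin 3 → ℕ) → V}
    (hw : ∀ i x y n, f (c.w i x y) n = if n i = 0 then f x n else f y n)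
    (hT : ∀ i j x n, f (c.T i j x) n = f x (mv i j n))
    {δ : A → A → A} {β : (Fin 3 → ℕ) → Prop} (h : c.Good δ β) (x y : A) (n : Fin 3 → ℕ) :
    (β n → f (δ x y) n = f x n) ∧ (¬ β n → f (δ x y) n = f y n) := by
  have hD : ∀ (a : ℕ) (i j : Fin 3) (_ : i ≠ j) (x y : A) (n : Fin 3 → ℕ),
      f (c.D a i j x y) n = if n i < a then f x n else f y n := by
    intro a i j hij
    induction a with
    | zero => intro x y n; simp [D_zero]
    | succ a ih =>
      intro x y n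
      rw [D_succ, hw, hT, ih, hT, hT]
      by_cases hn : n i = 0
      · simp [hn]
      · have h1 : mv i j n i = n i - 1 := by
          rw [mv_pos hij hn]
          simp
        have h2 : mv j i (mv i j n) = n := by
          have h3 : mv i j n j ≠ 0 := by
            rw [mv_pos hij hn]
            simp [Ne.symm hij]
          rw [mv_pos hij.symm h3, mv_pos hij hn]
          funext l
          by_cases hlj : l = j
          · subst hlj
            simp [Ne.symm hij]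
          · by_cases hli : l = i
            · subst hli
              simp [hij]
              omega
            · simp [hlj, hli]
        rw [if_neg hn, h1, h2]
        have h4 : n i - 1 < a ↔ n i < a + 1 := by omega
        simp only [h4]
  induction h generalizing n with
  | fst => exact ⟨fun _ => rfl, fun h => (h trivial).elim⟩
  | snd => exact ⟨fun h => h.elim, fun _ => rfl⟩
  | comp b k δ1 δ2 β1 β2 h1 h2 ih1 ih2 =>
    have h3 : f (c.Dd b k (δ1 x y) (δ2 x y)) n =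
        if n k < b then f (δ1 x y) n else f (δ2 x y) n := hD _ _ _ (tri k).1 _ _ _
    show (_ → f (c.Dd b k (δ1 x y) (δ2 x y)) n = f x n) ∧
      (_ → f (c.Dd b k (δ1 x y) (δ2 x y)) n = f y n)
    rw [h3]
    by_cases hn : n k < b
    · rw [if_pos hn]
      refine ⟨fun h => (ih1 n).1 ?_, fun h => (ih1 n).2 ?_⟩
      · rcases h with h | h
        · exact h.2
        · omega
      · exact fun h' => h (Or.inl ⟨hn, h'⟩)
    · rw [if_neg hn]
      refine ⟨fun h => (ih2 n).1 ?_, fun h => (ih2 n).2 ?_⟩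
      · rcases h with h | h
        · omega
        · exact h.2
      · exact fun h' => h (Or.inr ⟨by omega, h'⟩)

/-- The decomposition at a single state. -/
theorem exists_point (m : Fin 3 → ℕ) : ∃ δ β, c.Good δ β ∧ (∀ n, β n ↔ n = m) ∧
    ∀ a i p q y, (m i < a → δ (c.Dd a i p q) y = δ p y) ∧
      (a ≤ m i → δ (c.Dd a i p q) y = δ q y) := by
  have he : ∀ i : Fin 3, ∃ δ β, c.Good δ β ∧ (∀ n, β n ↔ n i = m i) ∧
      ∀ a p q y, (m i < a → δ (c.Dd a i p q) y = δ p y) ∧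
      (a ≤ m i → δ (c.Dd a i p q) y = δ q y) := by
    intro i
    refine ⟨_, _, Good.comp (m i) i _ _ _ _ Good.snd
      (Good.comp (m i + 1) i _ _ _ _ Good.fst Good.snd), fun n => ?_, fun a p q y => ⟨?_, ?_⟩⟩
    · simp only [and_false, and_true, or_false, false_or]
      omega
    · intro h
      show c.Dd (m i) i y (c.Dd (m i + 1) i (c.Dd a i p q) y) =
        c.Dd (m i) i y (c.Dd (m i + 1) i p y)
      rw [c.Dd_left (show m i + 1 ≤ a by omega)]
    · intro h
      show c.Dd (m i) i y (c.Dd (m i + 1) i (c.Dd a i p q) y) =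
        c.Dd (m i) i y (c.Dd (m i + 1) i q y)
      have h1 := c.Dd_comm (m i + 1) a i i p q y y
      rw [c.Dd_idem] at h1
      rw [h1, c.Dd_right h]
  have hab1 : ∀ {δ ε : A → A → A} {β : (Fin 3 → ℕ) → Prop} {a : ℕ} {i : Fin 3} {p q r y : A},
      c.Good δ β → ε (c.Dd a i p q) y = ε r y → δ (ε (c.Dd a i p q) y) y = δ (ε r y) y := by
    intro δ ε β a i p q r y _ h
    rw [h]
  have hab2 : ∀ {δ ε : A → A → A} {β : (Fin 3 → ℕ) → Prop} {a : ℕ} {i : Fin 3} (p q y : A),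
      c.Good δ β → ε (δ (c.Dd a i p q) y) y = ε (c.Dd a i (δ p y) (δ q y)) y := by
    intro δ ε β a i p q y h
    have h1 := h.comm_Dd a i p q y y
    rw [c.Dd_idem] at h1
    rw [h1]
  obtain ⟨δ0, β0, g0, e0, a0⟩ := he 0
  obtain ⟨δ1, β1, g1, e1, a1⟩ := he 1
  obtain ⟨δ2, β2, g2, e2, a2⟩ := he 2
  obtain ⟨γ1, k1, f1⟩ := g0.and g1
  obtain ⟨γ2, k2, f2⟩ := k1.and g2
  refine ⟨_, _, k2, fun n => ?_, fun a i p q y => ?_⟩
  · rw [f2, f1, e0, e1, e2]
    constructor
    · rintro ⟨⟨h0, h1⟩, h2⟩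
      funext i
      fin_cases i
      · exact h0
      · exact h1
      · exact h2
    · rintro rfl
      exact ⟨⟨rfl, rfl⟩, rfl⟩
  · have h2 := hab2 (ε := fun x y => x) (a := a) (i := i) p q y g2
    have h1 := hab2 (ε := fun x y => x) (a := a) (i := i) (δ2 p y) (δ2 q y) y g1
    beta_reduce at h1 h2
    show (_ → δ0 (δ1 (δ2 (c.Dd a i p q) y) y) y = δ0 (δ1 (δ2 p y) y) y) ∧
      (_ → δ0 (δ1 (δ2 (c.Dd a i p q) y) y) y = δ0 (δ1 (δ2 q y) y) y)
    have hi : i = 0 ∨ i = 1 ∨ i = 2 := by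
      fin_cases i <;> simp
    rcases hi with rfl | rfl | rfl
    · rw [h2, h1]
      exact a0 _ _ _ _
    · rw [h2]
      exact ⟨fun h => by rw [(a1 _ _ _ _).1 h], fun h => by rw [(a1 _ _ _ _).2 h]⟩
    · exact ⟨fun h => by rw [(a2 _ _ _ _).1 h], fun h => by rw [(a2 _ _ _ _).2 h]⟩

/-- Point decompositions absorb good decompositions. -/
theorem Good.absorb {δ θ : A → A → A} {β : (Fin 3 → ℕ) → Prop} {m : Fin 3 → ℕ} (h : c.Good δ β)
    (hθ : ∀ a i p q y, (m i < a → θ (c.Dd a i p q) y = θ p y) ∧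
      (a ≤ m i → θ (c.Dd a i p q) y = θ q y)) (p q y : A) :
    (β m → θ (δ p q) y = θ p y) ∧ (¬ β m → θ (δ p q) y = θ q y) := by
  induction h with
  | fst => exact ⟨fun _ => rfl, fun h => (h trivial).elim⟩
  | snd => exact ⟨fun h => h.elim, fun _ => rfl⟩
  | comp b k δ1 δ2 β1 β2 h1 h2 ih1 ih2 =>
    show (_ → θ (c.Dd b k (δ1 p q) (δ2 p q)) y = θ p y) ∧
      (_ → θ (c.Dd b k (δ1 p q) (δ2 p q)) y = θ q y)
    by_cases hn : m k < b
    · rw [(hθ _ _ _ _ _).1 hn]
      refine ⟨fun h => ih1.1 ?_, fun h => ih1.2 ?_⟩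
      · rcases h with h | h
        · exact h.2
        · omega
      · exact fun h' => h (Or.inl ⟨hn, h'⟩)
    · rw [(hθ _ _ _ _ _).2 (not_lt.1 hn)]
      refine ⟨fun h => ih2.1 ?_, fun h => ih2.2 ?_⟩
      · rcases h with h | h
        · omega
        · exact h.2
      · exact fun h' => h (Or.inr ⟨by omega, h'⟩)

/-- Agreement near a state. -/
def Near (c : CAlg A) (n : Fin 3 → ℕ) (a b : A) : Prop :=
  ∃ δ β, c.Good δ β ∧ β n ∧ ∀ y, δ a y = δ b y

theorem Near.refl (n : Fin 3 → ℕ) (a : A) : c.Near n a a :=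
  ⟨_, _, Good.fst, trivial, fun _ => rfl⟩

theorem Near.symm {n : Fin 3 → ℕ} {a b : A} (h : c.Near n a b) : c.Near n b a := by
  obtain ⟨δ, β, g, hn, h⟩ := h
  exact ⟨δ, β, g, hn, fun y => (h y).symm⟩

theorem and_agree {δ ε : A → A → A} {β γ : (Fin 3 → ℕ) → Prop} (g : c.Good δ β)
    (g' : c.Good ε γ) {a b : A} (h : ∀ y, δ a y = δ b y) (y : A) :
    δ (ε a y) y = δ (ε b y) y := by
  have h1 := g.comm g' a y y y
  have h2 := g.comm g' b y y y
  rw [g'.idem] at h1 h2
  rw [h1, h2, h y]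

theorem Near.trans {n : Fin 3 → ℕ} {a b d : A} (h : c.Near n a b) (h' : c.Near n b d) :
    c.Near n a d := by
  obtain ⟨δ, β, g, hn, h⟩ := h
  obtain ⟨ε, γ, g', hn', h'⟩ := h'
  obtain ⟨β', k, e⟩ := g.and g'
  refine ⟨_, β', k, (e n).2 ⟨hn, hn'⟩, fun y => ?_⟩
  rw [and_agree g g' h y, h' y]

theorem Near.T {n : Fin 3 → ℕ} {a b : A} {i j : Fin 3} (h : c.Near (mv i j n) a b) :
    c.Near n (c.T i j a) (c.T i j b) := by
  obtain ⟨δ, β, g, hn, h⟩ := h
  obtain ⟨δ', β', g', e, f⟩ := g.pull i j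
  refine ⟨δ', β', g', (f n).2 hn, fun y => ?_⟩
  have h1 : c.T i j b = δ' (c.T i j a) (c.T i j b) := by
    rw [← e, h b, g.idem]
  rw [h1, g'.left]

theorem Near.absorb {θ : A → A → A} {m : Fin 3 → ℕ} {a b : A} (h : c.Near m a b)
    (hθ : ∀ a i p q y, (m i < a → θ (c.Dd a i p q) y = θ p y) ∧
      (a ≤ m i → θ (c.Dd a i p q) y = θ q y)) (y : A) : θ a y = θ b y := by
  obtain ⟨δ, β, g, hn, h⟩ := h
  rw [← (g.absorb hθ a a y).1 hn, ← (g.absorb hθ b a y).1 hn, h a]

theorem near_w_zero {i : Fin 3} {n : Fin 3 → ℕ} (hn : n i = 0) (a b : A) :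
    c.Near n (c.w i a b) a := by
  refine ⟨_, _, Good.comp 1 i _ _ _ _ Good.fst Good.snd, Or.inl ⟨by omega, trivial⟩, fun y => ?_⟩
  show c.Dd 1 i (c.w i a b) y = c.Dd 1 i a y
  rw [Dd_one, Dd_one, c.w_left]

theorem near_w_pos {i : Fin 3} {n : Fin 3 → ℕ} (hn : n i ≠ 0) (a b : A) :
    c.Near n (c.w i a b) b := by
  refine ⟨_, _, Good.comp 1 i _ _ _ _ Good.snd Good.fst, Or.inr ⟨by omega, trivial⟩, fun y => ?_⟩
  show c.Dd 1 i y (c.w i a b) = c.Dd 1 i y b
  rw [Dd_one, Dd_one, c.w_right]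

theorem near_T_zero {i j : Fin 3} {n : Fin 3 → ℕ} (hn : n i = 0) (a : A) :
    c.Near n (c.T i j a) a := by
  refine ⟨_, _, Good.comp 1 i _ _ _ _ Good.fst Good.snd, Or.inl ⟨by omega, trivial⟩, fun y => ?_⟩
  show c.Dd 1 i (c.T i j a) y = c.Dd 1 i a y
  rw [Dd_one, Dd_one, c.T0]

theorem near_T_pos {i j : Fin 3} {n : Fin 3 → ℕ} (hn : n i ≠ 0) (a : A) :
    c.Near n (c.T i j (c.T j i a)) a := by
  refine ⟨_, _, Good.comp 1 i _ _ _ _ Good.snd Good.fst, Or.inr ⟨by omega, trivial⟩, fun y => ?_⟩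
  show c.Dd 1 i y (c.T i j (c.T j i a)) = c.Dd 1 i y a
  rw [Dd_one, Dd_one, c.T1]

end CAlg

end Pool.Agent.Helper62.CntAlg
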