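import Mathlib
import Pool.Agent.Helper62.SubDefs

namespace Pool.Agent.Helper62.SubThy

open Cardinal SubDefs

variable {S : Sig} {E : Set (Tm S ℕ × Tm S ℕ)} {X Y Z A : Type}

/-- Evaluation of terms. -/
def ev (op : ∀ f : S.Op, (Fin (S.ar f) → A) → A) (v : Z → A) : Tm S Z → A
  | Tm.var z => v z
  | Tm.op f a => op f (fun i => ev op v (a i))

/-- The identities hold in the algebra. -/
def Models (E : Set (Tm S ℕ × Tm S ℕ)) (op : ∀ f : S.Op, (Fin (S.ar f) → A) → A) : Prop :=
  ∀ e ∈ E, ∀ v : ℕ → A, ev op v e.1 = ev op v e.2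

/-- The class of a term. -/
def mk (t : Tm S X) : FreeAlg S E X := Quotient.mk (derSetoid S E X) t

/-- The free generators. -/
def gen (x : X) : FreeAlg S E X := mk (Tm.var x)

theorem mk_surj (a : FreeAlg S E X) : ∃ t, mk t = a := Quotient.exists_rep a

theorem freeOp_mk (f : S.Op) (a : Fin (S.ar f) → Tm S X) :
    freeOp f (fun i => (mk (a i) : FreeAlg S E X)) = mk (Tm.op f a) := by
  apply Quotient.sound
  apply Der.cong
  intro i
  exact Quotient.exact (Quotient.out_eq (mk (a i) : FreeAlg S E X))

/-- Evaluation in the free algebra. -/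
noncomputable def evF (v : Z → FreeAlg S E X) (t : Tm S Z) : FreeAlg S E X := ev freeOp v t

theorem evF_var (v : Z → FreeAlg S E X) (z : Z) : evF v (Tm.var z) = v z := rfl

theorem evF_op (v : Z → FreeAlg S E X) (f : S.Op) (a : Fin (S.ar f) → Tm S Z) :
    evF v (Tm.op f a) = freeOp f (fun i => evF v (a i)) := rfl

theorem ev_ev (op : ∀ f : S.Op, (Fin (S.ar f) → A) → A) (w : X → A) (r : Z → Tm S X)
    (t : Tm S Z) : ev op w (ev Tm.op r t) = ev op (fun z => ev op w (r z)) t := by
  induction t with
  | var z => rfl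
  | op f a ih =>
    show op f (fun i => ev op w (ev Tm.op r (a i))) = op f _
    congr 1
    funext i
    exact ih i

theorem evF_mk (r : Z → Tm S X) (t : Tm S Z) :
    evF (fun z => (mk (r z) : FreeAlg S E X)) t = mk (ev Tm.op r t) := by
  induction t with
  | var z => rfl
  | op f a ih =>
    rw [evF_op]
    have : (fun i => evF (fun z => (mk (r z) : FreeAlg S E X)) (a i)) =
        fun i => mk (ev Tm.op r (a i)) := funext ih
    rw [this, freeOp_mk]
    rfl

theorem ev_var_op (t : Tm S X) : ev Tm.op Tm.var t = t := by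
  induction t with
  | var z => rfl
  | op f a ih =>
    show Tm.op f (fun i => ev Tm.op Tm.var (a i)) = Tm.op f a
    congr 1
    funext i
    exact ih i

theorem evF_gen (t : Tm S X) : evF (gen : X → FreeAlg S E X) t = mk t := by
  have := evF_mk (E := E) (Tm.var : X → Tm S X) t
  rw [ev_var_op] at this
  exact this

theorem der_sound {op : ∀ f : S.Op, (Fin (S.ar f) → A) → A} (hM : Models E op) {t u : Tm S X}
    (h : Der S E X t u) (v : X → A) : ev op v t = ev op v u := by
  induction h with
  | ax e he h hh =>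
    have key : ∀ t : Tm S ℕ, ev op v (h t) = ev op (fun n => ev op v (h (Tm.var n))) t := by
      intro t
      induction t with
      | var z => rfl
      | op f a ih =>
        rw [hh]
        show op f (fun i => ev op v (h (a i))) = op f _
        congr 1
        funext i
        exact ih i
    rw [key, key]
    exact hM e he _
  | refl => rfl
  | symm t u _ ih => exact ih.symm
  | trans t u w _ _ ih1 ih2 => exact ih1.trans ih2
  | cong f a b _ ih =>
    show op f (fun i => ev op v (a i)) = op f (fun i => ev op v (b i))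
    congr 1
    funext i
    exact ih i

theorem models_free : Models E (freeOp : ∀ f : S.Op, (Fin (S.ar f) → FreeAlg S E X) → _) := by
  intro e he v
  have h1 : v = fun n => mk (Quotient.out (v n)) := by
    funext n
    exact (Quotient.out_eq (v n)).symm
  rw [h1]
  have h2 := evF_mk (E := E) (fun n => Quotient.out (v n)) e.1
  have h3 := evF_mk (E := E) (fun n => Quotient.out (v n)) e.2
  unfold evF at h2 h3
  rw [h2, h3]
  apply Quotient.sound
  exact Der.ax e he (ev Tm.op fun n => Quotient.out (v n)) (fun f a => rfl)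

/-- The homomorphism from the free algebra with given values on the generators. -/
def lift {op : ∀ f : S.Op, (Fin (S.ar f) → A) → A} (hM : Models E op) (v : X → A) :
    FreeAlg S E X → A :=
  Quotient.lift (ev op v) (fun _ _ h => der_sound hM h v)

theorem lift_mk {op : ∀ f : S.Op, (Fin (S.ar f) → A) → A} (hM : Models E op) (v : X → A)
    (t : Tm S X) : lift hM v (mk t) = ev op v t := rfl

theorem lift_gen {op : ∀ f : S.Op, (Fin (S.ar f) → A) → A} (hM : Models E op) (v : X → A)
    (x : X) : lift hM v (gen x) = v x := rfl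

theorem lift_op {op : ∀ f : S.Op, (Fin (S.ar f) → A) → A} (hM : Models E op) (v : X → A)
    (f : S.Op) (a : Fin (S.ar f) → FreeAlg S E X) :
    lift hM v (freeOp f a) = op f (fun i => lift hM v (a i)) := by
  have h1 : a = fun i => mk (Quotient.out (a i)) := by
    funext n
    exact (Quotient.out_eq (a n)).symm
  rw [h1, freeOp_mk, lift_mk]
  rfl

theorem lift_ev {op : ∀ f : S.Op, (Fin (S.ar f) → A) → A} (hM : Models E op) (v : X → A)
    (w : Z → FreeAlg S E X) (t : Tm S Z) :
    lift hM v (evF w t) = ev op (fun z => lift hM v (w z)) t := by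
  induction t with
  | var z => rfl
  | op f a ih =>
    rw [evF_op, lift_op]
    show op f _ = op f _
    congr 1
    funext i
    exact ih i

/-- The homomorphism between free algebras with given values on the generators. -/
noncomputable def ext (v : X → FreeAlg S E Y) : FreeAlg S E X → FreeAlg S E Y :=
  lift models_free v

theorem ext_mk (v : X → FreeAlg S E Y) (t : Tm S X) : ext v (mk t) = evF v t := rfl

theorem ext_gen (v : X → FreeAlg S E Y) (x : X) : ext v (gen x) = v x := rfl

theorem ext_op (v : X → FreeAlg S E Y) (f : S.Op) (a : Fin (S.ar f) → FreeAlg S E X) :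
    ext v (freeOp f a) = freeOp f (fun i => ext v (a i)) := lift_op _ _ _ _

theorem ext_ev (v : X → FreeAlg S E Y) (w : Z → FreeAlg S E X) (t : Tm S Z) :
    ext v (evF w t) = evF (fun z => ext v (w z)) t := lift_ev _ _ _ _

theorem ext_id (a : FreeAlg S E X) : ext gen a = a := by
  obtain ⟨t, rfl⟩ := mk_surj a
  rw [ext_mk, evF_gen]

theorem ext_ext {W : Type} (v : X → FreeAlg S E Y) (w : Y → FreeAlg S E W) (a : FreeAlg S E X) :
    ext w (ext v a) = ext (fun x => ext w (v x)) a := by
  obtain ⟨t, rfl⟩ := mk_surj a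
  rw [ext_mk, ext_ev, ext_mk]

/-- The variables of a term. -/
def vars : Tm S Z → Set Z
  | Tm.var z => {z}
  | Tm.op _ a => ⋃ i, vars (a i)

theorem vars_finite (t : Tm S Z) : (vars t).Finite := by
  induction t with
  | var z => exact Set.finite_singleton z
  | op f a ih => exact Set.finite_iUnion ih

theorem ev_congr {op : ∀ f : S.Op, (Fin (S.ar f) → A) → A} {v w : Z → A} {t : Tm S Z}
    (h : ∀ z ∈ vars t, v z = w z) : ev op v t = ev op w t := by
  induction t with
  | var z => exact h z rfl
  | op f a ih =>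
    show op f _ = op f _
    congr 1
    funext i
    exact ih i (fun z hz => h z (Set.mem_iUnion.2 ⟨i, hz⟩))

theorem evF_congr {v w : Z → FreeAlg S E X} {t : Tm S Z} (h : ∀ z ∈ vars t, v z = w z) :
    evF v t = evF w t := ev_congr h

/-- Renaming of variables. -/
def tmap (f : X → Y) (t : Tm S X) : Tm S Y := ev Tm.op (fun x => Tm.var (f x)) t

theorem ev_tmap {op : ∀ f : S.Op, (Fin (S.ar f) → A) → A} (w : Y → A) (f : X → Y) (t : Tm S X) :
    ev op w (tmap f t) = ev op (fun x => w (f x)) t := by
  unfold tmap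
  rw [ev_ev]
  rfl

theorem evF_tmap (w : Y → FreeAlg S E Z) (f : X → Y) (t : Tm S X) :
    evF w (tmap f t) = evF (fun x => w (f x)) t := ev_tmap _ _ _

theorem mk_tmap (f : X → Y) (t : Tm S X) :
    (mk (tmap f t) : FreeAlg S E Y) = evF (fun x => gen (f x)) t := by
  rw [← evF_gen, evF_tmap]

theorem tmap_tmap {W : Type} (f : X → Y) (g : Y → W) (t : Tm S X) :
    tmap g (tmap f t) = tmap (fun x => g (f x)) t := by
  unfold tmap
  rw [ev_ev]
  rfl

theorem tmap_congr {f g : X → Y} {t : Tm S X} (h : ∀ x ∈ vars t, f x = g x) :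
    tmap f t = tmap g t := by
  apply ev_congr
  intro x hx
  rw [h x hx]

theorem tmap_id (t : Tm S X) : tmap (fun x => x) t = t := ev_var_op t

theorem vars_tmap (f : X → Y) (t : Tm S X) : vars (tmap f t) = f '' vars t := by
  induction t with
  | var z =>
    show {f z} = f '' {z}
    rw [Set.image_singleton]
  | op g a ih =>
    show (⋃ i, vars (tmap f (a i))) = f '' ⋃ i, vars (a i)
    rw [Set.image_iUnion]
    congr 1
    funext i
    exact ih i

theorem le_iff {B C : SubAlg S E X} : B ≤ C ↔ ∀ a ∈ B.1, a ∈ C.1 := Iff.rfl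

theorem ev_mem (B : SubAlg S E X) {v : Z → FreeAlg S E X} {t : Tm S Z}
    (h : ∀ z ∈ vars t, v z ∈ B.1) : evF v t ∈ B.1 := by
  induction t with
  | var z => exact h z rfl
  | op f a ih =>
    rw [evF_op]
    exact B.2 f _ (fun i => ih i (fun z hz => h z (Set.mem_iUnion.2 ⟨i, hz⟩)))

/-- The subalgebra generated by a set. -/
def cl (G : Set (FreeAlg S E X)) : SubAlg S E X :=
  ⟨{a | ∃ t : Tm S G, evF Subtype.val t = a}, by
    intro f a ha
    choose t ht using ha
    refine ⟨Tm.op f t, ?_⟩
    rw [evF_op]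
    congr 1
    funext i
    exact ht i⟩

theorem subset_cl (G : Set (FreeAlg S E X)) {a : FreeAlg S E X} (ha : a ∈ G) : a ∈ (cl G).1 :=
  ⟨Tm.var ⟨a, ha⟩, rfl⟩

theorem cl_le {G : Set (FreeAlg S E X)} {B : SubAlg S E X} (h : ∀ a ∈ G, a ∈ B.1) :
    cl G ≤ B := by
  rintro _ ⟨t, rfl⟩
  exact ev_mem B (fun z _ => h z.1 z.2)

/-- Inverse images of subalgebras. -/
def comap (v : X → FreeAlg S E Y) (B : SubAlg S E Y) : SubAlg S E X :=
  ⟨{a | ext v a ∈ B.1}, by
    intro f a ha
    show ext v (freeOp f a) ∈ B.1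
    rw [ext_op]
    exact B.2 f _ ha⟩

open Classical in
/-- The mixing property. -/
def Mixing (S : Sig) (E : Set (Tm S ℕ × Tm S ℕ)) : Prop :=
  ∀ (X : Type) (B : SubAlg S E X) (Z : Type) (h : Tm S Z) (P : Z → Prop)
    (f g : Z → FreeAlg S E X), evF f h ∈ B.1 → evF g h ∈ B.1 →
    evF (fun z => if P z then f z else g z) h ∈ B.1

/-- The one variable data of a subalgebra. -/
def dat (B : SubAlg S E X) (x : X) : Set (Tm S Bool) :=
  {s | ∃ u ∈ B.1, evF (fun b => cond b (gen x) u) s ∈ B.1}

open Classical in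
/-- A term with one marked variable. -/
noncomputable def mark (x : X) (t : Tm S X) : Tm S Bool := tmap (fun z => decide (z = x)) t

theorem dat_mono {B C : SubAlg S E X} (h : B ≤ C) (x : X) : dat B x ⊆ dat C x := by
  rintro s ⟨u, hu, hs⟩
  exact ⟨u, h hu, h hs⟩

theorem mem_of_dat (hmix : Mixing S E) {B : SubAlg S E X} {x : X} {s : Tm S Bool}
    (hs : s ∈ dat B x) {u : FreeAlg S E X} (hu : u ∈ B.1) :
    evF (fun b => cond b (gen x) u) s ∈ B.1 := by
  classical
  obtain ⟨u', hu', hs'⟩ := hs
  have h1 := hmix X B Bool s (fun b => b = true) (fun b => cond b (gen x) u') (fun _ => u) hs'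
    (ev_mem B (fun _ _ => hu))
  convert h1 using 2
  funext b
  cases b <;> simp

open Classical in
theorem ev_mark (x : X) (u : FreeAlg S E X) (t : Tm S X) :
    evF (fun b => cond b (gen x) u) (mark x t) = evF (fun z => if z = x then gen x else u) t := by
  unfold mark
  rw [evF_tmap]
  apply evF_congr
  intro z _
  by_cases h : z = x <;> simp [h]

theorem mark_mem_of_mem (hmix : Mixing S E) {B : SubAlg S E X} {t : Tm S X}
    (ht : mk t ∈ B.1) (x : X) : mark x t ∈ dat B x := by
  classical
  refine ⟨mk t, ht, ?_⟩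
  rw [ev_mark]
  have h1 := hmix X B X t (fun z => z = x) gen (fun _ => mk t) (by rwa [evF_gen])
    (ev_mem B (fun _ _ => ht))
  have h2 : (fun z : X => if z = x then gen z else mk t) =
      fun z => if z = x then (gen x : FreeAlg S E X) else mk t := by
    funext z
    by_cases h : z = x
    · simp [h]
    · simp [h]
  rwa [h2] at h1

theorem mem_of_mark_mem (hmix : Mixing S E) {B : SubAlg S E X} {t : Tm S X} [Nonempty X]
    (ht : ∀ x, mark x t ∈ dat B x) : mk t ∈ B.1 := by
  classical
  obtain ⟨u, hu, _⟩ := ht (Classical.arbitrary X)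
  have h1 : ∀ x, evF (fun z => if z = x then gen x else u) t ∈ B.1 := by
    intro x
    rw [← ev_mark]
    exact mem_of_dat hmix (ht x) hu
  have h2 : ∀ V : Set X, V.Finite → evF (fun z => if z ∈ V then gen z else u) t ∈ B.1 := by
    intro V hV
    induction V, hV using Set.Finite.induction_on with
    | empty => exact ev_mem B (fun z _ => by simpa using hu)
    | @insert x V hx _ ih =>
      have h3 := hmix X B X t (fun z => z = x) _ _ (h1 x) ih
      convert h3 using 2
      funext z
      by_cases h : z = x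
      · simp [h]
      · simp [h]
  have h3 := h2 (vars t) (vars_finite t)
  rw [← evF_gen]
  have h4 : evF (fun z => if z ∈ vars t then gen z else u) t = evF (gen : X → FreeAlg S E X) t := by
    apply evF_congr
    intro z hz
    simp [hz]
  rwa [h4] at h3

theorem mem_iff (hmix : Mixing S E) [Nonempty X] {B : SubAlg S E X} {t : Tm S X} :
    mk t ∈ B.1 ↔ ∀ x, mark x t ∈ dat B x :=
  ⟨mark_mem_of_mem hmix, mem_of_mark_mem hmix⟩

theorem le_iff_dat (hmix : Mixing S E) [Nonempty X] {B C : SubAlg S E X} :
    B ≤ C ↔ ∀ x, dat B x ⊆ dat C x := by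
  constructor
  · intro h x
    exact dat_mono h x
  · intro h a ha
    obtain ⟨t, rfl⟩ := mk_surj a
    rw [mem_iff hmix] at ha ⊢
    exact fun x => h x (ha x)

theorem ext_of_dat (hmix : Mixing S E) [Nonempty X] {B C : SubAlg S E X}
    (h : ∀ x, dat B x = dat C x) : B = C :=
  le_antisymm ((le_iff_dat hmix).2 fun x => (h x).le) ((le_iff_dat hmix).2 fun x => (h x).ge)

end Pool.Agent.Helper62.SubThy
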