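import Mathlib
import Pool.Agent.Helper62.SubThy
import Pool.Agent.Helper62.CntAlg

namespace Pool.Agent.Helper62.CntVar

open Cardinal SubDefs SubThy CntAlg

/-- The operation symbols. -/
inductive Op3 : Type
  | w (i : Fin 3) : Op3
  | T (i j : Fin 3) : Op3

/-- The signature. -/
def sg : Sig := ⟨Op3, fun f => match f with
  | Op3.w _ => 2
  | Op3.T _ _ => 1⟩

theorem finite_op : Finite sg.Op := by
  let f : Fin 3 ⊕ (Fin 3 × Fin 3) → Op3 := fun s => match s with
    | Sum.inl i => Op3.w i
    | Sum.inr p => Op3.T p.1 p.2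
  have hf : Function.Surjective f := by
    intro o
    cases o with
    | w i => exact ⟨Sum.inl i, rfl⟩
    | T i j => exact ⟨Sum.inr (i, j), rfl⟩
  exact Finite.of_surjective f hf

theorem ar_pos : ∀ f : sg.Op, 0 < sg.ar f := by
  intro f
  cases f with
  | w i => exact Nat.zero_lt_succ 1
  | T i j => exact Nat.zero_lt_succ 0

variable {X Y Z A : Type}

/-- Binary terms. -/
def W (i : Fin 3) (s t : Tm sg Z) : Tm sg Z := Tm.op (S := sg) (Op3.w i) (![s, t] : Fin 2 → _)

/-- Unary terms. -/
def U (i j : Fin 3) (s : Tm sg Z) : Tm sg Z := Tm.op (S := sg) (Op3.T i j) (![s] : Fin 1 → _)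

/-- Binary operations. -/
def opW (op : ∀ f : sg.Op, (Fin (sg.ar f) → A) → A) (i : Fin 3) (x y : A) : A :=
  op (Op3.w i) (![x, y] : Fin 2 → A)

/-- Unary operations. -/
def opT (op : ∀ f : sg.Op, (Fin (sg.ar f) → A) → A) (i j : Fin 3) (x : A) : A :=
  op (Op3.T i j) (![x] : Fin 1 → A)

theorem ev_W (op : ∀ f : sg.Op, (Fin (sg.ar f) → A) → A) (v : Z → A) (i : Fin 3)
    (s t : Tm sg Z) : ev op v (W i s t) = opW op i (ev op v s) (ev op v t) := by
  show op (Op3.w i) (fun k : Fin 2 => ev op v ((![s, t] : Fin 2 → _) k)) =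
    op (Op3.w i) (![ev op v s, ev op v t] : Fin 2 → A)
  congr 1
  funext k
  fin_cases k <;> rfl

theorem ev_U (op : ∀ f : sg.Op, (Fin (sg.ar f) → A) → A) (v : Z → A) (i j : Fin 3)
    (s : Tm sg Z) : ev op v (U i j s) = opT op i j (ev op v s) := by
  show op (Op3.T i j) (fun k : Fin 1 => ev op v ((![s] : Fin 1 → _) k)) =
    op (Op3.T i j) (![ev op v s] : Fin 1 → A)
  congr 1
  funext k
  fin_cases k; rfl

/-- The variables. -/
def x0 : Tm sg ℕ := Tm.var 0
def x1 : Tm sg ℕ := Tm.var 1
def x2 : Tm sg ℕ := Tm.var 2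
def x3 : Tm sg ℕ := Tm.var 3

/-- The identities for given indices. -/
def ids (i j k : Fin 3) : Set (Tm sg ℕ × Tm sg ℕ) :=
  {(W i x0 x0, x0),
   (W i (W i x0 x1) x2, W i x0 x2),
   (W i x0 (W i x1 x2), W i x0 x2),
   (W i (W j x0 x1) (W j x2 x3), W j (W i x0 x2) (W i x1 x3)),
   (U i i x0, x0),
   (W i (U i j x0) x1, W i x0 x1),
   (W i x1 (U i j (U j i x0)), W i x1 x0),
   (if k ≠ i ∧ k ≠ j then (U i j (W k x0 x1), W k (U i j x0) (U i j x1)) else (x0, x0)),
   (W i x2 (U i j (W j x0 x1)), W i x2 (U i j x1)),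
   (W i x1 (U i k (U j k x0)), W i x1 (U j k (U i k x0))),
   (if i ≠ j then (W k x1 (U j k (U k i x0)), W k x1 (U k i (U j k x0))) else (x0, x0)),
   (W i x1 (U i k x0), W i x1 (U i j (U j k x0)))}

/-- The identities. -/
def E3 : Set (Tm sg ℕ × Tm sg ℕ) := ⋃ i, ⋃ j, ⋃ k, ids i j k

theorem E3_finite : E3.Finite := by
  apply Set.finite_iUnion
  intro i
  apply Set.finite_iUnion
  intro j
  apply Set.finite_iUnion
  intro k
  unfold ids
  exact Set.toFinite _

theorem mem_E3 {e : Tm sg ℕ × Tm sg ℕ} (i j k : Fin 3) (h : e ∈ ids i j k) : e ∈ E3 :=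
  Set.mem_iUnion.2 ⟨i, Set.mem_iUnion.2 ⟨j, Set.mem_iUnion.2 ⟨k, h⟩⟩⟩

/-- The assignment of four values. -/
def as4 (x y z u : A) : ℕ → A := fun n => match n with
  | 0 => x
  | 1 => y
  | 2 => z
  | _ => u

/-- Three-counter algebras from models. -/
def calg {op : ∀ f : sg.Op, (Fin (sg.ar f) → A) → A} (hM : Models E3 op) : CAlg A where
  w := opW op
  T := opT op
  w_idem i x := by
    have h := hM (W i x0 x0, x0) (mem_E3 i i i (by simp [ids])) (as4 x x x x)
    simp only [ev_W, ev_U] at h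
    exact h
  w_left i x y z := by
    have h := hM (W i (W i x0 x1) x2, W i x0 x2) (mem_E3 i i i (by simp [ids])) (as4 x y z z)
    simp only [ev_W, ev_U] at h
    exact h
  w_right i x y z := by
    have h := hM (W i x0 (W i x1 x2), W i x0 x2) (mem_E3 i i i (by simp [ids])) (as4 x y z z)
    simp only [ev_W, ev_U] at h
    exact h
  w_comm i j x y z u := by
    have h := hM (W i (W j x0 x1) (W j x2 x3), W j (W i x0 x2) (W i x1 x3))
      (mem_E3 i j i (by simp [ids])) (as4 x y z u)
    simp only [ev_W, ev_U] at h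
    exact h
  T_self i x := by
    have h := hM (U i i x0, x0) (mem_E3 i i i (by simp [ids])) (as4 x x x x)
    simp only [ev_W, ev_U] at h
    exact h
  T0 i j x y := by
    have h := hM (W i (U i j x0) x1, W i x0 x1) (mem_E3 i j i (by simp [ids])) (as4 x y x x)
    simp only [ev_W, ev_U] at h
    exact h
  T1 i j x y := by
    have h := hM (W i x1 (U i j (U j i x0)), W i x1 x0) (mem_E3 i j i (by simp [ids]))
      (as4 x y x x)
    simp only [ev_W, ev_U] at h
    exact h
  T2 i j k hki hkj x y := by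
    have h := hM (U i j (W k x0 x1), W k (U i j x0) (U i j x1))
      (mem_E3 i j k (by simp [ids, hki, hkj])) (as4 x y x x)
    simp only [ev_W, ev_U] at h
    exact h
  T3 i j x y z := by
    have h := hM (W i x2 (U i j (W j x0 x1)), W i x2 (U i j x1)) (mem_E3 i j i (by simp [ids]))
      (as4 x y z z)
    simp only [ev_W, ev_U] at h
    exact h
  T4 i j k x z := by
    have h := hM (W i x1 (U i k (U j k x0)), W i x1 (U j k (U i k x0)))
      (mem_E3 i j k (by simp [ids])) (as4 x z x x)
    simp only [ev_W, ev_U] at h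
    exact h
  T5 i j k hij x z := by
    have h := hM (W k x1 (U j k (U k i x0)), W k x1 (U k i (U j k x0)))
      (mem_E3 i j k (by simp [ids, hij])) (as4 x z x x)
    simp only [ev_W, ev_U] at h
    exact h
  T6 i j k x z := by
    have h := hM (W i x1 (U i k x0), W i x1 (U i j (U j k x0))) (mem_E3 i j k (by simp [ids]))
      (as4 x z x x)
    simp only [ev_W, ev_U] at h
    exact h

/-- The operations of a three-counter algebra. -/
def opOf (c : CAlg A) : ∀ f : sg.Op, (Fin (sg.ar f) → A) → A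
  | Op3.w i, a => c.w i (a (0 : Fin 2)) (a (1 : Fin 2))
  | Op3.T i j, a => c.T i j (a (0 : Fin 1))

theorem opW_opOf (c : CAlg A) (i : Fin 3) (x y : A) : opW (opOf c) i x y = c.w i x y := rfl

theorem opT_opOf (c : CAlg A) (i j : Fin 3) (x : A) : opT (opOf c) i j x = c.T i j x := rfl

theorem models_opOf (c : CAlg A) : Models E3 (opOf c) := by
  intro e he v
  obtain ⟨i, he⟩ := Set.mem_iUnion.1 he
  obtain ⟨j, he⟩ := Set.mem_iUnion.1 he
  obtain ⟨k, he⟩ := Set.mem_iUnion.1 he
  simp only [ids, Set.mem_insert_iff, Set.mem_singleton_iff] at he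
  rcases he with h | h | h | h | h | h | h | h | h | h | h | h
  · subst h
    simp only [ev_W, ev_U, opW_opOf, opT_opOf]
    exact c.w_idem _ _
  · subst h
    simp only [ev_W, ev_U, opW_opOf, opT_opOf]
    exact c.w_left _ _ _ _
  · subst h
    simp only [ev_W, ev_U, opW_opOf, opT_opOf]
    exact c.w_right _ _ _ _
  · subst h
    simp only [ev_W, ev_U, opW_opOf, opT_opOf]
    exact c.w_comm _ _ _ _ _ _
  · subst h
    simp only [ev_W, ev_U, opW_opOf, opT_opOf]
    exact c.T_self _ _
  · subst h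
    simp only [ev_W, ev_U, opW_opOf, opT_opOf]
    exact c.T0 _ _ _ _
  · subst h
    simp only [ev_W, ev_U, opW_opOf, opT_opOf]
    exact c.T1 _ _ _ _
  · by_cases hk : k ≠ i ∧ k ≠ j
    · rw [if_pos hk] at h
      subst h
      simp only [ev_W, ev_U, opW_opOf, opT_opOf]
      exact c.T2 _ _ _ hk.1 hk.2 _ _
    · rw [if_neg hk] at h
      subst h
      rfl
  · subst h
    simp only [ev_W, ev_U, opW_opOf, opT_opOf]
    exact c.T3 _ _ _ _ _
  · subst h
    simp only [ev_W, ev_U, opW_opOf, opT_opOf]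
    exact c.T4 _ _ _ _ _
  · by_cases hk : i ≠ j
    · rw [if_pos hk] at h
      subst h
      simp only [ev_W, ev_U, opW_opOf, opT_opOf]
      exact c.T5 _ _ _ hk _ _
    · rw [if_neg hk] at h
      subst h
      rfl
  · subst h
    simp only [ev_W, ev_U, opW_opOf, opT_opOf]
    exact c.T6 _ _ _ _ _

/-! The concrete algebra -/

open CAlg

theorem mv_other {i j k : Fin 3} (hi : k ≠ i) (hj : k ≠ j) (n : Fin 3 → ℕ) : mv i j n k = n k := by
  unfold mv
  split_ifs with h
  · rfl
  · simp [hi, hj]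

theorem mv_mv {i j : Fin 3} {n : Fin 3 → ℕ} (hn : n i ≠ 0) : mv j i (mv i j n) = n := by
  by_cases hij : i = j
  · subst hij
    rw [mv_self, mv_self]
  · have h3 : mv i j n j ≠ 0 := by
      rw [mv_pos hij hn]
      simp [Ne.symm hij]
    rw [mv_pos (Ne.symm hij) h3, mv_pos hij hn]
    funext l
    by_cases hlj : l = j
    · subst hlj
      simp [Ne.symm hij]
    · by_cases hli : l = i
      · subst hli
        simp [hij]
        omega
      · simp [hlj, hli]

theorem mv_ne_zero {i j : Fin 3} {n : Fin 3 → ℕ} (hn : n i ≠ 0) : mv i j n j ≠ 0 := by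
  by_cases hij : i = j
  · subst hij
    rwa [mv_self]
  · rw [mv_pos hij hn]
    simp [Ne.symm hij]

theorem mv_T4 (i j k : Fin 3) (n : Fin 3 → ℕ) : mv j k (mv i k n) = mv i k (mv j k n) := by
  by_cases hij : i = j
  · subst hij; rfl
  by_cases hik : i = k
  · subst hik; rw [mv_self, mv_self]
  by_cases hjk : j = k
  · subst hjk; rw [mv_self, mv_self]
  by_cases hni : n i = 0
  · rw [mv_zero (j := k) hni, mv_zero (i := i) (j := k)]
    rw [mv_other hij hik]; exact hni
  · by_cases hnj : n j = 0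
    · rw [mv_zero (i := j) (j := k) (n := n) hnj, mv_zero (i := j) (j := k)]
      rw [mv_other (Ne.symm hij) hjk]; exact hnj
    · have h1 : mv i k n j ≠ 0 := by rw [mv_other (Ne.symm hij) hjk]; exact hnj
      have h2 : mv j k n i ≠ 0 := by rw [mv_other hij hik]; exact hni
      rw [mv_pos hjk h1, mv_pos hik h2, mv_pos hik hni, mv_pos hjk hnj]
      funext l
      by_cases hlj : l = j
      · subst hlj
        simp [Ne.symm hij, hjk]
      · by_cases hli : l = i
        · subst hli
          simp [hij, hik]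
        · by_cases hlk : l = k
          · subst hlk
            simp [Ne.symm hik, Ne.symm hjk]
          · simp [hlj, hli, hlk]

theorem mv_T5 {i j k : Fin 3} (hij : i ≠ j) {n : Fin 3 → ℕ} (hn : n k ≠ 0) :
    mv k i (mv j k n) = mv j k (mv k i n) := by
  by_cases hik : i = k
  · subst hik; rw [mv_self, mv_self]
  by_cases hjk : j = k
  · subst hjk; rw [mv_self, mv_self]
  by_cases hnj : n j = 0
  · rw [mv_zero (i := j) (j := k) (n := n) hnj, mv_zero (i := j) (j := k)]
    rw [mv_other hjk (Ne.symm hij)]; exact hnj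
  · have h1 : mv j k n k ≠ 0 := mv_ne_zero hnj
    have h2 : mv k i n j ≠ 0 := by rw [mv_other hjk (Ne.symm hij)]; exact hnj
    rw [mv_pos (Ne.symm hik) h1, mv_pos hjk h2, mv_pos (Ne.symm hik) hn, mv_pos hjk hnj]
    funext l
    by_cases hlj : l = j
    · subst hlj
      simp [Ne.symm hij, hjk]
    · by_cases hli : l = i
      · subst hli
        simp [hij, hik]
      · by_cases hlk : l = k
        · subst hlk
          simp [Ne.symm hjk]
          omega
        · simp [hlj, hli, hlk]

theorem mv_T6 {i j k : Fin 3} {n : Fin 3 → ℕ} (hn : n i ≠ 0) :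
    mv i k n = mv j k (mv i j n) := by
  by_cases hij : i = j
  · subst hij; rw [mv_self]
  by_cases hjk : j = k
  · subst hjk; rw [mv_self]
  by_cases hik : i = k
  · subst hik
    rw [mv_self, mv_mv hn]
  have h1 : mv i j n j ≠ 0 := mv_ne_zero hn
  rw [mv_pos hjk h1, mv_pos hij hn, mv_pos hik hn]
  funext l
  by_cases hlj : l = j
  · subst hlj
    simp [Ne.symm hij, hjk]
  · by_cases hli : l = i
    · subst hli
      simp [hij, hik]
    · by_cases hlk : l = k
      · subst hlk
        simp [Ne.symm hjk, Ne.symm hik]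
      · simp [hlj, hli, hlk]

/-- The concrete algebra of functions on the states. -/
def conc (V : Type) : CAlg ((Fin 3 → ℕ) → V) where
  w i a b := fun n => if n i = 0 then a n else b n
  T i j a := fun n => a (mv i j n)
  w_idem i x := by funext n; simp
  w_left i x y z := by funext n; by_cases h : n i = 0 <;> simp [h]
  w_right i x y z := by funext n; by_cases h : n i = 0 <;> simp [h]
  w_comm i j x y z u := by
    funext n; by_cases h : n i = 0 <;> by_cases h' : n j = 0 <;> simp [h, h']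
  T_self i x := by funext n; rw [mv_self]
  T0 i j x y := by
    funext n
    by_cases h : n i = 0
    · simp [h, mv_zero]
    · simp [h]
  T1 i j x y := by
    funext n
    by_cases h : n i = 0
    · simp [h]
    · simp [h, mv_mv h]
  T2 i j k hi hj x y := by
    funext n
    simp only [mv_other hi hj]
  T3 i j x y z := by
    funext n
    by_cases h : n i = 0
    · simp [h]
    · simp [h, mv_ne_zero h]
  T4 i j k x z := by
    funext n
    simp only [mv_T4 i j k n]
  T5 i j k hij x z := by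
    funext n
    by_cases h : n k = 0
    · simp [h]
    · simp only [mv_T5 hij h]
  T6 i j k x z := by
    funext n
    by_cases h : n i = 0
    · simp [h]
    · simp only [← mv_T6 (j := j) (k := k) h]

/-- The free algebra as a three-counter algebra. -/
noncomputable def fr (X : Type) : CAlg (FreeAlg sg E3 X) := calg models_free

theorem fr_w (i : Fin 3) (x y : FreeAlg sg E3 X) : (fr X).w i x y = opW freeOp i x y := rfl

theorem fr_T (i j : Fin 3) (x : FreeAlg sg E3 X) : (fr X).T i j x = opT freeOp i j x := rfl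

theorem eta2 (f : Fin 2 → A) : (![f 0, f 1] : Fin 2 → A) = f := by
  funext k
  fin_cases k <;> rfl

theorem eta1 (f : Fin 1 → A) : (![f 0] : Fin 1 → A) = f := by
  funext k
  fin_cases k; rfl

theorem evF_opw (v : Z → FreeAlg sg E3 X) (i : Fin 3) (a : Fin 2 → Tm sg Z) :
    evF v (Tm.op (S := sg) (Op3.w i) a) = (fr X).w i (evF v (a 0)) (evF v (a 1)) := by
  rw [fr_w]
  show freeOp _ _ = freeOp _ _
  congr 1
  exact (eta2 (fun k : Fin 2 => evF v (a k))).symm

theorem evF_opT (v : Z → FreeAlg sg E3 X) (i j : Fin 3) (a : Fin 1 → Tm sg Z) :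
    evF v (Tm.op (S := sg) (Op3.T i j) a) = (fr X).T i j (evF v (a 0)) := by
  rw [fr_T]
  show freeOp _ _ = freeOp _ _
  congr 1
  exact (eta1 (fun k : Fin 1 => evF v (a k))).symm

theorem sub_w (B : SubAlg sg E3 X) (i : Fin 3) (x y : FreeAlg sg E3 X) (hx : x ∈ B.1)
    (hy : y ∈ B.1) : (fr X).w i x y ∈ B.1 := by
  rw [fr_w]
  apply B.2
  intro k
  have : ∀ k : Fin 2, (![x, y] : Fin 2 → _) k ∈ B.1 := by
    intro k
    fin_cases k
    · exact hx
    · exact hy
  exact this k

theorem sub_T (B : SubAlg sg E3 X) (i j : Fin 3) (x : FreeAlg sg E3 X) (hx : x ∈ B.1) :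
    (fr X).T i j x ∈ B.1 := by
  rw [fr_T]
  apply B.2
  intro k
  have : ∀ k : Fin 1, (![x] : Fin 1 → _) k ∈ B.1 := by
    intro k
    fin_cases k
    exact hx
  exact this k

theorem sub_good (B : SubAlg sg E3 X) {δ : FreeAlg sg E3 X → FreeAlg sg E3 X → FreeAlg sg E3 X}
    {β : (Fin 3 → ℕ) → Prop} (h : (fr X).Good δ β) {x y : FreeAlg sg E3 X} (hx : x ∈ B.1)
    (hy : y ∈ B.1) : δ x y ∈ B.1 :=
  h.mem (sub_w B) (sub_T B) hx hy

theorem Dd_one' (c : CAlg A) (i : Fin 3) (x y : A) : c.w i x y = c.Dd 1 i x y :=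
  (c.Dd_one i x y).symm

open Classical in
theorem mix_good (X : Type) (h : Tm sg Z) (P : Z → Prop) :
    ∃ δ β, (fr X).Good δ β ∧ ∀ f g : Z → FreeAlg sg E3 X,
      δ (evF f h) (evF g h) = evF (fun z => if P z then f z else g z) h := by
  induction h with
  | var z =>
    by_cases hz : P z
    · exact ⟨_, _, Good.fst, fun f g => by simp [evF_var, hz]⟩
    · exact ⟨_, _, Good.snd, fun f g => by simp [evF_var, hz]⟩
  | op o a ih =>
    cases o with
    | w i =>
      obtain ⟨δ1, β1, g1, e1⟩ := ih (0 : Fin 2)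
      obtain ⟨δ2, β2, g2, e2⟩ := ih (1 : Fin 2)
      refine ⟨_, _, Good.comp 1 i _ _ _ _ g1 g2, fun f g => ?_⟩
      rw [evF_opw, evF_opw, evF_opw]
      simp only [Dd_one']
      rw [g1.comm_Dd, g2.comm_Dd, (fr X).Dd_left (le_refl 1), (fr X).Dd_right (le_refl 1)]
      rw [e1, e2]
    | T i j =>
      obtain ⟨δ1, β1, g1, e1⟩ := ih (0 : Fin 1)
      obtain ⟨δ', β', g', e', _⟩ := g1.pull i j
      refine ⟨δ', β', g', fun f g => ?_⟩
      rw [evF_opT, evF_opT, evF_opT, ← e', e1]

/-- The mixing property. -/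
theorem mixing : Mixing sg E3 := by
  classical
  intro X B Z h P f g hf hg
  obtain ⟨δ, β, gd, e⟩ := mix_good X h P
  have h1 := sub_good B gd hf hg
  rw [e] at h1
  convert h1 using 2

end Pool.Agent.Helper62.CntVar
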