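import Mathlib
import Pool.Agent.Helper62.SubDefs

namespace Pool.Agent.Helper62.SubSyn

open Cardinal SubDefs

/-! Syntax of first-order formulas on lattices -/

/-- Lattice terms. -/
inductive LTm : Type
  | var (i : ℕ) : LTm
  | sup (a b : LTm) : LTm
  | inf (a b : LTm) : LTm

/-- First-order formulas in the language of lattices. -/
inductive LFml : Type
  | eq (a b : LTm) : LFml
  | bot : LFml
  | imp (a b : LFml) : LFml
  | all (i : ℕ) (a : LFml) : LFml

/-- Value of a lattice term. -/
def LTm.val {L : Type} [Lattice L] (v : ℕ → L) : LTm → L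
  | LTm.var i => v i
  | LTm.sup a b => a.val v ⊔ b.val v
  | LTm.inf a b => a.val v ⊓ b.val v

/-- Satisfaction. -/
def LSat {L : Type} [Lattice L] : (ℕ → L) → LFml → Prop
  | v, LFml.eq a b => a.val v = b.val v
  | _, LFml.bot => False
  | v, LFml.imp a b => LSat v a → LSat v b
  | v, LFml.all i a => ∀ x : L, LSat (Function.update v i x) a

theorem term_of_LTm (t : LTm) : LTerm (fun _ _ v => t.val v) := by
  induction t with
  | var i => exact LTerm.var i
  | sup a b iha ihb => exact LTerm.sup _ _ iha ihb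
  | inf a b iha ihb => exact LTerm.inf _ _ iha ihb

theorem formula_of_LFml (φ : LFml) : LFormula (fun _ _ v => LSat v φ) := by
  induction φ with
  | eq a b => exact LFormula.eq _ _ (term_of_LTm a) (term_of_LTm b)
  | bot => exact LFormula.bot
  | imp a b iha ihb => exact LFormula.imp _ _ iha ihb
  | all i a ih => exact LFormula.all i _ ih

def neg (a : LFml) : LFml := LFml.imp a LFml.bot
def or (a b : LFml) : LFml := LFml.imp (neg a) b
def and (a b : LFml) : LFml := neg (LFml.imp a (neg b))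
def ex (i : ℕ) (a : LFml) : LFml := neg (LFml.all i (neg a))

theorem sat_neg {L : Type} [Lattice L] (v : ℕ → L) (a : LFml) : LSat v (neg a) ↔ ¬ LSat v a :=
  Iff.rfl

theorem sat_imp {L : Type} [Lattice L] (v : ℕ → L) (a b : LFml) :
    LSat v (LFml.imp a b) ↔ (LSat v a → LSat v b) := Iff.rfl

theorem sat_all {L : Type} [Lattice L] (v : ℕ → L) (i : ℕ) (a : LFml) :
    LSat v (LFml.all i a) ↔ ∀ x, LSat (Function.update v i x) a := Iff.rfl

theorem sat_or {L : Type} [Lattice L] (v : ℕ → L) (a b : LFml) :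
    LSat v (or a b) ↔ (LSat v a ∨ LSat v b) := by
  show (¬ LSat v a → LSat v b) ↔ _
  tauto

theorem sat_and {L : Type} [Lattice L] (v : ℕ → L) (a b : LFml) :
    LSat v (and a b) ↔ (LSat v a ∧ LSat v b) := by
  show ¬ (LSat v a → ¬ LSat v b) ↔ _
  tauto

theorem sat_ex {L : Type} [Lattice L] (v : ℕ → L) (i : ℕ) (a : LFml) :
    LSat v (ex i a) ↔ ∃ x, LSat (Function.update v i x) a := by
  show ¬ (∀ x, ¬ LSat (Function.update v i x) a) ↔ _
  push Not
  rfl

/-! The sentence -/

/-- `b` is not the bottom. -/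
def NB {L : Type} [Lattice L] (b : L) : Prop := ∃ y, ¬ b ≤ y

/-- `p` is a coatom. -/
def Coat {L : Type} [Lattice L] (p : L) : Prop :=
  (∃ y, ¬ y ≤ p) ∧ ∀ y, p ≤ y → ¬ y ≤ p → ∀ z, z ≤ y

/-- every non-bottom element disjoint from `p` is below `p'` -/
def SimS {L : Type} [Lattice L] (p p' : L) : Prop :=
  ∀ b, NB b → (∀ z, b ⊓ p ≤ z) → b ≤ p'

/-- `p` is a coatom above `b` and not above `b'` -/
def In {L : Type} [Lattice L] (b b' p : L) : Prop := Coat p ∧ b ≤ p ∧ ¬ b' ≤ p

/-- the sentence -/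
def Phi (L : Type) [Lattice L] : Prop :=
  ∃ b0 b1 b2 b3 : L, NB b0 ∧ NB b2 ∧
    (∀ p p', In b0 b1 p → In b0 b1 p' → SimS p p' → p ≤ p') ∧
    (∀ p p', In b2 b3 p → In b2 b3 p' → SimS p p' → p ≤ p') ∧
    ∀ c, NB c → ∃ p, ¬ c ≤ p ∧ (In b0 b1 p ∨ In b2 b3 p)

def leT (s t : LTm) : LFml := LFml.eq (LTm.inf s t) s
def leF (i j : ℕ) : LFml := leT (LTm.var i) (LTm.var j)
def nbF (i : ℕ) : LFml := ex 8 (neg (leF i 8))
def coatF (i : ℕ) : LFml := and (ex 8 (neg (leF 8 i)))
  (LFml.all 8 (LFml.imp (leF i 8) (LFml.imp (neg (leF 8 i)) (LFml.all 9 (leF 9 8)))))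
def simF (i j : ℕ) : LFml := LFml.all 7 (LFml.imp (nbF 7)
  (LFml.imp (LFml.all 8 (leT (LTm.inf (LTm.var 7) (LTm.var i)) (LTm.var 8))) (leF 7 j)))
def inF (a b i : ℕ) : LFml := and (coatF i) (and (leF a i) (neg (leF b i)))
def uniqF (a b : ℕ) : LFml := LFml.all 4 (LFml.all 5 (LFml.imp (inF a b 4)
  (LFml.imp (inF a b 5) (LFml.imp (simF 4 5) (leF 4 5)))))
def hitF : LFml := LFml.all 6 (LFml.imp (nbF 6)
  (ex 4 (and (neg (leF 6 4)) (or (inF 0 1 4) (inF 2 3 4)))))
def PhiF : LFml := ex 0 (ex 1 (ex 2 (ex 3 (and (nbF 0) (and (nbF 2) (and (uniqF 0 1)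
  (and (uniqF 2 3) hitF)))))))

theorem sat_leT {L : Type} [Lattice L] (v : ℕ → L) (s t : LTm) :
    LSat v (leT s t) ↔ s.val v ≤ t.val v := inf_eq_left

theorem sat_leF {L : Type} [Lattice L] (v : ℕ → L) (i j : ℕ) :
    LSat v (leF i j) ↔ v i ≤ v j := sat_leT _ _ _

theorem sat_nbF {L : Type} [Lattice L] (v : ℕ → L) (i : ℕ) (hi : i < 8) :
    LSat v (nbF i) ↔ NB (v i) := by
  simp only [nbF, sat_ex, sat_neg, sat_leF, Function.update_self,
    Function.update_of_ne (show i ≠ 8 by omega), NB]

theorem sat_coatF {L : Type} [Lattice L] (v : ℕ → L) (i : ℕ) (hi : i < 8) :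
    LSat v (coatF i) ↔ Coat (v i) := by
  simp only [coatF, sat_ex, sat_neg, sat_leF, sat_and, sat_all, sat_imp, Function.update_self,
    Function.update_of_ne (show i ≠ 8 by omega), Coat,
    Function.update_of_ne (show (8 : ℕ) ≠ 9 by omega)]

theorem sat_simF {L : Type} [Lattice L] (v : ℕ → L) (i j : ℕ) (hi : i < 7) (hj : j < 7) :
    LSat v (simF i j) ↔ SimS (v i) (v j) := by
  simp only [simF, sat_neg, sat_leF, sat_and, sat_all, sat_imp, Function.update_self, sat_leT,
    Function.update_of_ne (show i ≠ 8 by omega), SimS, LTm.val,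
    Function.update_of_ne (show (7 : ℕ) ≠ 8 by omega),
    Function.update_of_ne (show i ≠ 7 by omega), Function.update_of_ne (show j ≠ 7 by omega),
    sat_nbF _ 7 (by omega)]

theorem sat_inF {L : Type} [Lattice L] (v : ℕ → L) (a b i : ℕ) (hi : i < 8) :
    LSat v (inF a b i) ↔ In (v a) (v b) (v i) := by
  simp only [inF, sat_neg, sat_leF, sat_and, sat_coatF _ i hi, In]

theorem sat_uniqF {L : Type} [Lattice L] (v : ℕ → L) (a b : ℕ) (ha : a < 4) (hb : b < 4) :
    LSat v (uniqF a b) ↔
      ∀ p p', In (v a) (v b) p → In (v a) (v b) p' → SimS p p' → p ≤ p' := by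
  simp only [uniqF, sat_all, sat_imp, sat_leF, sat_simF _ 4 5 (by omega) (by omega),
    sat_inF _ a b 4 (by omega), sat_inF _ a b 5 (by omega), Function.update_self,
    Function.update_of_ne (show (4 : ℕ) ≠ 5 by omega), Function.update_of_ne (show a ≠ 4 by omega),
    Function.update_of_ne (show a ≠ 5 by omega), Function.update_of_ne (show b ≠ 4 by omega),
    Function.update_of_ne (show b ≠ 5 by omega)]

theorem sat_hitF {L : Type} [Lattice L] (v : ℕ → L) :
    LSat v hitF ↔
      ∀ c, NB c → ∃ p, ¬ c ≤ p ∧ (In (v 0) (v 1) p ∨ In (v 2) (v 3) p) := by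
  simp only [hitF, sat_all, sat_imp, sat_leF, sat_ex, sat_and, sat_or, sat_neg,
    sat_inF _ 0 1 4 (by omega), sat_inF _ 2 3 4 (by omega), sat_nbF _ 6 (by omega),
    Function.update_self, Function.update_of_ne (show (6 : ℕ) ≠ 4 by omega),
    Function.update_of_ne (show (0 : ℕ) ≠ 4 by omega),
    Function.update_of_ne (show (0 : ℕ) ≠ 6 by omega),
    Function.update_of_ne (show (1 : ℕ) ≠ 4 by omega),
    Function.update_of_ne (show (1 : ℕ) ≠ 6 by omega),
    Function.update_of_ne (show (2 : ℕ) ≠ 4 by omega),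
    Function.update_of_ne (show (2 : ℕ) ≠ 6 by omega),
    Function.update_of_ne (show (3 : ℕ) ≠ 4 by omega),
    Function.update_of_ne (show (3 : ℕ) ≠ 6 by omega)]

theorem sat_PhiF {L : Type} [Lattice L] (v : ℕ → L) : LSat v PhiF ↔ Phi L := by
  simp only [PhiF, sat_ex, sat_and, sat_nbF _ 0 (by omega), sat_nbF _ 2 (by omega),
    sat_uniqF _ 0 1 (by omega) (by omega), sat_uniqF _ 2 3 (by omega) (by omega), sat_hitF,
    Function.update_self,
    Function.update_of_ne (show (0 : ℕ) ≠ 1 by omega),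
    Function.update_of_ne (show (0 : ℕ) ≠ 2 by omega),
    Function.update_of_ne (show (0 : ℕ) ≠ 3 by omega),
    Function.update_of_ne (show (1 : ℕ) ≠ 2 by omega),
    Function.update_of_ne (show (1 : ℕ) ≠ 3 by omega),
    Function.update_of_ne (show (2 : ℕ) ≠ 3 by omega), Phi]

theorem Phi_of_LEquiv {L L' : Type} [Lattice L] [Lattice L'] [Nonempty L] (h : LEquiv L L')
    (hP : Phi L) : Phi L' ∨ IsEmpty L' := by
  by_cases hL : IsEmpty L'
  · exact Or.inr hL
  · left
    rw [not_isEmpty_iff] at hL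
    obtain ⟨a⟩ := hL
    exact (sat_PhiF (fun _ => a)).1
      ((h _ (formula_of_LFml PhiF)).1 (fun v => (sat_PhiF v).2 hP) (fun _ => a))

/-! Second-order formulas -/

/-- Second-order formulas; the relation variables are indexed by an arity and a number. -/
inductive SFml : Type
  | eq (i j : ℕ) : SFml
  | rel (n k : ℕ) (a : Fin n → ℕ) : SFml
  | bot : SFml
  | imp (a b : SFml) : SFml
  | all (i : ℕ) (a : SFml) : SFml
  | allRel (n k : ℕ) (a : SFml) : SFml

/-- Satisfaction of second-order formulas in the pure set `X`. -/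
def SSat (X : Type) : ((p : ℕ × ℕ) → (Fin p.1 → X) → Prop) → (ℕ → X) → SFml → Prop
  | _, v, SFml.eq i j => v i = v j
  | r, v, SFml.rel n k a => r (n, k) (fun i => v (a i))
  | _, _, SFml.bot => False
  | r, v, SFml.imp a b => SSat X r v a → SSat X r v b
  | r, v, SFml.all i a => ∀ x : X, SSat X r (Function.update v i x) a
  | r, v, SFml.allRel n k a => ∀ R : (Fin n → X) → Prop, SSat X (Function.update r (n, k) R) v a

theorem formula_of_SFml (φ : SFml) : SFormula (fun X r v => SSat X r v φ) := by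
  induction φ with
  | eq i j => exact SFormula.eq i j
  | rel n k a => exact SFormula.rel n k a
  | bot => exact SFormula.bot
  | imp a b iha ihb => exact SFormula.imp _ _ iha ihb
  | all i a ih => exact SFormula.all i _ ih
  | allRel n k a ih => exact SFormula.allRel n k _ ih

/-! Formulas with permutation variables -/

/-- Terms: individual variables to which permutation variables are applied. -/
inductive PTm : Type
  | var (i : ℕ) : PTm
  | app (k : ℕ) (t : PTm) : PTm

/-- Formulas with individual and permutation variables. -/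
inductive PFml : Type
  | eq (a b : PTm) : PFml
  | bot : PFml
  | imp (a b : PFml) : PFml
  | all (i : ℕ) (a : PFml) : PFml
  | allPerm (k : ℕ) (a : PFml) : PFml

/-- Value of a term. -/
def PTm.val {X : Type} (g : ℕ → Equiv.Perm X) (v : ℕ → X) : PTm → X
  | PTm.var i => v i
  | PTm.app k t => g k (t.val g v)

/-- Satisfaction in the pure set `X`. -/
def PSat (X : Type) : (ℕ → Equiv.Perm X) → (ℕ → X) → PFml → Prop
  | g, v, PFml.eq a b => a.val g v = b.val g v
  | _, _, PFml.bot => False
  | g, v, PFml.imp a b => PSat X g v a → PSat X g v b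
  | g, v, PFml.all i a => ∀ x : X, PSat X g (Function.update v i x) a
  | g, v, PFml.allPerm k a => ∀ f : Equiv.Perm X, PSat X (Function.update g k f) v a

theorem term_of_PTm (t : PTm) : PTerm (fun _ g v => t.val g v) := by
  induction t with
  | var i => exact PTerm.var i
  | app k t ih => exact PTerm.app k _ ih

theorem formula_of_PFml (φ : PFml) : PFormula (fun X g v => PSat X g v φ) := by
  induction φ with
  | eq a b => exact PFormula.eq _ _ (term_of_PTm a) (term_of_PTm b)
  | bot => exact PFormula.bot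
  | imp a b iha ihb => exact PFormula.imp _ _ iha ihb
  | all i a ih => exact PFormula.all i _ ih
  | allPerm k a ih => exact PFormula.allPerm k _ ih

end Pool.Agent.Helper62.SubSyn
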