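import Mathlib
import Pool.Agent.Helper62.SubSyn
import Pool.Agent.Helper62.CntVar

namespace Pool.Agent.Helper62.CntSent

open Cardinal SubDefs SubThy CntAlg CAlg CntVar SubSyn

variable {X A : Type}

/-! The concrete values -/

/-- The concrete values of the elements of the free algebra. -/
noncomputable def cf : FreeAlg sg E3 X → (Fin 3 → ℕ) → X × (Fin 3 → ℕ) :=
  lift (models_opOf (conc (X × (Fin 3 → ℕ)))) (fun x n => (x, n))

theorem cf_gen (x : X) (n : Fin 3 → ℕ) : cf (gen x) n = (x, n) := rfl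

theorem cf_w (i : Fin 3) (x y : FreeAlg sg E3 X) (n : Fin 3 → ℕ) :
    cf ((fr X).w i x y) n = if n i = 0 then cf x n else cf y n := by
  rw [fr_w]
  unfold cf opW
  rw [lift_op]
  rfl

theorem cf_T (i j : Fin 3) (x : FreeAlg sg E3 X) (n : Fin 3 → ℕ) :
    cf ((fr X).T i j x) n = cf x (mv i j n) := by
  rw [fr_T]
  unfold cf opT
  rw [lift_op]
  rfl

theorem cf_good {δ : FreeAlg sg E3 X → FreeAlg sg E3 X → FreeAlg sg E3 X}
    {β : (Fin 3 → ℕ) → Prop} (h : (fr X).Good δ β) (x y : FreeAlg sg E3 X) (n : Fin 3 → ℕ) :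
    (β n → cf (δ x y) n = cf x n) ∧ (¬ β n → cf (δ x y) n = cf y n) :=
  h.sem cf_w cf_T x y n

/-! Words -/

/-- The action of words on elements. -/
def act (c : CAlg A) : List (Fin 3 × Fin 3) → A → A
  | [], a => a
  | p :: l, a => act c l (c.T p.1 p.2 a)

/-- The action of words on states. -/
def st : List (Fin 3 × Fin 3) → (Fin 3 → ℕ) → (Fin 3 → ℕ)
  | [], m => m
  | p :: l, m => mv p.1 p.2 (st l m)

theorem act_near {c : CAlg A} (l : List (Fin 3 × Fin 3)) {m : Fin 3 → ℕ} {a b : A}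
    (h : c.Near (st l m) a b) : c.Near m (act c l a) (act c l b) := by
  induction l generalizing a b with
  | nil => exact h
  | cons p l ih => exact ih (Near.T h)

theorem cf_act (l : List (Fin 3 × Fin 3)) (a : FreeAlg sg E3 X) (n : Fin 3 → ℕ) :
    cf (act (fr X) l a) n = cf a (st l n) := by
  induction l generalizing a with
  | nil => rfl
  | cons p l ih =>
    show cf (act (fr X) l ((fr X).T p.1 p.2 a)) n = _
    rw [ih, cf_T]
    rfl

theorem act_mem (B : SubAlg sg E3 X) (l : List (Fin 3 × Fin 3)) {a : FreeAlg sg E3 X}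
    (ha : a ∈ B.1) : act (fr X) l a ∈ B.1 := by
  induction l generalizing a with
  | nil => exact ha
  | cons p l ih => exact ih (sub_T B _ _ _ ha)

theorem near_gen (t : Tm sg X) : ∀ (n : Fin 3 → ℕ), ∃ l,
    st l (cf (mk t) n).2 = n ∧ (fr X).Near (cf (mk t) n).2 (act (fr X) l (mk t))
      (gen (cf (mk t) n).1) := by
  induction t with
  | var x =>
    intro n
    exact ⟨[], rfl, Near.refl _ _⟩
  | op f a ih =>
    intro n
    cases f with
    | w i =>
      have h1 : (mk (Tm.op (S := sg) (Op3.w i) a) : FreeAlg sg E3 X) =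
          (fr X).w i (mk (a (0 : Fin 2))) (mk (a (1 : Fin 2))) := by
        rw [← evF_gen, evF_opw, evF_gen, evF_gen]
      rw [h1, cf_w]
      by_cases hn : n i = 0
      · rw [if_pos hn]
        obtain ⟨l, hl, hnear⟩ := ih (0 : Fin 2) n
        refine ⟨l, hl, Near.trans (act_near l ?_) hnear⟩
        rw [hl]
        exact near_w_zero hn _ _
      · rw [if_neg hn]
        obtain ⟨l, hl, hnear⟩ := ih (1 : Fin 2) n
        refine ⟨l, hl, Near.trans (act_near l ?_) hnear⟩
        rw [hl]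
        exact near_w_pos hn _ _
    | T i j =>
      have h1 : (mk (Tm.op (S := sg) (Op3.T i j) a) : FreeAlg sg E3 X) =
          (fr X).T i j (mk (a (0 : Fin 1))) := by
        rw [← evF_gen, evF_opT, evF_gen]
      rw [h1, cf_T]
      obtain ⟨l, hl, hnear⟩ := ih (0 : Fin 1) (mv i j n)
      by_cases hn : n i = 0
      · rw [mv_zero hn] at hl hnear ⊢
        refine ⟨l, hl, Near.trans (act_near l ?_) hnear⟩
        rw [hl]
        exact near_T_zero hn _
      · refine ⟨(j, i) :: l, ?_, Near.trans (act_near l ?_) hnear⟩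
        · show mv j i (st l _) = n
          rw [hl, mv_mv hn]
        · rw [hl]
          exact near_T_pos (mv_ne_zero hn) _

theorem near_of_cf {a : FreeAlg sg E3 X} {n m : Fin 3 → ℕ} {x : X} (h : cf a n = (x, m)) :
    ∃ l, (fr X).Near m (act (fr X) l a) (gen x) := by
  obtain ⟨t, rfl⟩ := mk_surj a
  obtain ⟨l, _, h2⟩ := near_gen t n
  rw [h] at h2
  exact ⟨l, h2⟩

/-! The coatoms -/

/-- The subalgebra of elements missing a value. -/
noncomputable def cp (x : X) (m : Fin 3 → ℕ) : SubAlg sg E3 X :=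
  ⟨{a | ∀ n, cf a n ≠ (x, m)}, by
    intro f a ha n
    cases f with
    | w i =>
      have h1 : (freeOp (S := sg) (E := E3) (Op3.w i) a : FreeAlg sg E3 X) =
          (fr X).w i (a (0 : Fin 2)) (a (1 : Fin 2)) := by
        rw [fr_w]
        show freeOp _ _ = freeOp _ _
        congr 1
        exact (eta2 a).symm
      rw [h1, cf_w]
      split_ifs
      · exact ha (0 : Fin 2) n
      · exact ha (1 : Fin 2) n
    | T i j =>
      have h1 : (freeOp (S := sg) (E := E3) (Op3.T i j) a : FreeAlg sg E3 X) =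
          (fr X).T i j (a (0 : Fin 1)) := by
        rw [fr_T]
        show freeOp _ _ = freeOp _ _
        congr 1
        exact (eta1 a).symm
      rw [h1, cf_T]
      exact ha (0 : Fin 1) _⟩

theorem mem_cp {x : X} {m : Fin 3 → ℕ} {a : FreeAlg sg E3 X} :
    a ∈ (cp x m).1 ↔ ∀ n, cf a n ≠ (x, m) := Iff.rfl

theorem top_of_gen {B : SubAlg sg E3 X} (h : ∀ x, gen x ∈ B.1) (C : SubAlg sg E3 X) : C ≤ B := by
  intro a _
  obtain ⟨t, rfl⟩ := mk_surj a
  rw [← evF_gen]
  exact ev_mem B (fun z _ => h z)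

theorem coat_cp {x y : X} (hxy : y ≠ x) (m : Fin 3 → ℕ) : Coat (cp x m) := by
  refine ⟨⟨cl {gen x}, fun h => h (subset_cl _ rfl) m (cf_gen x m)⟩, ?_⟩
  intro B hB hB' C
  apply top_of_gen
  obtain ⟨a, haB, hac⟩ : ∃ a, a ∈ B.1 ∧ a ∉ (cp x m).1 := by
    by_contra hcon
    push Not at hcon
    exact hB' hcon
  rw [mem_cp] at hac
  push Not at hac
  obtain ⟨n, hn⟩ := hac
  have hgen : ∀ z, z ≠ x → gen z ∈ B.1 := by
    intro z hz
    apply hB
    intro n' h
    rw [cf_gen] at h
    exact hz (congrArg Prod.fst h)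
  obtain ⟨l, hl⟩ := near_of_cf hn
  obtain ⟨θ, γ, gθ, hγ, hθ⟩ := exists_point (c := fr X) m
  have h1 : θ (gen y) (gen x) ∈ (cp x m).1 := by
    intro n' h
    by_cases hn' : n' = m
    · rw [((cf_good gθ (gen y) (gen x) n').1 ((hγ n').2 hn')), cf_gen] at h
      exact hxy (congrArg Prod.fst h)
    · rw [((cf_good gθ (gen y) (gen x) n').2 (fun h' => hn' ((hγ n').1 h'))), cf_gen] at h
      exact hn' (congrArg Prod.snd h)
  have h2 : gen x = θ (act (fr X) l a) (θ (gen y) (gen x)) := by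
    rw [hl.absorb hθ, gθ.right, gθ.idem]
  intro z
  by_cases hz : z = x
  · subst hz
    rw [h2]
    exact sub_good B gθ (act_mem B l haB) (hB h1)
  · exact hgen z hz

theorem coat_eq {p q : SubAlg sg E3 X} (hp : Coat p) (hq : Coat q) (h : p ≤ q) : p = q := by
  apply le_antisymm h
  by_contra hcon
  have h1 := hp.2 q h hcon
  obtain ⟨y, hy⟩ := hq.1
  exact hy (h1 y)

/-! Sorts -/

/-- The sort of a state. -/
def nrm (n : Fin 3 → ℕ) : ℕ := n 0 + n 1 + n 2

theorem nrm_mv (i j : Fin 3) (n : Fin 3 → ℕ) : nrm (mv i j n) = nrm n := by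
  by_cases hij : i = j
  · subst hij; rw [mv_self]
  by_cases hn : n i = 0
  · rw [mv_zero hn]
  · rw [mv_pos hij hn]
    unfold nrm
    fin_cases i <;> fin_cases j <;> simp at hij hn ⊢ <;> omega

theorem st_append (l l' : List (Fin 3 × Fin 3)) (n : Fin 3 → ℕ) :
    st (l ++ l') n = st l (st l' n) := by
  induction l with
  | nil => rfl
  | cons p l ih =>
    show mv p.1 p.2 (st (l ++ l') n) = mv p.1 p.2 (st l (st l' n))
    rw [ih]

theorem reach_symm {n m : Fin 3 → ℕ} (h : ∃ l, st l n = m) : ∃ l, st l m = n := by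
  obtain ⟨l, hl⟩ := h
  induction l generalizing m with
  | nil =>
    subst hl
    exact ⟨[], rfl⟩
  | cons p l ih =>
    obtain ⟨l', hl'⟩ := ih rfl
    have h1 : ∃ l'', st l'' m = st l n := by
      by_cases hn : st l n p.1 = 0
      · refine ⟨[], ?_⟩
        show m = st l n
        rw [← hl]
        show mv p.1 p.2 (st l n) = _
        rw [mv_zero hn]
      · refine ⟨[(p.2, p.1)], ?_⟩
        show mv p.2 p.1 m = st l n
        rw [← hl]
        exact mv_mv hn
    obtain ⟨l'', hl''⟩ := h1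
    exact ⟨l' ++ l'', by rw [st_append, hl'', hl']⟩

theorem reach_can (N : ℕ) : ∀ n : Fin 3 → ℕ, n 1 + n 2 = N → ∃ l, st l n = ![nrm n, 0, 0] := by
  induction N with
  | zero =>
    intro n hn
    refine ⟨[], ?_⟩
    show n = _
    have h1 : n 1 = 0 := by omega
    have h2 : n 2 = 0 := by omega
    funext i
    fin_cases i
    · simp [nrm, h1, h2]
    · simp [h1]
    · simp [h2]
  | succ N ih =>
    intro n hn
    by_cases h1 : n 1 = 0
    · have h2 : n 2 ≠ 0 := by omega
      obtain ⟨l, hl⟩ := ih (mv 2 0 n) (by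
        rw [mv_pos (by decide) h2]
        simp
        omega)
      refine ⟨l ++ [(2, 0)], ?_⟩
      rw [st_append]
      show st l (mv 2 0 n) = _
      rw [hl, nrm_mv]
    · obtain ⟨l, hl⟩ := ih (mv 1 0 n) (by
        rw [mv_pos (by decide) h1]
        simp
        omega)
      refine ⟨l ++ [(1, 0)], ?_⟩
      rw [st_append]
      show st l (mv 1 0 n) = _
      rw [hl, nrm_mv]

theorem reach {n m : Fin 3 → ℕ} (h : nrm n = nrm m) : ∃ l, st l n = m := by
  obtain ⟨l, hl⟩ := reach_can _ n rfl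
  obtain ⟨l', hl'⟩ := reach_symm (reach_can _ m rfl)
  exact ⟨l' ++ l, by rw [st_append, hl, h, hl']⟩

/-- An element which is constant on a sort and a generator on the other sorts. -/
theorem exists_const (x y : X) (m : Fin 3 → ℕ) : ∃ a : FreeAlg sg E3 X,
    ∀ n, (nrm n = nrm m → cf a n = (x, m)) ∧ (nrm n ≠ nrm m → cf a n = (y, n)) := by
  have h1 : ∀ V : Set (Fin 3 → ℕ), V.Finite → (∀ n ∈ V, nrm n = nrm m) →
      ∃ a : FreeAlg sg E3 X, ∀ n, (n ∈ V → cf a n = (x, m)) ∧ (n ∉ V → cf a n = (y, n)) := by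
    intro V hV
    induction V, hV using Set.Finite.induction_on with
    | empty => exact fun _ => ⟨gen y, fun n => ⟨fun h => h.elim, fun _ => cf_gen y n⟩⟩
    | @insert k V hk _ ih =>
      intro h
      obtain ⟨a, ha⟩ := ih (fun n hn => h n (Or.inr hn))
      obtain ⟨l, hl⟩ := reach (h k (Or.inl rfl))
      obtain ⟨θ, γ, gθ, hγ, _⟩ := exists_point (c := fr X) k
      refine ⟨θ (act (fr X) l (gen x)) a, fun n => ?_⟩
      by_cases hn : n = k
      · have h2 : cf (θ (act (fr X) l (gen x)) a) n = (x, m) := by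
          rw [(cf_good gθ _ a n).1 ((hγ n).2 hn), cf_act, hn, hl, cf_gen]
        exact ⟨fun _ => h2, fun h => (h (Or.inl hn)).elim⟩
      · have h2 : cf (θ (act (fr X) l (gen x)) a) n = cf a n :=
          (cf_good gθ _ a n).2 (fun h' => hn ((hγ n).1 h'))
        rw [h2]
        refine ⟨fun h => (ha n).1 (h.resolve_left hn), fun h => (ha n).2 (fun h' => h (Or.inr h'))⟩
  have hfin : {n : Fin 3 → ℕ | nrm n = nrm m}.Finite := by
    apply (Set.finite_Iic (fun _ : Fin 3 => nrm m)).subset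
    intro n hn i
    have hn' : n 0 + n 1 + n 2 = nrm m := hn
    fin_cases i <;> simp <;> omega
  exact h1 _ hfin (fun n hn => hn)

/-- The subalgebra of elements constant on a sort. -/
noncomputable def kk (x : X) (m : Fin 3 → ℕ) : SubAlg sg E3 X :=
  ⟨{a | ∀ n, nrm n = nrm m → cf a n = (x, m)}, by
    intro f a ha n hn
    cases f with
    | w i =>
      have h1 : (freeOp (S := sg) (E := E3) (Op3.w i) a : FreeAlg sg E3 X) =
          (fr X).w i (a (0 : Fin 2)) (a (1 : Fin 2)) := by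
        rw [fr_w]
        show freeOp _ _ = freeOp _ _
        congr 1
        exact (eta2 a).symm
      rw [h1, cf_w]
      split_ifs
      · exact ha (0 : Fin 2) n hn
      · exact ha (1 : Fin 2) n hn
    | T i j =>
      have h1 : (freeOp (S := sg) (E := E3) (Op3.T i j) a : FreeAlg sg E3 X) =
          (fr X).T i j (a (0 : Fin 1)) := by
        rw [fr_T]
        show freeOp _ _ = freeOp _ _
        congr 1
        exact (eta1 a).symm
      rw [h1, cf_T]
      exact ha (0 : Fin 1) _ (by rw [nrm_mv]; exact hn)⟩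

theorem nrm_of_SimS {x y : X} {m k : Fin 3 → ℕ} (h : SimS (cp x m) (cp y k)) :
    nrm m = nrm k := by
  by_contra hne
  obtain ⟨a, ha⟩ := exists_const x y m
  have hak : a ∈ (kk x m).1 := fun n hn => (ha n).1 hn
  have h1 : NB (kk x m) := by
    refine ⟨cp x m, fun h => h hak m ((ha m).1 rfl)⟩
  have h2 : ∀ z, kk x m ⊓ cp x m ≤ z := by
    intro z b hb
    have hb1 : b ∈ (kk x m).1 := (inf_le_left : kk x m ⊓ cp x m ≤ _) hb
    have hb2 : b ∈ (cp x m).1 := (inf_le_right : kk x m ⊓ cp x m ≤ _) hb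
    exact (hb2 m (hb1 m rfl)).elim
  have h3 := h _ h1 h2 hak
  exact h3 k ((ha k).2 (fun h' => hne h'.symm))

/-! The tails of the elements -/

theorem mv_ge (i j : Fin 3) (n : Fin 3 → ℕ) (k : Fin 3) : n k ≤ mv i j n k + 1 := by
  unfold mv
  split_ifs with h
  · omega
  · by_cases hk : k = i
    · subst hk; simp; omega
    · by_cases hk' : k = j
      · subst hk'; simp [hk]; omega
      · simp [hk, hk']

theorem st_ge (l : List (Fin 3 × Fin 3)) (n : Fin 3 → ℕ) (k : Fin 3) :
    n k ≤ st l n k + l.length := by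
  induction l with
  | nil => exact le_refl _
  | cons p l ih =>
    have h1 := mv_ge p.1 p.2 (st l n) k
    show n k ≤ mv p.1 p.2 (st l n) k + (l.length + 1)
    omega

theorem tail (t : Tm sg X) : ∃ (z : X) (l : List (Fin 3 × Fin 3)) (N : ℕ),
    ∀ m : Fin 3 → ℕ, (∀ i, N ≤ m i) → cf (mk t) (st l m) = (z, m) := by
  induction t with
  | var x => exact ⟨x, [], 0, fun m _ => rfl⟩
  | op f a ih =>
    cases f with
    | w i =>
      have h1 : (mk (Tm.op (S := sg) (Op3.w i) a) : FreeAlg sg E3 X) =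
          (fr X).w i (mk (a (0 : Fin 2))) (mk (a (1 : Fin 2))) := by
        rw [← evF_gen, evF_opw, evF_gen, evF_gen]
      obtain ⟨z, l, N, h⟩ := ih (1 : Fin 2)
      refine ⟨z, l, N + l.length + 1, fun m hm => ?_⟩
      rw [h1, cf_w, if_neg]
      · exact h m (fun i => by have := hm i; omega)
      · have h2 := st_ge l m i
        have h3 := hm i
        omega
    | T i j =>
      have h1 : (mk (Tm.op (S := sg) (Op3.T i j) a) : FreeAlg sg E3 X) =
          (fr X).T i j (mk (a (0 : Fin 1))) := by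
        rw [← evF_gen, evF_opT, evF_gen]
      obtain ⟨z, l, N, h⟩ := ih (0 : Fin 1)
      refine ⟨z, (j, i) :: l, N + l.length + 1, fun m hm => ?_⟩
      rw [h1, cf_T]
      show cf _ (mv i j (mv j i (st l m))) = _
      rw [mv_mv]
      · exact h m (fun i => by have := hm i; omega)
      · have h2 := st_ge l m j
        have h3 := hm j
        omega

/-! The sentence -/

/-- The auxiliary elements. -/
theorem exists_elem (x y : X) (m : Fin 3 → ℕ) : ∃ a : FreeAlg sg E3 X,
    (cf a m = (x, m)) ∧ ∀ B : SubAlg sg E3 X, gen y ∈ B.1 → a ∉ B.1 →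
      B ≤ cp x m := by
  obtain ⟨θ, γ, gθ, hγ, hθ⟩ := exists_point (c := fr X) m
  refine ⟨θ (gen x) (gen y), ?_, ?_⟩
  · rw [(cf_good gθ _ _ m).1 ((hγ m).2 rfl), cf_gen]
  · intro B hy ha b hb n hn
    obtain ⟨l, hl⟩ := near_of_cf hn
    apply ha
    rw [← hl.absorb hθ]
    exact sub_good B gθ (act_mem B l hb) hy

theorem in_lemma {x0 : X} {xs : ℕ → X} (hne : ∀ k, xs k ≠ x0) : ∃ b b' : SubAlg sg E3 X,
    NB b ∧ (∀ k, In b b' (cp (xs k) (fun _ => k))) ∧
      ∀ p, In b b' p → ∃ k, p = cp (xs k) (fun _ => k) := by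
  choose e he1 he2 using fun k : ℕ => exists_elem (xs k) x0 (fun _ => k)
  refine ⟨cl {gen x0}, cl (insert (gen x0) (Set.range e)), ?_, ?_, ?_⟩
  · refine ⟨cp x0 0, fun h => h (subset_cl _ rfl) 0 (cf_gen x0 0)⟩
  · intro k
    refine ⟨coat_cp (hne k).symm _, ?_, ?_⟩
    · apply cl_le
      intro a ha
      rw [Set.mem_singleton_iff.1 ha]
      intro n h
      rw [cf_gen] at h
      exact hne k (congrArg Prod.fst h).symm
    · intro h
      exact h (subset_cl _ (Or.inr ⟨k, rfl⟩)) _ (he1 k)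
  · rintro p ⟨hp1, hp2, hp3⟩
    have h0 : gen x0 ∈ p.1 := hp2 (subset_cl _ rfl)
    have h1 : ∃ k, e k ∉ p.1 := by
      by_contra hcon
      push Not at hcon
      apply hp3
      apply cl_le
      rintro a (ha | ⟨k, rfl⟩)
      · rw [ha]; exact h0
      · exact hcon k
    obtain ⟨k, hk⟩ := h1
    exact ⟨k, coat_eq hp1 (coat_cp (hne k).symm _) (he2 k p h0 hk)⟩

theorem uniq_of {b b' : SubAlg sg E3 X} {xs : ℕ → X}
    (h : ∀ p, In b b' p → ∃ k, p = cp (xs k) (fun _ => k)) :
    ∀ p p', In b b' p → In b b' p' → SimS p p' → p ≤ p' := by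
  intro p p' hp hp' hs
  obtain ⟨k, rfl⟩ := h p hp
  obtain ⟨k', rfl⟩ := h p' hp'
  have h1 := nrm_of_SimS hs
  have h2 : k = k' := by
    simp only [nrm] at h1
    omega
  subst h2
  exact le_refl _

/-- The sentence holds for countable rank. -/
theorem Phi_countable (e : ℕ ≃ X) : Phi (SubAlg sg E3 X) := by
  obtain ⟨b0, b1, h1, h2, h3⟩ := in_lemma (x0 := e 0) (xs := fun k => e ((Nat.unpair k).1 + 1))
    (fun k h => by
      have := e.injective h
      omega)
  obtain ⟨b2, b3, h4, h5, h6⟩ := in_lemma (x0 := e 1) (xs := fun _ => e 0)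
    (fun k h => by
      have := e.injective h
      omega)
  refine ⟨b0, b1, b2, b3, h1, h4, uniq_of h3, uniq_of h6, ?_⟩
  intro c hc
  have hne : ∃ a, a ∈ c.1 := by
    obtain ⟨y, hy⟩ := hc
    by_contra hcon
    push Not at hcon
    exact hy (fun a ha => (hcon a ha).elim)
  obtain ⟨a, ha⟩ := hne
  obtain ⟨t, rfl⟩ := mk_surj a
  obtain ⟨z, l, N, hN⟩ := tail t
  obtain ⟨z, rfl⟩ := e.surjective z
  by_cases hz : z = 0
  · subst hz
    refine ⟨_, fun h => ?_, Or.inr (h5 N)⟩
    exact h ha _ (hN (fun _ => N) (fun _ => le_refl _))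
  · obtain ⟨z, rfl⟩ : ∃ z', z = z' + 1 := ⟨z - 1, by omega⟩
    refine ⟨_, fun h => ?_, Or.inl (h2 (Nat.pair z N))⟩
    have h7 := hN (fun _ => Nat.pair z N) (fun _ => Nat.right_le_pair z N)
    refine h ha _ (h7.trans ?_)
    simp

end Pool.Agent.Helper62.CntSent
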