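import Mathlib

namespace Pool.Agent.Helper62.FrameDefs

open Set

universe u v

/-- The operator of the modal algebra of the frame `(W, R)`: `X` is sent to the set of all points
that see a point of `X`. -/
def diamond {W : Type u} (R : W → W → Prop) (X : Set W) : Set W := {w | ∃ v ∈ X, R w v}

/-- `A` is (the universe of) a subalgebra of the modal algebra of `(W, R)`. -/
def IsSubalgebra {W : Type u} (R : W → W → Prop) (A : Set (Set W)) : Prop :=
  ∅ ∈ A ∧ (∀ X ∈ A, Xᶜ ∈ A) ∧ (∀ X ∈ A, ∀ Y ∈ A, X ∪ Y ∈ A) ∧ ∀ X ∈ A, diamond R X ∈ A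

/-- the subalgebra of the modal algebra of `(W, R)` generated by the family `G`. -/
def generated {W : Type u} (R : W → W → Prop) (G : Set (Set W)) : Set (Set W) :=
  ⋂₀ {A | IsSubalgebra R A ∧ G ⊆ A}

/-- the modal algebra of `(W, R)` is locally finite: its finitely generated subalgebras are
finite. -/
def AlgLocallyFinite {W : Type u} (R : W → W → Prop) : Prop :=
  ∀ G : Set (Set W), G.Finite → (generated R G).Finite

/-- the direct product of the frames `(α i, ≤)`. -/
def prodLE {k : ℕ} (α : Fin k → Ordinal.{u}) (x y : ∀ i, Set.Iio (α i)) : Prop :=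
  ∀ i, x i ≤ y i

/-- the direct product of the frames `(α i, <)`. -/
def prodLT {k : ℕ} (α : Fin k → Ordinal.{u}) (x y : ∀ i, Set.Iio (α i)) : Prop :=
  ∀ i, x i < y i

/-- the direct product of the frames `(α i, <)` for `i` in `s` and `(α i, ≤)` for `i` not
in `s`. -/
def prodMixed {k : ℕ} (α : Fin k → Ordinal.{u}) (s : Set (Fin k)) (x y : ∀ i, Set.Iio (α i)) :
    Prop :=
  ∀ i, (i ∈ s → x i < y i) ∧ (i ∉ s → x i ≤ y i)

/-- the restriction of the relation `R` to the subset `S` (a subframe). -/
def subframe {W : Type u} (R : W → W → Prop) (S : Set W) (x y : S) : Prop := R x.1 y.1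

/-- unimodal formulas. -/
inductive Fml : Type
  | var (n : ℕ) : Fml
  | bot : Fml
  | imp (a b : Fml) : Fml
  | dia (a : Fml) : Fml

/-- truth of a formula at a point of the frame `(W, R)` under the valuation `V`. -/
def Sat {W : Type u} (R : W → W → Prop) (V : ℕ → Set W) : Fml → W → Prop
  | Fml.var n, w => w ∈ V n
  | Fml.bot, _ => False
  | Fml.imp a b, w => Sat R V a w → Sat R V b w
  | Fml.dia a, w => ∃ v, R w v ∧ Sat R V a v

/-- the logic of the frame `(W, R)`: the set of formulas valid in it. -/
def Log {W : Type u} (R : W → W → Prop) : Set Fml := {a | ∀ (V : ℕ → Set W) (w : W), Sat R V a w}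

/-- The logic of `(W, R)` has the finite model property: each formula outside it is refuted in a
finite frame that validates it. -/
def LogFMP {W : Type u} (R : W → W → Prop) : Prop :=
  ∀ a : Fml, a ∉ Log R → ∃ (U : Type) (_ : Finite U) (Q : U → U → Prop),
    Log R ⊆ Log Q ∧ a ∉ Log Q

end Pool.Agent.Helper62.FrameDefs
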