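import Mathlib

namespace Pool.Agent.Helper62.FreeDefs

open Cardinal

/-- A signature: operation symbols with their arities. -/
structure Sig where
  Op : Type
  ar : Op → ℕ

/-- Terms with variables in `X`. -/
inductive Tm (S : Sig) (X : Type) : Type
  | var (x : X) : Tm S X
  | op (f : S.Op) (a : Fin (S.ar f) → Tm S X) : Tm S X

/-- Equational consequences, between terms with variables in `X`, of the set of identities `E`.
A substitution is a map `h` commuting with the operations. -/
inductive Der (S : Sig) (E : Set (Tm S ℕ × Tm S ℕ)) (X : Type) : Tm S X → Tm S X → Prop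
  | ax (e : Tm S ℕ × Tm S ℕ) (he : e ∈ E) (h : Tm S ℕ → Tm S X)
      (hh : ∀ f a, h (Tm.op f a) = Tm.op f (fun i => h (a i))) : Der S E X (h e.1) (h e.2)
  | refl (t : Tm S X) : Der S E X t t
  | symm (t u : Tm S X) (h : Der S E X t u) : Der S E X u t
  | trans (t u w : Tm S X) (h : Der S E X t u) (h' : Der S E X u w) : Der S E X t w
  | cong (f : S.Op) (a b : Fin (S.ar f) → Tm S X) (h : ∀ i, Der S E X (a i) (b i)) :
      Der S E X (Tm.op f a) (Tm.op f b)

/-- The corresponding equivalence relation. -/
def derSetoid (S : Sig) (E : Set (Tm S ℕ × Tm S ℕ)) (X : Type) : Setoid (Tm S X) where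
  r := Der S E X
  iseqv := ⟨Der.refl, fun h => Der.symm _ _ h, fun h h' => Der.trans _ _ _ h h'⟩

/-- The free algebra on the set `X` in the variety defined by the identities `E`. -/
def FreeAlg (S : Sig) (E : Set (Tm S ℕ × Tm S ℕ)) (X : Type) : Type := Quotient (derSetoid S E X)

/-- The operations of the free algebra. -/
noncomputable def freeOp {S : Sig} {E : Set (Tm S ℕ × Tm S ℕ)} {X : Type} (f : S.Op)
    (a : Fin (S.ar f) → FreeAlg S E X) : FreeAlg S E X :=
  Quotient.mk (derSetoid S E X) (Tm.op f (fun i => Quotient.out (a i)))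

/-- The congruences of the free algebra. -/
def Cong (S : Sig) (E : Set (Tm S ℕ × Tm S ℕ)) (X : Type) : Type :=
  {r : Setoid (FreeAlg S E X) // ∀ (f : S.Op) (a b : Fin (S.ar f) → FreeAlg S E X),
    (∀ i, r (a i) (b i)) → r (freeOp f a) (freeOp f b)}

variable {S : Sig} {E : Set (Tm S ℕ × Tm S ℕ)} {X : Type}

/-- Congruences are ordered by inclusion. -/
instance : PartialOrder (Cong S E X) :=
  inferInstanceAs (PartialOrder {r : Setoid (FreeAlg S E X) // _})

/-- Infima of congruences are intersections. -/
instance : InfSet (Cong S E X) :=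
  ⟨fun s => ⟨sInf (Subtype.val '' s), fun f a b h => by
    rintro _ ⟨r, hr, rfl⟩
    exact r.2 f a b fun i => h i r.1 ⟨r, hr, rfl⟩⟩⟩

/-- The complete lattice of congruences. -/
instance : CompleteLattice (Cong S E X) :=
  completeLatticeOfInf (Cong S E X) fun s =>
    ⟨fun r hr => (sInf_le (Set.mem_image_of_mem Subtype.val hr) : sInf (Subtype.val '' s) ≤ r.1),
      fun r hr => (le_sInf (by rintro _ ⟨r', hr', rfl⟩; exact hr hr') :
        r.1 ≤ sInf (Subtype.val '' s))⟩

/-- Lattice terms, as functions of the lattice and of the values of the variables. -/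
inductive LTerm : ((L : Type) → [Lattice L] → (ℕ → L) → L) → Prop
  | var (i : ℕ) : LTerm (fun _ _ v => v i)
  | sup (s t : (L : Type) → [Lattice L] → (ℕ → L) → L) (hs : LTerm s) (ht : LTerm t) :
      LTerm (fun L _ v => s L v ⊔ t L v)
  | inf (s t : (L : Type) → [Lattice L] → (ℕ → L) → L) (hs : LTerm s) (ht : LTerm t) :
      LTerm (fun L _ v => s L v ⊓ t L v)

/-- First-order formulas in the language of lattices, as uniform properties of the lattice and of
the values of the variables. -/
inductive LFormula : ((L : Type) → [Lattice L] → (ℕ → L) → Prop) → Prop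
  | eq (s t : (L : Type) → [Lattice L] → (ℕ → L) → L) (hs : LTerm s) (ht : LTerm t) :
      LFormula (fun L _ v => s L v = t L v)
  | bot : LFormula (fun _ _ _ => False)
  | imp (P Q : (L : Type) → [Lattice L] → (ℕ → L) → Prop) (hP : LFormula P) (hQ : LFormula Q) :
      LFormula (fun L _ v => P L v → Q L v)
  | all (i : ℕ) (P : (L : Type) → [Lattice L] → (ℕ → L) → Prop) (hP : LFormula P) :
      LFormula (fun L _ v => ∀ x : L, P L (Function.update v i x))

/-- Elementary equivalence of lattices (truth means truth for all values of the variables). -/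
def LEquiv (L L' : Type) [Lattice L] [Lattice L'] : Prop :=
  ∀ P, LFormula P → ((∀ v : ℕ → L, P L v) ↔ ∀ v : ℕ → L', P L' v)

/-- Formulas of full second-order logic of pure sets, as uniform properties of the set, of the
values of the relation variables (indexed by an arity and a number) and of the individual
variables. -/
inductive SFormula :
    ((X : Type) → ((p : ℕ × ℕ) → (Fin p.1 → X) → Prop) → (ℕ → X) → Prop) → Prop
  | eq (i j : ℕ) : SFormula (fun _ _ v => v i = v j)
  | rel (n k : ℕ) (a : Fin n → ℕ) : SFormula (fun _ r v => r (n, k) (fun i => v (a i)))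
  | bot : SFormula (fun _ _ _ => False)
  | imp (P Q : (X : Type) → ((p : ℕ × ℕ) → (Fin p.1 → X) → Prop) → (ℕ → X) → Prop)
      (hP : SFormula P) (hQ : SFormula Q) : SFormula (fun X r v => P X r v → Q X r v)
  | all (i : ℕ) (P : (X : Type) → ((p : ℕ × ℕ) → (Fin p.1 → X) → Prop) → (ℕ → X) → Prop)
      (hP : SFormula P) : SFormula (fun X r v => ∀ x : X, P X r (Function.update v i x))
  | allRel (n k : ℕ) (P : (X : Type) → ((p : ℕ × ℕ) → (Fin p.1 → X) → Prop) → (ℕ → X) → Prop)
      (hP : SFormula P) :
      SFormula (fun X r v => ∀ R : (Fin n → X) → Prop, P X (Function.update r (n, k) R) v)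

/-- Equivalence of two sets in full second-order logic. -/
def SEquiv (X Y : Type) : Prop := ∀ P, SFormula P → ((∀ r v, P X r v) ↔ ∀ r v, P Y r v)

/-- Terms of the second-order logic of permutations: permutation variables applied to individual
variables. -/
inductive PTerm : ((X : Type) → (ℕ → Equiv.Perm X) → (ℕ → X) → X) → Prop
  | var (i : ℕ) : PTerm (fun _ _ v => v i)
  | app (k : ℕ) (t : (X : Type) → (ℕ → Equiv.Perm X) → (ℕ → X) → X) (ht : PTerm t) :
      PTerm (fun X g v => g k (t X g v))

/-- Formulas of the second-order logic of permutations of pure sets. -/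
inductive PFormula : ((X : Type) → (ℕ → Equiv.Perm X) → (ℕ → X) → Prop) → Prop
  | eq (s t : (X : Type) → (ℕ → Equiv.Perm X) → (ℕ → X) → X) (hs : PTerm s) (ht : PTerm t) :
      PFormula (fun X g v => s X g v = t X g v)
  | bot : PFormula (fun _ _ _ => False)
  | imp (P Q : (X : Type) → (ℕ → Equiv.Perm X) → (ℕ → X) → Prop) (hP : PFormula P)
      (hQ : PFormula Q) : PFormula (fun X g v => P X g v → Q X g v)
  | all (i : ℕ) (P : (X : Type) → (ℕ → Equiv.Perm X) → (ℕ → X) → Prop) (hP : PFormula P) :
      PFormula (fun X g v => ∀ x : X, P X g (Function.update v i x))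
  | allPerm (k : ℕ) (P : (X : Type) → (ℕ → Equiv.Perm X) → (ℕ → X) → Prop) (hP : PFormula P) :
      PFormula (fun X g v => ∀ f : Equiv.Perm X, P X (Function.update g k f) v)

/-- Equivalence of two sets in the second-order logic of permutations. -/
def PEquiv (X Y : Type) : Prop := ∀ P, PFormula P → ((∀ g v, P X g v) ↔ ∀ g v, P Y g v)

/-- `κ` and `μ` have elementarily equivalent congruence lattices of free algebras. -/
def congRel (S : Sig) (E : Set (Tm S ℕ × Tm S ℕ)) (κ μ : Cardinal.{0}) : Prop :=
  LEquiv (Cong S E κ.out) (Cong S E μ.out)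

/-- `κ` and `μ` satisfy the same sentences of full second-order logic. -/
def secondRel (κ μ : Cardinal.{0}) : Prop := SEquiv κ.out μ.out

/-- `κ` and `μ` satisfy the same sentences of the second-order logic of permutations. -/
def permRel (κ μ : Cardinal.{0}) : Prop := PEquiv κ.out μ.out

end Pool.Agent.Helper62.FreeDefs
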