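import Mathlib
import Pool.Agent.Helper62.FreeDefs

namespace Pool.Agent.Helper62.FreeLat

open Cardinal FreeDefs

/-! Transfer along order isomorphisms -/

theorem term_iso {L L' : Type} [Lattice L] [Lattice L'] (e : L ≃o L')
    (t : (L : Type) → [Lattice L] → (ℕ → L) → L) (ht : LTerm t) (v : ℕ → L) :
    e (t L v) = t L' (fun i => e (v i)) := by
  induction ht with
  | var i => rfl
  | sup s t _ _ iha ihb => simp only [map_sup, iha, ihb]
  | inf s t _ _ iha ihb => simp only [map_inf, iha, ihb]

theorem sat_iso {L L' : Type} [Lattice L] [Lattice L'] (e : L ≃o L')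
    (P : (L : Type) → [Lattice L] → (ℕ → L) → Prop) (hP : LFormula P) :
    ∀ v : ℕ → L, P L v ↔ P L' (fun i => e (v i)) := by
  induction hP with
  | eq s t hs ht =>
    intro v
    simp only [← term_iso e s hs, ← term_iso e t ht, e.injective.eq_iff]
  | bot => intro v; rfl
  | imp a b _ _ iha ihb => intro v; simp only [iha v, ihb v]
  | all i a _ ih =>
    intro v
    constructor
    · intro h y
      obtain ⟨x, rfl⟩ := e.surjective y
      have := (ih _).1 (h x)
      convert this using 1
      funext j
      by_cases hj : j = i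
      · subst hj; simp
      · simp [Function.update_of_ne hj]
    · intro h x
      rw [ih]
      have := h (e x)
      convert this using 1
      funext j
      by_cases hj : j = i
      · subst hj; simp
      · simp [Function.update_of_ne hj]

theorem LEquiv_of_iso {L L' : Type} [Lattice L] [Lattice L'] (e : L ≃o L') : LEquiv L L' := by
  intro P hP
  constructor
  · intro h v
    have := (sat_iso e.symm P hP v).2 (h _)
    exact this
  · intro h v
    exact (sat_iso e P hP v).2 (h _)

/-! Syntax -/

/-- Lattice terms. -/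
inductive LTm : Type
  | var (i : ℕ) : LTm
  | sup (a b : LTm) : LTm
  | inf (a b : LTm) : LTm

/-- First-order formulas in the language of lattices. -/
inductive LFml : Type
  | eq (a b : LTm) : LFml
  | bot : LFml
  | imp (a b : LFml) : LFml
  | all (i : ℕ) (a : LFml) : LFml

/-- Value of a lattice term. -/
def LTm.val {L : Type} [Lattice L] (v : ℕ → L) : LTm → L
  | LTm.var i => v i
  | LTm.sup a b => a.val v ⊔ b.val v
  | LTm.inf a b => a.val v ⊓ b.val v

/-- Satisfaction of lattice formulas. -/
def LSat {L : Type} [Lattice L] : (ℕ → L) → LFml → Prop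
  | v, LFml.eq a b => a.val v = b.val v
  | _, LFml.bot => False
  | v, LFml.imp a b => LSat v a → LSat v b
  | v, LFml.all i a => ∀ x : L, LSat (Function.update v i x) a

theorem term_of_LTm (t : LTm) : LTerm (fun _ _ v => t.val v) := by
  induction t with
  | var i => exact LTerm.var i
  | sup a b iha ihb => exact LTerm.sup _ _ iha ihb
  | inf a b iha ihb => exact LTerm.inf _ _ iha ihb

theorem formula_of_LFml (φ : LFml) : LFormula (fun _ _ v => LSat v φ) := by
  induction φ with
  | eq a b => exact LFormula.eq _ _ (term_of_LTm a) (term_of_LTm b)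
  | bot => exact LFormula.bot
  | imp a b iha ihb => exact LFormula.imp _ _ iha ihb
  | all i a ih => exact LFormula.all i _ ih

/-! The lattice sentence -/

def neg (a : LFml) : LFml := LFml.imp a LFml.bot
def or (a b : LFml) : LFml := LFml.imp (neg a) b
def and (a b : LFml) : LFml := neg (LFml.imp a (neg b))
def ex (i : ℕ) (a : LFml) : LFml := neg (LFml.all i (neg a))

theorem sat_neg {L : Type} [Lattice L] (v : ℕ → L) (a : LFml) : LSat v (neg a) ↔ ¬ LSat v a :=
  Iff.rfl

theorem sat_or {L : Type} [Lattice L] (v : ℕ → L) (a b : LFml) :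
    LSat v (or a b) ↔ LSat v a ∨ LSat v b := by
  simp only [or, neg, LSat]
  tauto

theorem sat_and {L : Type} [Lattice L] (v : ℕ → L) (a b : LFml) :
    LSat v (and a b) ↔ LSat v a ∧ LSat v b := by
  simp only [and, neg, LSat]
  tauto

theorem sat_ex {L : Type} [Lattice L] (v : ℕ → L) (i : ℕ) (a : LFml) :
    LSat v (ex i a) ↔ ∃ x, LSat (Function.update v i x) a := by
  simp only [ex, neg, LSat, not_forall, imp_false, not_not]

/-- `t ≤ u` as a formula -/
def le (t u : LTm) : LFml := LFml.eq (LTm.sup t u) u

theorem sat_le {L : Type} [Lattice L] (v : ℕ → L) (t u : LTm) :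
    LSat v (le t u) ↔ t.val v ≤ u.val v := by
  simp only [le, LSat, LTm.val, sup_eq_right]

/-- the principal ideal of the variable `k` is distributive (`k` is `1` or `2`) -/
def distF (k : ℕ) : LFml :=
  LFml.all 3 (LFml.all 4 (LFml.all 5
    (LFml.imp (le (LTm.var 3) (LTm.var k)) (LFml.imp (le (LTm.var 4) (LTm.var k))
      (LFml.imp (le (LTm.var 5) (LTm.var k))
        (le (LTm.inf (LTm.var 3) (LTm.sup (LTm.var 4) (LTm.var 5)))
          (LTm.sup (LTm.inf (LTm.var 3) (LTm.var 4)) (LTm.inf (LTm.var 3) (LTm.var 5)))))))))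

/-- distributivity of the principal ideal -/
def D {L : Type} [Lattice L] (t : L) : Prop :=
  ∀ a b c : L, a ≤ t → b ≤ t → c ≤ t → a ⊓ (b ⊔ c) ≤ (a ⊓ b) ⊔ (a ⊓ c)

theorem sat_distF {L : Type} [Lattice L] (v : ℕ → L) (k : ℕ) (hk : k < 3) :
    LSat v (distF k) ↔ D (v k) := by
  have h3 : k ≠ 3 := by omega
  have h4 : k ≠ 4 := by omega
  have h5 : k ≠ 5 := by omega
  simp only [distF, D, LSat, sat_le, LTm.val, Function.update_apply, h3, h4, h5, if_false]
  rfl

/-- the sentence -/
def Phi : LFml :=
  LFml.all 0 (or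
    (ex 1 (ex 2 (and (distF 1) (and (distF 2)
      (LFml.eq (LTm.sup (LTm.var 1) (LTm.var 2)) (LTm.var 0))))))
    (ex 1 (and (distF 1)
      (LFml.all 2 (le (LTm.var 2) (LTm.sup (LTm.var 1) (LTm.var 0)))))))

theorem sat_Phi {L : Type} [Lattice L] : (∀ v : ℕ → L, LSat v Phi) ↔
    (Nonempty L → ∀ s : L, (∃ t t' : L, D t ∧ D t' ∧ t ⊔ t' = s) ∨
      ∃ t : L, D t ∧ ∀ a, a ≤ t ⊔ s) := by
  have key : ∀ v : ℕ → L, LSat v Phi ↔ ∀ s : L, (∃ t t' : L, D t ∧ D t' ∧ t ⊔ t' = s) ∨
      ∃ t : L, D t ∧ ∀ a, a ≤ t ⊔ s := by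
    intro v
    simp only [Phi, LSat, sat_or, sat_ex, sat_and, sat_distF _ 1 (by norm_num),
      sat_distF _ 2 (by norm_num), sat_le, LTm.val, Function.update_apply]
    norm_num
  constructor
  · rintro h ⟨x⟩
    exact (key (fun _ => x)).1 (h _)
  · intro h v
    exact (key v).2 (h ⟨v 0⟩)

/-! Equivalence relations -/

/-- all blocks have size at most two -/
def B2 {S : Type} (t : Setoid S) : Prop := ∀ x y z, t x y → t x z → x = y ∨ x = z ∨ y = z

/-- the equivalence relation whose only nontrivial block is `A` -/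
def block {S : Type} (A : Set S) : Setoid S where
  r x y := x = y ∨ (x ∈ A ∧ y ∈ A)
  iseqv := ⟨fun _ => Or.inl rfl, by rintro x y (h | h); exacts [Or.inl h.symm, Or.inr h.symm],
    by
      rintro x y z (h | h) (h' | h')
      · exact Or.inl (h.trans h')
      · subst h; exact Or.inr h'
      · subst h'; exact Or.inr h
      · exact Or.inr ⟨h.1, h'.2⟩⟩

theorem block_le {S : Type} {A : Set S} {t : Setoid S} (h : ∀ x ∈ A, ∀ y ∈ A, t x y) :
    block A ≤ t := by
  rintro x y (rfl | h')
  · exact t.refl' x
  · exact h x h'.1 y h'.2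

theorem B2_of_D {S : Type} {t : Setoid S} (h : D t) : B2 t := by
  intro x y z hxy hxz
  by_contra hne
  push Not at hne
  obtain ⟨h1, h2, h3⟩ := hne
  have ha : block {y, z} ≤ t := block_le (by
    rintro u (rfl | rfl) v (rfl | rfl)
    · exact t.refl' _
    · exact t.trans' (t.symm' hxy) hxz
    · exact t.trans' (t.symm' hxz) hxy
    · exact t.refl' _)
  have hb : block {x, y} ≤ t := block_le (by
    rintro u (rfl | rfl) v (rfl | rfl)
    · exact t.refl' _
    · exact hxy
    · exact t.symm' hxy
    · exact t.refl' _)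
  have hc : block {x, z} ≤ t := block_le (by
    rintro u (rfl | rfl) v (rfl | rfl)
    · exact t.refl' _
    · exact hxz
    · exact t.symm' hxz
    · exact t.refl' _)
  have h4 := h _ _ _ ha hb hc
  have h5 : (block ({y, z} : Set S) ⊓ (block {x, y} ⊔ block {x, z})) y z := by
    refine ⟨Or.inr ⟨by simp, by simp⟩, ?_⟩
    have e1 : (block ({x, y} : Set S) ⊔ block {x, z}) y x :=
      (le_sup_left : block ({x, y} : Set S) ≤ _) (Or.inr ⟨by simp, by simp⟩)
    have e2 : (block ({x, y} : Set S) ⊔ block {x, z}) x z :=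
      (le_sup_right : block ({x, z} : Set S) ≤ _) (Or.inr ⟨by simp, by simp⟩)
    exact Setoid.trans' _ e1 e2
  have h6 := h4 h5
  have h7 : (block ({y, z} : Set S) ⊓ block {x, y}) ⊔ (block ({y, z} : Set S) ⊓ block {x, z}) ≤
      (⊥ : Setoid S) := by
    refine sup_le ?_ ?_
    · rintro u v ⟨hu | ⟨hu1, hu2⟩, hv | ⟨hv1, hv2⟩⟩
      · exact hu
      · exact hu
      · exact hv
      · have : u = y := by
          rcases hu1 with rfl | hu1
          · rfl
          · rcases hv1 with hv1 | hv1
            · exact absurd (hv1.symm.trans hu1) h2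
            · exact hv1
        have : v = y := by
          rcases hu2 with rfl | hu2
          · rfl
          · rcases hv2 with hv2 | hv2
            · exact absurd (hv2.symm.trans hu2) h2
            · exact hv2
        subst_vars
        rfl
    · rintro u v ⟨hu | ⟨hu1, hu2⟩, hv | ⟨hv1, hv2⟩⟩
      · exact hu
      · exact hu
      · exact hv
      · have : u = z := by
          rcases hu1 with hu1 | hu1
          · rcases hv1 with hv1 | hv1
            · exact absurd (hv1.symm.trans hu1) h1
            · exact hv1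
          · exact hu1
        have : v = z := by
          rcases hu2 with hu2 | hu2
          · rcases hv2 with hv2 | hv2
            · exact absurd (hv2.symm.trans hu2) h1
            · exact hv2
          · exact hu2
        subst_vars
        rfl
  exact h3 (h7 h6)

theorem D_of_B2 {S : Type} {t : Setoid S} (h : B2 t) : D t := by
  intro a b c ha hb hc x y hxy
  obtain ⟨h1, h2⟩ := hxy
  let r : Setoid S := {
    r := fun u v => u = v ∨ b u v ∨ c u v
    iseqv := ⟨fun _ => Or.inl rfl, by
      rintro u v (h | h | h)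
      · exact Or.inl h.symm
      · exact Or.inr (Or.inl (b.symm' h))
      · exact Or.inr (Or.inr (c.symm' h)), by
      intro u v w huv hvw
      have huv' : t u v := by
        rcases huv with rfl | h | h
        · exact t.refl' _
        · exact hb h
        · exact hc h
      have hvw' : t v w := by
        rcases hvw with rfl | h | h
        · exact t.refl' _
        · exact hb h
        · exact hc h
      rcases h v u w (t.symm' huv') hvw' with h | h | h
      · subst h; exact hvw
      · subst h; exact huv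
      · exact Or.inl h⟩ }
  have h3 : b ⊔ c ≤ r := sup_le (fun u v h => Or.inr (Or.inl h)) (fun u v h => Or.inr (Or.inr h))
  rcases h3 h2 with rfl | h4 | h4
  · exact Setoid.refl' _ _
  · exact (le_sup_left : a ⊓ b ≤ _) ⟨h1, h4⟩
  · exact (le_sup_right : a ⊓ c ≤ _) ⟨h1, h4⟩

theorem D_iff {S : Type} (t : Setoid S) : D t ↔ B2 t := ⟨B2_of_D, D_of_B2⟩

/-- the partner of a point -/
theorem exists_partner {S : Type} {t : Setoid S} (h : B2 t) :
    ∃ p : S → S, (∀ x, t x (p x)) ∧ ∀ x y, t x y → y = x ∨ y = p x := by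
  classical
  have : ∀ x, ∃ q, t x q ∧ ∀ y, t x y → y = x ∨ y = q := by
    intro x
    by_cases hx : ∃ q, q ≠ x ∧ t x q
    · obtain ⟨q, hq, hxq⟩ := hx
      refine ⟨q, hxq, fun y hy => ?_⟩
      rcases h x q y hxq hy with h | h | h
      · exact absurd h.symm hq
      · exact Or.inl h.symm
      · exact Or.inr h.symm
    · push Not at hx
      refine ⟨x, t.refl' x, fun y hy => ?_⟩
      by_contra hne
      push Not at hne
      exact hx y hne.1 hy
  choose p hp1 hp2 using this
  exact ⟨p, hp1, hp2⟩

/-- blocks of a join of two matchings are countable -/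
theorem countable_of_B2 {S : Type} {t t' : Setoid S} (h : B2 t) (h' : B2 t') (x : S) :
    {y | (t ⊔ t') x y}.Countable := by
  obtain ⟨p, hp, hp2⟩ := exists_partner h
  obtain ⟨q, hq, hq2⟩ := exists_partner h'
  let W : List Bool → S := fun l => l.foldr (fun b z => cond b (p z) (q z)) x
  let r : Setoid S := {
    r := fun u v => (u ∈ Set.range W ↔ v ∈ Set.range W)
    iseqv := ⟨fun _ => Iff.rfl, fun h => h.symm, fun h h' => h.trans h'⟩ }
  have hW1 : ∀ u, u ∈ Set.range W → p u ∈ Set.range W := by
    rintro _ ⟨l, rfl⟩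
    exact ⟨true :: l, rfl⟩
  have hW2 : ∀ u, u ∈ Set.range W → q u ∈ Set.range W := by
    rintro _ ⟨l, rfl⟩
    exact ⟨false :: l, rfl⟩
  have h3 : t ⊔ t' ≤ r := by
    refine sup_le ?_ ?_
    · intro u v huv
      constructor
      · intro hu
        rcases hp2 u v huv with rfl | rfl
        · exact hu
        · exact hW1 _ hu
      · intro hv
        rcases hp2 v u (t.symm' huv) with rfl | rfl
        · exact hv
        · exact hW1 _ hv
    · intro u v huv
      constructor
      · intro hu
        rcases hq2 u v huv with rfl | rfl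
        · exact hu
        · exact hW2 _ hu
      · intro hv
        rcases hq2 v u (t'.symm' huv) with rfl | rfl
        · exact hv
        · exact hW2 _ hv
  refine (Set.countable_range W).mono ?_
  intro y hy
  exact (h3 hy).1 ⟨[], rfl⟩

/-- the sentence fails on sets of size `ℵ₂` -/
theorem not_prop_of_large {S : Type} (hS : #S = ℵ_ 2) :
    ¬ ∀ s : Setoid S, (∃ t t' : Setoid S, D t ∧ D t' ∧ t ⊔ t' = s) ∨
      ∃ t : Setoid S, D t ∧ ∀ a, a ≤ t ⊔ s := by
  intro hall
  obtain ⟨A, hA⟩ : ∃ A : Set S, #A = ℵ_ 1 := by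
    rw [← le_mk_iff_exists_set, hS]
    exact aleph_le_aleph.2 (by norm_num)
  have hAunc : ¬ A.Countable := by
    intro hc
    have := le_aleph0_iff_set_countable.2 hc
    rw [hA, ← aleph_zero, aleph_le_aleph] at this
    exact absurd this (by norm_num)
  have hAne : A.Nonempty := by
    rw [Set.nonempty_iff_ne_empty]
    rintro rfl
    exact hAunc Set.countable_empty
  obtain ⟨a0, ha0⟩ := hAne
  rcases hall (block A) with ⟨t, t', ht, ht', heq⟩ | ⟨t, ht, htop⟩
  · apply hAunc
    refine (countable_of_B2 ((D_iff _).1 ht) ((D_iff _).1 ht') a0).mono ?_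
    intro y hy
    rw [heq]
    exact Or.inr ⟨ha0, hy⟩
  · have hB := (D_iff _).1 ht
    obtain ⟨p, hp, hp2⟩ := exists_partner hB
    have hpA : ∀ x, x ∉ A → p x ∈ A := by
      intro x hx
      by_contra hpx
      let r : Setoid S := {
        r := fun u v => ((u = x ∨ u = p x) ↔ (v = x ∨ v = p x))
        iseqv := ⟨fun _ => Iff.rfl, fun h => h.symm, fun h h' => h.trans h'⟩ }
      have h1 : t ≤ r := by
        have hclosed : ∀ u v, t u v → (u = x ∨ u = p x) → (v = x ∨ v = p x) := by
          rintro u v huv (rfl | rfl)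
          · exact hp2 _ v huv
          · exact hp2 x v (t.trans' (hp x) huv)
        intro u v huv
        exact ⟨hclosed u v huv, hclosed v u (t.symm' huv)⟩
      have h2 : block A ≤ r := by
        have hout : ∀ u ∈ A, ¬ (u = x ∨ u = p x) := by
          rintro u hu (rfl | rfl)
          · exact hx hu
          · exact hpx hu
        rintro u v (rfl | ⟨hu, hv⟩)
        · exact Iff.rfl
        · exact iff_of_false (hout u hu) (hout v hv)
      have h3 : (t ⊔ block A) x a0 := htop ⊤ trivial
      have h4 := (sup_le h1 h2) h3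
      rcases h4.1 (Or.inl rfl) with h | h
      · exact hx (h ▸ ha0)
      · exact hpx (h ▸ ha0)
    have hinj : Function.Injective (fun x : (Aᶜ : Set S) => (⟨p x.1, hpA x.1 x.2⟩ : A)) := by
      rintro ⟨x, hx⟩ ⟨y, hy⟩ hxy
      simp only [Subtype.mk.injEq] at hxy ⊢
      have h1 := t.symm' (hp x)
      have h2 := t.symm' (hp y)
      rw [← hxy] at h2
      rcases hB _ _ _ h1 h2 with h | h | h
      · exact absurd (h ▸ hpA x hx) hx
      · exact absurd (h ▸ hpA x hx) hy
      · exact h
    have h5 : #(Aᶜ : Set S) ≤ ℵ_ 1 := by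
      rw [← hA]
      exact mk_le_of_injective hinj
    have h6 : #S ≤ ℵ_ 1 := by
      rw [← mk_sum_compl A]
      refine (add_le_add hA.le h5).trans ?_
      rw [add_eq_self (aleph0_le_aleph 1)]
    rw [hS, aleph_le_aleph] at h6
    exact absurd h6 (by norm_num)

/-- the sentence holds on sets of size `ℵ₁` -/
theorem prop_of_aleph_one {S : Type} (hS : #S = ℵ_ 1) :
    ∀ s : Setoid S, (∃ t t' : Setoid S, D t ∧ D t' ∧ t ⊔ t' = s) ∨
      ∃ t : Setoid S, D t ∧ ∀ a, a ≤ t ⊔ s := by
  classical
  intro s
  by_cases hcount : ∀ x, {y | s x y}.Countable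
  · left
    -- index the blocks
    have h1 : ∀ x, ∃ f : S → ℕ, Set.InjOn f {y | s x y} := fun x =>
      Set.countable_iff_exists_injOn.1 (hcount x)
    choose g hg using h1
    let rep : S → S := fun x => (Quotient.mk s x).out
    have hrep : ∀ x, s (rep x) x := fun x => Quotient.exact (Quotient.out_eq (Quotient.mk s x))
    have hrep2 : ∀ x y, s x y → rep x = rep y := by
      intro x y hxy
      simp only [rep]
      rw [Quotient.sound hxy]
    let f : S → ℕ := fun x => g (rep x) x
    have hf : ∀ x y, s x y → f x = f y → x = y := by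
      intro x y hxy h
      simp only [f] at h
      rw [hrep2 x y hxy] at h
      exact hg (rep y) (s.trans' (hrep y) (s.symm' hxy)) (hrep y) h
    let low : S → Set S := fun x => {y | s x y ∧ f y < f x}
    have hlowfin : ∀ x, (low x).Finite := by
      intro x
      refine Set.Finite.of_finite_image (f := f) ((Set.finite_lt_nat (f x)).subset ?_) ?_
      · rintro _ ⟨y, hy, rfl⟩
        exact hy.2
      · intro y hy z hz h
        exact hf y z (s.trans' (s.symm' hy.1) hz.1) h
    let idx : S → ℕ := fun x => (low x).ncard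
    have hmono : ∀ x y, s x y → f x < f y → idx x < idx y := by
      intro x y hxy hlt
      refine Set.ncard_lt_ncard ?_ (hlowfin y)
      refine ⟨fun z hz => ⟨s.trans' (s.symm' hxy) hz.1, hz.2.trans hlt⟩, fun h => ?_⟩
      have := h (show x ∈ low y from ⟨s.symm' hxy, hlt⟩)
      exact lt_irrefl _ this.2
    have hinj : ∀ x y, s x y → idx x = idx y → x = y := by
      intro x y hxy h
      apply hf x y hxy
      rcases lt_trichotomy (f x) (f y) with h' | h' | h'
      · exact absurd h (hmono x y hxy h').ne
      · exact h'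
      · exact absurd h (hmono y x (s.symm' hxy) h').ne'
    have hpred : ∀ x n, idx x = n + 1 → ∃ y, s x y ∧ idx y = n := by
      intro x n hx
      have hne : (low x).Nonempty := by
        rw [Set.nonempty_iff_ne_empty]
        intro h
        simp only [idx, h, Set.ncard_empty] at hx
        omega
      obtain ⟨y, hy, hmax⟩ := (hlowfin x).exists_maximalFor f _ hne
      refine ⟨y, hy.1, ?_⟩
      have hset : low x = insert y (low y) := by
        ext z
        constructor
        · intro hz
          rcases lt_trichotomy (f z) (f y) with h' | h' | h'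
          · exact Or.inr ⟨s.trans' (s.symm' hy.1) hz.1, h'⟩
          · exact Or.inl (hf z y (s.trans' (s.symm' hz.1) hy.1) h')
          · exact absurd (hmax hz h'.le) (not_le.2 h')
        · rintro (rfl | hz)
          · exact hy
          · exact ⟨s.trans' hy.1 hz.1, hz.2.trans hy.2⟩
      have hnot : y ∉ low y := fun h => lt_irrefl _ h.2
      have h2 : (low x).ncard = (low y).ncard + 1 := by
        rw [hset, Set.ncard_insert_of_notMem hnot (hlowfin y)]
      simp only [idx] at hx ⊢
      omega
    let t : Setoid S := {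
      r := fun x y => s x y ∧ idx x / 2 = idx y / 2
      iseqv := ⟨fun x => ⟨s.refl' x, rfl⟩, fun h => ⟨s.symm' h.1, h.2.symm⟩,
        fun h h' => ⟨s.trans' h.1 h'.1, h.2.trans h'.2⟩⟩ }
    let t' : Setoid S := {
      r := fun x y => s x y ∧ (idx x + 1) / 2 = (idx y + 1) / 2
      iseqv := ⟨fun x => ⟨s.refl' x, rfl⟩, fun h => ⟨s.symm' h.1, h.2.symm⟩,
        fun h h' => ⟨s.trans' h.1 h'.1, h.2.trans h'.2⟩⟩ }
    refine ⟨t, t', (D_iff _).2 ?_, (D_iff _).2 ?_, ?_⟩
    · intro x y z hxy hxz
      have h2 : idx x = idx y ∨ idx x = idx z ∨ idx y = idx z := by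
        have := hxy.2
        have := hxz.2
        omega
      rcases h2 with h | h | h
      · exact Or.inl (hinj _ _ hxy.1 h)
      · exact Or.inr (Or.inl (hinj _ _ hxz.1 h))
      · exact Or.inr (Or.inr (hinj _ _ (s.trans' (s.symm' hxy.1) hxz.1) h))
    · intro x y z hxy hxz
      have h2 : idx x = idx y ∨ idx x = idx z ∨ idx y = idx z := by
        have := hxy.2
        have := hxz.2
        omega
      rcases h2 with h | h | h
      · exact Or.inl (hinj _ _ hxy.1 h)
      · exact Or.inr (Or.inl (hinj _ _ hxz.1 h))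
      · exact Or.inr (Or.inr (hinj _ _ (s.trans' (s.symm' hxy.1) hxz.1) h))
    · apply le_antisymm
      · exact sup_le (fun x y h => h.1) (fun x y h => h.1)
      · have hroot : ∀ n x, idx x = n → ∃ y, s x y ∧ idx y = 0 ∧ (t ⊔ t') x y := by
          intro n
          induction n with
          | zero => intro x hx; exact ⟨x, s.refl' x, hx, Setoid.refl' _ x⟩
          | succ n ih =>
            intro x hx
            obtain ⟨x', hxx', hx'⟩ := hpred x n hx
            obtain ⟨y, hy1, hy2, hy3⟩ := ih x' hx'
            refine ⟨y, s.trans' hxx' hy1, hy2, Setoid.trans' _ ?_ hy3⟩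
            rcases Nat.even_or_odd n with he | ho
            · refine (le_sup_left : t ≤ t ⊔ t') ⟨hxx', ?_⟩
              rw [hx, hx']
              obtain ⟨k, rfl⟩ := he
              omega
            · refine (le_sup_right : t' ≤ t ⊔ t') ⟨hxx', ?_⟩
              rw [hx, hx']
              obtain ⟨k, rfl⟩ := ho
              omega
        intro x y hxy
        obtain ⟨u, hu1, hu2, hu3⟩ := hroot _ x rfl
        obtain ⟨w, hw1, hw2, hw3⟩ := hroot _ y rfl
        have : u = w := hinj u w (s.trans' (s.symm' hu1) (s.trans' hxy hw1)) (hu2.trans hw2.symm)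
        subst this
        exact Setoid.trans' _ hu3 (Setoid.symm' _ hw3)
  · right
    push Not at hcount
    obtain ⟨x0, hx0⟩ := hcount
    set A : Set S := {y | s x0 y} with hA
    have hA1 : ℵ_ 1 ≤ #A := by
      rw [← succ_aleph0, Order.succ_le_iff]
      by_contra h
      exact hx0 (le_aleph0_iff_set_countable.1 (not_lt.1 h))
    have h2 : #(Aᶜ : Set S) ≤ #A := ((mk_set_le _).trans hS.le).trans hA1
    obtain ⟨g⟩ := h2
    let t : Setoid S := {
      r := fun u v => u = v ∨ (∃ h : u ∈ Aᶜ, (g ⟨u, h⟩ : S) = v) ∨ (∃ h : v ∈ Aᶜ, (g ⟨v, h⟩ : S) = u)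
      iseqv := ⟨fun _ => Or.inl rfl, by
        rintro u v (h | h | h)
        · exact Or.inl h.symm
        · exact Or.inr (Or.inr h)
        · exact Or.inr (Or.inl h), by
        rintro u v w (rfl | ⟨h, h'⟩ | ⟨h, h'⟩) (rfl | ⟨k, k'⟩ | ⟨k, k'⟩)
        · exact Or.inl rfl
        · exact Or.inr (Or.inl ⟨k, k'⟩)
        · exact Or.inr (Or.inr ⟨k, k'⟩)
        · exact Or.inr (Or.inl ⟨h, h'⟩)
        · exact absurd (h' ▸ (g ⟨u, h⟩).2) k
        · left
          have := g.injective (Subtype.ext (h'.trans k'.symm))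
          exact congrArg Subtype.val this
        · exact Or.inr (Or.inr ⟨h, h'⟩)
        · exact Or.inl (h'.symm.trans k')
        · exact absurd (k' ▸ (g ⟨w, k⟩).2) h⟩ }
    refine ⟨t, (D_iff _).2 ?_, ?_⟩
    · rintro x y z (h | ⟨h, h'⟩ | ⟨h, h'⟩) (k | ⟨k, k'⟩ | ⟨k, k'⟩)
      · exact Or.inl h
      · exact Or.inl h
      · exact Or.inl h
      · exact Or.inr (Or.inl k)
      · exact Or.inr (Or.inr (h'.symm.trans k'))
      · exact absurd (k' ▸ (g ⟨z, k⟩).2) h
      · exact Or.inr (Or.inl k)
      · exact absurd (h' ▸ (g ⟨y, h⟩).2) k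
      · right; right
        have := g.injective (Subtype.ext (h'.trans k'.symm))
        exact congrArg Subtype.val this
    · intro a
      have key : ∀ x, (t ⊔ s) x x0 := by
        intro x
        by_cases hx : x ∈ A
        · exact (le_sup_right : s ≤ t ⊔ s) (s.symm' hx)
        · have e1 : (t ⊔ s) x (g ⟨x, hx⟩ : S) :=
            (le_sup_left : t ≤ t ⊔ s) (Or.inr (Or.inl ⟨hx, rfl⟩))
          have e2 : (t ⊔ s) (g ⟨x, hx⟩ : S) x0 :=
            (le_sup_right : s ≤ t ⊔ s) (s.symm' (g ⟨x, hx⟩).2)
          exact Setoid.trans' _ e1 e2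
      intro x y _
      exact Setoid.trans' _ (key x) (Setoid.symm' _ (key y))

end Pool.Agent.Helper62.FreeLat
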