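import Mathlib
import Pool.Agent.Helper62.FreeDefs
import Pool.Agent.Helper62.FreeLat

namespace Pool.Agent.Helper62.FreeMain

open Cardinal FreeDefs FreeLat

/-! Syntax -/

/-- Second-order formulas; the relation variables are indexed by an arity and a number. -/
inductive SFml : Type
  | eq (i j : ℕ) : SFml
  | rel (n k : ℕ) (a : Fin n → ℕ) : SFml
  | bot : SFml
  | imp (a b : SFml) : SFml
  | all (i : ℕ) (a : SFml) : SFml
  | allRel (n k : ℕ) (a : SFml) : SFml

/-- Satisfaction of second-order formulas in the pure set `X`. -/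
def SSat (X : Type) : ((p : ℕ × ℕ) → (Fin p.1 → X) → Prop) → (ℕ → X) → SFml → Prop
  | _, v, SFml.eq i j => v i = v j
  | r, v, SFml.rel n k a => r (n, k) (fun i => v (a i))
  | _, _, SFml.bot => False
  | r, v, SFml.imp a b => SSat X r v a → SSat X r v b
  | r, v, SFml.all i a => ∀ x : X, SSat X r (Function.update v i x) a
  | r, v, SFml.allRel n k a => ∀ R : (Fin n → X) → Prop, SSat X (Function.update r (n, k) R) v a

theorem formula_of_SFml (φ : SFml) : SFormula (fun X r v => SSat X r v φ) := by
  induction φ with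
  | eq i j => exact SFormula.eq i j
  | rel n k a => exact SFormula.rel n k a
  | bot => exact SFormula.bot
  | imp a b iha ihb => exact SFormula.imp _ _ iha ihb
  | all i a ih => exact SFormula.all i _ ih
  | allRel n k a ih => exact SFormula.allRel n k _ ih

/-- Terms: individual variables to which permutation variables are applied. -/
inductive PTm : Type
  | var (i : ℕ) : PTm
  | app (k : ℕ) (t : PTm) : PTm

/-- Formulas with individual and permutation variables. -/
inductive PFml : Type
  | eq (a b : PTm) : PFml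
  | bot : PFml
  | imp (a b : PFml) : PFml
  | all (i : ℕ) (a : PFml) : PFml
  | allPerm (k : ℕ) (a : PFml) : PFml

/-- Value of a term. -/
def PTm.val {X : Type} (g : ℕ → Equiv.Perm X) (v : ℕ → X) : PTm → X
  | PTm.var i => v i
  | PTm.app k t => g k (t.val g v)

/-- Satisfaction in the pure set `X`. -/
def PSat (X : Type) : (ℕ → Equiv.Perm X) → (ℕ → X) → PFml → Prop
  | g, v, PFml.eq a b => a.val g v = b.val g v
  | _, _, PFml.bot => False
  | g, v, PFml.imp a b => PSat X g v a → PSat X g v b
  | g, v, PFml.all i a => ∀ x : X, PSat X g (Function.update v i x) a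
  | g, v, PFml.allPerm k a => ∀ f : Equiv.Perm X, PSat X (Function.update g k f) v a

theorem term_of_PTm (t : PTm) : PTerm (fun _ g v => t.val g v) := by
  induction t with
  | var i => exact PTerm.var i
  | app k t ih => exact PTerm.app k _ ih

theorem formula_of_PFml (φ : PFml) : PFormula (fun X g v => PSat X g v φ) := by
  induction φ with
  | eq a b => exact PFormula.eq _ _ (term_of_PTm a) (term_of_PTm b)
  | bot => exact PFormula.bot
  | imp a b iha ihb => exact PFormula.imp _ _ iha ihb
  | all i a ih => exact PFormula.all i _ ih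
  | allPerm k a ih => exact PFormula.allPerm k _ ih

/-! Second-order logic distinguishes `ℵ₀` from `ℵ₁` -/

def sneg (a : SFml) : SFml := SFml.imp a SFml.bot

/-- there are a functional relation and a point whose closure is everything -/
def Psi : SFml :=
  sneg (SFml.allRel 2 0 (SFml.imp
    (SFml.all 0 (SFml.all 1 (SFml.all 2 (SFml.imp (SFml.rel 2 0 ![0, 1])
      (SFml.imp (SFml.rel 2 0 ![0, 2]) (SFml.eq 1 2))))))
    (SFml.all 3 (sneg (SFml.allRel 1 0 (SFml.imp (SFml.rel 1 0 ![3])
      (SFml.imp (SFml.all 0 (SFml.all 1 (SFml.imp (SFml.rel 1 0 ![0])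
        (SFml.imp (SFml.rel 2 0 ![0, 1]) (SFml.rel 1 0 ![1])))))
        (SFml.all 0 (SFml.rel 1 0 ![0])))))))))

theorem sat_Psi {X : Type} (r : (p : ℕ × ℕ) → (Fin p.1 → X) → Prop) (v : ℕ → X) :
    SSat X r v Psi ↔ ∃ R : (Fin 2 → X) → Prop, (∀ x y z, R ![x, y] → R ![x, z] → y = z) ∧
      ∃ a, ∀ P : (Fin 1 → X) → Prop, P ![a] → (∀ x y, P ![x] → R ![x, y] → P ![y]) →
        ∀ x, P ![x] := by
  have e2 : ∀ (w : ℕ → X) (i j : ℕ), (fun k : Fin 2 => w (![i, j] k)) = ![w i, w j] := by
    intro w i j
    funext k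
    fin_cases k <;> rfl
  have e1 : ∀ (w : ℕ → X) (i : ℕ), (fun k : Fin 1 => w (![i] k)) = ![w i] := by
    intro w i
    funext k
    fin_cases k; rfl
  simp only [Psi, sneg, SSat]
  simp only [e1, e2]
  simp only [Function.update_apply]
  simp only [not_forall, imp_false, exists_prop]
  norm_num

theorem sat_Psi_aleph0 {X : Type} (hX : #X = ℵ₀) (r : (p : ℕ × ℕ) → (Fin p.1 → X) → Prop)
    (v : ℕ → X) : SSat X r v Psi := by
  rw [sat_Psi]
  have : #X = #ℕ := by rw [hX, mk_nat]
  obtain ⟨e⟩ := Cardinal.eq.1 this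
  refine ⟨fun x => e (x 1) = e (x 0) + 1, ?_, e.symm 0, ?_⟩
  · intro x y z h h'
    apply e.injective
    simp at h h'
    rw [h, h']
  · intro P h0 hs x
    have : ∀ n, P ![e.symm n] := by
      intro n
      induction n with
      | zero => exact h0
      | succ n ih => exact hs _ _ ih (by simp)
    have h := this (e x)
    simpa using h

theorem not_sat_Psi {X : Type} (hX : ℵ₀ < #X) (r : (p : ℕ × ℕ) → (Fin p.1 → X) → Prop)
    (v : ℕ → X) : ¬ SSat X r v Psi := by
  classical
  rw [sat_Psi]
  rintro ⟨R, hR, a, ha⟩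
  let f : X → X := fun x => if h : ∃ y, R ![x, y] then h.choose else x
  have hf : ∀ x y, R ![x, y] → f x = y := by
    intro x y hxy
    have h : ∃ y, R ![x, y] := ⟨y, hxy⟩
    simp only [f, dif_pos h]
    exact hR x _ _ h.choose_spec hxy
  have h1 := ha (fun x => ∃ n : ℕ, f^[n] a = x 0) ⟨0, rfl⟩ (by
    rintro x y ⟨n, hn⟩ hxy
    refine ⟨n + 1, ?_⟩
    rw [Function.iterate_succ_apply', hn]
    exact hf _ _ hxy)
  have h2 : Function.Surjective (fun n : ℕ => f^[n] a) := by
    intro x
    exact h1 x
  have h3 := mk_le_of_surjective h2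
  rw [mk_nat] at h3
  exact absurd h3 (not_le.2 hX)

/-! The logic of permutations distinguishes `ℵ₀` from `ℵ₁` -/

def pneg (a : PFml) : PFml := PFml.imp a PFml.bot

/-- there is a permutation such that each permutation commuting with it and having a fixed point is
the identity -/
def Theta : PFml :=
  pneg (PFml.allPerm 0 (pneg (PFml.all 0 (PFml.all 1 (PFml.allPerm 1
    (PFml.imp (PFml.all 2 (PFml.eq (PTm.app 1 (PTm.app 0 (PTm.var 2)))
      (PTm.app 0 (PTm.app 1 (PTm.var 2)))))
      (PFml.imp (PFml.eq (PTm.app 1 (PTm.var 0)) (PTm.var 0))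
        (PFml.eq (PTm.app 1 (PTm.var 1)) (PTm.var 1)))))))))

theorem sat_Theta {X : Type} (g : ℕ → Equiv.Perm X) (v : ℕ → X) :
    PSat X g v Theta ↔ ∃ f : Equiv.Perm X, ∀ x y, ∀ h : Equiv.Perm X, (∀ z, h (f z) = f (h z)) →
      h x = x → h y = y := by
  simp only [Theta, pneg, PSat, PTm.val, Function.update_apply]
  simp only [not_forall, imp_false]
  norm_num
  constructor
  · rintro ⟨f, hf⟩
    exact ⟨f, fun x y h h1 h2 => hf x y h h2 h1⟩
  · rintro ⟨f, hf⟩
    exact ⟨f, fun x y h h1 h2 => hf x y h h2 h1⟩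

theorem sat_Theta_aleph0 {X : Type} (hX : #X = ℵ₀) (g : ℕ → Equiv.Perm X) (v : ℕ → X) :
    PSat X g v Theta := by
  rw [sat_Theta]
  have : #X = #ℤ := by rw [hX, mk_int]
  obtain ⟨e⟩ := Cardinal.eq.1 this
  refine ⟨(e.trans (Equiv.addRight (1 : ℤ))).trans e.symm, ?_⟩
  intro x y h hc hx
  have hc' : ∀ n : ℤ, e (h (e.symm (n + 1))) = e (h (e.symm n)) + 1 := by
    intro n
    have := hc (e.symm n)
    simp only [Equiv.trans_apply, Equiv.apply_symm_apply, Equiv.coe_addRight] at this
    rw [this, Equiv.apply_symm_apply]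
  have hup : ∀ k : ℕ, ∀ n : ℤ, e (h (e.symm (n + k))) = e (h (e.symm n)) + k := by
    intro k
    induction k with
    | zero => intro n; simp
    | succ k ih =>
      intro n
      have h1 : n + ((k + 1 : ℕ) : ℤ) = (n + k) + 1 := by push_cast; ring
      rw [h1, hc', ih n]
      push_cast
      ring
  have key : ∀ m n : ℤ, e (h (e.symm m)) - m = e (h (e.symm n)) - n := by
    intro m n
    rcases le_total m n with hmn | hmn
    · obtain ⟨k, rfl⟩ := Int.le.dest hmn
      rw [hup k m]; ring
    · obtain ⟨k, rfl⟩ := Int.le.dest hmn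
      rw [hup k n]; ring
  have h1 := key (e x) (e y)
  simp only [Equiv.symm_apply_apply, hx, sub_self] at h1
  apply e.injective
  linarith

theorem not_sat_Theta {X : Type} (hX : ℵ₀ < #X) (g : ℕ → Equiv.Perm X) (v : ℕ → X) :
    ¬ PSat X g v Theta := by
  classical
  rw [sat_Theta]
  rintro ⟨f, hf⟩
  have hne : Nonempty X := by
    rw [← mk_ne_zero_iff]
    exact (aleph0_pos.trans hX).ne'
  obtain ⟨x⟩ := hne
  -- the orbit of `x`
  let O : Set X := Set.range (fun n : ℤ => (f ^ n) x)
  have hO : O.Countable := Set.countable_range _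
  have hOc : ¬ (Oᶜ).Countable := by
    intro hc
    have h1 : (Set.univ : Set X).Countable := by
      rw [← Set.union_compl_self O]
      exact hO.union hc
    have h2 := Set.countable_univ_iff.1 h1
    exact absurd (mk_le_aleph0_iff.2 h2) (not_le.2 hX)
  have hfO : ∀ z, z ∈ O → f z ∈ O := by
    rintro _ ⟨n, rfl⟩
    refine ⟨n + 1, ?_⟩
    show (f ^ (n + 1)) x = f ((f ^ n) x)
    rw [add_comm, zpow_add, zpow_one, Equiv.Perm.mul_apply]
  have hfO' : ∀ z, f z ∈ O → z ∈ O := by
    rintro z ⟨n, hn⟩
    refine ⟨n - 1, ?_⟩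
    have hn' : (f ^ n) x = f z := hn
    show (f ^ (n - 1)) x = z
    rw [sub_eq_add_neg, add_comm, zpow_add, zpow_neg, zpow_one, Equiv.Perm.mul_apply, hn']
    simp
  have hxO : x ∈ O := ⟨0, rfl⟩
  by_cases hmove : ∃ y, y ∉ O ∧ f y ≠ y
  · obtain ⟨y, hyO, hy⟩ := hmove
    -- `f` outside `O`, the identity on `O`
    let h : Equiv.Perm X := {
      toFun := fun z => if z ∈ O then z else f z
      invFun := fun z => if z ∈ O then z else f.symm z
      left_inv := by
        intro z
        by_cases hz : z ∈ O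
        · simp [hz]
        · have : f z ∉ O := fun h => hz (hfO' z h)
          simp [hz, this]
      right_inv := by
        intro z
        by_cases hz : z ∈ O
        · simp [hz]
        · have : f.symm z ∉ O := fun h => hz (by simpa using hfO _ h)
          simp [hz, this] }
    have hh : ∀ z, h z = if z ∈ O then z else f z := fun z => rfl
    have h1 : ∀ z, h (f z) = f (h z) := by
      intro z
      by_cases hz : z ∈ O
      · simp [hh, hz, hfO z hz]
      · have : f z ∉ O := fun h => hz (hfO' z h)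
        simp [hh, hz, this]
    have h2 := hf x y h h1 (by simp [hh, hxO])
    simp [hh, hyO] at h2
    exact hy h2
  · push Not at hmove
    have hinf : (Oᶜ).Infinite := by
      intro hfin
      exact hOc hfin.countable
    obtain ⟨y, hy, y', hy', hyy⟩ := hinf.nontrivial
    have hxy : x ≠ y := by rintro rfl; exact hy hxO
    have hxy' : x ≠ y' := by rintro rfl; exact hy' hxO
    have h1 : ∀ z, Equiv.swap y y' (f z) = f (Equiv.swap y y' z) := by
      intro z
      by_cases hz : z = y
      · subst hz
        rw [hmove z hy, Equiv.swap_apply_left, hmove y' hy']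
      · by_cases hz' : z = y'
        · subst hz'
          rw [hmove z hy', Equiv.swap_apply_right, hmove y hy]
        · rw [Equiv.swap_apply_of_ne_of_ne hz hz', Equiv.swap_apply_of_ne_of_ne]
          · intro h
            apply hz
            apply f.injective
            rw [h, hmove y hy]
          · intro h
            apply hz'
            apply f.injective
            rw [h, hmove y' hy']
    have h2 := hf x y (Equiv.swap y y') h1 (Equiv.swap_apply_of_ne_of_ne hxy hxy')
    rw [Equiv.swap_apply_left] at h2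
    exact hyy h2.symm

/-! The variety -/

/-- The signature consisting of `ℵ₁` constants. -/
noncomputable def constSig : Sig where
  Op := (ℵ_ 1).out
  ar := fun _ => 0

theorem der_empty {X : Type} (t u : Tm constSig X) (h : Der constSig ∅ X t u) : t = u := by
  induction h with
  | ax e he h hh => exact he.elim
  | refl => rfl
  | symm t u _ ih => exact ih.symm
  | trans t u w _ _ ih1 ih2 => exact ih1.trans ih2
  | cong f a b _ ih => rw [funext ih]

/-- the carrier of the free algebra -/
noncomputable def carrierEquiv (X : Type) : FreeAlg constSig ∅ X ≃ X ⊕ (ℵ_ 1).out :=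
  (show FreeAlg constSig ∅ X ≃ Tm constSig X from {
    toFun := Quotient.lift id (fun t u h => der_empty t u h)
    invFun := fun t => Quotient.mk _ t
    left_inv := by
      intro q
      induction q using Quotient.ind
      rfl
    right_inv := fun t => rfl }).trans {
    toFun := fun t => match t with
      | Tm.var x => Sum.inl x
      | Tm.op f _ => Sum.inr f
    invFun := fun s => match s with
      | Sum.inl x => Tm.var x
      | Sum.inr f => Tm.op f Fin.elim0
    left_inv := by
      intro t
      cases t with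
      | var x => rfl
      | op f a =>
        have h : (Fin.elim0 : Fin 0 → Tm constSig X) = a := by
          funext i
          exact i.elim0
        show Tm.op f Fin.elim0 = Tm.op f a
        exact congrArg (Tm.op f) h
    right_inv := by
      rintro (x | f) <;> rfl }

/-- all equivalence relations are congruences -/
def congIso {S : Sig} {E : Set (Tm S ℕ × Tm S ℕ)} {X : Type} (hA : ∀ f, S.ar f = 0) :
    Cong S E X ≃o Setoid (FreeAlg S E X) where
  toFun r := r.1
  invFun r := ⟨r, fun f a b _ => by
    have : a = b := by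
      funext i
      exact (Fin.cast (hA f) i).elim0
    rw [this]⟩
  left_inv r := rfl
  right_inv r := rfl
  map_rel_iff' := Iff.rfl

/-- transport of equivalence relations along a bijection -/
def setoidIso {X Y : Type} (e : X ≃ Y) : Setoid X ≃o Setoid Y where
  toFun r := Setoid.comap e.symm r
  invFun r := Setoid.comap e r
  left_inv r := by
    ext x y
    simp [Setoid.comap_rel]
  right_inv r := by
    ext x y
    simp [Setoid.comap_rel]
  map_rel_iff' := by
    intro r s
    constructor
    · intro h x y hxy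
      have h1 : (Setoid.comap e.symm r) (e x) (e y) := by simpa [Setoid.comap_rel] using hxy
      have h2 : (Setoid.comap e.symm s) (e x) (e y) := h h1
      simpa [Setoid.comap_rel] using h2
    · intro h x y hxy
      exact h hxy

theorem card_carrier (κ : Cardinal.{0}) :
    #(FreeAlg constSig ∅ κ.out) = κ + ℵ_ 1 := by
  rw [Cardinal.mk_congr (carrierEquiv _), mk_sum, lift_id, lift_id, mk_out, mk_out]

theorem congRel_of_card {κ μ : Cardinal.{0}} (h : κ + ℵ_ 1 = μ + ℵ_ 1) :
    congRel constSig ∅ κ μ := by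
  have h1 : #(FreeAlg constSig ∅ κ.out) = #(FreeAlg constSig ∅ μ.out) := by
    rw [card_carrier, card_carrier, h]
  obtain ⟨e⟩ := Cardinal.eq.1 h1
  exact LEquiv_of_iso (((congIso (fun _ => rfl)).trans (setoidIso e)).trans
    (congIso (fun _ => rfl)).symm)

theorem Phi_cong (κ : Cardinal.{0}) :
    (∀ v : ℕ → Cong constSig ∅ κ.out, LSat v Phi) ↔
    ∀ s : Setoid (FreeAlg constSig ∅ κ.out), (∃ t t' : Setoid _, D t ∧ D t' ∧ t ⊔ t' = s) ∨
      ∃ t : Setoid _, D t ∧ ∀ a, a ≤ t ⊔ s := by
  rw [LEquiv_of_iso (congIso (S := constSig) (E := ∅) (X := κ.out) (fun _ => rfl)) _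
    (formula_of_LFml Phi), sat_Phi]
  exact ⟨fun h => h ⟨⊤⟩, fun h _ => h⟩

theorem main : (∅ : Set (Tm constSig ℕ × Tm constSig ℕ)).Finite ∧
    (∃ κ μ : Cardinal.{0}, ℵ₀ ≤ κ ∧ ℵ₀ ≤ μ ∧ ¬ congRel constSig ∅ κ μ) ∧
    (∃ κ μ : Cardinal.{0}, ℵ₀ ≤ κ ∧ ℵ₀ ≤ μ ∧ congRel constSig ∅ κ μ ∧ ¬ secondRel κ μ ∧
      ¬ permRel κ μ) := by
  refine ⟨Set.finite_empty, ⟨ℵ₀, ℵ_ 2, le_refl _, aleph0_le_aleph 2, ?_⟩,
    ⟨ℵ₀, ℵ_ 1, le_refl _, aleph0_le_aleph 1, ?_, ?_, ?_⟩⟩
  · intro h
    have h1 := h _ (formula_of_LFml Phi)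
    rw [Phi_cong, Phi_cong] at h1
    have h2 := h1.1 (prop_of_aleph_one (by
      rw [card_carrier]
      exact add_eq_right (aleph0_le_aleph 1) (aleph0_le_aleph 1)))
    refine not_prop_of_large ?_ h2
    rw [card_carrier]
    exact add_eq_left (aleph0_le_aleph 2) (aleph_le_aleph.2 (by norm_num))
  · apply congRel_of_card
    rw [add_eq_right (aleph0_le_aleph 1) (aleph0_le_aleph 1), add_eq_self (aleph0_le_aleph 1)]
  · intro h
    have h1 := (h _ (formula_of_SFml Psi)).1 (fun r v => sat_Psi_aleph0 (mk_out _) r v)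
    have hne : Nonempty (ℵ_ 1 : Cardinal.{0}).out := by
      rw [← mk_ne_zero_iff, mk_out]
      exact (aleph0_pos.trans_le (aleph0_le_aleph 1)).ne'
    refine not_sat_Psi ?_ (fun _ _ => True) (fun _ => hne.some) (h1 _ _)
    rw [mk_out]
    exact aleph0_lt_aleph_one
  · intro h
    have h1 := (h _ (formula_of_PFml Theta)).1 (fun r v => sat_Theta_aleph0 (mk_out _) r v)
    have hne : Nonempty (ℵ_ 1 : Cardinal.{0}).out := by
      rw [← mk_ne_zero_iff, mk_out]
      exact (aleph0_pos.trans_le (aleph0_le_aleph 1)).ne'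
    refine not_sat_Theta ?_ (fun _ => 1) (fun _ => hne.some) (h1 _ _)
    rw [mk_out]
    exact aleph0_lt_aleph_one

end Pool.Agent.Helper62.FreeMain
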