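import Mathlib

namespace Pool.Agent.Helper62.OrdProd

open Set

universe u v w

/-- `Tun R A f`: the coloring `f` (with colors in `C`) of the region `A` has a finite refinement `g`
which is tuned with respect to `R` inside `A`. -/
def Tun {X : Type u} (R : X → X → Prop) (A : Set X) {C : Type v} (f : X → C) : Prop :=
  ∃ (D : Type v) (_ : Finite D) (g : X → D) (p : D → C),
    (∀ x ∈ A, f x = p (g x)) ∧
    (∀ x ∈ A, ∀ x' ∈ A, g x = g x' → ∀ y ∈ A, R x y → ∃ y' ∈ A, R x' y' ∧ g y' = g y)

/-- every finite coloring of `A` has a finite tuned refinement. -/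
def TunAll {X : Type u} (R : X → X → Prop) (A : Set X) : Prop :=
  ∀ (C : Type v) [Finite C] (f : X → C), Tun R A f

theorem glue {X : Type u} {R : X → X → Prop} {A B : Set X} (hd : Disjoint A B)
    (hno : ∀ x ∈ A, ∀ y ∈ B, ¬ R x y) {C : Type v} [Finite C] {f : X → C}
    (hA : Tun R A f) (hB : TunAll.{u, v} R B) : Tun R (A ∪ B) f := by
  classical
  obtain ⟨DA, hDA, gA, pA, hA1, hA2⟩ := hA
  obtain ⟨DB, hDB, gB, pB, hB1, hB2⟩ :=
    hB (C × Set DA) (fun x => (f x, {d | ∃ y ∈ A, R x y ∧ gA y = d}))
  refine ⟨DA ⊕ DB, inferInstance, fun x => if x ∈ A then Sum.inl (gA x) else Sum.inr (gB x),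
    Sum.elim pA (fun d => (pB d).1), ?_, ?_⟩
  · intro x hx
    by_cases hxA : x ∈ A
    · simp only [hxA, if_true, Sum.elim_inl]
      exact hA1 x hxA
    · have hxB : x ∈ B := hx.resolve_left hxA
      simp only [hxA, if_false, Sum.elim_inr]
      have := hB1 x hxB
      rw [← this]
  · intro x hx x' hx' hg y hy hR
    by_cases hxA : x ∈ A
    · have hx'A : x' ∈ A := by
        by_contra h
        simp [hxA, h] at hg
      simp only [hxA, hx'A, if_true, Sum.inl.injEq] at hg
      have hyA : y ∈ A := by
        rcases hy with h | h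
        · exact h
        · exact absurd hR (hno x hxA y h)
      obtain ⟨y', hy'A, hR', hgy⟩ := hA2 x hxA x' hx'A hg y hyA hR
      refine ⟨y', Or.inl hy'A, hR', ?_⟩
      simp only [hy'A, hyA, if_true, hgy]
    · have hxB : x ∈ B := hx.resolve_left hxA
      have hx'A : x' ∉ A := by
        intro h
        simp [hxA, h] at hg
      have hx'B : x' ∈ B := hx'.resolve_left hx'A
      simp only [hxA, hx'A, if_false, Sum.inr.injEq] at hg
      by_cases hyA : y ∈ A
      · have e1 := hB1 x hxB
        have e2 := hB1 x' hx'B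
        rw [hg, ← e2] at e1
        have e3 := (Prod.ext_iff.1 e1).2
        simp only at e3
        have : gA y ∈ {d | ∃ y ∈ A, R x y ∧ gA y = d} := ⟨y, hyA, hR, rfl⟩
        rw [e3] at this
        obtain ⟨y', hy'A, hR', hgy⟩ := this
        refine ⟨y', Or.inl hy'A, hR', ?_⟩
        simp only [hy'A, hyA, if_true, hgy]
      · have hyB : y ∈ B := hy.resolve_left hyA
        obtain ⟨y', hy'B, hR', hgy⟩ := hB2 x hxB x' hx'B hg y hyB hR
        have hy'A : y' ∉ A := fun h => Set.disjoint_left.1 hd h hy'B
        refine ⟨y', Or.inr hy'B, hR', ?_⟩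
        simp only [hy'A, hyA, if_false, hgy]

section Box

variable {ι : Type w} [Finite ι]

/-- the box of all `x` with `a ≤ x` and `x i < b i` for all `i`. -/
def box (a b : ι → Ordinal.{u}) : Set (ι → Ordinal.{u}) := {x | (∀ i, a i ≤ x i) ∧ ∀ i, x i < b i}

theorem box_tunAll (R : (ι → Ordinal.{u}) → (ι → Ordinal.{u}) → Prop)
    (h1 : ∀ x y, R x y → x ≤ y) (h2 : ∀ x z y, x ≤ z → R z y → R x y) (b : ι → Ordinal.{u}) :
    ∀ a : ι → Ordinal.{u}, TunAll.{max (u + 1) w, v} R (box a b) := by
  classical
  have : Fintype ι := Fintype.ofFinite ι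
  induction b using WellFoundedLT.induction with
  | ind b ih =>
  intro a C _ f
  rcases (box a b).eq_empty_or_nonempty with he | ⟨x0, hx0⟩
  · refine ⟨C, inferInstance, f, id, ?_, ?_⟩
    · intro x _; rfl
    · intro x hx; rw [he] at hx; exact hx.elim
  -- witnesses of non-cofinality
  have key : ∀ c : C, ∃ z ∈ box a b, (∃ x ∈ box a b, ∀ y ∈ box a b, R x y → f y ≠ c) →
      ∀ y ∈ box a b, R z y → f y ≠ c := by
    intro c
    by_cases h : ∃ x ∈ box a b, ∀ y ∈ box a b, R x y → f y ≠ c
    · obtain ⟨x, hx, hx2⟩ := h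
      exact ⟨x, hx, fun _ => hx2⟩
    · exact ⟨x0, hx0, fun h' => absurd h' h⟩
  choose z hz hz2 using key
  have hdir : IsDirected (box a b) (· ≤ ·) := by
    refine ⟨fun x y => ⟨⟨x.1 ⊔ y.1, ?_⟩, ?_, ?_⟩⟩
    · refine ⟨fun i => le_trans (x.2.1 i) le_sup_left, fun i => ?_⟩
      exact max_lt (x.2.2 i) (y.2.2 i)
    · exact (le_sup_left : x.1 ≤ x.1 ⊔ y.1)
    · exact (le_sup_right : y.1 ≤ x.1 ⊔ y.1)
  have hne : Nonempty (box a b) := ⟨⟨x0, hx0⟩⟩
  obtain ⟨⟨m, hm⟩, hmz⟩ := Finite.exists_le (fun c : C => (⟨z c, hz c⟩ : box a b))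
  have hmz' : ∀ c, z c ≤ m := fun c => hmz c
  -- the regions
  have main : ∀ s : Finset ι, Tun R {x | x ∈ box a b ∧ ∀ i, i ∉ s → m i ≤ x i} f := by
    intro s
    induction s using Finset.induction_on with
    | empty =>
      refine ⟨C, inferInstance, f, id, fun _ _ => rfl, ?_⟩
      rintro x ⟨hx, hxm⟩ x' ⟨hx', hxm'⟩ _ y ⟨hy, hym⟩ hR
      have hcof : ¬ ∃ x ∈ box a b, ∀ w ∈ box a b, R x w → f w ≠ f y := by
        intro h
        have h3 := hz2 (f y) h y hy
        apply h3 _ rfl
        refine h2 _ _ _ (le_trans (hmz' (f y)) ?_) hR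
        intro i
        exact hxm i (by simp)
      push Not at hcof
      obtain ⟨y', hy', hR', hf⟩ := hcof x' hx'
      refine ⟨y', ⟨hy', fun i hi => ?_⟩, hR', hf⟩
      exact le_trans (hxm' i hi) (h1 _ _ hR' i)
    | insert j s hj ihs =>
      have hlt : Function.update b j (m j) < b := by
        rw [Pi.lt_def]
        refine ⟨?_, j, ?_⟩
        · intro i
          by_cases hij : i = j
          · subst hij; simp [(hm.2 i).le]
          · simp [Function.update_of_ne hij]
        · simp [hm.2 j]
      have hB := ih (Function.update b j (m j)) hlt (fun i => if i ∈ insert j s then a i else m i)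
      have hsplit : {x | x ∈ box a b ∧ ∀ i, i ∉ insert j s → m i ≤ x i} =
          {x | x ∈ box a b ∧ ∀ i, i ∉ s → m i ≤ x i} ∪
          box (fun i => if i ∈ insert j s then a i else m i) (Function.update b j (m j)) := by
        ext x
        constructor
        · rintro ⟨hx, hxm⟩
          by_cases hxj : m j ≤ x j
          · left
            refine ⟨hx, fun i hi => ?_⟩
            by_cases hij : i = j
            · subst hij; exact hxj
            · exact hxm i (by simp [hij, hi])
          · right
            refine ⟨fun i => ?_, fun i => ?_⟩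
            · by_cases hi : i ∈ insert j s
              · simp only [hi, if_true]; exact hx.1 i
              · simp only [hi, if_false]; exact hxm i hi
            · by_cases hij : i = j
              · subst hij; simpa using hxj
              · simp only [Function.update_of_ne hij]; exact hx.2 i
        · rintro (⟨hx, hxm⟩ | ⟨hx1, hx2⟩)
          · refine ⟨hx, fun i hi => hxm i ?_⟩
            intro h; exact hi (Finset.mem_insert_of_mem h)
          · refine ⟨⟨fun i => ?_, fun i => ?_⟩, fun i hi => ?_⟩
            · have := hx1 i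
              by_cases hi : i ∈ insert j s
              · simpa only [hi, if_true] using this
              · simp only [hi, if_false] at this
                exact le_trans (hm.1 i) this
            · exact lt_of_lt_of_le (hx2 i) (hlt.le i)
            · have := hx1 i
              simpa only [hi, if_false] using this
      rw [hsplit]
      refine glue ?_ ?_ ihs hB
      · rw [Set.disjoint_left]
        rintro x ⟨_, hxm⟩ ⟨_, hx2⟩
        have h3 := hx2 j
        simp only [Function.update_self] at h3
        exact absurd (hxm j hj) (not_le.2 h3)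
      · rintro x ⟨_, hxm⟩ y ⟨_, hy2⟩ hR
        have h3 := hy2 j
        simp only [Function.update_self] at h3
        exact absurd (le_trans (hxm j hj) (h1 _ _ hR j)) (not_le.2 h3)
  have := main Finset.univ
  simpa using this

end Box

/-- Finite tuned refinements for any frame embedded into a box of ordinals. -/
theorem tun_of_embedding {ι : Type w} [Finite ι] {W : Type v} (e : W → ι → Ordinal.{u})
    (he : Function.Injective e) (b : ι → Ordinal.{u}) (hb : ∀ x i, e x i < b i)
    (R : (ι → Ordinal.{u}) → (ι → Ordinal.{u}) → Prop)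
    (h1 : ∀ x y, R x y → x ≤ y) (h2 : ∀ x z y, x ≤ z → R z y → R x y)
    {C : Type v} [Finite C] (f : W → C) :
    ∃ (D : Type v) (_ : Finite D) (g : W → D) (p : D → C), (∀ x, f x = p (g x)) ∧
      ∀ x x', g x = g x' → ∀ y, R (e x) (e y) → ∃ y', R (e x') (e y') ∧ g y' = g y := by
  classical
  rcases isEmpty_or_nonempty W with hW | ⟨⟨w0⟩⟩
  · exact ⟨C, inferInstance, f, id, fun _ => rfl, fun x => hW.elim x⟩
  obtain ⟨D, hD, g, p, hg1, hg2⟩ := box_tunAll.{u, v, w} R h1 h2 b (fun _ => 0) (Option C)
    (fun z => if h : ∃ x, e x = z then some (f h.choose) else none)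
  have hmem : ∀ x, e x ∈ box (fun _ => 0) b := fun x => ⟨fun i => zero_le, hb x⟩
  have hfe : ∀ x, (if h : ∃ x', e x' = e x then some (f h.choose) else none) = some (f x) := by
    intro x
    have h : ∃ x', e x' = e x := ⟨x, rfl⟩
    rw [dif_pos h]
    have := he h.choose_spec
    rw [this]
  refine ⟨D, hD, fun x => g (e x), fun d => (p d).getD (f w0), ?_, ?_⟩
  · intro x
    have := hg1 (e x) (hmem x)
    simp only [hfe] at this
    simp [← this]
  · intro x x' hxx y hR
    obtain ⟨y', hy', hR', hgy⟩ := hg2 (e x) (hmem x) (e x') (hmem x') hxx (e y) (hmem y) hR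
    have e1 := hg1 y' hy'
    have e2 := hg1 (e y) (hmem y)
    rw [hgy, ← e2] at e1
    simp only [hfe] at e1
    by_cases h : ∃ x, e x = y'
    · obtain ⟨y'', rfl⟩ := h
      exact ⟨y'', hR', hgy⟩
    · simp [h] at e1

end Pool.Agent.Helper62.OrdProd
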