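import Mathlib
import Pool.Agent.Helper62.OrdProd
import Pool.Agent.Helper62.FrameDefs

namespace Pool.Agent.Helper62.OrdFrames

open Set FrameDefs

universe u v

/-- Finite tuned refinement property of a frame. -/
def Tunable {W : Type v} (R : W → W → Prop) : Prop :=
  ∀ (C : Type v) [Finite C] (f : W → C),
    ∃ (D : Type v) (_ : Finite D) (g : W → D) (p : D → C), (∀ x, f x = p (g x)) ∧
      ∀ x x', g x = g x' → ∀ y, R x y → ∃ y', R x' y' ∧ g y' = g y

theorem tunable_mixed {k : ℕ} (α : Fin k → Ordinal.{u}) (s : Set (Fin k))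
    (S : Set (∀ i, Set.Iio (α i))) : Tunable (subframe (prodMixed α s) S) := by
  intro C _ f
  have := OrdProd.tun_of_embedding.{u, u + 1, 0} (W := S) (fun x i => (x.1 i).1)
    (by
      intro x y h
      apply Subtype.ext
      funext i
      apply Subtype.ext
      exact congrFun h i) α (fun x i => (x.1 i).2)
    (fun x y => ∀ i, (i ∈ s → x i < y i) ∧ (i ∉ s → x i ≤ y i))
    (by
      intro x y h i
      by_cases hi : i ∈ s
      · exact ((h i).1 hi).le
      · exact (h i).2 hi)
    (by
      intro x z y hxz h i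
      exact ⟨fun hi => lt_of_le_of_lt (hxz i) ((h i).1 hi),
        fun hi => le_trans (hxz i) ((h i).2 hi)⟩) f
  exact this

theorem tunable_mixed_full {k : ℕ} (α : Fin k → Ordinal.{u}) (s : Set (Fin k)) :
    Tunable (prodMixed α s) := by
  intro C _ f
  have := OrdProd.tun_of_embedding.{u, u + 1, 0} (W := ∀ i, Set.Iio (α i)) (fun x i => (x i).1)
    (by
      intro x y h
      funext i
      apply Subtype.ext
      exact congrFun h i) α (fun x i => (x i).2)
    (fun x y => ∀ i, (i ∈ s → x i < y i) ∧ (i ∉ s → x i ≤ y i))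
    (by
      intro x y h i
      by_cases hi : i ∈ s
      · exact ((h i).1 hi).le
      · exact (h i).2 hi)
    (by
      intro x z y hxz h i
      exact ⟨fun hi => lt_of_le_of_lt (hxz i) ((h i).1 hi),
        fun hi => le_trans (hxz i) ((h i).2 hi)⟩) f
  exact this

theorem prodMixed_empty {k : ℕ} (α : Fin k → Ordinal.{u}) : prodMixed α ∅ = prodLE α := by
  funext x y
  simp [prodMixed, prodLE]

theorem prodMixed_univ {k : ℕ} (α : Fin k → Ordinal.{u}) : prodMixed α Set.univ = prodLT α := by
  funext x y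
  simp [prodMixed, prodLT]

theorem Tunable.locallyFinite {W : Type v} {R : W → W → Prop} (h : Tunable R) :
    AlgLocallyFinite R := by
  classical
  intro G hG
  have : Finite G := hG
  obtain ⟨D, hD, g, p, hg1, hg2⟩ := h (ULift.{v} (G → Prop)) (fun x => ⟨fun X => x ∈ X.1⟩)
  have hfin : (Set.range (fun E : Set D => g ⁻¹' E)).Finite := Set.finite_range _
  refine hfin.subset ?_
  apply Set.sInter_subset_of_mem
  refine ⟨⟨⟨∅, by simp⟩, ?_, ?_, ?_⟩, ?_⟩
  · rintro _ ⟨E, rfl⟩
    exact ⟨Eᶜ, rfl⟩
  · rintro _ ⟨E, rfl⟩ _ ⟨F, rfl⟩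
    exact ⟨E ∪ F, rfl⟩
  · rintro _ ⟨E, rfl⟩
    refine ⟨{d | ∃ x, g x = d ∧ x ∈ diamond R (g ⁻¹' E)}, ?_⟩
    ext x
    constructor
    · rintro ⟨x', hx', y, hy, hR⟩
      obtain ⟨y', hR', hgy⟩ := hg2 x' x hx' y hR
      exact ⟨y', by simpa [hgy] using hy, hR'⟩
    · intro hx
      exact ⟨x, rfl, hx⟩
  · intro X hX
    refine ⟨{d | (p d).down ⟨X, hX⟩}, ?_⟩
    ext x
    simp only [Set.mem_preimage, Set.mem_ofPred_eq, ← hg1]

/-- the variables of a formula -/
def vars : Fml → Finset ℕ
  | Fml.var n => {n}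
  | Fml.bot => ∅
  | Fml.imp a b => vars a ∪ vars b
  | Fml.dia a => vars a

theorem Tunable.fmp {W : Type v} {R : W → W → Prop} (h : Tunable R) : LogFMP R := by
  classical
  intro a ha
  simp only [Log, Set.mem_ofPred_eq, not_forall] at ha
  obtain ⟨V, w, hw⟩ := ha
  have hfin : Finite (ULift.{v} (vars a → Prop)) := inferInstance
  obtain ⟨D, hD, g, p, hg1, hg2⟩ := h (ULift.{v} (vars a → Prop))
    (fun x => ULift.up (fun n : vars a => x ∈ V n.1))
  have hrange : Finite (Set.range g) := inferInstance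
  obtain ⟨n, ⟨e⟩⟩ := Finite.exists_equiv_fin (Set.range g)
  -- the quotient frame
  let q : W → Fin n := fun x => e ⟨g x, x, rfl⟩
  have hq : ∀ x y, q x = q y ↔ g x = g y := by
    intro x y
    simp only [q, EmbeddingLike.apply_eq_iff_eq]
    exact Subtype.ext_iff
  have hqs : ∀ d, ∃ x, q x = d := by
    intro d
    obtain ⟨x, hx⟩ := (e.symm d).2
    refine ⟨x, ?_⟩
    have h3 : (⟨g x, x, rfl⟩ : Set.range g) = e.symm d := Subtype.ext hx
    simp only [q]
    rw [h3, Equiv.apply_symm_apply]
  refine ⟨Fin n, inferInstance, fun c d => ∃ x y, q x = c ∧ q y = d ∧ R x y, ?_, ?_⟩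
  · intro b hb V' d
    obtain ⟨x, rfl⟩ := hqs d
    have key : ∀ (b : Fml) (x : W), Sat R (fun n => q ⁻¹' V' n) b x ↔
        Sat (fun c d => ∃ x y, q x = c ∧ q y = d ∧ R x y) V' b (q x) := by
      intro b
      induction b with
      | var n => intro x; rfl
      | bot => intro x; rfl
      | imp a b iha ihb => intro x; simp only [Sat, iha, ihb]
      | dia a iha =>
        intro x
        simp only [Sat]
        constructor
        · rintro ⟨y, hR, hs⟩
          exact ⟨q y, ⟨x, y, rfl, rfl, hR⟩, (iha y).1 hs⟩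
        · rintro ⟨d, ⟨x', y', hx', rfl, hR⟩, hs⟩
          obtain ⟨y, hR', hgy⟩ := hg2 x' x ((hq _ _).1 hx') y' hR
          refine ⟨y, hR', (iha y).2 ?_⟩
          rw [(hq y y').2 hgy]
          exact hs
    exact (key b x).1 (hb _ x)
  · intro hcon
    apply hw
    have hgV : ∀ n ∈ vars a, ∀ x y, q x = q y → (x ∈ V n ↔ y ∈ V n) := by
      intro n hn x y hxy
      have h3 := (hq x y).1 hxy
      have h4 : p (g x) = p (g y) := by rw [h3]
      rw [← hg1, ← hg1] at h4
      have h5 := congrFun (ULift.up_injective h4) ⟨n, hn⟩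
      simpa using h5
    have key : ∀ (b : Fml), vars b ⊆ vars a → ∀ x : W, Sat R V b x ↔
        Sat (fun c d => ∃ x y, q x = c ∧ q y = d ∧ R x y) (fun n => q '' V n) b (q x) := by
      intro b
      induction b with
      | var n =>
        intro hv x
        simp only [Sat, Set.mem_image]
        constructor
        · intro hx
          exact ⟨x, hx, rfl⟩
        · rintro ⟨y, hy, hxy⟩
          exact (hgV n (hv (by simp [vars])) y x hxy).1 hy
      | bot => intro _ x; rfl
      | imp a b iha ihb =>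
        intro hv x
        have hva : vars a ⊆ _ := (Finset.subset_union_left).trans hv
        have hvb : vars b ⊆ _ := (Finset.subset_union_right).trans hv
        simp only [Sat, iha hva, ihb hvb]
      | dia a iha =>
        intro hv x
        simp only [Sat]
        constructor
        · rintro ⟨y, hR, hs⟩
          exact ⟨q y, ⟨x, y, rfl, rfl, hR⟩, (iha hv y).1 hs⟩
        · rintro ⟨d, ⟨x', y', hx', rfl, hR⟩, hs⟩
          obtain ⟨y, hR', hgy⟩ := hg2 x' x ((hq _ _).1 hx') y' hR
          refine ⟨y, hR', (iha hv y).2 ?_⟩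
          rw [(hq y y').2 hgy]
          exact hs
    exact (key a (Finset.Subset.refl _) w).2 (hcon _ _)

end Pool.Agent.Helper62.OrdFrames
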