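import Mathlib

namespace Pool.Agent.Helper62.PspDefs

/-! Geometry -/

/-- The polytope spanned by the rational points `V`. -/
def polytope {s : ℕ} (V : Finset (Fin s → ℚ)) : Set (Fin s → ℝ) :=
  convexHull ℝ {x | ∃ v ∈ V, x = fun i => (v i : ℝ)}

/-- The polytope spanned by `V` is centrally symmetric about the origin and contains the origin in
its interior. -/
structure IsUnitBall {s : ℕ} (V : Finset (Fin s → ℚ)) : Prop where
  symm : ∀ x ∈ polytope V, -x ∈ polytope V
  int : (0 : Fin s → ℝ) ∈ interior (polytope V)

/-- The norm whose unit ball is the polytope. -/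
noncomputable def pnorm {s : ℕ} (V : Finset (Fin s → ℚ)) (x : Fin s → ℝ) : ℝ :=
  sInf {r : ℝ | 0 ≤ r ∧ ∃ y ∈ polytope V, x = r • y}

/-- The distance of two rational points. -/
noncomputable def pdist {s : ℕ} (V : Finset (Fin s → ℚ)) (p q : Fin s → ℚ) : ℝ :=
  pnorm V (fun i => (p i : ℝ) - (q i : ℝ))

/-! Tours -/

/-- The pairs of cyclically consecutive elements of a list. -/
def cyc {X : Type} (l : List X) : List (X × X) := l.zip (l.rotate 1)

/-- `l` is a round-trip through the points of the duplicate-free list `P`: it lists these points in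
the order of a Hamiltonian cycle. -/
def IsTour {s : ℕ} (P l : List (Fin s → ℚ)) : Prop := l.Perm P ∧ 3 ≤ l.length

/-- The round-trips `l` and `l'` share no (undirected) edge. -/
def EdgeDisjoint {X : Type} (l l' : List X) : Prop :=
  ∀ e ∈ cyc l, e ∉ cyc l' ∧ (e.2, e.1) ∉ cyc l'

/-- The length of a round-trip. -/
noncomputable def tourLength {s : ℕ} (V : Finset (Fin s → ℚ)) (l : List (Fin s → ℚ)) : ℝ :=
  ((cyc l).map (fun e => pdist V e.1 e.2)).sum

/-- `l` and `l'` are edge-disjoint round-trips through `P`. -/
def Feasible {s : ℕ} (P l l' : List (Fin s → ℚ)) : Prop :=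
  IsTour P l ∧ IsTour P l' ∧ EdgeDisjoint l l'

/-- `o` is a pair of edge-disjoint round-trips through `P` of maximum total length. -/
def IsOptimal {s : ℕ} (V : Finset (Fin s → ℚ)) (P : List (Fin s → ℚ))
    (o : List (Fin s → ℚ) × List (Fin s → ℚ)) : Prop :=
  Feasible P o.1 o.2 ∧
  ∀ l l', Feasible P l l' →
    tourLength V l + tourLength V l' ≤ tourLength V o.1 + tourLength V o.2

/-! Encodings by bit strings (prefix codes) -/

def boolCode : Bool → List Bool
  | false => [false]
  | true => [true, false, false]

def listCode {X : Type} (f : X → List Bool) : List X → List Bool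
  | [] => [false]
  | a :: l => true :: (f a ++ listCode f l)

/-- sign, binary digits of the numerator, binary digits of the denominator -/
def ratCode (q : ℚ) : List Bool :=
  true :: (boolCode (decide (q.num < 0)) ++
    (true :: (listCode boolCode q.num.natAbs.bits ++ listCode boolCode q.den.bits)))

/-- a list of points -/
def inputCode {s : ℕ} (P : List (Fin s → ℚ)) : List Bool :=
  listCode (fun x => listCode ratCode (List.ofFn x)) P

/-- a pair of lists of points -/
def outputCode {s : ℕ} (o : List (Fin s → ℚ) × List (Fin s → ℚ)) : List Bool :=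
  true :: (inputCode o.1 ++ inputCode o.2)

/-- Max-2-PSP for the unit ball spanned by `V` is solved by a function that is computable in
polynomial time by a Turing machine: if the set `P` admits two edge-disjoint round-trips, the output
is an optimal pair; otherwise the output consists of two empty lists. -/
def Solvable {s : ℕ} (V : Finset (Fin s → ℚ)) : Prop :=
  ∃ f : List (Fin s → ℚ) → List (Fin s → ℚ) × List (Fin s → ℚ),
    Nonempty (Turing.TM2ComputableInPolyTime inputCode outputCode f) ∧
    ∀ P : List (Fin s → ℚ), P.Nodup →
      ((∃ l l', Feasible P l l') → IsOptimal V P (f P)) ∧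
      ((¬ ∃ l l', Feasible P l l') → f P = ([], []))

end Pool.Agent.Helper62.PspDefs
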