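import Mathlib
import Pool.Agent.Helper62.PspDefs

namespace Pool.Agent.Helper62.PspNorm

open PspDefs Set

variable {s : ℕ}

/-- scalar product -/
def sp (h x : Fin s → ℝ) : ℝ := ∑ i, h i * x i

def toR (v : Fin s → ℚ) : Fin s → ℝ := fun i => (v i : ℝ)

theorem sp_add_left (h h' x : Fin s → ℝ) : sp (h + h') x = sp h x + sp h' x := by
  unfold sp
  rw [← Finset.sum_add_distrib]
  exact Finset.sum_congr rfl (fun i _ => by rw [Pi.add_apply]; ring)

theorem sp_sub_left (h h' x : Fin s → ℝ) : sp (h - h') x = sp h x - sp h' x := by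
  unfold sp
  rw [← Finset.sum_sub_distrib]
  exact Finset.sum_congr rfl (fun i _ => by rw [Pi.sub_apply]; ring)

theorem sp_smul_left (r : ℝ) (h x : Fin s → ℝ) : sp (r • h) x = r * sp h x := by
  unfold sp
  rw [Finset.mul_sum]
  exact Finset.sum_congr rfl (fun i _ => by rw [Pi.smul_apply, smul_eq_mul]; ring)

theorem sp_smul_right (r : ℝ) (h x : Fin s → ℝ) : sp h (r • x) = r * sp h x := by
  unfold sp
  rw [Finset.mul_sum]
  exact Finset.sum_congr rfl (fun i _ => by rw [Pi.smul_apply, smul_eq_mul]; ring)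

theorem sp_add_right (h x y : Fin s → ℝ) : sp h (x + y) = sp h x + sp h y := by
  unfold sp
  rw [← Finset.sum_add_distrib]
  exact Finset.sum_congr rfl (fun i _ => by rw [Pi.add_apply]; ring)

theorem continuous_sp (x : Fin s → ℝ) : Continuous (fun h : Fin s → ℝ => sp h x) := by
  unfold sp
  fun_prop

def polar (V : Finset (Fin s → ℚ)) : Set (Fin s → ℝ) := {h | ∀ v ∈ V, sp h (toR v) ≤ 1}

theorem polar_le {V : Finset (Fin s → ℚ)} {h : Fin s → ℝ} (hh : h ∈ polar V) {x : Fin s → ℝ}
    (hx : x ∈ polytope V) : sp h x ≤ 1 := by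
  have h1 : polytope V ⊆ {x | sp h x ≤ 1} := by
    apply convexHull_min
    · rintro x ⟨v, hv, rfl⟩
      exact hh v hv
    · intro x hx y hy a b ha hb hab
      simp only [mem_setOf_eq] at hx hy ⊢
      rw [sp_add_right, sp_smul_right, sp_smul_right]
      nlinarith
  exact h1 hx

theorem convex_polar (V : Finset (Fin s → ℚ)) : Convex ℝ (polar V) := by
  intro h hh h' hh' a b ha hb hab v hv
  have h1 := hh v hv
  have h2 := hh' v hv
  rw [sp_add_left, sp_smul_left, sp_smul_left]
  nlinarith

theorem isCompact_polar {V : Finset (Fin s → ℚ)} (hV : IsUnitBall V) : IsCompact (polar V) := by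
  apply Metric.isCompact_of_isClosed_isBounded
  · have : polar V = ⋂ v ∈ V, {h | sp h (toR v) ≤ 1} := by
      ext h
      simp [polar]
    rw [this]
    exact isClosed_biInter (fun v _ => isClosed_le (continuous_sp _) continuous_const)
  · obtain ⟨ε, hε, hball⟩ := Metric.mem_nhds_iff.1 (mem_interior_iff_mem_nhds.1 hV.int)
    rw [isBounded_iff_forall_norm_le]
    refine ⟨2 / ε, ?_⟩
    intro h hh
    rw [pi_norm_le_iff_of_nonneg (by positivity)]
    intro i
    have key : ∀ c : ℝ, |c| < ε → c * h i ≤ 1 := by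
      intro c hc
      have hmem : Pi.single i c ∈ polytope V := by
        apply hball
        rw [mem_ball_zero_iff, Pi.norm_single, Real.norm_eq_abs]
        exact hc
      have h1 := polar_le hh hmem
      have h2 : sp h (Pi.single i c) = c * h i := by
        unfold sp
        rw [Finset.sum_eq_single i]
        · rw [Pi.single_eq_same]; ring
        · intro j _ hj
          rw [Pi.single_eq_of_ne hj]; ring
        · intro hi; exact absurd (Finset.mem_univ i) hi
      rw [h2] at h1
      exact h1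
    have h1 := key (ε / 2) (by rw [abs_of_pos (by positivity)]; linarith)
    have h2 := key (-(ε / 2)) (by rw [abs_neg, abs_of_pos (by positivity)]; linarith)
    rw [Real.norm_eq_abs, abs_le, le_div_iff₀ hε]
    constructor
    · rw [← neg_le_neg_iff, neg_neg, le_div_iff₀ hε]
      linarith
    · linarith

theorem zero_mem_polar (V : Finset (Fin s → ℚ)) : (0 : Fin s → ℝ) ∈ polar V := by
  intro v _
  simp [sp]

/-- the linear form -/
noncomputable def form (z : Fin s → ℝ) : StrongDual ℝ (Fin s → ℝ) :=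
  ∑ i, z i • (ContinuousLinearMap.proj i : (Fin s → ℝ) →L[ℝ] ℝ)

theorem form_apply (z h : Fin s → ℝ) : form z h = sp h z := by
  unfold form sp
  rw [ContinuousLinearMap.sum_apply]
  exact Finset.sum_congr rfl (fun i _ => by simp; ring)

/-- The maximum over the polar is attained at an extreme point. -/
theorem exists_max {V : Finset (Fin s → ℚ)} (hV : IsUnitBall V) (z : Fin s → ℝ) :
    ∃ h ∈ (polar V).extremePoints ℝ, ∀ h' ∈ polar V, sp h' z ≤ sp h z := by
  have hc := isCompact_polar hV
  let F : Set (Fin s → ℝ) := {h ∈ polar V | ∀ h' ∈ polar V, form z h' ≤ form z h}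
  have hF : IsExposed ℝ (polar V) F := fun _ => ⟨form z, rfl⟩
  have hFc : IsCompact F := hF.isCompact hc
  obtain ⟨h0, h0m, h0max⟩ := hc.exists_isMaxOn ⟨0, zero_mem_polar V⟩ (form z).continuous.continuousOn
  have hFne : F.Nonempty := ⟨h0, h0m, fun h' hh' => h0max hh'⟩
  obtain ⟨h, hh⟩ := hFc.extremePoints_nonempty hFne
  refine ⟨h, hF.isExtreme.extremePoints_subset_extremePoints hh, ?_⟩
  have h1 : h ∈ F := (mem_extremePoints.1 hh).1
  intro h' hh'
  have := h1.2 h' hh'
  rwa [form_apply, form_apply] at this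

/-- Tight constraints determine extreme points. -/
theorem eq_zero_of_tight {V : Finset (Fin s → ℚ)} {h : Fin s → ℝ}
    (hh : h ∈ (polar V).extremePoints ℝ) (u : Fin s → ℝ)
    (hu : ∀ v ∈ V, sp h (toR v) = 1 → sp u (toR v) = 0) : u = 0 := by
  rw [mem_extremePoints] at hh
  obtain ⟨hh1, hh2⟩ := hh
  -- a small multiple of `u`
  have key : ∃ δ : ℝ, 0 < δ ∧ ∀ v ∈ V, δ * |sp u (toR v)| ≤ 1 - sp h (toR v) := by
    have h1 : ∀ v ∈ V, ∃ δ : ℝ, 0 < δ ∧ δ * |sp u (toR v)| ≤ 1 - sp h (toR v) := by
      intro v hv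
      by_cases ht : sp h (toR v) = 1
      · exact ⟨1, one_pos, by rw [hu v hv ht, ht]; simp⟩
      · have h2 : 0 < 1 - sp h (toR v) := by
          have := hh1 v hv
          rcases this.lt_or_eq with h3 | h3
          · linarith
          · exact absurd h3 ht
        refine ⟨(1 - sp h (toR v)) / (|sp u (toR v)| + 1), by positivity, ?_⟩
        rw [div_mul_eq_mul_div, div_le_iff₀ (by positivity)]
        have := abs_nonneg (sp u (toR v))
        nlinarith
    clear hu hh2 hh1
    induction V using Finset.induction_on with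
    | empty => exact ⟨1, one_pos, by simp⟩
    | insert v V hvV ih =>
      obtain ⟨δ, hδ, h2⟩ := ih (fun w hw => h1 w (Finset.mem_insert_of_mem hw))
      obtain ⟨δ', hδ', h3⟩ := h1 v (Finset.mem_insert_self v V)
      refine ⟨min δ δ', lt_min hδ hδ', ?_⟩
      intro w hw
      rw [Finset.mem_insert] at hw
      rcases hw with rfl | hw
      · refine le_trans ?_ h3
        exact mul_le_mul_of_nonneg_right (min_le_right _ _) (abs_nonneg _)
      · refine le_trans ?_ (h2 w hw)
        exact mul_le_mul_of_nonneg_right (min_le_left _ _) (abs_nonneg _)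
  obtain ⟨δ, hδ, hδ'⟩ := key
  have h1 : h - δ • u ∈ polar V := by
    intro v hv
    rw [sp_sub_left, sp_smul_left]
    have h2 := hδ' v hv
    have h3 := neg_abs_le (sp u (toR v))
    nlinarith
  have h2 : h + δ • u ∈ polar V := by
    intro v hv
    rw [sp_add_left, sp_smul_left]
    have h2 := hδ' v hv
    have h3 := le_abs_self (sp u (toR v))
    nlinarith
  have h3 := hh2 _ h1 _ h2 ⟨1 / 2, 1 / 2, by norm_num, by norm_num, by norm_num, by
    ext i
    simp
    ring⟩
  have h4 : δ • u = 0 := by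
    have := h3.1
    rwa [sub_eq_self] at this
  rcases smul_eq_zero.1 h4 with h5 | h5
  · exact absurd h5 hδ.ne'
  · exact h5

/-- Extreme points of the polar are rational. -/
theorem rational_of_extreme {V : Finset (Fin s → ℚ)} {h : Fin s → ℝ}
    (hh : h ∈ (polar V).extremePoints ℝ) : ∃ q : Fin s → ℚ, toR q = h := by
  classical
  let W : Finset (Fin s → ℚ) := V.filter (fun v => sp h (toR v) = 1)
  let A : (Fin s → ℚ) →ₗ[ℚ] (W → ℚ) := LinearMap.pi (fun v =>
    ∑ i, (v.1 i) • (LinearMap.proj i : (Fin s → ℚ) →ₗ[ℚ] ℚ))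
  have hA : ∀ q v, A q v = ∑ i, q i * v.1 i := by
    intro q v
    simp only [A, LinearMap.pi_apply, LinearMap.sum_apply, LinearMap.smul_apply, LinearMap.proj_apply,
      smul_eq_mul]
    exact Finset.sum_congr rfl (fun i _ => mul_comm _ _)
  have hmem : (fun _ => 1 : W → ℚ) ∈ LinearMap.range A := by
    by_contra hcon
    obtain ⟨f, hf1, hf2⟩ := Submodule.exists_le_ker_of_notMem hcon
    let c : W → ℚ := fun v => f (fun j => if v = j then 1 else 0)
    have hfc : ∀ y, f y = ∑ v, y v * c v := by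
      intro y
      rw [LinearMap.pi_apply_eq_sum_univ f y]
      rfl
    have h1 : ∀ i, ∑ v : W, c v * v.1 i = 0 := by
      intro i
      have h2 : f (A (Pi.single i 1)) = 0 := hf2 ⟨_, rfl⟩
      rw [hfc] at h2
      rw [← h2]
      apply Finset.sum_congr rfl
      intro v _
      rw [hA, Finset.sum_eq_single i]
      · rw [Pi.single_eq_same]; ring
      · intro j _ hj; rw [Pi.single_eq_of_ne hj]; ring
      · intro hi; exact absurd (Finset.mem_univ i) hi
    have h3 : (∑ v : W, c v) ≠ 0 := by
      rw [hfc] at hf1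
      simpa using hf1
    apply h3
    have h4 : ((∑ v : W, c v : ℚ) : ℝ) = ∑ v : W, (c v : ℝ) * sp h (toR v.1) := by
      push_cast
      apply Finset.sum_congr rfl
      intro v _
      have := (Finset.mem_filter.1 v.2).2
      rw [this, mul_one]
    have h5 : ∑ v : W, (c v : ℝ) * sp h (toR v.1) = ∑ i, h i * ((∑ v : W, c v * v.1 i : ℚ) : ℝ) := by
      unfold sp toR
      simp only [Finset.mul_sum]
      rw [Finset.sum_comm]
      apply Finset.sum_congr rfl
      intro i _
      push_cast
      rw [Finset.mul_sum]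
      apply Finset.sum_congr rfl
      intro v _
      ring
    have h6 : ((∑ v : W, c v : ℚ) : ℝ) = 0 := by
      rw [h4, h5]
      apply Finset.sum_eq_zero
      intro i _
      rw [h1 i, Rat.cast_zero, mul_zero]
    exact_mod_cast h6
  obtain ⟨q, hq⟩ := hmem
  refine ⟨q, ?_⟩
  have h1 : h - toR q = 0 := by
    apply eq_zero_of_tight hh
    intro v hv ht
    rw [sp_sub_left, ht]
    have hvW : v ∈ W := Finset.mem_filter.2 ⟨hv, ht⟩
    have h2 := congrFun hq ⟨v, hvW⟩
    rw [hA] at h2
    have h3 : sp (toR q) (toR v) = ((∑ i, q i * v i : ℚ) : ℝ) := by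
      unfold sp toR
      push_cast
      rfl
    rw [h3, h2]
    simp
  exact (sub_eq_zero.1 h1).symm

theorem finite_extreme (V : Finset (Fin s → ℚ)) : ((polar V).extremePoints ℝ).Finite := by
  classical
  refine Set.Finite.of_injOn (f := fun h => V.filter (fun v => sp h (toR v) = 1))
    (t := (↑V.powerset : Set (Finset (Fin s → ℚ)))) ?_ ?_ (Finset.finite_toSet _)
  · intro h _
    exact Finset.mem_coe.2 (Finset.mem_powerset.2 (Finset.filter_subset _ _))
  · intro h hh h' hh' heq
    have h1 : h - h' = 0 := by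
      apply eq_zero_of_tight hh
      intro v hv ht
      have h2 : v ∈ V.filter (fun v => sp h (toR v) = 1) := Finset.mem_filter.2 ⟨hv, ht⟩
      have heq' : V.filter (fun v => sp h (toR v) = 1) = V.filter (fun v => sp h' (toR v) = 1) := heq
      rw [heq'] at h2
      rw [sp_sub_left, ht, (Finset.mem_filter.1 h2).2, sub_self]
    exact sub_eq_zero.1 h1

theorem zero_mem {V : Finset (Fin s → ℚ)} (hV : IsUnitBall V) : (0 : Fin s → ℝ) ∈ polytope V :=
  interior_subset hV.int

theorem closed_polytope (V : Finset (Fin s → ℚ)) : IsClosed (polytope V) := by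
  have h1 : {x : Fin s → ℝ | ∃ v ∈ V, x = fun i => (v i : ℝ)}.Finite := by
    have : {x : Fin s → ℝ | ∃ v ∈ V, x = fun i => (v i : ℝ)} = toR '' (↑V : Set (Fin s → ℚ)) := by
      ext x
      simp only [mem_setOf_eq, mem_image, Finset.mem_coe, toR]
      constructor
      · rintro ⟨v, hv, rfl⟩; exact ⟨v, hv, rfl⟩
      · rintro ⟨v, hv, rfl⟩; exact ⟨v, hv, rfl⟩
    rw [this]
    exact (Finset.finite_toSet V).image _
  exact (h1.isCompact_convexHull (𝕜 := ℝ)).isClosed

/-- The norm is a maximum of finitely many rational linear forms. -/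
theorem pnorm_eq {V : Finset (Fin s → ℚ)} (hV : IsUnitBall V) :
    ∃ (k : ℕ) (H : Fin k → (Fin s → ℚ)), (∀ z j, sp (toR (H j)) z ≤ pnorm V z) ∧
      ∀ z, ∃ j, sp (toR (H j)) z = pnorm V z := by
  have hfin : Finite ((polar V).extremePoints ℝ) := (finite_extreme V).to_subtype
  obtain ⟨k, ⟨e⟩⟩ := Finite.exists_equiv_fin ((polar V).extremePoints ℝ)
  choose q hq using fun h : (polar V).extremePoints ℝ => rational_of_extreme h.2
  have hne : ∀ z : Fin s → ℝ, {r : ℝ | 0 ≤ r ∧ ∃ y ∈ polytope V, z = r • y}.Nonempty := by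
    intro z
    obtain ⟨ε, hε, hball⟩ := Metric.mem_nhds_iff.1 (mem_interior_iff_mem_nhds.1 hV.int)
    refine ⟨(‖z‖ + 1) / (ε / 2), by positivity, ((ε / 2) / (‖z‖ + 1)) • z, ?_, ?_⟩
    · apply hball
      rw [mem_ball_zero_iff, norm_smul, Real.norm_eq_abs, abs_of_pos (by positivity),
        div_mul_eq_mul_div, div_lt_iff₀ (by positivity)]
      have := norm_nonneg z
      nlinarith
    · rw [smul_smul]
      have h1 : (‖z‖ + 1) / (ε / 2) * (ε / 2 / (‖z‖ + 1)) = 1 := by
        have : ‖z‖ + 1 ≠ 0 := by positivity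
        field_simp
      rw [h1, one_smul]
  have hbdd : ∀ z : Fin s → ℝ, BddBelow {r : ℝ | 0 ≤ r ∧ ∃ y ∈ polytope V, z = r • y} :=
    fun z => ⟨0, fun r hr => hr.1⟩
  have hle : ∀ h ∈ polar V, ∀ z, sp h z ≤ pnorm V z := by
    intro h hh z
    apply le_csInf (hne z)
    rintro r ⟨hr, y, hy, rfl⟩
    rw [sp_smul_right]
    have := polar_le hh hy
    nlinarith
  have hge : ∀ z, ∃ h ∈ (polar V).extremePoints ℝ, pnorm V z ≤ sp h z := by
    intro z
    obtain ⟨h, hh, hmax⟩ := exists_max hV z
    refine ⟨h, hh, ?_⟩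
    by_contra hcon
    rw [not_le] at hcon
    have hM : 0 ≤ sp h z := by
      have := hmax 0 (zero_mem_polar V)
      simpa [sp] using this
    obtain ⟨r, hr1, hr2⟩ := exists_between hcon
    have hr0 : 0 < r := lt_of_le_of_lt hM hr1
    have hnot : (r⁻¹ • z) ∉ polytope V := by
      intro hmem
      have : pnorm V z ≤ r := csInf_le (hbdd z) ⟨hr0.le, r⁻¹ • z, hmem, by
        rw [smul_smul, mul_inv_cancel₀ hr0.ne', one_smul]⟩
      linarith
    obtain ⟨f, u, hf1, hf2⟩ := geometric_hahn_banach_closed_point (convex_convexHull ℝ _)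
      (closed_polytope V) hnot
    have hu : 0 < u := by
      have := hf1 0 (zero_mem hV)
      simpa using this
    let g : Fin s → ℝ := fun i => u⁻¹ * f (fun j => if i = j then 1 else 0)
    have hg : ∀ x, sp g x = u⁻¹ * f x := by
      intro x
      have h1 := LinearMap.pi_apply_eq_sum_univ (f : (Fin s → ℝ) →ₗ[ℝ] ℝ) x
      have h2 : f x = ∑ i, x i • f (fun j => if i = j then 1 else 0) := h1
      rw [h2]
      unfold sp
      rw [Finset.mul_sum]
      apply Finset.sum_congr rfl
      intro i _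
      simp only [g, smul_eq_mul]
      ring
    have hgp : g ∈ polar V := by
      intro v hv
      rw [hg]
      have h1 := hf1 (toR v) (subset_convexHull ℝ _ ⟨v, hv, rfl⟩)
      rw [inv_mul_le_iff₀ hu]
      linarith
    have h1 := hmax g hgp
    have h2 : 1 < sp g (r⁻¹ • z) := by
      rw [hg, lt_inv_mul_iff₀ hu]
      linarith
    rw [sp_smul_right, lt_inv_mul_iff₀ hr0] at h2
    linarith
  refine ⟨k, fun j => q (e.symm j), ?_, ?_⟩
  · intro z j
    rw [hq]
    exact hle _ (mem_extremePoints.1 (e.symm j).2).1 z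
  · intro z
    obtain ⟨h, hh, h1⟩ := hge z
    refine ⟨e ⟨h, hh⟩, ?_⟩
    rw [hq]
    rw [Equiv.symm_apply_apply]
    exact le_antisymm (hle _ (mem_extremePoints.1 hh).1 z) h1

end Pool.Agent.Helper62.PspNorm
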