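import Mathlib
import Pool.Agent.Helper62.PspDefs
import Pool.Agent.Helper62.PspNorm
import Pool.Agent.Helper62.PspPoly

namespace Pool.Agent.Helper62.PspMain

open Pool.Agent.Helper58 Psp PspDefs PspNorm

/-! ### Codes -/

theorem boolCode_eq (b : Bool) : boolCode b = (DTree.ofBool b).code := by
  cases b <;> rfl

theorem listCode_eq {X : Type} (f : X → List Bool) (g : X → DTree) (h : ∀ a, f a = (g a).code)
    (l : List X) : listCode f l = (DTree.ofList g l).code := by
  induction l with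
  | nil => rfl
  | cons a l ih =>
    simp only [listCode, DTree.ofList, DTree.code, h a, ih]

theorem ratCode_eq (q : ℚ) : ratCode q = (DTree.ofRat q).code := by
  unfold ratCode DTree.ofRat
  simp only [DTree.code, boolCode_eq]
  rw [listCode_eq boolCode DTree.ofBool boolCode_eq, listCode_eq boolCode DTree.ofBool boolCode_eq]

instance encPt (s : ℕ) : Enc (Fin s → ℚ) := ⟨fun x => DTree.ofList DTree.ofRat (List.ofFn x),
  fun _ _ h => List.ofFn_injective (DTree.ofList_inj ofRat_inj h)⟩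

variable {s : ℕ}

theorem inputCode_eq (P : List (Fin s → ℚ)) : inputCode P = (enc P).code := by
  unfold inputCode
  rw [listCode_eq _ (fun x : Fin s → ℚ => DTree.ofList DTree.ofRat (List.ofFn x))]
  · rfl
  · intro x
    exact listCode_eq _ _ ratCode_eq _

theorem outputCode_eq (o : List (Fin s → ℚ) × List (Fin s → ℚ)) : outputCode o = (enc o).code := by
  unfold outputCode
  rw [inputCode_eq, inputCode_eq]
  rfl

/-! ### Weights -/

variable {k : ℕ} (H : Fin k → (Fin s → ℚ))

def hv (t : Lab k) (i : Fin s) : ℚ := (H t.2.1 i - H t.1 i) + (H t.2.2.2 i - H t.2.2.1 i)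

def Hf (t : Lab k) : List Fr := (List.ofFn (hv H t)).map frQ

def wF (x : (Fin s → ℚ) × Lab k) : Fr := dotF (Hf H x.2) ((List.ofFn x.1).map frQ)

def wq (x : (Fin s → ℚ) × Lab k) : ℚ := ∑ i, hv H x.2 i * x.1 i

def totF (a : List ((Fin s → ℚ) × Lab k)) : Fr := sumF (a.map (wF H))

def geB (a b : List ((Fin s → ℚ) × Lab k)) : Bool := geF (totF H a) (totF H b)

theorem dot_eq (u v : Fin s → ℚ) : (dotF ((List.ofFn u).map frQ) ((List.ofFn v).map frQ)).ok ∧
    (dotF ((List.ofFn u).map frQ) ((List.ofFn v).map frQ)).val = ∑ i, u i * v i := by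
  unfold dotF
  rw [List.ofFn_eq_map, List.ofFn_eq_map, List.map_map, List.map_map, List.zip_map', List.map_map]
  have hok : ∀ a ∈ (List.finRange s).map ((fun q : Fr × Fr => mulF q.1 q.2) ∘
      fun a => ((frQ ∘ u) a, (frQ ∘ v) a)), a.ok := by
    intro a ha
    rw [List.mem_map] at ha
    obtain ⟨i, _, rfl⟩ := ha
    exact mulF_ok (frQ_ok _) (frQ_ok _)
  refine ⟨sumF_ok _ hok, ?_⟩
  rw [sumF_val _ hok, List.map_map, Fin.sum_univ_def]
  congr 1
  apply List.map_congr_left
  intro i _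
  simp only [Function.comp_apply]
  rw [mulF_val (frQ_ok _) (frQ_ok _), frQ_val, frQ_val]

theorem wF_ok (x : (Fin s → ℚ) × Lab k) : (wF H x).ok := (dot_eq _ _).1

theorem wF_val (x : (Fin s → ℚ) × Lab k) : (wF H x).val = wq H x := (dot_eq _ _).2

theorem totF_spec (a : List ((Fin s → ℚ) × Lab k)) :
    (totF H a).ok ∧ (totF H a).val = wsum (wq H) a := by
  have hok : ∀ y ∈ a.map (wF H), y.ok := by
    intro y hy
    rw [List.mem_map] at hy
    obtain ⟨x, _, rfl⟩ := hy
    exact wF_ok H x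
  refine ⟨sumF_ok _ hok, ?_⟩
  unfold totF wsum
  rw [sumF_val _ hok, List.map_map]
  congr 1
  apply List.map_congr_left
  intro x _
  exact wF_val H x

theorem geB_iff (a b : List ((Fin s → ℚ) × Lab k)) :
    geB H a b = true ↔ wsum (wq H) b ≤ wsum (wq H) a := by
  unfold geB
  rw [geF_iff (totF_spec H a).1 (totF_spec H b).1, (totF_spec H a).2, (totF_spec H b).2]

theorem ptf_ofFn : PTf (fun v : Fin s → ℚ => List.ofFn v) := PTf.of_enc_eq (fun _ => rfl)

theorem ptf_wF : PTf (wF H) := by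
  unfold wF
  have h1 : PTf (Hf H) := ptf_finite _
  have h2 : PTf (fun x : (Fin s → ℚ) × Lab k => Hf H x.2) := PTf.comp h1 (by fun_prop)
  have h3 : PTf (fun x : (Fin s → ℚ) × Lab k => List.ofFn x.1) := PTf.comp ptf_ofFn (by fun_prop)
  fun_prop

theorem ptf_geB : PTf (fun p : List ((Fin s → ℚ) × Lab k) × List ((Fin s → ℚ) × Lab k) =>
    geB H p.1 p.2) := by
  unfold geB totF
  have h1 : PTf (fun q : (List ((Fin s → ℚ) × Lab k) × List ((Fin s → ℚ) × Lab k)) ×
      ((Fin s → ℚ) × Lab k) => wF H q.2) := PTf.comp (ptf_wF H) (by fun_prop)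
  have h2 : PTf (fun p : List ((Fin s → ℚ) × Lab k) × List ((Fin s → ℚ) × Lab k) =>
      p.1.map (wF H)) := PTf.map (f := fun _ => wF H) (by fun_prop) h1
  have h3 : PTf (fun p : List ((Fin s → ℚ) × Lab k) × List ((Fin s → ℚ) × Lab k) =>
      p.2.map (wF H)) := PTf.map (f := fun _ => wF H) (by fun_prop) h1
  fun_prop

/-- The algorithm. -/
def algo (N : ℕ) (P : List (Fin s → ℚ)) : List (Fin s → ℚ) × List (Fin s → ℚ) :=
  ((algoL (geB H) N P).1.map Prod.fst, (algoL (geB H) N P).2.map Prod.fst)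

theorem polyTime_algo (N : ℕ) :
    Nonempty (Turing.TM2ComputableInPolyTime inputCode outputCode (algo H N)) := by
  have h0 : PTf (fun P : List (Fin s → ℚ) => algoL (geB H) N P) :=
    ptf_algoL (ptf_geB H) (fun a => (geB_iff H a a).2 le_rfl) N ptf_id
  have h1 : PTf (algo H N) := by
    unfold algo
    fun_prop
  exact PTf.polyTime (A := Bool) inputCode outputCode (algo H N) id [] h1 id
    (fun x => by rw [inputCode_eq]; simp) (fun x => outputCode_eq _)

/-! ### Labelled lengths -/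

theorem sum_cyc {X : Type} (T : List X) (f g : X → ℝ) :
    ((Psp.cyc T).map (fun e => f e.1 - g e.2)).sum = (T.map f).sum - (T.map g).sum := by
  have h1 : ∀ l : List (X × X), (l.map (fun e => f e.1 - g e.2)).sum =
      ((l.map Prod.fst).map f).sum - ((l.map Prod.snd).map g).sum := by
    intro l
    induction l with
    | nil => simp
    | cons a l ih => simp only [List.map_cons, List.sum_cons, ih]; ring
  rw [h1, map_fst_cyc, map_snd_cyc, ((List.rotate_perm T 1).map g).sum_eq]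

theorem sp_toR_sub (h x y : Fin s → ℝ) : sp h (fun i => x i - y i) = sp h x - sp h y := by
  unfold sp
  rw [← Finset.sum_sub_distrib]
  exact Finset.sum_congr rfl (fun i _ => by ring)

/-- labelled length of a closed chain -/
theorem labelled_length {X : Type} (T : List (X)) (pt : X → (Fin s → ℚ)) (i o : X → Fin k)
    (hcl : ∀ e ∈ Psp.cyc T, o e.1 = i e.2) :
    (T.map (fun x => sp (toR (H (o x))) (toR (pt x)) - sp (toR (H (i x))) (toR (pt x)))).sum =
      ((Psp.cyc T).map (fun e => sp (toR (H (o e.1)))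
        (fun j => (pt e.1 j : ℝ) - (pt e.2 j : ℝ)))).sum := by
  have h1 : (T.map (fun x => sp (toR (H (o x))) (toR (pt x)) - sp (toR (H (i x))) (toR (pt x)))).sum =
      (T.map (fun x => sp (toR (H (o x))) (toR (pt x)))).sum -
      (T.map (fun x => sp (toR (H (i x))) (toR (pt x)))).sum := by
    clear hcl
    induction T with
    | nil => simp
    | cons a l ih => simp only [List.map_cons, List.sum_cons, ih]; ring
  rw [h1, ← sum_cyc]
  congr 1
  apply List.map_congr_left
  intro e he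
  rw [hcl e he]
  have := sp_toR_sub (toR (H (i e.2))) (toR (pt e.1)) (toR (pt e.2))
  rw [← this]
  rfl

theorem wq_eq (x : (Fin s → ℚ) × Lab k) : ((wq H x : ℚ) : ℝ) =
    (sp (toR (H (o1 x))) (toR x.1) - sp (toR (H (i1 x))) (toR x.1)) +
    (sp (toR (H (o2 x))) (toR x.1) - sp (toR (H (i2 x))) (toR x.1)) := by
  unfold wq hv sp toR o1 i1 o2 i2
  push_cast
  rw [← Finset.sum_sub_distrib, ← Finset.sum_sub_distrib, ← Finset.sum_add_distrib]
  exact Finset.sum_congr rfl (fun i _ => by ring)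

theorem wsum_eq (T1 T2 : List ((Fin s → ℚ) × Lab k)) (hT : Valid T1 T2) :
    ((wsum (wq H) T1 : ℚ) : ℝ) =
      ((Psp.cyc T1).map (fun e => sp (toR (H (o1 e.1)))
        (fun j => (e.1.1 j : ℝ) - (e.2.1 j : ℝ)))).sum +
      ((Psp.cyc T2).map (fun e => sp (toR (H (o2 e.1)))
        (fun j => (e.1.1 j : ℝ) - (e.2.1 j : ℝ)))).sum := by
  rw [← labelled_length H T1 Prod.fst i1 o1 hT.cl1, ← labelled_length H T2 Prod.fst i2 o2 hT.cl2]
  rw [(hT.perm.map _).sum_eq]
  unfold wsum
  have h1 : ∀ T : List ((Fin s → ℚ) × Lab k), (((T.map (wq H)).sum : ℚ) : ℝ) =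
      (T.map (fun x => sp (toR (H (o1 x))) (toR x.1) - sp (toR (H (i1 x))) (toR x.1))).sum +
      (T.map (fun x => sp (toR (H (o2 x))) (toR x.1) - sp (toR (H (i2 x))) (toR x.1))).sum := by
    intro T
    induction T with
    | nil => simp
    | cons a l ih =>
      simp only [List.map_cons, List.sum_cons]
      rw [Rat.cast_add, ih, wq_eq]
      ring
  exact h1 T1

theorem tourLength_map {V : Finset (Fin s → ℚ)} (T : List ((Fin s → ℚ) × Lab k)) :
    tourLength V (T.map Prod.fst) = ((Psp.cyc T).map (fun e => pdist V e.1.1 e.2.1)).sum := by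
  unfold tourLength
  have h1 : PspDefs.cyc (T.map Prod.fst) = (Psp.cyc T).map (Prod.map Prod.fst Prod.fst) :=
    cyc_map Prod.fst T
  rw [h1, List.map_map]
  rfl

theorem sum_le_sum' {X : Type} (l : List X) (f g : X → ℝ) (h : ∀ x ∈ l, f x ≤ g x) :
    (l.map f).sum ≤ (l.map g).sum := List.sum_le_sum h

theorem wsum_le {V : Finset (Fin s → ℚ)} (hH : ∀ z j, sp (toR (H j)) z ≤ pnorm V z)
    (T1 T2 : List ((Fin s → ℚ) × Lab k)) (hT : Valid T1 T2) :
    ((wsum (wq H) T1 : ℚ) : ℝ) ≤ tourLength V (T1.map Prod.fst) + tourLength V (T2.map Prod.fst) := by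
  rw [wsum_eq H T1 T2 hT, tourLength_map, tourLength_map]
  apply add_le_add
  · exact sum_le_sum' _ _ _ (fun e _ => hH _ _)
  · exact sum_le_sum' _ _ _ (fun e _ => hH _ _)

/-! ### Optimal labels -/

section lab

variable (J : (Fin s → ℚ) → (Fin s → ℚ) → Fin k)

open Classical in
/-- successor in the tour -/
noncomputable def sc (l : List (Fin s → ℚ)) (x : Fin s → ℚ) : Fin s → ℚ :=
  if h : ∃ y, (x, y) ∈ Psp.cyc l then h.choose else x

open Classical in
/-- predecessor in the tour -/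
noncomputable def pr (l : List (Fin s → ℚ)) (y : Fin s → ℚ) : Fin s → ℚ :=
  if h : ∃ x, (x, y) ∈ Psp.cyc l then h.choose else y

theorem sc_eq {l : List (Fin s → ℚ)} (hl : l.Nodup) {x y : Fin s → ℚ} (h : (x, y) ∈ Psp.cyc l) :
    sc l x = y := by
  have h1 : ∃ y, (x, y) ∈ Psp.cyc l := ⟨y, h⟩
  unfold sc
  rw [dif_pos h1]
  exact cyc_succ_unique hl h1.choose_spec h

theorem pr_eq {l : List (Fin s → ℚ)} (hl : l.Nodup) {x y : Fin s → ℚ} (h : (x, y) ∈ Psp.cyc l) :
    pr l y = x := by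
  have h1 : ∃ x, (x, y) ∈ Psp.cyc l := ⟨x, h⟩
  unfold pr
  rw [dif_pos h1]
  exact cyc_pred_unique hl h1.choose_spec h

noncomputable def lab (l l' : List (Fin s → ℚ)) (x : Fin s → ℚ) : (Fin s → ℚ) × Lab k :=
  (x, (J (pr l x) x, J x (sc l x), J (pr l' x) x, J x (sc l' x)))

theorem lab_valid {l l' : List (Fin s → ℚ)} (hl : l.Nodup) (hl' : l'.Nodup) (hp : l'.Perm l)
    (hlen : 3 ≤ l.length) (hd : EdgeDisjoint l l') :
    Valid (l.map (lab J l l')) (l'.map (lab J l l')) := by
  have hfst : ∀ m : List (Fin s → ℚ), (m.map (lab J l l')).map Prod.fst = m := by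
    intro m
    rw [List.map_map]
    exact List.map_id m
  refine ⟨by rw [hfst]; exact hl, hp.map _, by rw [List.length_map]; exact hlen, ?_, ?_, ?_⟩
  · intro e he
    rw [cyc_map, List.mem_map] at he
    obtain ⟨⟨x, y⟩, he', rfl⟩ := he
    show J x (sc l x) = J (pr l y) y
    rw [sc_eq hl he', pr_eq hl he']
  · intro e he
    rw [cyc_map, List.mem_map] at he
    obtain ⟨⟨x, y⟩, he', rfl⟩ := he
    show J x (sc l' x) = J (pr l' y) y
    rw [sc_eq hl' he', pr_eq hl' he']
  · intro e he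
    rw [cyc_map, List.mem_map] at he
    obtain ⟨⟨x, y⟩, he', rfl⟩ := he
    rw [← Bool.not_eq_true, Prod.map_apply, adjB_iff, cyc_map, List.mem_map, List.mem_map]
    rintro (⟨⟨a, b⟩, hab, h2⟩ | ⟨⟨a, b⟩, hab, h2⟩)
    · rw [Prod.map_apply, Prod.mk.injEq] at h2
      have h3 : a = x := congrArg Prod.fst h2.1
      have h4 : b = y := congrArg Prod.fst h2.2
      subst h3 h4
      exact (hd _ hab).1 he'
    · rw [Prod.map_apply, Prod.mk.injEq] at h2
      have h3 : a = y := congrArg Prod.fst h2.1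
      have h4 : b = x := congrArg Prod.fst h2.2
      subst h3 h4
      exact (hd _ hab).2 he'

theorem lab_wsum {V : Finset (Fin s → ℚ)}
    (hJ : ∀ x y, sp (toR (H (J x y))) (fun i => (x i : ℝ) - (y i : ℝ)) = pdist V x y)
    {l l' : List (Fin s → ℚ)} (hl : l.Nodup) (hl' : l'.Nodup) (hp : l'.Perm l)
    (hlen : 3 ≤ l.length) (hd : EdgeDisjoint l l') :
    ((wsum (wq H) (l.map (lab J l l')) : ℚ) : ℝ) = tourLength V l + tourLength V l' := by
  rw [wsum_eq H _ _ (lab_valid J hl hl' hp hlen hd)]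
  unfold tourLength
  congr 1
  · rw [cyc_map, List.map_map]
    show _ = ((Psp.cyc l).map (fun e => pdist V e.1 e.2)).sum
    congr 1
    apply List.map_congr_left
    rintro ⟨x, y⟩ he
    show sp (toR (H (J x (sc l x)))) (fun i => (x i : ℝ) - (y i : ℝ)) = pdist V x y
    rw [sc_eq hl he]
    exact hJ x y
  · rw [cyc_map, List.map_map]
    show _ = ((Psp.cyc l').map (fun e => pdist V e.1 e.2)).sum
    congr 1
    apply List.map_congr_left
    rintro ⟨x, y⟩ he
    show sp (toR (H (J x (sc l' x)))) (fun i => (x i : ℝ) - (y i : ℝ)) = pdist V x y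
    rw [sc_eq hl' he]
    exact hJ x y

end lab

/-- from labelled tours to tours -/
theorem disjoint_of_valid {T1 T2 : List ((Fin s → ℚ) × Lab k)} (hT : Valid T1 T2) :
    EdgeDisjoint (T1.map Prod.fst) (T2.map Prod.fst) := by
  have hinj : ∀ x ∈ T1, ∀ y ∈ T1, x.1 = y.1 → x = y := fun x hx y hy h =>
    List.inj_on_of_nodup_map hT.nodup hx hy h
  intro e he
  have h1 : ∀ T : List ((Fin s → ℚ) × Lab k), PspDefs.cyc (T.map Prod.fst) =
    (Psp.cyc T).map (Prod.map Prod.fst Prod.fst) := fun T => cyc_map Prod.fst T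
  rw [h1, List.mem_map] at he
  obtain ⟨⟨x, y⟩, hxy, rfl⟩ := he
  have hx := mem_cyc_fst hxy
  have hy := mem_cyc_snd hxy
  rw [h1]
  constructor
  · intro h2
    rw [List.mem_map] at h2
    obtain ⟨⟨a, b⟩, hab, h3⟩ := h2
    rw [Prod.map_apply, Prod.map_apply, Prod.mk.injEq] at h3
    have ha := hinj a (hT.perm.subset (mem_cyc_fst hab)) x hx h3.1
    have hb := hinj b (hT.perm.subset (mem_cyc_snd hab)) y hy h3.2
    subst ha hb
    have h4 := hT.disj _ hab
    rw [← Bool.not_eq_true, adjB_iff] at h4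
    exact h4 (Or.inl hxy)
  · intro h2
    rw [List.mem_map] at h2
    obtain ⟨⟨a, b⟩, hab, h3⟩ := h2
    rw [Prod.map_apply, Prod.map_apply, Prod.mk.injEq] at h3
    have ha := hinj a (hT.perm.subset (mem_cyc_fst hab)) y hy h3.1
    have hb := hinj b (hT.perm.subset (mem_cyc_snd hab)) x hx h3.2
    subst ha hb
    have h4 := hT.disj _ hab
    rw [← Bool.not_eq_true, adjB_iff] at h4
    exact h4 (Or.inr hxy)

theorem feasible_of_valid {P : List (Fin s → ℚ)} {T1 T2 : List ((Fin s → ℚ) × Lab k)}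
    (hT : Valid T1 T2) (hP : (T1.map Prod.fst).Perm P) :
    Feasible P (T1.map Prod.fst) (T2.map Prod.fst) := by
  refine ⟨⟨hP, ?_⟩, ⟨(hT.perm.map _).trans hP, ?_⟩, disjoint_of_valid hT⟩
  · rw [List.length_map]
    exact hT.len
  · rw [List.length_map, hT.perm.length_eq]
    exact hT.len

theorem algo_infeasible (N : ℕ) {P : List (Fin s → ℚ)} (hP : P.Nodup)
    (h : ¬ ∃ l l', Feasible P l l') : algo H N P = ([], []) := by
  have h1 : (candidates (geB H) N P).filter (fun T => validB P T) = [] := by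
    by_contra hne
    obtain ⟨T, hT⟩ := List.exists_mem_of_ne_nil _ hne
    rw [List.mem_filter, validB_iff P hP] at hT
    exact h ⟨_, _, feasible_of_valid hT.2.1 hT.2.2⟩
  unfold algo algoL
  rw [h1]
  rfl

theorem solvable {V : Finset (Fin s → ℚ)} (hV : IsUnitBall V) : Solvable V := by
  obtain ⟨k, H, hH1, hH2⟩ := pnorm_eq hV
  obtain ⟨N, hN⟩ := algoL_spec k
  refine ⟨algo H N, polyTime_algo H N, ?_⟩
  intro P hP
  refine ⟨?_, fun h => algo_infeasible H N hP h⟩
  intro hex
  choose J0 hJ0 using hH2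
  let J : (Fin s → ℚ) → (Fin s → ℚ) → Fin k := fun x y => J0 (fun i => (x i : ℝ) - (y i : ℝ))
  have hJ : ∀ x y, sp (toR (H (J x y))) (fun i => (x i : ℝ) - (y i : ℝ)) = pdist V x y :=
    fun x y => hJ0 _
  have key : ∀ l l', IsTour P l → IsTour P l' → EdgeDisjoint l l' →
      Valid (algoL (geB H) N P).1 (algoL (geB H) N P).2 ∧
      ((algoL (geB H) N P).1.map Prod.fst).Perm P ∧
      ((wsum (wq H) (l.map (lab J l l')) : ℚ) : ℝ) ≤ (wsum (wq H) (algoL (geB H) N P).1 : ℚ) ∧
      ((wsum (wq H) (l.map (lab J l l')) : ℚ) : ℝ) = tourLength V l + tourLength V l' := by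
    intro l l' hl hl' hd
    have hln : l.Nodup := hl.1.nodup_iff.2 hP
    have hln' : l'.Nodup := hl'.1.nodup_iff.2 hP
    have hp : l'.Perm l := hl'.1.trans hl.1.symm
    have hv := lab_valid J hln hln' hp hl.2 hd
    obtain ⟨h1, h2, h3⟩ := hN (Fin s → ℚ) (geB H) (wq H) (geB_iff H) P hP _ _ hv (by
      rw [List.map_map]
      have : (Prod.fst ∘ lab J l l') = id := rfl
      rw [this, List.map_id]
      exact hl.1)
    exact ⟨h1, h2, by exact_mod_cast h3, lab_wsum H J hJ hln hln' hp hl.2 hd⟩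
  obtain ⟨l0, l0', h1, h2, h3⟩ := hex
  obtain ⟨hv, hperm, -, -⟩ := key l0 l0' h1 h2 h3
  refine ⟨feasible_of_valid hv hperm, ?_⟩
  rintro l l' ⟨hl, hl', hd⟩
  obtain ⟨-, -, h4, h5⟩ := key l l' hl hl' hd
  rw [← h5]
  exact h4.trans (wsum_le H hH1 _ _ hv)

end Pool.Agent.Helper62.PspMain
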