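import Mathlib
import Pool.Agent.Helper62.SubThy

namespace Pool.Agent.Helper62.SubGame

open Cardinal SubDefs SubThy

variable {S : Sig} {E : Set (Tm S ℕ × Tm S ℕ)} {X Y Z A J K : Type}

/-! Similar colorings -/

/-- Equal cardinality, or both larger than the continuum. -/
def Sim (P Q : Type) : Prop := #P = #Q ∨ (𝔠 < #P ∧ 𝔠 < #Q)

theorem Sim.symm {P Q : Type} (h : Sim P Q) : Sim Q P := by
  rcases h with h | ⟨h1, h2⟩
  · exact Or.inl h.symm
  · exact Or.inr ⟨h2, h1⟩

theorem Sim.congr {P Q P' Q' : Type} (h : Sim P Q) (e : P' ≃ P) (e' : Q' ≃ Q) : Sim P' Q' := by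
  unfold Sim at *
  rw [mk_congr e, mk_congr e']
  exact h

theorem Sim.split {P Q : Type} (h : Sim P Q) (hK : #K ≤ 𝔠) (g : P → K) :
    ∃ g' : Q → K, ∀ k, Sim {p // g p = k} {q // g' q = k} := by
  classical
  rcases h with h | ⟨hP, hQ⟩
  · obtain ⟨e⟩ := Cardinal.eq.1 h
    refine ⟨fun q => g (e.symm q), fun k => Or.inl ?_⟩
    apply mk_congr
    exact e.subtypeEquiv (fun p => by simp)
  · let R : K → Type := fun k => if #{p // g p = k} ≤ 𝔠 then {p // g p = k} else Q
    have hR1 : ∀ k, #{p // g p = k} ≤ 𝔠 → R k = {p // g p = k} := fun k hk => if_pos hk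
    have hR2 : ∀ k, ¬ #{p // g p = k} ≤ 𝔠 → R k = Q := fun k hk => if_neg hk
    have hQ0 : ℵ₀ ≤ #Q := aleph0_le_continuum.trans hQ.le
    have hle : #(Σ k, R k) ≤ #Q := by
      rw [mk_sigma]
      calc Cardinal.sum (fun k => #(R k)) ≤ Cardinal.sum (fun _ : K => #Q) := by
            apply sum_le_sum
            intro k
            by_cases hk : #{p // g p = k} ≤ 𝔠
            · rw [hR1 k hk]; exact hk.trans hQ.le
            · rw [hR2 k hk]
        _ = #K * #Q := by rw [sum_const']
        _ ≤ 𝔠 * #Q := mul_le_mul_left hK _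
        _ = #Q := by rw [mul_eq_right hQ0 hQ.le continuum_ne_zero]
    have hbig : ∃ k, ¬ #{p // g p = k} ≤ 𝔠 := by
      by_contra hcon
      push Not at hcon
      have h1 : #P = Cardinal.sum (fun k => #{p // g p = k}) := by
        rw [← mk_sigma]
        exact mk_congr (Equiv.sigmaFiberEquiv g).symm
      have h2 : #P ≤ 𝔠 := by
        rw [h1]
        calc Cardinal.sum (fun k => #{p // g p = k}) ≤ Cardinal.sum (fun _ : K => 𝔠) :=
              sum_le_sum _ _ hcon
          _ = #K * 𝔠 := by rw [sum_const']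
          _ ≤ 𝔠 * 𝔠 := mul_le_mul_left hK _
          _ = 𝔠 := continuum_mul_self
      exact absurd h2 (not_le.2 hP)
    obtain ⟨k0, hk0⟩ := hbig
    have hge : #Q ≤ #(Σ k, R k) := by
      have h1 : #Q = #(R k0) := by rw [hR2 k0 hk0]
      rw [h1]
      exact mk_le_of_injective (f := fun r : R k0 => (⟨k0, r⟩ : Σ k, R k)) (by
        intro a b hab
        simpa using hab)
    obtain ⟨e⟩ := Cardinal.eq.1 (le_antisymm hge hle)
    refine ⟨fun q => (e q).1, fun k => ?_⟩
    have h1 : #{q // (e q).1 = k} = #(R k) := by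
      apply mk_congr
      exact (e.subtypeEquiv (p := fun q => (e q).1 = k) (q := fun s => s.1 = k)
        (fun q => Iff.rfl)).trans (Equiv.sigmaSubtype k)
    by_cases hk : #{p // g p = k} ≤ 𝔠
    · left
      rw [h1, hR1 k hk]
    · right
      rw [h1, hR2 k hk]
      exact ⟨not_le.1 hk, hQ⟩

theorem Sim.inj {P Q : Type} (h : Sim P Q) {V : Set Q} (hV : V.Finite) :
    ∃ f : Q → P, Set.InjOn f V := by
  classical
  rcases h with h | ⟨hP, hQ⟩
  · obtain ⟨e⟩ := Cardinal.eq.1 h
    exact ⟨e.symm, e.symm.injective.injOn⟩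
  · have hP0 : ℵ₀ ≤ #P := aleph0_le_continuum.trans hP.le
    have hinf : Infinite P := infinite_iff.2 hP0
    have : #V ≤ #P := (lt_aleph0_iff_set_finite.2 hV).le.trans hP0
    obtain ⟨⟨f, hf⟩⟩ := this
    refine ⟨fun q => if hq : q ∈ V then f ⟨q, hq⟩ else Classical.arbitrary P, ?_⟩
    intro a ha b hb hab
    simp only [dif_pos ha, dif_pos hb] at hab
    simpa using hf hab

/-- Colorings with similar color classes. -/
def Similar (c : X → J) (c' : Y → J) : Prop := ∀ j, Sim {x // c x = j} {y // c' y = j}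

theorem Similar.symm {c : X → J} {c' : Y → J} (h : Similar c c') : Similar c' c :=
  fun j => (h j).symm

theorem Similar.split {c : X → J} {c' : Y → J} (h : Similar c c') (hK : #K ≤ 𝔠) (d : X → K) :
    ∃ d' : Y → K, Similar (fun x => (c x, d x)) (fun y => (c' y, d' y)) := by
  have h1 := fun j => (h j).split hK (fun x : {x // c x = j} => d x.1)
  choose g hg using h1
  refine ⟨fun y => g (c' y) ⟨y, rfl⟩, ?_⟩
  rintro ⟨j, k⟩
  refine (hg j k).congr ?_ ?_
  · exact {
      toFun := fun x => ⟨⟨x.1, congrArg Prod.fst x.2⟩, congrArg Prod.snd x.2⟩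
      invFun := fun x => ⟨x.1.1, Prod.ext x.1.2 x.2⟩
      left_inv := fun x => rfl
      right_inv := fun x => rfl }
  · exact {
      toFun := fun y => ⟨⟨y.1, congrArg Prod.fst y.2⟩, by
        obtain ⟨y, hy⟩ := y
        obtain ⟨rfl, h2⟩ := Prod.mk.inj hy
        exact h2⟩
      invFun := fun y => ⟨y.1.1, by
        obtain ⟨⟨y, rfl⟩, h2⟩ := y
        exact Prod.ext rfl h2⟩
      left_inv := fun x => rfl
      right_inv := fun x => rfl }

theorem Similar.inj {c : X → J} {c' : Y → J} (h : Similar c c') {V : Set Y} (hV : V.Finite) :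
    ∃ i : Y → X, Set.InjOn i V ∧ ∀ y, c (i y) = c' y := by
  have h1 := fun j => (h j).inj (V := {y : {y // c' y = j} | y.1 ∈ V})
    (hV.preimage Subtype.val_injective.injOn)
  choose f hf using h1
  have h2 : ∀ y, c (f (c' y) ⟨y, rfl⟩).1 = c' y := fun y => (f (c' y) ⟨y, rfl⟩).2
  refine ⟨fun y => (f (c' y) ⟨y, rfl⟩).1, ?_, h2⟩
  intro a ha b hb hab
  have h3 : c' a = c' b := by
    rw [← h2 a, ← h2 b]
    exact congrArg c hab
  have h4 : ∀ (j : J) (hj : c' a = j), (f (c' a) ⟨a, rfl⟩).1 = (f j ⟨a, hj⟩).1 := by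
    rintro _ rfl
    rfl
  have h5 := hf (c' b) (x₁ := ⟨a, h3⟩) (x₂ := ⟨b, rfl⟩) ha hb (Subtype.ext (by
    rw [← h4 _ h3]
    exact hab))
  exact congrArg Subtype.val h5

theorem Similar.exists {c : X → J} {c' : Y → J} (h : Similar c c') (y : Y) :
    ∃ x, c x = c' y := by
  obtain ⟨i, _, hi⟩ := h.inj (V := ∅) Set.finite_empty
  exact ⟨i y, hi y⟩

/-! Transfer of subalgebras -/

theorem mark_tmap {i : Y → X} {V : Set Y} (hi : Set.InjOn i V) {t : Tm S Y} (ht : vars t ⊆ V)
    {y : Y} (hy : y ∈ V) : mark (i y) (tmap i t) = mark y t := by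
  classical
  unfold mark
  rw [tmap_tmap]
  apply tmap_congr
  intro z hz
  have : i z = i y ↔ z = y := ⟨fun h => hi (ht hz) hy h, fun h => by rw [h]⟩
  simp [this]

theorem mark_const {x : X} {t : Tm S X} (hx : x ∉ vars t) : mark x t = tmap (fun _ => false) t := by
  classical
  unfold mark
  apply tmap_congr
  intro z hz
  have : z ≠ x := by
    rintro rfl
    exact hx hz
  simp [this]

theorem const_mem_dat {B : SubAlg S E X} {u : FreeAlg S E X} (hu : u ∈ B.1) (t : Tm S Z) (x : X) :
    tmap (fun _ => false) t ∈ dat B x := by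
  refine ⟨u, hu, ?_⟩
  rw [evF_tmap]
  exact ev_mem B (fun _ _ => hu)

section transfer

variable {c : X → J} {c' : Y → J}

/-- The data attached to a color. -/
def colDat (c : X → J) (B : SubAlg S E X) (j : J) : Set (Tm S Bool) :=
  {s | ∃ x, c x = j ∧ s ∈ dat B x}

theorem colDat_eq {B : SubAlg S E X} (hB : ∀ x y, c x = c y → dat B x = dat B y) {x : X} {j : J}
    (hx : c x = j) : colDat c B j = dat B x := by
  ext s
  constructor
  · rintro ⟨x', hx', hs⟩
    rwa [hB x x' (hx.trans hx'.symm)]
  · intro hs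
    exact ⟨x, hx, hs⟩

theorem key [Nonempty X] [Nonempty Y] (hmix : Mixing S E) (h : Similar c c')
    {B : SubAlg S E X} (hB : ∀ x y, c x = c y → dat B x = dat B y) {t : Tm S Y} {V : Set Y}
    (ht : vars t ⊆ V) {i : Y → X} (hi : Set.InjOn i V) (hic : ∀ y, c (i y) = c' y) :
    mk (tmap i t) ∈ B.1 ↔ ∀ y, mark y t ∈ colDat c B (c' y) := by
  constructor
  · intro hm y
    by_cases hy : y ∈ V
    · rw [colDat_eq hB (hic y), ← mark_tmap hi ht hy]
      exact mark_mem_of_mem hmix hm _
    · obtain ⟨x, hx⟩ := h.exists y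
      rw [colDat_eq hB hx, mark_const (fun h => hy (ht h))]
      exact const_mem_dat hm t x
  · intro hm
    have hu : ∃ u, u ∈ B.1 := by
      obtain ⟨x, _, u, hu, _⟩ := hm (Classical.arbitrary Y)
      exact ⟨u, hu⟩
    obtain ⟨u, hu⟩ := hu
    apply mem_of_mark_mem hmix
    intro x
    by_cases hx : ∃ y ∈ V, i y = x
    · obtain ⟨y, hy, rfl⟩ := hx
      rw [mark_tmap hi ht hy, ← colDat_eq hB (hic y)]
      exact hm y
    · rw [mark_const, tmap_tmap]
      · exact const_mem_dat hu t x
      · rw [vars_tmap]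
        rintro ⟨y, hy, hyx⟩
        exact hx ⟨y, ht hy, hyx⟩

theorem mk_tmap_congr {t t' : Tm S Y} (h : (mk t : FreeAlg S E Y) = mk t') (i : Y → X) :
    (mk (tmap i t) : FreeAlg S E X) = mk (tmap i t') := by
  rw [mk_tmap, mk_tmap]
  have := congrArg (ext (E := E) (fun y => gen (i y))) h
  exact this

theorem transfer [Nonempty X] [Nonempty Y] (hmix : Mixing S E) (h : Similar c c')
    (B : SubAlg S E X) (hB : ∀ x y, c x = c y → dat B x = dat B y) :
    ∃ B' : SubAlg S E Y, ∀ x y, c x = c' y → dat B x = dat B' y := by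
  have hwd : ∀ t t' : Tm S Y, (mk t : FreeAlg S E Y) = mk t' →
      (∀ y, mark y t ∈ colDat c B (c' y)) → ∀ y, mark y t' ∈ colDat c B (c' y) := by
    intro t t' htt ht
    obtain ⟨i, hi, hic⟩ := h.inj (V := vars t ∪ vars t') ((vars_finite t).union (vars_finite t'))
    rw [← key hmix h hB Set.subset_union_left hi hic] at ht
    rw [← key hmix h hB Set.subset_union_right hi hic]
    rwa [← mk_tmap_congr htt]
  have hclosed : ∀ (f : S.Op) (a : Fin (S.ar f) → FreeAlg S E Y),
      (∀ k, a k ∈ {a | ∃ t : Tm S Y, mk t = a ∧ ∀ y, mark y t ∈ colDat c B (c' y)}) →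
      freeOp f a ∈ {a | ∃ t : Tm S Y, mk t = a ∧ ∀ y, mark y t ∈ colDat c B (c' y)} := by
    intro f a ha
    choose t ht1 ht2 using ha
    refine ⟨Tm.op f t, ?_, ?_⟩
    · rw [← freeOp_mk]
      congr 1
      funext k
      exact ht1 k
    · obtain ⟨i, hi, hic⟩ := h.inj (V := vars (Tm.op f t)) (vars_finite _)
      rw [← key hmix h hB (le_refl _) hi hic]
      have h1 : ∀ k, (mk (tmap i (t k)) : FreeAlg S E X) ∈ B.1 := by
        intro k
        rw [key hmix h hB (Set.subset_iUnion (fun k => vars (t k)) k) hi hic]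
        exact ht2 k
      have h2 : (mk (tmap i (Tm.op f t)) : FreeAlg S E X) =
          freeOp f (fun k => mk (tmap i (t k))) := by
        rw [freeOp_mk]
        rfl
      rw [h2]
      exact B.2 f _ h1
  let B' : SubAlg S E Y := ⟨_, hclosed⟩
  have hB' : ∀ t : Tm S Y, mk t ∈ B'.1 ↔ ∀ y, mark y t ∈ colDat c B (c' y) := by
    intro t
    constructor
    · rintro ⟨t', ht', h2⟩
      exact hwd t' t ht' h2
    · intro h2
      exact ⟨t, rfl, h2⟩
  have hev : ∀ (s : Tm S Bool) (y : Y) (t : Tm S Y),
      evF (fun b => cond b (gen y) (mk t)) s =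
      (mk (ev Tm.op (fun b => cond b (Tm.var y) t) s) : FreeAlg S E Y) := by
    intro s y t
    rw [← evF_mk]
    congr 1
    funext b
    cases b <;> rfl
  have hev2 : ∀ (s : Tm S Bool) (y : Y) (t : Tm S Y) (i : Y → X),
      (mk (tmap i (ev Tm.op (fun b => cond b (Tm.var y) t) s)) : FreeAlg S E X) =
      evF (fun b => cond b (gen (i y)) (mk (tmap i t))) s := by
    intro s y t i
    rw [mk_tmap]
    unfold evF
    rw [ev_ev]
    congr 1
    funext b
    cases b
    · exact (mk_tmap i t).symm
    · rfl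
  refine ⟨B', fun x y hxy => ?_⟩
  ext s
  constructor
  · intro hs
    obtain ⟨u, hu, _⟩ := id hs
    obtain ⟨r, rfl⟩ := mk_surj u
    -- an element of B'
    obtain ⟨i', hi', hic'⟩ := h.symm.inj (V := vars r) (vars_finite r)
    have ht0 : mk (tmap i' r) ∈ B'.1 := by
      rw [hB']
      classical
      have hinv : Set.InjOn (Function.invFunOn i' (vars r)) (vars (tmap i' r)) := by
        rw [vars_tmap]
        rintro _ ⟨a, ha, rfl⟩ _ ⟨b, hb, rfl⟩ hab
        have h1 := hi'.leftInvOn_invFunOn ha
        have h2 := hi'.leftInvOn_invFunOn hb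
        rw [h1, h2] at hab
        rw [hab]
      let i : Y → X := fun y => if y ∈ vars (tmap i' r) then Function.invFunOn i' (vars r) y
        else (h.exists y).choose
      have hi1 : ∀ z ∈ vars r, i (i' z) = z := by
        intro z hz
        have : i' z ∈ vars (tmap i' r) := by
          rw [vars_tmap]
          exact ⟨z, hz, rfl⟩
        simp only [i, if_pos this]
        exact hi'.leftInvOn_invFunOn hz
      have hi2 : Set.InjOn i (vars (tmap i' r)) := by
        intro a ha b hb hab
        simp only [i, if_pos ha, if_pos hb] at hab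
        exact hinv ha hb hab
      have hi3 : ∀ y, c (i y) = c' y := by
        intro y
        by_cases hy : y ∈ vars (tmap i' r)
        · rw [vars_tmap] at hy
          obtain ⟨z, hz, rfl⟩ := hy
          rw [hi1 z hz, hic']
        · simp only [i, if_neg hy]
          exact (h.exists y).choose_spec
      rw [← key hmix h hB (le_refl _) hi2 hi3, tmap_tmap, tmap_congr hi1, tmap_id]
      exact hu
    refine ⟨_, ht0, ?_⟩
    rw [hev, hB']
    obtain ⟨i, hi, hic⟩ := h.inj
      (V := vars (ev Tm.op (fun b => cond b (Tm.var y) (tmap i' r)) s) ∪ vars (tmap i' r))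
      ((vars_finite _).union (vars_finite _))
    rw [← key hmix h hB Set.subset_union_left hi hic, hev2]
    have h1 : s ∈ dat B (i y) := by
      rw [hB (i y) x (by rw [hic, hxy])]
      exact hs
    apply mem_of_dat hmix h1
    rw [key hmix h hB Set.subset_union_right hi hic, ← hB']
    exact ht0
  · rintro ⟨u, hu, hs⟩
    obtain ⟨t, rfl⟩ := mk_surj u
    rw [hev] at hs
    obtain ⟨i, hi, hic⟩ := h.inj
      (V := vars (ev Tm.op (fun b => cond b (Tm.var y) t) s) ∪ vars t)
      ((vars_finite _).union (vars_finite _))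
    rw [hB', ← key hmix h hB Set.subset_union_left hi hic, hev2] at hs
    rw [hB', ← key hmix h hB Set.subset_union_right hi hic] at hu
    rw [← hB (i y) x (by rw [hic, hxy])]
    exact ⟨_, hu, hs⟩

/-- Corresponding subalgebras. -/
def Linked (c : X → J) (c' : Y → J) (B : SubAlg S E X) (B' : SubAlg S E Y) : Prop :=
  ∀ x y, c x = c' y → dat B x = dat B' y

theorem Linked.symm {B : SubAlg S E X} {B' : SubAlg S E Y} (h : Linked c c' B B') :
    Linked c' c B' B := fun y x hyx => (h x y hyx.symm).symm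

theorem Linked.inv {B : SubAlg S E X} {B' : SubAlg S E Y} (hs : Similar c c')
    (h : Linked c c' B B') : ∀ x x', c x = c x' → dat B x = dat B x' := by
  intro x x' hx
  obtain ⟨y, hy⟩ := hs.symm.exists x
  rw [h x y hy.symm, h x' y (by rw [← hx, hy])]

theorem Linked.le {B1 B2 : SubAlg S E X} {B1' B2' : SubAlg S E Y} [Nonempty X] [Nonempty Y]
    (hmix : Mixing S E) (hs : Similar c c') (h1 : Linked c c' B1 B1') (h2 : Linked c c' B2 B2')
    (h : B1 ≤ B2) : B1' ≤ B2' := by
  rw [le_iff_dat hmix] at h ⊢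
  intro y
  obtain ⟨x, hx⟩ := hs.exists y
  rw [← h1 x y hx, ← h2 x y hx]
  exact h x

/-- The action of permutations. -/
noncomputable def actIso (σ : Equiv.Perm X) : SubAlg S E X ≃o SubAlg S E X where
  toFun B := comap (fun x => gen (σ x)) B
  invFun B := comap (fun x => gen (σ.symm x)) B
  left_inv B := by
    apply Subtype.ext
    ext a
    show ext _ (ext _ a) ∈ B.1 ↔ a ∈ B.1
    rw [ext_ext]
    have : (fun x => ext (fun x => gen (σ x)) (gen (σ.symm x))) =
        (gen : X → FreeAlg S E X) := by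
      funext x
      rw [ext_gen, Equiv.apply_symm_apply]
    rw [this, ext_id]
  right_inv B := by
    apply Subtype.ext
    ext a
    show ext _ (ext _ a) ∈ B.1 ↔ a ∈ B.1
    rw [ext_ext]
    have : (fun x => ext (fun x => gen (σ.symm x)) (gen (σ x))) =
        (gen : X → FreeAlg S E X) := by
      funext x
      rw [ext_gen, Equiv.symm_apply_apply]
    rw [this, ext_id]
  map_rel_iff' := by
    intro B C
    constructor
    · intro h a ha
      have h1 : ext (fun x => gen (σ x)) (ext (fun x => gen (σ.symm x)) a) = a := by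
        rw [ext_ext]
        have : (fun x => ext (fun x => gen (σ x)) (gen (σ.symm x))) =
            (gen : X → FreeAlg S E X) := by
          funext x
          rw [ext_gen, Equiv.apply_symm_apply]
        rw [this, ext_id]
      have h2 : ext (fun x => gen (σ.symm x)) a ∈ (comap (fun x => gen (σ x)) B).1 := by
        show ext _ (ext _ a) ∈ B.1
        rwa [h1]
      have h3 := h h2
      have h4 : ext (fun x => gen (σ x)) (ext (fun x => gen (σ.symm x)) a) ∈ C.1 := h3
      rwa [h1] at h4
    · intro h a ha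
      exact h ha

theorem mem_actIso {σ : Equiv.Perm X} {B : SubAlg S E X} {a : FreeAlg S E X} :
    a ∈ (actIso σ B).1 ↔ ext (fun x => gen (σ x)) a ∈ B.1 := Iff.rfl

theorem dat_actIso (σ : Equiv.Perm X) (B : SubAlg S E X) (x : X) :
    dat (actIso σ B) x = dat B (σ x) := by
  ext s
  have hfun : ∀ u : FreeAlg S E X, ext (fun x => gen (σ x)) (evF (fun b => cond b (gen x) u) s) =
      evF (fun b => cond b (gen (σ x)) (ext (fun x => gen (σ x)) u)) s := by
    intro u
    rw [ext_ev]
    congr 1
    funext b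
    cases b <;> rfl
  constructor
  · rintro ⟨u, hu, hs⟩
    refine ⟨_, hu, ?_⟩
    rw [← hfun]
    exact hs
  · rintro ⟨u, hu, hs⟩
    have h1 : ext (fun x => gen (σ x)) (ext (fun x => gen (σ.symm x)) u) = u := by
      rw [ext_ext]
      have : (fun x => ext (fun x => gen (σ x)) (gen (σ.symm x))) =
          (gen : X → FreeAlg S E X) := by
        funext x
        rw [ext_gen, Equiv.apply_symm_apply]
      rw [this, ext_id]
    refine ⟨ext (fun x => gen (σ.symm x)) u, ?_, ?_⟩
    · rw [mem_actIso, h1]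
      exact hu
    · rw [mem_actIso, hfun, h1]
      exact hs

theorem swap_color [DecidableEq X] {x y : X} (hxy : c x = c y) (z : X) :
    c (Equiv.swap x y z) = c z := by
  rw [Equiv.swap_apply_def]
  split_ifs with h1 h2
  · rw [h1, hxy]
  · rw [h2, hxy]
  · rfl

theorem actIso_eq [Nonempty X] (hmix : Mixing S E) {σ : Equiv.Perm X} {B : SubAlg S E X}
    (hσ : ∀ z, dat B (σ z) = dat B z) : actIso σ B = B := by
  apply ext_of_dat hmix
  intro z
  rw [dat_actIso, hσ]

theorem inv_of_act {B : SubAlg S E X}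
    (h : ∀ σ : Equiv.Perm X, (∀ z, c (σ z) = c z) → actIso σ B = B) :
    ∀ x y, c x = c y → dat B x = dat B y := by
  classical
  intro x y hxy
  have h1 := h (Equiv.swap x y) (swap_color hxy)
  have h2 := dat_actIso (Equiv.swap x y) B x
  rw [h1, Equiv.swap_apply_left] at h2
  exact h2

theorem act_of_inv [Nonempty X] (hmix : Mixing S E) {B : SubAlg S E X}
    (hB : ∀ x y, c x = c y → dat B x = dat B y) :
    ∀ σ : Equiv.Perm X, (∀ z, c (σ z) = c z) → actIso σ B = B :=
  fun _ hσ => actIso_eq hmix (fun z => hB _ _ (hσ z))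

theorem inv_sup [Nonempty X] (hmix : Mixing S E) {B C : SubAlg S E X}
    (hB : ∀ x y, c x = c y → dat B x = dat B y) (hC : ∀ x y, c x = c y → dat C x = dat C y) :
    ∀ x y, c x = c y → dat (B ⊔ C) x = dat (B ⊔ C) y := by
  apply inv_of_act
  intro σ hσ
  rw [map_sup, act_of_inv hmix hB σ hσ, act_of_inv hmix hC σ hσ]

theorem inv_inf [Nonempty X] (hmix : Mixing S E) {B C : SubAlg S E X}
    (hB : ∀ x y, c x = c y → dat B x = dat B y) (hC : ∀ x y, c x = c y → dat C x = dat C y) :
    ∀ x y, c x = c y → dat (B ⊓ C) x = dat (B ⊓ C) y := by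
  apply inv_of_act
  intro σ hσ
  rw [map_inf, act_of_inv hmix hB σ hσ, act_of_inv hmix hC σ hσ]

theorem Linked.sup {B1 B2 : SubAlg S E X} {B1' B2' : SubAlg S E Y} [Nonempty X] [Nonempty Y]
    (hmix : Mixing S E) (hs : Similar c c') (h1 : Linked c c' B1 B1') (h2 : Linked c c' B2 B2') :
    Linked c c' (B1 ⊔ B2) (B1' ⊔ B2') := by
  obtain ⟨C, hC⟩ := transfer hmix hs (B1 ⊔ B2) (inv_sup hmix (h1.inv hs) (h2.inv hs))
  obtain ⟨D, hD⟩ := transfer hmix hs.symm (B1' ⊔ B2')
    (inv_sup hmix (h1.symm.inv hs.symm) (h2.symm.inv hs.symm))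
  have h3 : C = B1' ⊔ B2' := by
    apply le_antisymm
    · apply Linked.le hmix hs hC (Linked.symm hD)
      exact sup_le (Linked.le hmix hs.symm h1.symm hD le_sup_left)
        (Linked.le hmix hs.symm h2.symm hD le_sup_right)
    · exact sup_le (Linked.le hmix hs h1 hC le_sup_left) (Linked.le hmix hs h2 hC le_sup_right)
  rw [← h3]
  exact hC

theorem Linked.inf {B1 B2 : SubAlg S E X} {B1' B2' : SubAlg S E Y} [Nonempty X] [Nonempty Y]
    (hmix : Mixing S E) (hs : Similar c c') (h1 : Linked c c' B1 B1') (h2 : Linked c c' B2 B2') :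
    Linked c c' (B1 ⊓ B2) (B1' ⊓ B2') := by
  obtain ⟨C, hC⟩ := transfer hmix hs (B1 ⊓ B2) (inv_inf hmix (h1.inv hs) (h2.inv hs))
  obtain ⟨D, hD⟩ := transfer hmix hs.symm (B1' ⊓ B2')
    (inv_inf hmix (h1.symm.inv hs.symm) (h2.symm.inv hs.symm))
  have h3 : C = B1' ⊓ B2' := by
    apply le_antisymm
    · exact le_inf (Linked.le hmix hs hC h1 inf_le_left) (Linked.le hmix hs hC h2 inf_le_right)
    · apply Linked.le hmix hs (Linked.symm hD) hC
      exact le_inf (Linked.le hmix hs.symm hD h1.symm inf_le_left)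
        (Linked.le hmix hs.symm hD h2.symm inf_le_right)
  rw [← h3]
  exact hC

theorem Linked.eq {B1 B2 : SubAlg S E X} {B1' B2' : SubAlg S E Y} [Nonempty X] [Nonempty Y]
    (hmix : Mixing S E) (hs : Similar c c') (h1 : Linked c c' B1 B1') (h2 : Linked c c' B2 B2')
    (h : B1 = B2) : B1' = B2' :=
  le_antisymm (Linked.le hmix hs h1 h2 h.le) (Linked.le hmix hs h2 h1 h.ge)

end transfer

/-! The game -/

/-- Corresponding assignments. -/
def Good (v : ℕ → SubAlg S E X) (v' : ℕ → SubAlg S E Y) : Prop :=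
  ∃ (J : Type) (_ : #J ≤ 𝔠) (c : X → J) (c' : Y → J), Similar c c' ∧ ∀ n, Linked c c' (v n) (v' n)

theorem Good.symm {v : ℕ → SubAlg S E X} {v' : ℕ → SubAlg S E Y} (h : Good v v') :
    Good v' v := by
  obtain ⟨J, hJ, c, c', hs, hl⟩ := h
  exact ⟨J, hJ, c', c, hs.symm, fun n => (hl n).symm⟩

theorem term_linked [Nonempty X] [Nonempty Y] (hmix : Mixing S E) {c : X → J} {c' : Y → J}
    (hs : Similar c c') {v : ℕ → SubAlg S E X} {v' : ℕ → SubAlg S E Y}
    (hl : ∀ n, Linked c c' (v n) (v' n)) {s : (L : Type) → [Lattice L] → (ℕ → L) → L}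
    (h : LTerm s) : Linked c c' (s (SubAlg S E X) v) (s (SubAlg S E Y) v') := by
  induction h with
  | var i => exact hl i
  | sup s t _ _ ih1 ih2 => exact ih1.sup hmix hs ih2
  | inf s t _ _ ih1 ih2 => exact ih1.inf hmix hs ih2

theorem card_terms (hop : Countable S.Op) : #(Tm S Bool) ≤ ℵ₀ := by
  have h1 : Countable (Tm S Bool) := by
    let code : Tm S Bool → List (Bool ⊕ S.Op) := fun t => by
      induction t with
      | var z => exact [Sum.inl z]
      | op f a ih => exact Sum.inr f :: (List.ofFn ih).flatten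
    have hcode : ∀ t u : Tm S Bool, ∀ l l', code t ++ l = code u ++ l' → t = u ∧ l = l' := by
      intro t
      induction t with
      | var z =>
        intro u l l' h
        cases u with
        | var z' =>
          have h' : (Sum.inl z : Bool ⊕ S.Op) :: l = Sum.inl z' :: l' := h
          simp at h'
          rw [h'.1, h'.2]
          exact ⟨rfl, rfl⟩
        | op f a =>
          exfalso
          have h' : (Sum.inl z : Bool ⊕ S.Op) :: l = Sum.inr f :: _ := h
          simp at h'
      | op f a ih =>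
        intro u l l' h
        cases u with
        | var z' =>
          exfalso
          have h' : (Sum.inr f : Bool ⊕ S.Op) :: _ = Sum.inl z' :: l' := h
          simp at h'
        | op g b =>
          have h' : (Sum.inr f : Bool ⊕ S.Op) :: ((List.ofFn fun i => code (a i)).flatten ++ l) =
            Sum.inr g :: ((List.ofFn fun i => code (b i)).flatten ++ l') := h
          simp only [List.cons.injEq, Sum.inr.injEq] at h'
          obtain ⟨rfl, h2⟩ := h'
          have h3 : ∀ n : ℕ, ∀ a b : Fin n → Tm S Bool,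
              (∀ i, ∀ (u : Tm S Bool) (l l'), code (a i) ++ l = code u ++ l' → a i = u ∧ l = l') →
              (List.ofFn fun i => code (a i)).flatten ++ l =
                (List.ofFn fun i => code (b i)).flatten ++ l' → a = b ∧ l = l' := by
            intro n
            induction n with
            | zero =>
              intro a b _ h
              refine ⟨funext fun i => i.elim0, ?_⟩
              simpa using h
            | succ n ihn =>
              intro a b hab h
              rw [List.ofFn_succ, List.ofFn_succ, List.flatten_cons, List.flatten_cons,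
                List.append_assoc, List.append_assoc] at h
              obtain ⟨h4, h5⟩ := hab 0 _ _ _ h
              obtain ⟨h6, h7⟩ := ihn (fun i => a i.succ) (fun i => b i.succ)
                (fun i => hab i.succ) h5
              refine ⟨?_, h7⟩
              funext i
              refine Fin.cases h4 (fun j => ?_) i
              exact congrFun h6 j
          obtain ⟨h4, h5⟩ := h3 _ a b ih h2
          rw [h4]
          exact ⟨rfl, h5⟩
    have hinj : Function.Injective code := by
      intro t u h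
      exact (hcode t u [] [] (by rw [h])).1
    exact hinj.countable
  exact mk_le_aleph0_iff.2 h1

theorem card_data (hop : Countable S.Op) : #(Set (Tm S Bool)) ≤ 𝔠 := by
  rw [mk_set, ← two_power_aleph0]
  exact power_le_power_left two_ne_zero (card_terms hop)

theorem Good.extend [Nonempty X] [Nonempty Y] (hmix : Mixing S E) (hop : Countable S.Op)
    {v : ℕ → SubAlg S E X} {v' : ℕ → SubAlg S E Y} (h : Good v v') (i : ℕ) (B : SubAlg S E X) :
    ∃ B', Good (Function.update v i B) (Function.update v' i B') := by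
  obtain ⟨J, hJ, c, c', hs, hl⟩ := h
  obtain ⟨d', hd'⟩ := hs.split (card_data hop) (fun x => dat B x)
  obtain ⟨B', hB'⟩ := transfer hmix hd' B (by
    intro x y hxy
    exact congrArg Prod.snd hxy)
  refine ⟨B', J × Set (Tm S Bool), ?_, _, _, hd', ?_⟩
  · rw [mk_prod, lift_id, lift_id]
    calc #J * #(Set (Tm S Bool)) ≤ 𝔠 * 𝔠 := mul_le_mul' hJ (card_data hop)
      _ = 𝔠 := continuum_mul_self
  · intro n
    by_cases hn : n = i
    · subst hn
      rw [Function.update_self, Function.update_self]
      exact hB'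
    · rw [Function.update_of_ne hn, Function.update_of_ne hn]
      intro x y hxy
      exact hl n x y (congrArg Prod.fst hxy)

theorem formula_good [Nonempty X] [Nonempty Y] (hmix : Mixing S E) (hop : Countable S.Op)
    {P : (L : Type) → [Lattice L] → (ℕ → L) → Prop} (hP : LFormula P) :
    ∀ {v : ℕ → SubAlg S E X} {v' : ℕ → SubAlg S E Y}, Good v v' →
      (P (SubAlg S E X) v ↔ P (SubAlg S E Y) v') := by
  induction hP with
  | eq s t hs ht =>
    rintro v v' ⟨J, hJ, c, c', hsim, hl⟩
    have h1 := term_linked hmix hsim hl hs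
    have h2 := term_linked hmix hsim hl ht
    exact ⟨fun h => h1.eq hmix hsim h2 h, fun h => h1.symm.eq hmix hsim.symm h2.symm h⟩
  | bot => intro v v' _; exact Iff.rfl
  | imp P Q _ _ ih1 ih2 =>
    intro v v' h
    exact imp_congr (ih1 h) (ih2 h)
  | all i P _ ih =>
    intro v v' h
    constructor
    · intro h1 B'
      obtain ⟨B, hB⟩ := h.symm.extend hmix hop i B'
      exact (ih hB.symm).1 (h1 B)
    · intro h1 B
      obtain ⟨B', hB⟩ := h.extend hmix hop i B
      exact (ih hB).2 (h1 B')

theorem exists_good (hmix : Mixing S E) (hop : Countable S.Op)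
    (hX : 𝔠 < #X) (hY : 𝔠 < #Y) (v : ℕ → SubAlg S E X) : ∃ v' : ℕ → SubAlg S E Y, Good v v' := by
  have hX' : Nonempty X := mk_ne_zero_iff.1 (pos_of_gt hX).ne'
  have hY' : Nonempty Y := mk_ne_zero_iff.1 (pos_of_gt hY).ne'
  have h0 : Similar (fun _ : X => ()) (fun _ : Y => ()) := by
    intro j
    refine Sim.congr (P := X) (Q := Y) (Or.inr ⟨hX, hY⟩) ?_ ?_
    · exact Equiv.subtypeUnivEquiv (fun _ => rfl)
    · exact Equiv.subtypeUnivEquiv (fun _ => rfl)
  have hcard : #(ℕ → Set (Tm S Bool)) ≤ 𝔠 := by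
    rw [← power_def, mk_nat]
    calc #(Set (Tm S Bool)) ^ ℵ₀ ≤ 𝔠 ^ ℵ₀ := power_le_power_right (card_data hop)
      _ = 𝔠 := continuum_power_aleph0
  obtain ⟨d', hd'⟩ := h0.split hcard (fun x n => dat (v n) x)
  have h1 : ∀ n, ∃ B' : SubAlg S E Y, ∀ x y, ((), fun n => dat (v n) x) = ((), d' y) →
      dat (v n) x = dat B' y := by
    intro n
    apply transfer hmix hd' (v n)
    intro x y hxy
    exact congrFun (congrArg Prod.snd hxy) n
  choose v' hv' using h1
  refine ⟨v', Unit × (ℕ → Set (Tm S Bool)), ?_, _, _, hd', fun n x y hxy => hv' n x y hxy⟩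
  rw [mk_prod, lift_id, lift_id, mk_unit, one_mul]
  exact hcard

/-- In a variety with the mixing property, the lattices of subalgebras of the free algebras of
ranks larger than the continuum are elementarily equivalent. -/
theorem lequiv (hmix : Mixing S E) (hop : Countable S.Op)
    (hX : 𝔠 < #X) (hY : 𝔠 < #Y) : LEquiv (SubAlg S E X) (SubAlg S E Y) := by
  have hX' : Nonempty X := mk_ne_zero_iff.1 (pos_of_gt hX).ne'
  have hY' : Nonempty Y := mk_ne_zero_iff.1 (pos_of_gt hY).ne'
  intro P hP
  constructor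
  · intro h v'
    obtain ⟨v, hv⟩ := exists_good hmix hop hY hX v'
    exact (formula_good hmix hop hP hv.symm).1 (h v)
  · intro h v
    obtain ⟨v', hv⟩ := exists_good hmix hop hX hY v
    exact (formula_good hmix hop hP hv).2 (h v')

end Pool.Agent.Helper62.SubGame
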