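import Mathlib
import Pool.Agent.Helper62.SubSyn
import Pool.Agent.Helper62.SubGame

namespace Pool.Agent.Helper62.SubBig

open Cardinal SubDefs SubThy SubGame SubSyn

variable {S : Sig} {E : Set (Tm S ℕ × Tm S ℕ)} {X Y Z A J K : Type}

open Classical in
/-- The substitution fixing one generator and sending the others to `v`. -/
noncomputable def sl (z : X) (v : FreeAlg S E X) (w : X) : FreeAlg S E X :=
  if w = z then gen z else v

theorem sl_mem (hmix : Mixing S E) {B : SubAlg S E X} {a v : FreeAlg S E X} (ha : a ∈ B.1)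
    (hv : v ∈ B.1) (z : X) : ext (sl z v) a ∈ B.1 := by
  classical
  obtain ⟨t, rfl⟩ := mk_surj a
  rw [ext_mk]
  have h1 := hmix X B X t (fun w => w = z) gen (fun _ => v) (by rwa [evF_gen])
    (ev_mem B (fun _ _ => hv))
  convert h1 using 2
  funext w
  by_cases h : w = z
  · simp [sl, h]
  · simp [sl, h]

theorem mem_of_sl (hmix : Mixing S E) [Nonempty X] {B : SubAlg S E X} {a v : FreeAlg S E X}
    (hv : v ∈ B.1) (h : ∀ z, ext (sl z v) a ∈ B.1) : a ∈ B.1 := by
  classical
  obtain ⟨t, rfl⟩ := mk_surj a
  apply mem_of_mark_mem hmix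
  intro z
  refine ⟨v, hv, ?_⟩
  rw [ev_mark]
  have h1 := h z
  rw [ext_mk] at h1
  convert h1 using 2
  funext w
  by_cases hw : w = z <;> simp [sl, hw]

/-- The empty subalgebra. -/
def emp (hpos : ∀ f, 0 < S.ar f) : SubAlg S E X :=
  ⟨∅, fun f _ h => (h ⟨0, hpos f⟩).elim⟩

theorem nb_iff (hpos : ∀ f, 0 < S.ar f) {B : SubAlg S E X} : NB B ↔ ∃ a, a ∈ B.1 := by
  constructor
  · rintro ⟨y, hy⟩
    by_contra hcon
    push Not at hcon
    exact hy (fun a ha => (hcon a ha).elim)
  · rintro ⟨a, ha⟩
    exact ⟨emp hpos, fun h => h ha⟩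

theorem mem_inf {B C : SubAlg S E X} {a : FreeAlg S E X} (hB : a ∈ B.1) (hC : a ∈ C.1) :
    a ∈ (B ⊓ C).1 := by
  have h1 : cl {a} ≤ B ⊓ C := by
    apply le_inf
    · exact cl_le (fun b hb => by rw [Set.mem_singleton_iff.1 hb]; exact hB)
    · exact cl_le (fun b hb => by rw [Set.mem_singleton_iff.1 hb]; exact hC)
  exact h1 (subset_cl _ rfl)

theorem coat_iso {L : Type} [Lattice L] (e : L ≃o L) {p : L} (h : Coat p) : Coat (e p) := by
  obtain ⟨⟨y, hy⟩, h2⟩ := h
  refine ⟨⟨e y, fun h => hy (e.le_iff_le.1 h)⟩, ?_⟩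
  intro y h3 h4 z
  have h5 : p ≤ e.symm y := by
    rw [← e.le_iff_le, e.apply_symm_apply]; exact h3
  have h6 : ¬ e.symm y ≤ p := by
    rw [← e.le_iff_le, e.apply_symm_apply]; exact h4
  have h7 := h2 _ h5 h6 (e.symm z)
  rwa [e.symm.le_iff_le] at h7

open Classical in
/-- The main step. -/
theorem main_step (hmix : Mixing S E) (hpos : ∀ f, 0 < S.ar f) {b b' p : SubAlg S E X} {x y : X}
    (hxy : x ≠ y) (hb : dat b x = dat b y) (hb' : dat b' x = dat b' y) (hNB : NB b)
    (huniq : ∀ p p', In b b' p → In b b' p' → SimS p p' → p ≤ p')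
    (hp : In b b' p) (hxp : gen x ∉ p.1) : False := by
  have hX : Nonempty X := ⟨x⟩
  obtain ⟨hcoat, hbp, hbp'⟩ := hp
  obtain ⟨u, hu0⟩ := (nb_iff hpos).1 hNB
  have hu : u ∈ p.1 := hbp hu0
  -- p is determined by its x-part
  have hq : ∀ a, ext (sl x u) a ∈ p.1 → a ∈ p.1 := by
    by_contra hcon
    push Not at hcon
    obtain ⟨a, ha1, ha2⟩ := hcon
    have h1 : p ≤ comap (sl x u) p := fun a ha => sl_mem hmix ha hu x
    have h2 : ¬ comap (sl x u) p ≤ p := fun h => ha2 (h ha1)
    have h3 := hcoat.2 _ h1 h2 (cl {gen x}) (subset_cl _ rfl)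
    have h4 : ext (sl x u) (gen x) ∈ p.1 := h3
    rw [ext_gen] at h4
    simp only [sl, if_true] at h4
    exact hxp h4
  have hgen : ∀ z, z ≠ x → gen z ∈ p.1 := by
    intro z hz
    apply hq
    rw [ext_gen]
    simp only [sl, if_neg hz]
    exact hu
  -- the transposition
  let σ : Equiv.Perm X := Equiv.swap x y
  have hσx : σ x = y := Equiv.swap_apply_left x y
  have hσy : σ y = x := Equiv.swap_apply_right x y
  have hσz : ∀ z, z ≠ x → z ≠ y → σ z = z := fun z h1 h2 => Equiv.swap_apply_of_ne_of_ne h1 h2
  have hfix : ∀ B : SubAlg S E X, dat B x = dat B y → actIso σ B = B := by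
    intro B hB
    apply actIso_eq hmix
    intro z
    by_cases h1 : z = x
    · rw [h1, hσx, hB]
    · by_cases h2 : z = y
      · rw [h2, hσy, hB]
      · rw [hσz z h1 h2]
  have hp' : In b b' (actIso σ p) := by
    refine ⟨coat_iso (actIso σ) hcoat, ?_, ?_⟩
    · rw [← hfix b hb]
      exact (actIso σ).le_iff_le.2 hbp
    · rw [← hfix b' hb']
      exact fun h => hbp' ((actIso σ).le_iff_le.1 h)
  have hsim : SimS p (actIso σ p) := by
    intro B hB hdis a ha
    by_contra hap
    -- `a ∈ B`, `a ∉ σ p`
    have hcontra : ∀ c, c ∈ B.1 → c ∈ p.1 → False := by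
      intro c hc1 hc2
      exact hdis (emp hpos) (mem_inf hc1 hc2)
    have hap' : ext (fun x => gen (σ x)) a ∉ p.1 := hap
    -- the image of `a`
    let τ : X → FreeAlg S E X := fun w => if w = y then gen x else u
    let ahat : FreeAlg S E X := ext τ a
    have hahat : ahat ∉ p.1 := by
      intro h
      apply hap'
      apply hq
      rw [ext_ext]
      have h1 : (fun w => ext (sl x u) (gen (σ w))) = τ := by
        funext w
        rw [ext_gen]
        by_cases h1 : w = y
        · subst h1
          rw [hσy]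
          simp [sl, τ]
        · by_cases h2 : w = x
          · subst h2
            rw [hσx]
            simp [sl, τ, h1]
            exact fun h => (hxy h.symm).elim
          · rw [hσz w h2 h1]
            simp [sl, τ, h1, h2]
      rw [h1]
      exact h
    let G : Set (FreeAlg S E X) := insert ahat p.1
    have h1 : p ≤ cl G := fun c hc => subset_cl G (Or.inr hc)
    have h2 : ¬ cl G ≤ p := fun h => hahat (h (subset_cl G (Or.inl rfl)))
    have h3 : a ∈ (cl G).1 := hcoat.2 _ h1 h2 (cl {a}) (subset_cl _ rfl)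
    obtain ⟨h, hh⟩ := h3
    obtain ⟨ta, hta⟩ := mk_surj a
    have hext : ∀ v : X → FreeAlg S E X, ext v a = evF v ta := by
      intro v
      subst hta
      rfl
    -- the new element
    let τ' : X → FreeAlg S E X := fun w => if w = y then gen y else u
    let f' : G → FreeAlg S E X := fun g => if g.1 = ahat then ext τ' a else g.1
    have hGp : ∀ g : G, g.1 ≠ ahat → g.1 ∈ p.1 := by
      intro g hg
      rcases g.2 with h | h
      · exact (hg h).elim
      · exact h
    have hτ' : ext τ' a ∈ p.1 := by
      rw [hext]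
      apply ev_mem
      intro w _
      by_cases hw : w = y
      · simp only [τ', if_pos hw]
        exact hgen y hxy.symm
      · simp only [τ', if_neg hw]
        exact hu
    have hnew_p : evF f' h ∈ p.1 := by
      apply ev_mem
      intro g _
      by_cases hg : g.1 = ahat
      · simp only [f', if_pos hg]
        exact hτ'
      · simp only [f', if_neg hg]
        exact hGp g hg
    apply hcontra (evF f' h) ?_ hnew_p
    apply mem_of_sl hmix ha
    intro z
    -- the composite term
    let H : Tm S (G ⊕ Bool) := ev Tm.op (fun g : G => if g.1 = ahat then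
      tmap (fun w => Sum.inr (decide (w = y))) ta else Tm.var (Sum.inl g)) h
    have hH : ∀ φ : G ⊕ Bool → FreeAlg S E X, evF φ H =
        evF (fun g : G => if g.1 = ahat then evF (fun w => φ (Sum.inr (decide (w = y)))) ta
          else φ (Sum.inl g)) h := by
      intro φ
      unfold evF H
      rw [ev_ev]
      congr 1
      funext g
      by_cases hg : g.1 = ahat
      · simp only [if_pos hg]
        exact ev_tmap _ _ _
      · simp only [if_neg hg]
        rfl
    let G1 : G ⊕ Bool → FreeAlg S E X := Sum.elim (fun g => ext (sl z a) g.1)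
      (fun b => cond b (sl z a x) (ext (sl z a) u))
    let G2 : G ⊕ Bool → FreeAlg S E X := Sum.elim (fun _ => a) (fun b => cond b (sl z a y) a)
    have hG1 : evF G1 H ∈ B.1 := by
      have h4 := sl_mem hmix ha ha z
      rw [hH]
      have h5 : ext (sl z a) a = ext (sl z a) (evF Subtype.val h) := by rw [hh]
      rw [h5, ext_ev] at h4
      convert h4 using 2
      funext g
      by_cases hg : g.1 = ahat
      · rw [if_pos hg, hg]
        show _ = ext (sl z a) (ext τ a)
        rw [ext_ext, hext]
        congr 1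
        funext w
        by_cases hw : w = y
        · simp [G1, τ, hw, ext_gen]
        · simp [G1, τ, hw]
      · simp only [if_neg hg]
        rfl
    have hG2 : evF G2 H ∈ B.1 := by
      rw [hH]
      apply ev_mem
      intro g _
      by_cases hg : g.1 = ahat
      · simp only [if_pos hg]
        by_cases hz : z = y
        · have h4 := sl_mem hmix ha ha z
          rw [hext] at h4
          convert h4 using 2
          funext w
          by_cases hw : w = y
          · simp [G2, hw, sl, hz]
          · simp [G2, hw, sl, hz]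
        · apply ev_mem
          intro w _
          have : y ≠ z := fun h => hz h.symm
          by_cases hw : w = y
          · simp [G2, hw, sl, this, ha]
          · simp [G2, hw, ha]
      · simp only [if_neg hg]
        exact ha
    have h4 := hmix X B _ H (fun s => s = Sum.inr true) G2 G1 hG2 hG1
    have h5 : ext (sl z a) (evF f' h) =
        evF (fun s => if s = Sum.inr true then G2 s else G1 s) H := by
      rw [hH, ext_ev]
      congr 1
      funext g
      by_cases hg : g.1 = ahat
      · simp only [f', if_pos hg]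
        rw [ext_ext, hext]
        congr 1
        funext w
        by_cases hw : w = y
        · simp [G2, τ', hw, ext_gen]
        · simp [G1, τ', hw]
      · simp [f', if_neg hg, G1]
    rw [h5]
    convert h4 using 2
    funext s
    by_cases hs : s = Sum.inr true <;> simp [hs]
  have hle := huniq p (actIso σ p) ⟨hcoat, hbp, hbp'⟩ hp' hsim
  have h1 : gen y ∈ (actIso σ p).1 := hle (hgen y hxy.symm)
  rw [mem_actIso, ext_gen, hσy] at h1
  exact hxp h1

/-- The sentence fails for ranks larger than the continuum. -/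
theorem not_Phi (hmix : Mixing S E) (hop : Countable S.Op) (hpos : ∀ f, 0 < S.ar f)
    (hX : 𝔠 < #X) : ¬ Phi (SubAlg S E X) := by
  rintro ⟨b0, b1, b2, b3, hb0, hb2, hu1, hu2, hhit⟩
  have hdat : ∃ x y, x ≠ y ∧ dat b0 x = dat b0 y ∧ dat b1 x = dat b1 y ∧ dat b2 x = dat b2 y ∧
      dat b3 x = dat b3 y := by
    by_contra hcon
    push Not at hcon
    have hinj : Function.Injective (fun x => (dat b0 x, dat b1 x, dat b2 x, dat b3 x)) := by
      intro x y hxy
      simp only [Prod.mk.injEq] at hxy
      by_contra hne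
      exact hcon x y hne hxy.1 hxy.2.1 hxy.2.2.1 hxy.2.2.2
    have h1 := mk_le_of_injective hinj
    rw [mk_prod, mk_prod, mk_prod] at h1
    simp only [lift_id] at h1
    have hD := card_data hop
    have h2 : #(Set (Tm S Bool)) * (#(Set (Tm S Bool)) * (#(Set (Tm S Bool)) *
        #(Set (Tm S Bool)))) ≤ 𝔠 := by
      calc _ ≤ 𝔠 * (𝔠 * (𝔠 * 𝔠)) := mul_le_mul' hD (mul_le_mul' hD (mul_le_mul' hD hD))
        _ = 𝔠 := by rw [continuum_mul_self, continuum_mul_self, continuum_mul_self]
    exact absurd (h1.trans h2) (not_le.2 hX)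
  obtain ⟨x, y, hxy, h0, h1, h2, h3⟩ := hdat
  obtain ⟨p, hp, h4⟩ := hhit (cl {gen x}) ((nb_iff hpos).2 ⟨gen x, subset_cl _ rfl⟩)
  have hxp : gen x ∉ p.1 := by
    intro h
    apply hp
    apply cl_le
    intro c hc
    rw [Set.mem_singleton_iff.1 hc]
    exact h
  rcases h4 with h4 | h4
  · exact main_step hmix hpos hxy h0 h1 hb0 hu1 h4 hxp
  · exact main_step hmix hpos hxy h2 h3 hb2 hu2 h4 hxp

end Pool.Agent.Helper62.SubBig
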