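import Mathlib
import Pool.Agent.Helper62.SubSyn

namespace Pool.Agent.Helper62.SubCard

open Cardinal SubDefs SubSyn

/-! Second-order logic: the cardinality of the domain is a successor -/

def sneg (a : SFml) : SFml := SFml.imp a SFml.bot

/-- the binary relation number `0` is injective -/
def injR : SFml :=
  SFml.all 0 (SFml.all 1 (SFml.all 2 (SFml.imp (SFml.rel 2 0 ![0, 2])
    (SFml.imp (SFml.rel 2 0 ![1, 2]) (SFml.eq 0 1)))))

/-- the set number `i` injects into the set number `j` -/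
def injF (i j : ℕ) : SFml :=
  sneg (SFml.allRel 2 0 (SFml.imp injR (sneg (SFml.all 0 (SFml.imp (SFml.rel 1 i ![0])
    (sneg (SFml.all 1 (SFml.imp (SFml.rel 1 j ![1]) (sneg (SFml.rel 2 0 ![0, 1]))))))))))

/-- the domain does not inject into the set number `j` -/
def smallF (j : ℕ) : SFml :=
  SFml.allRel 2 0 (SFml.imp injR (sneg (SFml.all 0
    (sneg (SFml.all 1 (SFml.imp (SFml.rel 1 j ![1]) (sneg (SFml.rel 2 0 ![0, 1]))))))))

/-- there is a set of size less than the domain into which all sets of size less than the domain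
inject -/
def Succ2 : SFml :=
  sneg (SFml.allRel 1 0 (SFml.imp (smallF 0)
    (sneg (SFml.allRel 1 1 (SFml.imp (smallF 1) (injF 1 0))))))

theorem e2 {X : Type} (w : ℕ → X) (i j : ℕ) :
    (fun k : Fin 2 => w (![i, j] k)) = ![w i, w j] := by
  funext k
  fin_cases k <;> rfl

theorem e1 {X : Type} (w : ℕ → X) (i : ℕ) : (fun k : Fin 1 => w (![i] k)) = ![w i] := by
  funext k
  fin_cases k; rfl

theorem sat_injR {X : Type} (r : (p : ℕ × ℕ) → (Fin p.1 → X) → Prop) (v : ℕ → X) :
    SSat X r v injR ↔ ∀ x y z, r (2, 0) ![x, z] → r (2, 0) ![y, z] → x = y := by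
  simp only [injR, SSat, e2]
  simp only [Function.update_apply]
  norm_num

theorem sat_injF {X : Type} (r : (p : ℕ × ℕ) → (Fin p.1 → X) → Prop) (v : ℕ → X) (i j : ℕ) :
    SSat X r v (injF i j) ↔ #{x | r (1, i) ![x]} ≤ #{x | r (1, j) ![x]} := by
  have h0 : SSat X r v (injF i j) ↔ ∃ R : (Fin 2 → X) → Prop,
      (∀ x y z, R ![x, z] → R ![y, z] → x = y) ∧
      ∀ x, r (1, i) ![x] → ∃ y, r (1, j) ![y] ∧ R ![x, y] := by
    have h1 : ∀ R : (Fin 2 → X) → Prop, SSat X (Function.update r (2, 0) R) v injR ↔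
      (∀ x y z, R ![x, z] → R ![y, z] → x = y) := by
      intro R
      rw [sat_injR]
      simp
    have h2 : SSat X r v (injF i j) ↔ ¬ ∀ R : (Fin 2 → X) → Prop,
      SSat X (Function.update r (2, 0) R) v injR → ¬
      SSat X (Function.update r (2, 0) R) v (SFml.all 0 (SFml.imp (SFml.rel 1 i ![0])
    (sneg (SFml.all 1 (SFml.imp (SFml.rel 1 j ![1]) (sneg (SFml.rel 2 0 ![0, 1]))))))) := Iff.rfl
    rw [h2]
    push Not
    apply exists_congr
    intro R
    rw [h1]
    apply and_congr Iff.rfl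
    simp only [sneg, SSat, e2, e1]
    simp only [Function.update_apply]
    norm_num
  rw [h0]
  constructor
  · rintro ⟨R, hR, h⟩
    choose f hf using h
    refine Cardinal.mk_le_of_injective (f := fun a : {x | r (1, i) ![x]} =>
      (⟨f a.1 a.2, (hf a.1 a.2).1⟩ : {x | r (1, j) ![x]})) ?_
    rintro ⟨a, ha⟩ ⟨b, hb⟩ hab
    have h3 : f a ha = f b hb := congrArg Subtype.val hab
    apply Subtype.ext
    exact hR _ _ _ (hf a ha).2 (by rw [h3]; exact (hf b hb).2)
  · rintro ⟨f⟩
    refine ⟨fun x => ∃ h : r (1, i) ![x 0], (f ⟨x 0, h⟩).1 = x 1, ?_, ?_⟩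
    · rintro x y z ⟨h1, h2⟩ ⟨h3, h4⟩
      have h5 : f ⟨x, h1⟩ = f ⟨y, h3⟩ := by
        apply Subtype.ext
        exact h2.trans h4.symm
      have h6 := f.injective h5
      exact congrArg Subtype.val h6
    · intro x hx
      exact ⟨(f ⟨x, hx⟩).1, (f ⟨x, hx⟩).2, hx, rfl⟩

theorem sat_smallF {X : Type} (r : (p : ℕ × ℕ) → (Fin p.1 → X) → Prop) (v : ℕ → X) (j : ℕ) :
    SSat X r v (smallF j) ↔ #{x | r (1, j) ![x]} < #X := by
  have h0 : SSat X r v (smallF j) ↔ ¬ ∃ R : (Fin 2 → X) → Prop,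
      (∀ x y z, R ![x, z] → R ![y, z] → x = y) ∧
      ∀ x, ∃ y, r (1, j) ![y] ∧ R ![x, y] := by
    have h1 : ∀ R : (Fin 2 → X) → Prop, SSat X (Function.update r (2, 0) R) v injR ↔
      (∀ x y z, R ![x, z] → R ![y, z] → x = y) := by
      intro R
      rw [sat_injR]
      simp
    have h2 : SSat X r v (smallF j) ↔ ∀ R : (Fin 2 → X) → Prop,
      SSat X (Function.update r (2, 0) R) v injR → ¬
      SSat X (Function.update r (2, 0) R) v (SFml.all 0
    (sneg (SFml.all 1 (SFml.imp (SFml.rel 1 j ![1]) (sneg (SFml.rel 2 0 ![0, 1])))))) := Iff.rfl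
    rw [h2]
    push Not
    apply forall_congr'
    intro R
    rw [h1]
    apply imp_congr Iff.rfl
    simp only [sneg, SSat, e2, e1]
    simp only [Function.update_apply]
    norm_num
  rw [h0, ← not_le]
  apply not_congr
  constructor
  · rintro ⟨R, hR, h⟩
    choose f hf using h
    refine Cardinal.mk_le_of_injective (f := fun a : X =>
      (⟨f a, (hf a).1⟩ : {x | r (1, j) ![x]})) ?_
    rintro a b hab
    have h3 : f a = f b := congrArg Subtype.val hab
    exact hR _ _ _ (hf a).2 (by rw [h3]; exact (hf b).2)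
  · rintro ⟨f⟩
    refine ⟨fun x => (f (x 0)).1 = x 1, ?_, ?_⟩
    · rintro x y z h2 h4
      have h5 : f x = f y := by
        apply Subtype.ext
        exact h2.trans h4.symm
      exact f.injective h5
    · intro x
      exact ⟨(f x).1, (f x).2, rfl⟩

theorem sat_Succ2 {X : Type} (r : (p : ℕ × ℕ) → (Fin p.1 → X) → Prop) (v : ℕ → X) :
    SSat X r v Succ2 ↔ ∃ A : Set X, #A < #X ∧ ∀ B : Set X, #B < #X → #B ≤ #A := by
  have h2 : SSat X r v Succ2 ↔ ¬ ∀ R : (Fin 1 → X) → Prop,
      SSat X (Function.update r (1, 0) R) v (smallF 0) → ¬ ∀ R' : (Fin 1 → X) → Prop,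
      SSat X (Function.update (Function.update r (1, 0) R) (1, 1) R') v (smallF 1) →
      SSat X (Function.update (Function.update r (1, 0) R) (1, 1) R') v (injF 1 0) := Iff.rfl
  rw [h2]
  push Not
  simp only [sat_smallF, sat_injF]
  simp only [Function.update_self]
  have h3 : ∀ R R' : (Fin 1 → X) → Prop,
      Function.update (Function.update r (1, 0) R) (1, 1) R' (1, 0) = R := by
    intro R R'
    rw [Function.update_of_ne (by simp), Function.update_self]
  simp only [h3]
  have e3 : ∀ x : Fin 1 → X, ![x 0] = x := by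
    intro x
    funext i
    fin_cases i
    rfl
  constructor
  · rintro ⟨R, hR, h⟩
    refine ⟨{x | R ![x]}, hR, ?_⟩
    intro B hB
    exact h (fun x => x 0 ∈ B) hB
  · rintro ⟨A, hA, h⟩
    refine ⟨fun x => x 0 ∈ A, hA, ?_⟩
    intro R' hR'
    exact h _ hR'

/-! The logic of permutations -/

def pneg (a : PFml) : PFml := PFml.imp a PFml.bot

/-- the support of the permutation number `k` has size less than the domain -/
def psmall (k : ℕ) : PFml :=
  PFml.allPerm 0 (pneg (PFml.all 0 (PFml.imp (PFml.eq (PTm.app k (PTm.var 0)) (PTm.var 0))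
    (pneg (PFml.eq (PTm.app k (PTm.app 0 (PTm.var 0))) (PTm.app 0 (PTm.var 0)))))))

/-- some permutation maps the support of the permutation number `i` into the support of the
permutation number `j` -/
def pinj (i j : ℕ) : PFml :=
  pneg (PFml.allPerm 0 (pneg (PFml.all 0 (PFml.imp
    (pneg (PFml.eq (PTm.app i (PTm.var 0)) (PTm.var 0)))
    (pneg (PFml.eq (PTm.app j (PTm.app 0 (PTm.var 0))) (PTm.app 0 (PTm.var 0))))))))

def SuccP : PFml :=
  pneg (PFml.allPerm 1 (PFml.imp (psmall 1)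
    (pneg (PFml.allPerm 2 (PFml.imp (psmall 2) (pinj 2 1))))))

/-- the support -/
def sup {X : Type} (g : Equiv.Perm X) : Set X := {x | g x ≠ x}

/-- The halves of an infinite set. -/
theorem halves {X : Type} (B : Set X) (hB : ℵ₀ ≤ #B) : ∃ C D : Set X, C ⊆ B ∧ D ⊆ B ∧
    Disjoint C D ∧ #C = #B ∧ #D = #B := by
  have h1 : #(B ⊕ B) = #B := by
    rw [mk_sum, lift_id, add_eq_self hB]
  obtain ⟨e⟩ := Cardinal.eq.1 h1
  refine ⟨Set.range (fun b => (e (Sum.inl b)).1), Set.range (fun b => (e (Sum.inr b)).1), ?_, ?_,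
    ?_, ?_, ?_⟩
  · rintro _ ⟨b, rfl⟩
    exact (e (Sum.inl b)).2
  · rintro _ ⟨b, rfl⟩
    exact (e (Sum.inr b)).2
  · rw [Set.disjoint_left]
    rintro _ ⟨b, rfl⟩ ⟨c, hc⟩
    have h2 := e.injective (Subtype.ext hc)
    exact absurd h2 (by simp)
  · apply mk_range_eq
    intro b c hbc
    exact Sum.inl_injective (e.injective (Subtype.ext hbc))
  · apply mk_range_eq
    intro b c hbc
    exact Sum.inr_injective (e.injective (Subtype.ext hbc))

/-- Extension of injections to permutations. -/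
theorem exists_perm {X : Type} (A B : Set X) (h : #A ≤ #B) (hA : #(Aᶜ : Set X) = #X)
    (hB : #(Bᶜ : Set X) = #X) : ∃ f : Equiv.Perm X, ∀ x ∈ A, f x ∈ B := by
  classical
  obtain ⟨f⟩ := h
  let C : Set X := Set.range (fun a => (f a).1)
  have hC : C ⊆ B := by
    rintro _ ⟨a, rfl⟩
    exact (f a).2
  have hC' : #(Cᶜ : Set X) = #X := by
    apply le_antisymm (mk_set_le _)
    rw [← hB]
    exact mk_le_mk_of_subset (Set.compl_subset_compl.2 hC)
  obtain ⟨e⟩ := Cardinal.eq.1 (hA.trans hC'.symm)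
  let e1 : A ≃ C := Equiv.ofInjective (fun a => (f a).1) (by
    intro a b hab
    exact f.injective (Subtype.ext hab))
  let g : Equiv.Perm X := ((Equiv.Set.sumCompl A).symm.trans (Equiv.sumCongr e1 e)).trans
    (Equiv.Set.sumCompl C)
  refine ⟨g, ?_⟩
  intro x hx
  have h1 : g x = (f ⟨x, hx⟩).1 := by
    simp only [g, Equiv.trans_apply]
    rw [Equiv.Set.sumCompl_symm_apply_of_mem hx]
    rfl
  rw [h1]
  exact (f ⟨x, hx⟩).2

/-- A permutation with a prescribed infinite support. -/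
theorem exists_sup {X : Type} (A : Set X) (hA : ℵ₀ ≤ #A) : ∃ g : Equiv.Perm X, sup g = A := by
  classical
  have h1 : #(A × Bool) = #A := by
    rw [mk_prod, lift_id, lift_id]
    exact mul_eq_left hA ((mk_le_aleph0).trans hA) (by simp)
  obtain ⟨e⟩ := Cardinal.eq.1 h1
  let s : Equiv.Perm A := (e.symm.trans (Equiv.prodCongr (Equiv.refl A) Equiv.boolNot)).trans e
  have hs : ∀ a, s a ≠ a := by
    intro a ha
    have h2 : e.symm (s a) = e.symm a := by rw [ha]
    simp only [s, Equiv.trans_apply, Equiv.symm_apply_apply] at h2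
    have h3 := congrArg Prod.snd h2
    simp at h3
  refine ⟨Equiv.Perm.ofSubtype s, ?_⟩
  ext x
  constructor
  · intro hx
    by_contra hxA
    exact hx (Equiv.Perm.ofSubtype_apply_of_not_mem s hxA)
  · intro hx h
    rw [Equiv.Perm.ofSubtype_apply_of_mem s hx] at h
    exact hs ⟨x, hx⟩ (Subtype.ext h)

theorem compl_card {X : Type} (hX : ℵ₀ ≤ #X) (A : Set X) (hA : #A < #X) :
    #(Aᶜ : Set X) = #X := by
  have : Infinite X := Cardinal.infinite_iff.2 hX
  exact mk_compl_of_infinite A hA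

theorem sat_psmall {X : Type} (hX : ℵ₀ ≤ #X) (g : ℕ → Equiv.Perm X) (v : ℕ → X) (k : ℕ)
    (hk : k ≠ 0) : PSat X g v (psmall k) ↔ #(sup (g k)) < #X := by
  have h0 : PSat X g v (psmall k) ↔ ¬ ∃ f : Equiv.Perm X, ∀ x ∈ (sup (g k))ᶜ, f x ∈ sup (g k) := by
    simp only [psmall, pneg, PSat, PTm.val, sup]
    simp only [Function.update_self, Function.update_of_ne hk]
    simp
  rw [h0]
  constructor
  · intro h
    by_contra hcon
    apply h
    have h1 : #(sup (g k)) = #X := le_antisymm (mk_set_le _) (not_lt.1 hcon)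
    obtain ⟨C, D, hC, hD, hCD, h2, h3⟩ := halves (sup (g k)) (by rw [h1]; exact hX)
    obtain ⟨f, hf⟩ := exists_perm (sup (g k))ᶜ C (by rw [h2, h1]; exact mk_set_le _)
      (by rw [compl_compl]; exact h1) (by
        apply le_antisymm (mk_set_le _)
        rw [← h1, ← h3]
        apply mk_le_mk_of_subset
        intro x hx hx'
        exact Set.disjoint_left.1 hCD hx' hx)
    exact ⟨f, fun x hx => hC (hf x hx)⟩
  · rintro h ⟨f, hf⟩
    have h1 : #(((sup (g k))ᶜ : Set X)) ≤ #(sup (g k)) := by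
      refine Cardinal.mk_le_of_injective (f := fun a : ((sup (g k))ᶜ : Set X) =>
        (⟨f a.1, hf a.1 a.2⟩ : (sup (g k)))) ?_
      intro a b hab
      exact Subtype.ext (f.injective (congrArg Subtype.val hab))
    rw [compl_card hX _ h] at h1
    exact absurd h (not_lt.2 h1)

theorem sat_pinj {X : Type} (hX : ℵ₀ ≤ #X) (g : ℕ → Equiv.Perm X) (v : ℕ → X) (i j : ℕ)
    (hi : i ≠ 0) (hj : j ≠ 0) (h1 : #(sup (g i)) < #X) (h2 : #(sup (g j)) < #X) :
    PSat X g v (pinj i j) ↔ #(sup (g i)) ≤ #(sup (g j)) := by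
  have h0 : PSat X g v (pinj i j) ↔ ∃ f : Equiv.Perm X, ∀ x ∈ sup (g i), f x ∈ sup (g j) := by
    simp only [pinj, pneg, PSat, PTm.val, sup]
    simp only [Function.update_self, Function.update_of_ne hi, Function.update_of_ne hj]
    simp
  rw [h0]
  constructor
  · rintro ⟨f, hf⟩
    refine Cardinal.mk_le_of_injective (f := fun a : sup (g i) =>
        (⟨f a.1, hf a.1 a.2⟩ : (sup (g j)))) ?_
    intro a b hab
    exact Subtype.ext (f.injective (congrArg Subtype.val hab))
  · intro h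
    exact exists_perm _ _ h (compl_card hX _ h1) (compl_card hX _ h2)

theorem sat_SuccP {X : Type} (hX : ℵ₀ ≤ #X) (g : ℕ → Equiv.Perm X) (v : ℕ → X) :
    PSat X g v SuccP ↔ ∃ g : Equiv.Perm X, #(sup g) < #X ∧ ∀ h : Equiv.Perm X,
      #(sup h) < #X → #(sup h) ≤ #(sup g) := by
  have h2 : PSat X g v SuccP ↔ ¬ ∀ f : Equiv.Perm X,
      PSat X (Function.update g 1 f) v (psmall 1) → ¬ ∀ f' : Equiv.Perm X,
      PSat X (Function.update (Function.update g 1 f) 2 f') v (psmall 2) →
      PSat X (Function.update (Function.update g 1 f) 2 f') v (pinj 2 1) := Iff.rfl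
  rw [h2]
  push Not
  apply exists_congr
  intro f
  rw [sat_psmall hX _ _ 1 (by norm_num), Function.update_self]
  apply and_congr_right
  intro hf
  apply forall_congr'
  intro f'
  rw [sat_psmall hX _ _ 2 (by norm_num), Function.update_self]
  apply imp_congr_right
  intro hf'
  have h3 : Function.update (Function.update g 1 f) 2 f' 1 = f := by
    rw [Function.update_of_ne (by norm_num), Function.update_self]
  rw [sat_pinj hX _ _ 2 1 (by norm_num) (by norm_num) (by rw [Function.update_self]; exact hf')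
    (by rw [h3]; exact hf), Function.update_self, h3]

/-! Successors and limits -/

theorem succ2_succ {X : Type} {ν : Cardinal.{0}} (hX : #X = Order.succ ν)
    (r : (p : ℕ × ℕ) → (Fin p.1 → X) → Prop) (v : ℕ → X) : SSat X r v Succ2 := by
  rw [sat_Succ2]
  obtain ⟨A, hA⟩ := le_mk_iff_exists_set.1 (show ν ≤ #X by rw [hX]; exact Order.le_succ ν)
  refine ⟨A, ?_, ?_⟩
  · rw [hA, hX]; exact Order.lt_succ ν
  · intro B hB
    rw [hA]
    rw [hX] at hB
    exact Order.le_of_lt_succ hB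

theorem succP_succ {X : Type} {ν : Cardinal.{0}} (hν : ℵ₀ ≤ ν) (hX : #X = Order.succ ν)
    (g : ℕ → Equiv.Perm X) (v : ℕ → X) : PSat X g v SuccP := by
  have hX' : ℵ₀ ≤ #X := by rw [hX]; exact hν.trans (Order.le_succ ν)
  rw [sat_SuccP hX']
  obtain ⟨A, hA⟩ := le_mk_iff_exists_set.1 (show ν ≤ #X by rw [hX]; exact Order.le_succ ν)
  obtain ⟨g, rfl⟩ := exists_sup A (by rw [hA]; exact hν)
  refine ⟨g, ?_, ?_⟩
  · rw [hA, hX]; exact Order.lt_succ ν
  · intro B hB
    rw [hA]
    rw [hX] at hB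
    exact Order.le_of_lt_succ hB

theorem not_succ2_limit {X : Type} (h : ∀ ν < #X, Order.succ ν < #X)
    (r : (p : ℕ × ℕ) → (Fin p.1 → X) → Prop) (v : ℕ → X) : ¬ SSat X r v Succ2 := by
  rw [sat_Succ2]
  rintro ⟨A, hA, hA'⟩
  have h1 := h _ hA
  obtain ⟨B, hB⟩ := le_mk_iff_exists_set.1 h1.le
  have h2 := hA' B (by rw [hB]; exact h1)
  rw [hB] at h2
  exact absurd h2 (not_le.2 (Order.lt_succ _))

theorem not_succP_limit {X : Type} (hX : ℵ₀ < #X) (h : ∀ ν < #X, Order.succ ν < #X)
    (g : ℕ → Equiv.Perm X) (v : ℕ → X) : ¬ PSat X g v SuccP := by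
  rw [sat_SuccP hX.le]
  rintro ⟨g, hA, hA'⟩
  have h1 := h _ (max_lt hA hX)
  obtain ⟨B, hB⟩ := le_mk_iff_exists_set.1 h1.le
  obtain ⟨g', rfl⟩ := exists_sup B (by
    rw [hB]; exact (le_max_right _ _).trans (Order.le_succ _))
  have h2 := hA' g' (by rw [hB]; exact h1)
  rw [hB] at h2
  exact absurd h2 (not_le.2 ((le_max_left _ _).trans_lt (Order.lt_succ _)))

end Pool.Agent.Helper62.SubCard
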