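import Mathlib
import Pool.Agent.Helper62.SubDefs
import Pool.Agent.Helper62.SubGame
import Pool.Agent.Helper62.SubBig
import Pool.Agent.Helper62.SubCard
import Pool.Agent.Helper62.CntSent

namespace Pool.Agent.Helper62.SubMain

open Cardinal SubDefs SubSyn SubCard SubGame SubBig CntVar CntSent

theorem limit_beth : ∀ ν < (ℶ_ Ordinal.omega0 : Cardinal.{0}), Order.succ ν < ℶ_ Ordinal.omega0 := by
  intro ν hν
  have h1 : (ℶ_ Ordinal.omega0 : Cardinal.{0}).IsStrongLimit :=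
    isStrongLimit_beth.2 Ordinal.isSuccLimit_omega0.isSuccPrelimit
  exact (Order.succ_le_of_lt (cantor ν)).trans_lt (h1.isStrongPrelimit hν)

theorem c_lt_beth : 𝔠 < ℶ_ (Ordinal.omega0 : Ordinal.{0}) := by
  rw [← beth_one, beth_lt_beth]
  exact Ordinal.one_lt_omega0

theorem main : Finite sg.Op ∧ E3.Finite ∧
    (∃ κ μ : Cardinal.{0}, ℵ₀ ≤ κ ∧ ℵ₀ ≤ μ ∧ ¬ subRel sg E3 κ μ) ∧
    (∃ κ μ : Cardinal.{0}, ℵ₀ ≤ κ ∧ ℵ₀ ≤ μ ∧ subRel sg E3 κ μ ∧ ¬ secondRel κ μ ∧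
      ¬ permRel κ μ) := by
  have hs : 𝔠 < Order.succ (𝔠 : Cardinal.{0}) := Order.lt_succ _
  have hb : 𝔠 < (ℶ_ Ordinal.omega0 : Cardinal.{0}) := c_lt_beth
  have hs0 : ℵ₀ ≤ Order.succ (𝔠 : Cardinal.{0}) := aleph0_le_continuum.trans hs.le
  have hb0 : ℵ₀ < (ℶ_ Ordinal.omega0 : Cardinal.{0}) := aleph0_lt_continuum.trans hb
  have hop : Countable sg.Op := by
    have := finite_op
    infer_instance
  have hne : Nonempty (ℶ_ Ordinal.omega0 : Cardinal.{0}).out := by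
    rw [← mk_ne_zero_iff, mk_out]
    exact (aleph0_pos.trans hb0).ne'
  refine ⟨finite_op, E3_finite, ⟨ℵ₀, Order.succ 𝔠, le_refl _, hs0, ?_⟩,
    ⟨Order.succ 𝔠, ℶ_ Ordinal.omega0, hs0, hb0.le, ?_, ?_, ?_⟩⟩
  · intro h
    obtain ⟨e⟩ : Nonempty (ℕ ≃ (ℵ₀ : Cardinal.{0}).out) := by
      rw [← Cardinal.eq, mk_out, mk_nat]
    have hP := Phi_countable e
    rcases Phi_of_LEquiv h hP with h1 | h1
    · exact not_Phi mixing hop ar_pos (by rw [mk_out]; exact hs) h1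
    · exact h1.false ⊤
  · exact lequiv mixing hop (by rw [mk_out]; exact hs) (by rw [mk_out]; exact hb)
  · intro h
    have h1 := (h _ (formula_of_SFml Succ2)).1 (fun r v => succ2_succ (mk_out _) r v)
    refine not_succ2_limit ?_ (fun _ _ => True) (fun _ => hne.some) (h1 _ _)
    rw [mk_out]
    exact limit_beth
  · intro h
    have h1 := (h _ (formula_of_PFml SuccP)).1
      (fun g v => succP_succ aleph0_le_continuum (mk_out _) g v)
    refine not_succP_limit ?_ ?_ (fun _ => 1) (fun _ => hne.some) (h1 _ _)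
    · rw [mk_out]; exact hb0
    · rw [mk_out]; exact limit_beth

end Pool.Agent.Helper62.SubMain
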